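import Pool.Agent.Lib.MP_140c34_gt.Arb.Jet

/-! The state sum of the closure of an algebraic tangle. -/

namespace Pool.Agent.Lib.MP_140c34_gt.Arb

open Gen

theorem bra_new6 {L : List ℕ} {x : ℕ} (h : x ∈ L) : x ≠ L.sum + 1 :=
  (Nat.lt_succ_of_le (List.single_le_sum (fun _ _ => Nat.zero_le _) x h)).ne

theorem bra_mem_cup6 {L : List ℕ} {i x : ℕ} (h : x ∈ cupL i L) : x = L.sum + 1 ∨ x ∈ L := by
  simp only [cupL, List.mem_append, List.mem_cons] at h
  rcases h with h | h | h | h
  exacts [Or.inr (List.mem_of_mem_take h), Or.inl h, Or.inl h, Or.inr (List.mem_of_mem_drop h)]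

theorem bra_mem_td6 {L : List ℕ} {i k x : ℕ} (h : x ∈ L.take i ++ L.drop k) : x ∈ L :=
  (List.mem_append.1 h).elim List.mem_of_mem_take List.mem_of_mem_drop

theorem bra_mem_cap6 {L : List ℕ} {i x : ℕ} (h : x ∈ capL i L) : x ∈ L := by
  obtain ⟨z, hz, rfl⟩ := List.mem_map.1 h
  split_ifs
  · rcases e : L[i]? with _ | a
    · exact bra_mem_td6 hz
    · exact List.mem_of_getElem? e
  · exact bra_mem_td6 hz

theorem bra_opt6 {L : List ℕ} {f : ℕ → ℕ} (hf : ∀ x ∈ L, ∀ y ∈ L, f x = f y → x = y)
    {a b : Option ℕ} (ha : ∀ x, a = some x → x ∈ L) (hb : ∀ x, b = some x → x ∈ L) :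
    a.map f = b.map f ↔ a = b := by
  refine ⟨fun h => ?_, fun h => by rw [h]⟩
  rcases a with _ | a <;> rcases b with _ | b <;> simp at h ⊢
  exact hf a (ha a rfl) b (hb b rfl) h

theorem bra_capW6 {L : List ℕ} {f : ℕ → ℕ} (hf : ∀ x ∈ L, ∀ y ∈ L, f x = f y → x = y) (i : ℕ) :
    capW i (L.map f) = capW i L := by
  simp only [capW, List.getElem?_map,
    bra_opt6 hf (fun _ => List.mem_of_getElem?) (fun _ => List.mem_of_getElem?)]

theorem bra_capL6 {L : List ℕ} {f : ℕ → ℕ} (hf : ∀ x ∈ L, ∀ y ∈ L, f x = f y → x = y) (i : ℕ) :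
    capL i (L.map f) = (capL i L).map f := by
  simp only [capL, ← List.map_take, ← List.map_drop, ← List.map_append, List.map_map,
    List.getElem?_map]
  refine List.map_congr_left fun z hz => ?_
  have e : L[i + 1]?.map f = some (f z) ↔ L[i + 1]? = some z :=
    bra_opt6 hf (b := some z) (fun _ => List.mem_of_getElem?) fun x hx => by
      obtain rfl := Option.some.inj hx
      exact bra_mem_td6 hz
  simp only [Function.comp, e]
  split_ifs
  · rcases L[i]? with _ | a <;> rfl
  · rfl

theorem bra_cupL6 (L : List ℕ) (f : ℕ → ℕ) (i : ℕ) : cupL i (L.map f) =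
    (cupL i L).map (Function.update f (L.sum + 1) ((L.map f).sum + 1)) := by
  have e : ∀ M : List ℕ, (∀ x ∈ M, x ∈ L) →
      M.map (Function.update f (L.sum + 1) ((L.map f).sum + 1)) = M.map f := fun M hM =>
    List.map_congr_left fun z hz => Function.update_of_ne (bra_new6 (hM z hz)) _ _
  simp only [cupL, List.map_append, List.map_cons, Function.update_self,
    e _ fun _ => List.mem_of_mem_take, e _ fun _ => List.mem_of_mem_drop, List.map_take,
    List.map_drop]

theorem bra_inj6 {L : List ℕ} {f : ℕ → ℕ} (hf : ∀ x ∈ L, ∀ y ∈ L, f x = f y → x = y) (i : ℕ) :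
    ∀ x ∈ cupL i L, ∀ y ∈ cupL i L, Function.update f (L.sum + 1) ((L.map f).sum + 1) x =
      Function.update f (L.sum + 1) ((L.map f).sum + 1) y → x = y := by
  intro x hx y hy h
  rcases bra_mem_cup6 hx with rfl | hx <;> rcases bra_mem_cup6 hy with rfl | hy
  · rfl
  · rw [Function.update_self, Function.update_of_ne (bra_new6 hy)] at h
    exact absurd h.symm (bra_new6 (List.mem_map_of_mem hy))
  · rw [Function.update_self, Function.update_of_ne (bra_new6 hx)] at h
    exact absurd h (bra_new6 (List.mem_map_of_mem hx))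
  · rw [Function.update_of_ne (bra_new6 hx), Function.update_of_ne (bra_new6 hy)] at h
    exact hf x hx y hy h

/-- the state sum depends only on which labels are equal -/
theorem br_map6 (w : List Gen) : ∀ (L : List ℕ) (f : ℕ → ℕ),
    (∀ x ∈ L, ∀ y ∈ L, f x = f y → x = y) → br w (L.map f) = br w L := by
  induction w with
  | nil => intro _ _ _; rfl
  | cons g w ih =>
    intro L f hf
    have hc : ∀ i, ∀ x ∈ capL i L, ∀ y ∈ capL i L, f x = f y → x = y :=
      fun i x hx y hy => hf x (bra_mem_cap6 hx) y (bra_mem_cap6 hy)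
    rcases g with i | i | ⟨s, i⟩
    · rw [br, br, bra_cupL6, ih _ _ (bra_inj6 hf i)]
    · rw [br, br, bra_capW6 hf, bra_capL6 hf, ih _ _ (hc i)]
    · rw [br, br, bra_capW6 hf, bra_capL6 hf, bra_cupL6, ih _ _ (bra_inj6 (hc i) i), ih _ _ hf]

/-- a label may be replaced by an unused one -/
theorem br_ren6 (w : List Gen) {L : List ℕ} (y : ℕ) {n : ℕ} (hn : n ∉ L) :
    br w (L.map fun z => if y = z then n else z) = br w L := by
  refine br_map6 w L _ fun a ha b hb h => ?_
  by_cases e1 : y = a <;> by_cases e2 : y = b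
  · rw [← e1, ← e2]
  · rw [if_pos e1, if_neg e2] at h
    exact absurd (h ▸ hb) hn
  · rw [if_neg e1, if_pos e2] at h
    exact absurd (h ▸ ha) hn
  · rwa [if_neg e1, if_neg e2] at h

theorem bra_id6 {M : List ℕ} {m : ℕ} (a : ℕ) (h : m ∉ M) :
    (M.map fun z => if m = z then a else z) = M := by
  refine (List.map_congr_left fun z hz => ?_).trans (List.map_id M)
  exact if_neg fun e : m = z => h (e ▸ hz)

theorem bra_cup6 (P S : List ℕ) {j : ℕ} (hj : j = P.length) (w : List Gen) :
    br (cup j :: w) (P ++ S) = br w (P ++ ((P ++ S).sum + 1) :: ((P ++ S).sum + 1) :: S) := by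
  subst hj
  rw [br, cupL, List.take_left, List.drop_left]

theorem bra_cap6 (P S : List ℕ) (x y : ℕ) {j : ℕ} (hj : j = P.length) (w : List Gen) :
    br (cap j :: w) (P ++ x :: y :: S) = (if x = y then loopVal else 1) *
      br w ((P ++ S).map fun z => if y = z then x else z) := by
  subst hj
  have e : (P ++ x :: y :: S).drop (P.length + 2) = S := by
    rw [List.drop_length_add_append]
    rfl
  have e1 : (P ++ x :: y :: S)[P.length]? = some x := by simp
  have e2 : (P ++ x :: y :: S)[P.length + 1]? = some y := by simp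
  simp only [br, capW, capL, e, e1, e2, List.take_left, Option.some.injEq, Option.getD_some]

theorem bra_loop6 (P S : List ℕ) (x : ℕ) {j : ℕ} (hj : j = P.length) (w : List Gen) :
    br (cap j :: w) (P ++ x :: x :: S) = loopVal * br w (P ++ S) := by
  rw [bra_cap6 P S x x hj, if_pos rfl]
  congr 2
  refine (List.map_congr_left fun z _ => ?_).trans (List.map_id _)
  split_ifs with h
  exacts [h, rfl]

theorem bra_zig6 (P S : List ℕ) (a : ℕ) {j : ℕ} (hj : j = P.length) (w : List Gen) :
    br (cup (j + 1) :: cap j :: w) (P ++ a :: S) = br w (P ++ a :: S) := by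
  have e := bra_cup6 (P ++ [a]) S (j := j + 1) (by simp [hj]) (cap j :: w)
  simp only [List.append_assoc, List.singleton_append] at e
  have h : ∀ x ∈ P ++ a :: S, x ≠ (P ++ a :: S).sum + 1 := fun _ => bra_new6
  generalize (P ++ a :: S).sum + 1 = m at e h
  rw [e, bra_cap6 P _ a m hj, if_neg (h a (by simp)), one_mul, List.map_append, List.map_cons,
    if_pos rfl, bra_id6 a fun k => h m (by simp [k]) rfl, bra_id6 a fun k => h m (by simp [k]) rfl]

theorem bra_up6 (w : List Gen) (a b : ℕ) :
    (w.map (Gen.up a)).map (Gen.up b) = w.map (Gen.up (b + a)) := by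
  rw [List.map_map]
  refine List.map_congr_left fun g _ => ?_
  rcases g with i | i | ⟨s, i⟩ <;> simp only [Function.comp, Gen.up] <;> congr 1 <;> omega

/-- a new arc in place of the tangle `0` -/
theorem bra_arc6 (P S : List ℕ) (x y : ℕ) {n j : ℕ} (hj : j = P.length)
    (hn : n ∉ P ++ x :: y :: S) (w : List Gen) :
    br (cap (j + 2) :: cup (j + 2) :: cap (j + 1) :: w) (P ++ n :: n :: x :: y :: S) =
      br (cap j :: cup j :: w) (P ++ x :: y :: S) := by
  have e := bra_cap6 (P ++ [n, n]) S x y (j := j + 2) (by simp [hj])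
    (cup (j + 2) :: cap (j + 1) :: w)
  have ny : y ≠ n := fun k => hn (by simp [k])
  simp only [List.append_assoc, List.cons_append, List.nil_append, List.map_append, List.map_cons,
    if_neg ny] at e
  rw [e, bra_cap6 P S x y hj, List.map_append]
  have hm : n ∉ (P.map fun z => if y = z then x else z) ++
      S.map fun z => if y = z then x else z := by
    rw [← List.map_append]
    intro k
    obtain ⟨z, hz, k⟩ := List.mem_map.1 k
    split_ifs at k
    · exact hn (by simp [k])
    · refine hn (k ▸ ?_)
      rcases List.mem_append.1 hz with h | h <;> simp [h]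
  have hl : j = (P.map fun z => if y = z then x else z).length := by simp [hj]
  generalize (P.map fun z => if y = z then x else z) = P' at hm hl ⊢
  generalize (S.map fun z => if y = z then x else z) = S' at hm ⊢
  have e1 := bra_zig6 (P' ++ [n]) S' n (j := j + 1) (by simp [hl]) w
  simp only [List.append_assoc, List.singleton_append] at e1
  rw [e1, bra_cup6 P' S' hl]
  have h : ∀ x ∈ P' ++ S', x ≠ (P' ++ S').sum + 1 := fun _ => bra_new6
  generalize (P' ++ S').sum + 1 = m at h
  congr 1
  by_cases k : m = n
  · rw [k]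
  · rw [← br_ren6 w (L := P' ++ m :: m :: S') m (n := n) (by
      simp only [List.mem_append, List.mem_cons, not_or] at hm ⊢
      exact ⟨hm.1, Ne.symm k, Ne.symm k, hm.2⟩), List.map_append, List.map_cons, List.map_cons,
      if_pos rfl, bra_id6 n fun k => h m (by simp [k]) rfl, bra_id6 n fun k => h m (by simp [k]) rfl]

theorem br_word6 (X : Alg) : ∀ (P S : List ℕ) (x y j : ℕ) (w : List Gen), j = P.length →
    br (X.word.map (Gen.up j) ++ w) (P ++ x :: y :: S) =
      (vec X).1 * br (cap j :: cup j :: w) (P ++ x :: y :: S) +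
        (vec X).2 * br w (P ++ x :: y :: S) := by
  induction X with
  | zero => intro P S x y j w _; simp [Alg.word, Gen.up, vec]
  | inf => intro P S x y j w _; simp [Alg.word, vec]
  | cr s =>
    intro P S x y j w _
    simp only [Alg.word, Gen.up, vec, List.map_cons, List.map_nil, List.cons_append,
      List.nil_append, br, zero_add]
    ring
  | mul X Y ihX ihY =>
    intro P S x y j w hj
    have hl : j = (P.map fun z => if y = z then x else z).length := by simp [hj]
    rw [Alg.word, List.map_append, List.append_assoc, ihX P S x y j _ hj, ihY P S x y j _ hj,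
      bra_cap6 P S x y hj, bra_cap6 P S x y hj, List.map_append, bra_cup6 _ _ hl, bra_cup6 _ _ hl,
      ihY _ _ _ _ j _ hl, bra_loop6 _ _ _ hl, bra_cup6 _ _ hl]
    simp only [vec]
    ring
  | add X Y ihX ihY =>
    intro P S x y j w hj
    have h : ∀ z ∈ P ++ x :: y :: S, z ≠ (P ++ x :: y :: S).sum + 1 := fun _ => bra_new6
    have e0 := bra_cup6 (P ++ [x]) (y :: S) (j := j + 1) (by simp [hj])
    have e1 := bra_cup6 P (x :: y :: S) hj
    simp only [List.append_assoc, List.singleton_append] at e0
    generalize (P ++ x :: y :: S).sum + 1 = n at h e0 e1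
    have hn : n ∉ P ++ x :: y :: S := fun k => h n k rfl
    have xn : x ≠ n := h x (by simp)
    have yn : y ≠ n := h y (by simp)
    have hP : n ∉ P := fun k => hn (by simp [k])
    have hS : n ∉ S := fun k => hn (by simp [k])
    have e2 := fun a b c d w => ihY (P ++ [a, b]) S c d (j + 2) w (by simp [hj])
    simp only [List.append_assoc, List.cons_append, List.nil_append] at e2
    have e3 : br (cap (j + 1) :: w) (P ++ x :: n :: n :: y :: S) =
        loopVal * br w (P ++ x :: y :: S) := by
      simpa using bra_loop6 (P ++ [x]) (y :: S) n (j := j + 1) (by simp [hj]) w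
    have e4 : br (cap (j + 2) :: cup (j + 2) :: cap (j + 1) :: w) (P ++ x :: n :: n :: y :: S) =
        br w (P ++ x :: y :: S) := by
      have a1 := bra_cap6 (P ++ [x, n]) S n y (j := j + 2) (by simp [hj])
        (cup (j + 2) :: cap (j + 1) :: w)
      have a2 := bra_zig6 ((P ++ [x]).map fun z => if y = z then n else z)
        (S.map fun z => if y = z then n else z) n (j := j + 1) (by simp [hj]) w
      have a3 := br_ren6 w y hn
      simp only [List.append_assoc, List.cons_append, List.nil_append, List.map_append,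
        List.map_cons, List.map_nil, if_neg yn, if_neg yn.symm, if_true, one_mul] at a1 a2 a3
      rw [a1, a2, a3]
    have e5 : br (cap (j + 1) :: w) (P ++ n :: n :: x :: y :: S) = br w (P ++ x :: y :: S) := by
      have a1 := bra_cap6 (P ++ [n]) (y :: S) n x (j := j + 1) (by simp [hj]) w
      have a3 := br_ren6 w x hn
      simp only [List.append_assoc, List.cons_append, List.nil_append, List.map_append,
        List.map_cons, if_neg xn, if_neg xn.symm, if_true, one_mul] at a1 a3
      rw [a1, a3]
    have e6 : ∀ w, br (cap j :: w) (P ++ x :: n :: n :: y :: S) = br w (P ++ x :: y :: S) :=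
      fun w => by
        rw [bra_cap6 P _ x n hj, if_neg xn, one_mul, List.map_append, List.map_cons, List.map_cons,
          if_pos rfl, if_neg yn.symm, bra_id6 x hP, bra_id6 x hS]
    simp only [Alg.word, List.map_cons, List.map_append, List.map_nil, bra_up6, Gen.up,
      List.cons_append, List.append_assoc, List.nil_append, add_comm 1 j]
    rw [e0, ihX P _ x n j _ hj, e6, e1, e2, e2, bra_arc6 P S x y hj hn, e5, e4, e3]
    simp only [vec]
    ring

theorem br_num (X : Alg) : br X.num [] = loopVal * (loopVal * (vec X).1 + (vec X).2) := by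
  have e := br_word6 X [] [] 1 1 0 [cap 0] rfl
  have e0 : X.word.map (Gen.up 0) = X.word :=
    (List.map_congr_left fun g _ => by rcases g with i | i | ⟨s, i⟩ <;> rfl).trans (List.map_id _)
  rw [e0] at e
  refine e.trans ?_
  simp [br, capW, capL, cupL]
  ring

end Pool.Agent.Lib.MP_140c34_gt.Arb
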