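import Pool.Agent.Lib.MP_140c34_gt.Arb.Jet

/-! From the bracket to the jets. -/

namespace Pool.Agent.Lib.MP_140c34_gt.Arb

open LaurentPolynomial

theorem bar_mul_h2 (x y : J) : bar (x * y) = bar x * bar y := by ext <;> simp <;> ring
theorem bar_add_h2 (x y : J) : bar (x + y) = bar x + bar y := by ext <;> simp <;> ring
theorem bar_sub_h2 (x y : J) : bar (x - y) = bar x - bar y := by ext <;> simp <;> ring
theorem bar_eta_h2 : bar eta = -eta := by ext <;> simp
theorem bar_one_h2 : bar 1 = 1 := by ext <;> simp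
theorem bar_zero_h2 : bar 0 = 0 := by ext <;> simp

/-- The jet of the square of the variable of the bracket, up to the factor `i`. -/
def pP_h2 : J := ⟨1, 1 / 2, 1 / 8⟩
/-- The jet of the inverse square of the variable of the bracket, up to the factor `i`. -/
def pM_h2 : J := ⟨-1, 1 / 2, -1 / 8⟩

theorem pP_add_pM_h2 : pP_h2 + pM_h2 = eta := by
  ext <;> simp [pP_h2, pM_h2] <;> norm_num
theorem bar_pP_h2 : bar pP_h2 = -pM_h2 := by
  ext <;> simp [pP_h2, pM_h2] <;> norm_num
theorem bar_pM_h2 : bar pM_h2 = -pP_h2 := by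
  ext <;> simp [pP_h2, pM_h2] <;> norm_num
theorem crJ_true_h2 : crJ true = (1, pP_h2) := by
  simp [crJ, sg, pP_h2]
theorem crJ_false_h2 : crJ false = (1, pM_h2) := by
  simp [crJ, sg, pM_h2]

section
variable {S : Type} [CommRing S] (j : J →+* S) (i : S) (ev ev' : ℤ[T;T⁻¹] →+* S) (A B : S)

theorem key_h2 (hi : i * i = -1) (hAB : A * B = 1) (hA : A * A = i * j pP_h2)
    (hB : B * B = i * j pM_h2) (e1 : ev (T 1) = A) (e2 : ev (T (-1)) = B) (e3 : ev' (T 1) = B)
    (e4 : ev' (T (-1)) = A) (e5 : ev loopVal = -(i * j eta)) (e6 : ev' loopVal = -(i * j eta))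
    (X : Alg) :
    ∃ w w' : S, w * w' = 1 ∧ ev (vec X).1 = w * j (jet X).1 ∧
      ev (vec X).2 = w * i * j (jet X).2 ∧ ev' (vec X).1 = w' * j (bar (jet X).1) ∧
      ev' (vec X).2 = -(w' * i * j (bar (jet X).2)) := by
  induction X with
  | zero =>
    refine ⟨1, 1, by simp, ?_, ?_, ?_, ?_⟩ <;>
      simp [vec, jet, zeroJ, bar_one_h2, bar_zero_h2]
  | inf =>
    refine ⟨-i, i, by linear_combination -hi, ?_, ?_, ?_, ?_⟩ <;>
      simp [vec, jet, infJ, bar_one_h2, bar_zero_h2, hi]
  | cr s =>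
    cases s with
    | true =>
      refine ⟨B, A, by linear_combination hAB, ?_, ?_, ?_, ?_⟩
      · simp [vec, jet, crJ_true_h2, e2]
      · simp only [vec, jet, crJ_true_h2, if_true, e1]
        linear_combination B * hA - A * hAB
      · simp [vec, jet, crJ_true_h2, e4, bar_one_h2]
      · simp only [vec, jet, crJ_true_h2, if_true, e3, bar_pP_h2, map_neg]
        linear_combination A * hB - B * hAB
    | false =>
      refine ⟨A, B, hAB, ?_, ?_, ?_, ?_⟩
      · simp [vec, jet, crJ_false_h2, e1]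
      · simp only [vec, jet, crJ_false_h2, Bool.false_eq_true, if_false, e2]
        linear_combination A * hB - B * hAB
      · simp [vec, jet, crJ_false_h2, e3, bar_one_h2]
      · simp only [vec, jet, crJ_false_h2, Bool.false_eq_true, if_false, e4, bar_pM_h2, map_neg]
        linear_combination B * hA - A * hAB
  | add X Y ihX ihY =>
    obtain ⟨u, u', hu, a1, a2, a3, a4⟩ := ihX
    obtain ⟨v, v', hv, b1, b2, b3, b4⟩ := ihY
    refine ⟨u * v, u' * v', by linear_combination (v * v') * hu + hv, ?_, ?_, ?_, ?_⟩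
    · simp only [vec, jet, addJ, map_mul, a1, b1]
      ring
    · simp only [vec, jet, addJ, map_mul, map_add, a1, a2, b1, b2, e5]
      linear_combination (-(u * v * i * j eta * j (jet X).2 * j (jet Y).2)) * hi
    · simp only [vec, jet, addJ, map_mul, a3, b3, bar_mul_h2]
      ring
    · simp only [vec, jet, addJ, map_mul, map_add, map_neg, a3, a4, b3, b4, e6, bar_mul_h2,
        bar_add_h2, bar_eta_h2]
      linear_combination (-(u' * v' * i * j eta * j (bar (jet X).2) * j (bar (jet Y).2))) * hi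
  | mul X Y ihX ihY =>
    obtain ⟨u, u', hu, a1, a2, a3, a4⟩ := ihX
    obtain ⟨v, v', hv, b1, b2, b3, b4⟩ := ihY
    refine ⟨i * (u * v), -(i * (u' * v')),
      by linear_combination (v * v') * hu + hv - (u * u' * v * v') * hi, ?_, ?_, ?_, ?_⟩
    · simp only [vec, jet, mulJ, map_mul, map_add, map_sub, a1, a2, b1, b2, e5]
      ring
    · simp only [vec, jet, mulJ, map_mul, a2, b2]
      ring
    · simp only [vec, jet, mulJ, map_mul, map_add, map_sub, map_neg, a3, a4, b3, b4, e6,
        bar_mul_h2, bar_add_h2, bar_sub_h2, bar_eta_h2]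
      ring
    · simp only [vec, jet, mulJ, map_mul, a4, b4, bar_mul_h2]
      ring

theorem nrm_gen_h2 (hi : i * i = -1) (U : Sˣ) (hA : (U : S) * U = i * j pP_h2)
    (hB : ((U⁻¹ : Sˣ) : S) * ((U⁻¹ : Sˣ) : S) = i * j pM_h2) (X : Alg) (k : ℤ)
    (h : loopVal * (vec X).1 + (vec X).2 = T k ∨ loopVal * (vec X).1 + (vec X).2 = -T k) :
    j (nrm (ncl (jet X))) = 1 := by
  have hs : i * j pP_h2 + i * j pM_h2 = i * j eta := by
    rw [← mul_add, ← map_add, pP_add_pM_h2]
  have e5 : eval₂ (Int.castRingHom S) U loopVal = -(i * j eta) := by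
    simp only [loopVal, map_sub, map_neg, eval₂_T]
    rw [zpow_neg, ← inv_zpow, zpow_two, zpow_two, Units.val_mul, Units.val_mul, hA, hB, ← hs]
    ring
  have e6 : eval₂ (Int.castRingHom S) U⁻¹ loopVal = -(i * j eta) := by
    simp only [loopVal, map_sub, map_neg, eval₂_T]
    rw [zpow_neg, ← inv_zpow, inv_inv, zpow_two, zpow_two, Units.val_mul, Units.val_mul, hA, hB,
      ← hs]
    ring
  obtain ⟨w, w', hw, a1, a2, a3, a4⟩ := key_h2 j i (eval₂ (Int.castRingHom S) U)
    (eval₂ (Int.castRingHom S) U⁻¹) U ((U⁻¹ : Sˣ) : S) hi (Units.mul_inv U) hA hB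
    (by rw [eval₂_T, zpow_one]) (by rw [eval₂_T, zpow_neg, zpow_one])
    (by rw [eval₂_T, zpow_one]) (by rw [eval₂_T, zpow_neg, zpow_one, inv_inv]) e5 e6 X
  have p1 : eval₂ (Int.castRingHom S) U (loopVal * (vec X).1 + (vec X).2) =
      w * i * j (ncl (jet X)) := by
    simp only [ncl, map_add, map_mul, map_sub, a1, a2, e5]
    ring
  have p2 : eval₂ (Int.castRingHom S) U⁻¹ (loopVal * (vec X).1 + (vec X).2) =
      -(w' * i * j (bar (ncl (jet X)))) := by
    simp only [ncl, map_add, map_mul, map_sub, map_neg, a3, a4, e6, bar_sub_h2, bar_mul_h2,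
      bar_eta_h2]
    ring
  have q : ((U ^ k : Sˣ) : S) * ((U⁻¹ ^ k : Sˣ) : S) = 1 := by
    rw [← Units.val_mul, ← mul_zpow, mul_inv_cancel, one_zpow, Units.val_one]
  have r : (w * i * j (ncl (jet X))) * (-(w' * i * j (bar (ncl (jet X))))) = 1 := by
    rw [← p1, ← p2]
    rcases h with h | h
    · rw [h, eval₂_T, eval₂_T, q]
    · rw [h, map_neg, map_neg, eval₂_T, eval₂_T, neg_mul_neg, q]
  rw [nrm, map_mul]
  linear_combination r + (w * w' * j (ncl (jet X)) * j (bar (ncl (jet X)))) * hi -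
    (j (ncl (jet X)) * j (bar (ncl (jet X)))) * hw

end

/-- Jets with a square root of `-1`. -/
abbrev JI_h2 : Type := QuadraticAlgebra J (-1) 0
/-- Jets with a primitive eighth root of unity. -/
abbrev JZ_h2 : Type := QuadraticAlgebra JI_h2 QuadraticAlgebra.omega 0

/-- Plan. S = complex polynomials in eta modulo eta^3 (any model), i^2 = -1, z^2 = i,
A = z (1 + eta/4 + eta^2/32), inverse z^(-1) (1 - eta/4 + eta^2/32). ev = evaluation at A,
ev' = evaluation at the inverse of A; both send loopVal to -i eta. Induction on X: there are w w'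
with w w' = 1, ev a = w j(al), ev b = w i j(pi), ev' a = w' j(bar al), ev' b = -w' i j(bar pi), where
(a, b) = vec X, (al, pi) = jet X, j : J → S the inclusion. Then ev P * ev' P = j (nrm (ncl ..)). -/
theorem nrm_of_vec (X : Alg) (k : ℤ)
    (h : loopVal * (vec X).1 + (vec X).2 = T k ∨ loopVal * (vec X).1 + (vec X).2 = -T k) :
    nrm (ncl (jet X)) = 1 := by
  let j : J →+* JZ_h2 := (algebraMap JI_h2 JZ_h2).comp (algebraMap J JI_h2)
  let i : JZ_h2 := algebraMap JI_h2 JZ_h2 QuadraticAlgebra.omega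
  let z : JZ_h2 := QuadraticAlgebra.omega
  have hz : z * z = i := QuadraticAlgebra.omega_mul_omega_eq_mk
  have hi0 : (QuadraticAlgebra.omega : JI_h2) * QuadraticAlgebra.omega = -1 := by
    rw [QuadraticAlgebra.omega_mul_omega_eq_mk]
    ext1 <;> simp [QuadraticAlgebra.re_one, QuadraticAlgebra.im_one]
  have hi : i * i = -1 := by
    simp only [i]
    rw [← map_mul, hi0, map_neg, map_one]
  let u : J := ⟨1, 1 / 4, 1 / 32⟩
  let v : J := ⟨1, -1 / 4, 1 / 32⟩
  have huv : u * v = 1 := by ext <;> simp [u, v] <;> norm_num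
  have huu : u * u = pP_h2 := by ext <;> simp [u, pP_h2] <;> norm_num
  have hvv : v * v = -pM_h2 := by ext <;> simp [v, pM_h2] <;> norm_num
  have juv : j u * j v = 1 := by rw [← map_mul, huv, map_one]
  have juu : j u * j u = j pP_h2 := by rw [← map_mul, huu]
  have jvv : j v * j v = -j pM_h2 := by rw [← map_mul, hvv, map_neg]
  have hU : (z * j u) * (-(i * z) * j v) = 1 := by
    linear_combination (-(i * z * z)) * juv - i * hz - hi
  let U : JZ_h2ˣ := ⟨z * j u, -(i * z) * j v, hU, by rw [mul_comm]; exact hU⟩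
  have hA : (U : JZ_h2) * U = i * j pP_h2 := by
    show (z * j u) * (z * j u) = _
    linear_combination (z * z) * juu + j pP_h2 * hz
  have hB : ((U⁻¹ : JZ_h2ˣ) : JZ_h2) * ((U⁻¹ : JZ_h2ˣ) : JZ_h2) = i * j pM_h2 := by
    show (-(i * z) * j v) * (-(i * z) * j v) = _
    linear_combination (i * i * z * z) * jvv - (i * i * j pM_h2) * hz - (i * j pM_h2) * hi
  have hj := nrm_gen_h2 j i hi U hA hB X k h
  have := congrArg (fun t : JZ_h2 => t.re.re) hj
  exact this

end Pool.Agent.Lib.MP_140c34_gt.Arb
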