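import Pool.Agent.Lib.MP_140c34_gt.Arb.Jet

/-! Ring identities for jets. -/

namespace Pool.Agent.Lib.MP_140c34_gt.Arb

theorem bar_mul (x y : J) : bar (x * y) = bar x * bar y := by
  ext <;> simp
  all_goals ring

theorem nrm_mul (x y : J) : nrm (x * y) = nrm x * nrm y := by
  simp only [nrm, bar_mul]; ring

theorem nrm_bar (x : J) : nrm (bar x) = nrm x := by
  ext <;> simp [nrm] <;> ring

theorem nrm_one : nrm 1 = 1 := by
  ext <;> simp [nrm]

theorem nrm_neg (x : J) : nrm (-x) = nrm x := by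
  ext <;> simp [nrm] <;> ring

theorem nrm_iff (w : J) : nrm w = 1 ↔ w.c0 ^ 2 = 1 ∧ w.c1 ^ 2 = 2 * w.c0 * w.c2 := by
  constructor
  · intro h
    have h0 := congrArg J.c0 h
    have h2 := congrArg J.c2 h
    simp [nrm] at h0 h2
    exact ⟨by linear_combination h0, by linear_combination -h2⟩
  · rintro ⟨h0, h2⟩
    ext <;> simp [nrm]
    · linear_combination h0
    · ring
    · linear_combination -h2

theorem sg_sq (e : Bool) : (sg e : ℚ) ^ 2 = 1 := by cases e <;> simp [sg]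
theorem sg_not (e : Bool) : sg (!e) = -sg e := by cases e <;> simp [sg]

theorem JEq.refl (x : J × J) : JEq x x := ⟨1, nrm_one, by simp⟩
theorem JEq.symm {x y : J × J} (h : JEq x y) : JEq y x := by
  obtain ⟨w, hw, rfl⟩ := h
  refine ⟨bar w, by rw [nrm_bar, hw], ?_⟩
  have : bar w * w = 1 := by rw [mul_comm]; exact hw
  simp [← mul_assoc, this]
theorem JEq.trans {x y z : J × J} (h : JEq x y) (h' : JEq y z) : JEq x z := by
  obtain ⟨w, hw, rfl⟩ := h
  obtain ⟨u, hu, rfl⟩ := h'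
  exact ⟨u * w, by rw [nrm_mul, hu, hw, one_mul], by simp [mul_assoc]⟩
theorem JEq.add {x x' y y' : J × J} (h : JEq x x') (h' : JEq y y') :
    JEq (addJ x y) (addJ x' y') := by
  obtain ⟨w, hw, rfl⟩ := h
  obtain ⟨u, hu, rfl⟩ := h'
  refine ⟨w * u, by rw [nrm_mul, hu, hw, one_mul], ?_⟩
  simp only [addJ, Prod.mk.injEq]
  constructor <;> ring
theorem JEq.mul {x x' y y' : J × J} (h : JEq x x') (h' : JEq y y') :
    JEq (mulJ x y) (mulJ x' y') := by
  obtain ⟨w, hw, rfl⟩ := h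
  obtain ⟨u, hu, rfl⟩ := h'
  refine ⟨w * u, by rw [nrm_mul, hu, hw, one_mul], ?_⟩
  simp only [mulJ, Prod.mk.injEq]
  constructor <;> ring
theorem JEq.rot {x y : J × J} (h : JEq x y) : JEq (rotJ x) (rotJ y) := by
  obtain ⟨w, hw, rfl⟩ := h
  exact ⟨w, hw, by simp [rotJ]⟩
theorem addJ_comm (x y : J × J) : addJ x y = addJ y x := by
  simp only [addJ, Prod.mk.injEq]
  constructor <;> ring
theorem addJ_assoc (x y z : J × J) : addJ (addJ x y) z = addJ x (addJ y z) := by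
  simp only [addJ, Prod.mk.injEq]
  constructor <;> ring
theorem addJ_zero (x : J × J) : addJ x zeroJ = x := by
  simp [addJ, zeroJ]
theorem mulJ_comm (x y : J × J) : mulJ x y = mulJ y x := by
  simp only [mulJ, Prod.mk.injEq]
  constructor <;> ring
theorem mulJ_assoc (x y z : J × J) : mulJ (mulJ x y) z = mulJ x (mulJ y z) := by
  simp only [mulJ, Prod.mk.injEq]
  constructor <;> ring
theorem mulJ_inf (x : J × J) : mulJ x infJ = x := by
  simp [mulJ, infJ]
theorem jeq_inf_add_cr (e : Bool) : JEq (addJ infJ (crJ e)) infJ := by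
  refine JEq.symm ⟨1 + eta * (crJ e).2, ?_, by simp [addJ, infJ, crJ]⟩
  rw [nrm_iff]
  cases e <;> simp [crJ, sg] <;> norm_num
theorem jeq_cr_mul_zero (e : Bool) : JEq (mulJ (crJ e) zeroJ) zeroJ := by
  refine JEq.symm ⟨(crJ e).2 - eta, ?_, by simp [mulJ, zeroJ, crJ]⟩
  rw [nrm_iff]
  cases e <;> simp [crJ, sg] <;> norm_num
theorem jeq_cr_add_cr (e : Bool) : JEq (addJ (crJ e) (crJ (!e))) zeroJ := by
  refine ⟨1, nrm_one, ?_⟩
  cases e <;> ext <;> simp [addJ, zeroJ, crJ, sg] <;> norm_num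
theorem jeq_cr_mul_cr (e : Bool) : JEq (mulJ (crJ e) (crJ (!e))) infJ := by
  refine JEq.symm ⟨(crJ e).2 * (crJ (!e)).2, ?_, ?_⟩
  · rw [nrm_iff]
    cases e <;> simp [crJ, sg] <;> norm_num
  · cases e <;> ext <;> simp [mulJ, infJ, crJ, sg] <;> norm_num
theorem jet_v (X : Alg) : jet X.v = jet X := by
  induction X with
  | add X Y hX hY => simp only [Alg.v, jet, hX, hY]; exact addJ_comm _ _
  | mul X Y hX hY => simp only [Alg.v, jet, hX, hY]
  | _ => rfl
theorem jet_h (X : Alg) : jet X.h = jet X := by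
  induction X with
  | add X Y hX hY => simp only [Alg.h, jet, hX, hY]
  | mul X Y hX hY => simp only [Alg.h, jet, hX, hY]; exact mulJ_comm _ _
  | _ => rfl
theorem cv_v (X : Alg) : cv X.v = cv X := by
  induction X with
  | add X Y hX hY => simp only [Alg.v, cv, hX, hY, Prod.mk.injEq]; constructor <;> ring
  | mul X Y hX hY => simp only [Alg.v, cv, hX, hY]
  | _ => rfl
theorem cv_h (X : Alg) : cv X.h = cv X := by
  induction X with
  | add X Y hX hY => simp only [Alg.h, cv, hX, hY]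
  | mul X Y hX hY => simp only [Alg.h, cv, hX, hY, Prod.mk.injEq]; constructor <;> ring
  | _ => rfl
theorem size_v (X : Alg) : X.v.size = X.size := by
  induction X with
  | add X Y hX hY => simp only [Alg.v, Alg.size, hX, hY]; omega
  | mul X Y hX hY => simp only [Alg.v, Alg.size, hX, hY]
  | _ => rfl
theorem size_h (X : Alg) : X.h.size = X.size := by
  induction X with
  | add X Y hX hY => simp only [Alg.h, Alg.size, hX, hY]
  | mul X Y hX hY => simp only [Alg.h, Alg.size, hX, hY]; omega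
  | _ => rfl
theorem size_d (X : Alg) : X.d.size = X.size := by
  induction X with
  | add X Y hX hY => simp only [Alg.d, Alg.size, hX, hY]; omega
  | mul X Y hX hY => simp only [Alg.d, Alg.size, hX, hY]; omega
  | _ => rfl
theorem d_d (X : Alg) : X.d.d = X := by
  induction X with
  | add X Y hX hY => simp only [Alg.d, hX, hY]
  | mul X Y hX hY => simp only [Alg.d, hX, hY]
  | cr s => simp [Alg.d]
  | _ => rfl
theorem v_v (X : Alg) : X.v.v = X := by
  induction X with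
  | add X Y hX hY => simp only [Alg.v, hX, hY]
  | mul X Y hX hY => simp only [Alg.v, hX, hY]
  | _ => rfl

theorem jeq_neg (x : J × J) : JEq x (-x) :=
  ⟨-1, by rw [nrm_neg, nrm_one], by ext1 <;> simp⟩

theorem mulJ_rot (x y : J × J) : mulJ (rotJ y) (rotJ x) = -rotJ (addJ x y) := by
  simp only [mulJ, rotJ, addJ, Prod.neg_mk, Prod.mk.injEq]
  constructor <;> ring

theorem addJ_rot (x y : J × J) : addJ (rotJ y) (rotJ x) = rotJ (mulJ x y) := by
  simp only [mulJ, rotJ, addJ, Prod.mk.injEq]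
  constructor <;> ring

theorem jeq_d (X : Alg) : JEq (jet X.d) (rotJ (jet X)) := by
  induction X with
  | zero => exact ⟨-1, by rw [nrm_neg, nrm_one], by simp [Alg.d, jet, rotJ, zeroJ, infJ]⟩
  | inf => exact ⟨1, nrm_one, by simp [Alg.d, jet, rotJ, zeroJ, infJ]⟩
  | cr s =>
    refine ⟨(crJ s).2, ?_, ?_⟩
    · rw [nrm_iff]
      cases s <;> simp [crJ, sg] <;> norm_num
    · cases s <;> ext <;> simp [Alg.d, jet, rotJ, crJ, sg] <;> norm_num
  | add X Y hX hY =>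
    refine (hY.mul hX).trans ?_
    rw [mulJ_rot]
    exact (jeq_neg _).symm
  | mul X Y hX hY =>
    refine (hY.add hX).trans ?_
    rw [addJ_rot]
    exact JEq.refl _
theorem jeq_del (e : Bool) (X : Alg) : JEq (jet (X.del e)) (rotJ (jet X)) := by
  refine JEq.symm ⟨(crJ e).2 * (crJ (!e)).2 * (crJ (!e)).2, ?_, ?_⟩
  · rw [nrm_iff]
    cases e <;> simp [crJ, sg] <;> norm_num
  · cases e <;> ext <;> simp [Alg.del, jet, rotJ, mulJ, addJ, crJ, sg] <;> ring
theorem jet_qp (X : Alg) : (jet X).1.c0 = (cv X).1 ∧ (jet X).2.c0 = (cv X).2 := by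
  induction X with
  | add X Y hX hY => simp [jet, cv, addJ, hX, hY]
  | mul X Y hX hY => simp [jet, cv, mulJ, hX, hY]
  | _ => simp [jet, cv, zeroJ, infJ, crJ]
theorem jet_q (X : Alg) : (jet X).1.c0 = (cv X).1 := (jet_qp X).1
theorem jet_p (X : Alg) : (jet X).2.c0 = (cv X).2 := (jet_qp X).2

theorem JEq.c0 {x y : J × J} (h : JEq x y) :
    (y.1.c0 = x.1.c0 ∧ y.2.c0 = x.2.c0) ∨ (y.1.c0 = -x.1.c0 ∧ y.2.c0 = -x.2.c0) := by
  obtain ⟨w, hw, rfl⟩ := h
  rcases sq_eq_one_iff.1 ((nrm_iff w).1 hw).1 with h | h <;> simp [h]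

theorem JEq.cv_eq {X Y : Alg} (h : JEq (jet X) (jet Y)) : cv Y = cv X ∨ cv Y = -cv X := by
  have := h.c0
  simp only [jet_q, jet_p] at this
  rcases this with ⟨h1, h2⟩ | ⟨h1, h2⟩
  · left; ext1 <;> assumption_mod_cast
  · right; ext1 <;> simp <;> assumption_mod_cast
theorem cv_d (X : Alg) :
    cv X.d = ((cv X).2, -(cv X).1) ∨ cv X.d = (-(cv X).2, (cv X).1) := by
  have := (jeq_d X).symm.c0
  simp only [jet_q, jet_p, rotJ, J.neg_c0, neg_neg] at this
  rcases this with ⟨h1, h2⟩ | ⟨h1, h2⟩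
  · left; ext1 <;> simp <;> assumption_mod_cast
  · right; ext1 <;> simp <;> assumption_mod_cast
theorem JEq.mu_eq {x y : J × J} (h : JEq x y) : mu x = mu y := by
  obtain ⟨w, hw, rfl⟩ := h
  obtain ⟨h0, h2⟩ := (nrm_iff w).1 hw
  simp only [mu, mm, J.mul_c0, J.mul_c1]
  linear_combination (-(2 * (x.2.c1 * x.1.c0 - x.2.c0 * x.1.c1) - x.1.c0 ^ 2 - x.2.c0 ^ 2)) * h0

theorem CC_mul {w : J} (hw : nrm w = 1) (P : J) : CC (w * P) = CC P := by
  obtain ⟨h0, h2⟩ := (nrm_iff w).1 hw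
  simp only [CC, J.mul_c0, J.mul_c1, J.mul_c2]
  linear_combination (P.c1 ^ 2 - 2 * P.c0 * P.c2) * h0 + P.c0 ^ 2 * h2

theorem JEq.WW_eq {x y : J × J} (h : JEq x y) : WW x = WW y := by
  obtain ⟨w, hw, rfl⟩ := h
  exact (CC_mul hw _).symm
theorem JEq.LL_abs {x y : J × J} (h : JEq x y) : |LL x| = |LL y| := by
  obtain ⟨w, hw, rfl⟩ := h
  obtain ⟨h0, h2⟩ := (nrm_iff w).1 hw
  rcases sq_eq_one_iff.1 h0 with h | h
  · have h3 : w.c2 = w.c1 ^ 2 / 2 := by rw [h] at h2; linear_combination (-1 / 2) * h2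
    congr 1
    simp only [LL, VV, WW, CC, mm, J.mul_c0, J.mul_c1, J.mul_c2, h, h3]
    ring
  · have h3 : w.c2 = -w.c1 ^ 2 / 2 := by rw [h] at h2; linear_combination (1 / 2) * h2
    rw [← abs_neg]
    congr 1
    simp only [LL, VV, WW, CC, mm, J.mul_c0, J.mul_c1, J.mul_c2, h, h3]
    ring
theorem JEq.CC_ncl {x y : J × J} (h : JEq x y) : CC (ncl x) = CC (ncl y) := by
  obtain ⟨w, hw, rfl⟩ := h
  rw [← CC_mul hw (ncl x)]
  congr 1
  simp only [ncl]; ring
theorem JEq.C2_eq {x x' y y' : J × J} (h : JEq x x') (h' : JEq y y') : C2 x y = C2 x' y' :=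
  (h.add h').CC_ncl
theorem C2_t (e : Bool) (z r : J × J) : C2 (mulJ (crJ e) z) r = C2 z (mulJ (crJ e) r) := by
  unfold C2
  congr 1
  simp only [ncl, addJ, mulJ]; ring
theorem C2_assoc (x y r : J × J) : C2 (addJ x y) r = C2 x (addJ y r) := by
  unfold C2; rw [addJ_assoc]
theorem C2_assoc' (x y r : J × J) : C2 (addJ x y) r = C2 y (addJ r x) := by
  unfold C2; rw [addJ_comm x y, addJ_assoc, addJ_comm x r]
theorem ncl_c0 (X r : Alg) : (ncl (addJ (jet X) (jet r))).c0 = det X r := by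
  simp [ncl, addJ, det, jet_q, jet_p]

theorem C2_neg_left (x y : J × J) : C2 (-x) y = C2 x y :=
  ((jeq_neg x).C2_eq (JEq.refl y)).symm
theorem C2_neg_right (x y : J × J) : C2 x (-y) = C2 x y :=
  ((JEq.refl x).C2_eq (jeq_neg y)).symm
theorem mu_neg (x : J × J) : mu (-x) = mu x := (jeq_neg x).mu_eq.symm

theorem splice0 {x x' u u' : J × J} (h1 : x'.1.c0 = x.1.c0) (h2 : x'.2.c0 = x.2.c0)
    (h3 : u'.1.c0 = u.1.c0) (h4 : u'.2.c0 = u.2.c0) :
    C2 x u + C2 x' u' - C2 x u' - C2 x' u = (mu x - mu x') * (mu u - mu u') / 2 := by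
  simp only [C2, CC, ncl, addJ, mu, mm, J.mul_c0, J.mul_c1, J.mul_c2, J.add_c0, J.add_c1, J.add_c2,
    J.sub_c0, J.sub_c1, J.sub_c2, eta_c0, eta_c1, eta_c2, h1, h2, h3, h4]
  ring

theorem cv_cases {X X' : Alg} (h : cv X' = cv X ∨ cv X' = -cv X) :
    ∃ x' : J × J, (x' = jet X' ∨ x' = -jet X') ∧ x'.1.c0 = (jet X).1.c0 ∧
      x'.2.c0 = (jet X).2.c0 := by
  rcases h with h | h
  · exact ⟨_, Or.inl rfl, by simp [jet_q, h], by simp [jet_p, h]⟩
  · exact ⟨_, Or.inr rfl, by simp [jet_q, h], by simp [jet_p, h]⟩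

/-- The splice identity. -/
theorem splice {X X' U U' : Alg} (hX : cv X' = cv X ∨ cv X' = -cv X)
    (hU : cv U' = cv U ∨ cv U' = -cv U) :
    C2 (jet X) (jet U) + C2 (jet X') (jet U') - C2 (jet X) (jet U') - C2 (jet X') (jet U) =
      (mu (jet X) - mu (jet X')) * (mu (jet U) - mu (jet U')) / 2 := by
  obtain ⟨x', hx, h1, h2⟩ := cv_cases hX
  obtain ⟨u', hu, h3, h4⟩ := cv_cases hU
  have := splice0 h1 h2 h3 h4
  rcases hx with rfl | rfl <;> rcases hu with rfl | rfl <;>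
    simpa only [C2_neg_left, C2_neg_right, mu_neg] using this

theorem mu_addJ (x y : J × J) : mu (addJ x y) =
    mu x * y.1.c0 ^ 2 + mu y * x.1.c0 ^ 2 + (x.1.c0 ^ 2 - 1) * (y.1.c0 ^ 2 - 1) := by
  simp only [mu, mm, addJ, J.mul_c0, J.mul_c1, J.add_c0, J.add_c1, eta_c0, eta_c1]
  ring

theorem mu_rotJ (x : J × J) : mu (rotJ x) = mu x := by
  simp only [mu, mm, rotJ, J.neg_c0, J.neg_c1]
  ring

theorem mu_mulJ (x y : J × J) : mu (mulJ x y) =
    mu x * y.2.c0 ^ 2 + mu y * x.2.c0 ^ 2 + (x.2.c0 ^ 2 - 1) * (y.2.c0 ^ 2 - 1) := by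
  rw [← mu_rotJ, ← addJ_rot, mu_addJ, mu_rotJ, mu_rotJ]
  simp only [rotJ]
  ring

theorem mu_crJ (e : Bool) : mu (crJ e) = 0 := by
  cases e <;> simp [mu, mm, crJ, sg] <;> norm_num

theorem mu_add (X Y : Alg) : mu (jet (.add X Y)) =
    mu (jet X) * ((cv Y).1 : ℚ) ^ 2 + mu (jet Y) * ((cv X).1 : ℚ) ^ 2 +
      (((cv X).1 : ℚ) ^ 2 - 1) * (((cv Y).1 : ℚ) ^ 2 - 1) := by
  rw [jet, mu_addJ, jet_q, jet_q]
theorem mu_mul (X Y : Alg) : mu (jet (.mul X Y)) =
    mu (jet X) * ((cv Y).2 : ℚ) ^ 2 + mu (jet Y) * ((cv X).2 : ℚ) ^ 2 +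
      (((cv X).2 : ℚ) ^ 2 - 1) * (((cv Y).2 : ℚ) ^ 2 - 1) := by
  rw [jet, mu_mulJ, jet_p, jet_p]
theorem mu_d (X : Alg) : mu (jet X.d) = mu (jet X) := by
  rw [(jeq_d X).mu_eq, mu_rotJ]

theorem mu_rat0 {R : Alg} (h : Rat R) : mu (jet R) = 0 := by
  induction h with
  | zero => simp [jet, mu, mm, zeroJ]
  | inf => simp [jet, mu, mm, infJ]
  | s e _ ih => rw [mu_add, ih]; simp [jet, mu_crJ, cv]
  | t e _ ih => rw [mu_mul, ih]; simp [jet, mu_crJ, cv, sg_sq]

theorem mu_rat {X : Alg} (h : IsRat X) : mu (jet X) = 0 := by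
  obtain ⟨R, hR, -, hj⟩ := h
  rw [hj.mu_eq, mu_rat0 hR]

theorem coprime_rat0 {R : Alg} (h : Rat R) : IsCoprime (cv R).1 (cv R).2 := by
  induction h with
  | zero => simp [cv, isCoprime_one_left]
  | inf => simp [cv, isCoprime_one_right]
  | s e _ ih => simpa [cv] using ih.add_mul_left_right (sg e)
  | @t e Z _ ih =>
    obtain ⟨a, b, hab⟩ := ih
    refine ⟨a * sg e, b * sg e - a, ?_⟩
    have : sg e * sg e = 1 := by cases e <;> simp [sg]
    simp only [cv]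
    linear_combination (sg e * sg e) * hab + this

theorem coprime_rat {X : Alg} (h : IsRat X) : IsCoprime (cv X).1 (cv X).2 := by
  obtain ⟨R, hR, -, hj⟩ := h
  have := coprime_rat0 hR
  rcases hj.cv_eq with h | h <;> rw [h] at this
  · exact this
  · simpa [IsCoprime.neg_neg_iff] using this

theorem nonneg_aux {m m' : ℚ} {a b : ℤ} (hm : 0 ≤ m) (hm' : 0 ≤ m') (hab : IsCoprime a b) :
    0 ≤ m * (b : ℚ) ^ 2 + m' * (a : ℚ) ^ 2 + ((a : ℚ) ^ 2 - 1) * ((b : ℚ) ^ 2 - 1) := by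
  have key : (0 : ℤ) ≤ (a ^ 2 - 1) * (b ^ 2 - 1) := by
    rcases eq_or_ne a 0 with rfl | ha
    · rcases Int.isUnit_iff.1 (isCoprime_zero_left.1 hab) with rfl | rfl <;> simp
    rcases eq_or_ne b 0 with rfl | hb
    · rcases Int.isUnit_iff.1 (isCoprime_zero_right.1 hab) with rfl | rfl <;> simp
    have h1 : 0 < a ^ 2 := by positivity
    have h2 : 0 < b ^ 2 := by positivity
    exact mul_nonneg (by omega) (by omega)
  have key' : (0 : ℚ) ≤ ((a : ℚ) ^ 2 - 1) * ((b : ℚ) ^ 2 - 1) := by exact_mod_cast key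
  positivity

/-- Structural induction: a primitive sum (product) has primitive parts, and if one denominator
(numerator) is zero the other one is a unit. -/
theorem mu_nonneg (X : Alg) (h : IsCoprime (cv X).1 (cv X).2) : 0 ≤ mu (jet X) := by
  induction X with
  | zero => simp [jet, mu, mm, zeroJ]
  | inf => simp [jet, mu, mm, infJ]
  | cr s => simp [jet, mu_crJ]
  | add X Y hX hY =>
    obtain ⟨a, b, hab⟩ := h
    simp only [cv] at hab
    rw [mu_add]
    refine nonneg_aux (hX ⟨a * (cv Y).1 + b * (cv Y).2, b * (cv Y).1, ?_⟩)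
      (hY ⟨a * (cv X).1 + b * (cv X).2, b * (cv X).1, ?_⟩)
      ⟨b * (cv Y).2 + a * (cv Y).1, b * (cv X).2, ?_⟩ <;> linear_combination hab
  | mul X Y hX hY =>
    obtain ⟨a, b, hab⟩ := h
    simp only [cv] at hab
    rw [mu_mul]
    refine nonneg_aux (hX ⟨a * (cv Y).2, a * (cv Y).1 + b * (cv Y).2, ?_⟩)
      (hY ⟨a * (cv X).2, a * (cv X).1 + b * (cv X).2, ?_⟩)
      ⟨a * (cv Y).1 + b * (cv Y).2, a * (cv X).1, ?_⟩ <;> linear_combination hab
theorem of_nrm {X : Alg} (h : nrm (ncl (jet X)) = 1) :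
    det X .zero ^ 2 = 1 ∧ C2 (jet X) (jet .zero) = 0 := by
  obtain ⟨h0, h2⟩ := (nrm_iff _).1 h
  have e : addJ (jet X) (jet .zero) = jet X := addJ_zero _
  constructor
  · have := ncl_c0 X .zero
    rw [e] at this
    rw [this] at h0
    exact_mod_cast h0
  · rw [C2, e, CC, h2, sub_self]

end Pool.Agent.Lib.MP_140c34_gt.Arb
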