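import Pool.Agent.Lib.MP_140c34_gt.Arb.Top
import Pool.Agent.Lib.MP_140c34_gt.Arb.JetA

/-! Rational tangles are determined by their fraction. -/

namespace Pool.Agent.Lib.MP_140c34_gt.Arb

open Alg

theorem Rel.refl (X : Alg) : Rel X X := ⟨.refl X, .refl _⟩
theorem Rel.symm {X Y : Alg} (h : Rel X Y) : Rel Y X := ⟨h.1.symm, h.2.symm⟩
theorem Rel.trans {X Y Z : Alg} (h : Rel X Y) (h' : Rel Y Z) : Rel X Z :=
  ⟨h.1.trans h'.1, h.2.trans h'.2⟩
theorem Rel.add {X X' Y Y' : Alg} (h : Rel X X') (h' : Rel Y Y') :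
    Rel (add X Y) (add X' Y') := ⟨h.1.add h'.1, h.2.add h'.2⟩
theorem Rel.mul {X X' Y Y' : Alg} (h : Rel X X') (h' : Rel Y Y') :
    Rel (mul X Y) (mul X' Y') := ⟨h.1.mul h'.1, h.2.mul h'.2⟩

theorem jeq_of_eq79 {x y : J × J} (h : x = y) : JEq x y := h ▸ .refl x

theorem rel_add_assoc (X Y Z : Alg) : Rel (add (add X Y) Z) (add X (add Y Z)) :=
  ⟨te_add_assoc X Y Z, jeq_of_eq79 (addJ_assoc _ _ _)⟩
theorem rel_del (e : Bool) (X : Alg) : Rel (X.del e) X.d :=
  ⟨te_del e X, (jeq_del e X).trans (jeq_d X).symm⟩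

theorem rel_mul_assoc79 (X Y Z : Alg) : Rel (mul (mul X Y) Z) (mul X (mul Y Z)) :=
  ⟨te_mul_assoc X Y Z, jeq_of_eq79 (mulJ_assoc _ _ _)⟩
theorem rel_add_zero79 (X : Alg) : Rel (add X zero) X :=
  ⟨te_add_zero X, jeq_of_eq79 (addJ_zero _)⟩
theorem rel_zero_add79 (X : Alg) : Rel (add zero X) X :=
  ⟨te_zero_add X, jeq_of_eq79 ((addJ_comm _ _).trans (addJ_zero _))⟩
theorem rel_mul_inf79 (X : Alg) : Rel (mul X inf) X :=
  ⟨te_mul_inf X, jeq_of_eq79 (mulJ_inf _)⟩
theorem rel_inf_mul79 (X : Alg) : Rel (mul inf X) X :=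
  ⟨te_inf_mul X, jeq_of_eq79 ((mulJ_comm _ _).trans (mulJ_inf _))⟩
theorem rel_inf_add_cr79 (e : Bool) : Rel (add inf (cr e)) inf :=
  ⟨te_inf_add_cr e, jeq_inf_add_cr e⟩
theorem rel_cr_mul_zero79 (e : Bool) : Rel (mul (cr e) zero) zero :=
  ⟨te_cr_mul_zero e, jeq_cr_mul_zero e⟩
theorem rel_cr_add_cr79 (e : Bool) : Rel (add (cr e) (cr (!e))) zero :=
  ⟨te_cr_add_cr e, jeq_cr_add_cr e⟩
theorem rel_cr_mul_cr79 (e : Bool) : Rel (mul (cr e) (cr (!e))) inf :=
  ⟨te_cr_mul_cr e, jeq_cr_mul_cr e⟩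

/-- opposite twists on the right cancel -/
theorem rel_ss79 (e : Bool) (X : Alg) : Rel (add (add X (cr e)) (cr (!e))) X :=
  (rel_add_assoc _ _ _).trans (((Rel.refl X).add (rel_cr_add_cr79 e)).trans (rel_add_zero79 X))

/-- opposite twists at the bottom cancel -/
theorem rel_tt79 (e : Bool) (X : Alg) : Rel (mul (cr (!e)) (mul (cr e) X)) X := by
  have := rel_cr_mul_cr79 (!e)
  rw [Bool.not_not] at this
  exact (rel_mul_assoc79 _ _ _).symm.trans ((this.mul (.refl X)).trans (rel_inf_mul79 X))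

theorem Rel.d79 {X Y : Alg} (h : Rel X Y) : Rel X.d Y.d :=
  (rel_del true X).symm.trans (((Rel.refl _).mul (((Rel.refl _).mul h).add (.refl _))).trans
    (rel_del true Y))

theorem Rat.d79 {X : Alg} (h : Rat X) : Rat X.d := by
  induction h with
  | zero => exact .inf
  | inf => exact .zero
  | s e _ ih => exact ih.t _
  | t e _ ih => exact ih.s _

theorem IsRat.congr {X Y : Alg} (h : IsRat X) (h' : Rel X Y) : IsRat Y :=
  let ⟨R, a, b⟩ := h
  ⟨R, a, h'.symm.trans b⟩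
theorem isRat_zero : IsRat zero := ⟨_, .zero, .refl _⟩
theorem isRat_inf : IsRat inf := ⟨_, .inf, .refl _⟩
theorem isRat_cr (e : Bool) : IsRat (cr e) := ⟨_, .s e .zero, (rel_zero_add79 _).symm⟩
theorem IsRat.add_cr (e : Bool) {X : Alg} (h : IsRat X) : IsRat (add X (cr e)) :=
  let ⟨_, a, b⟩ := h
  ⟨_, a.s e, b.add (.refl _)⟩
theorem IsRat.cr_mul (e : Bool) {X : Alg} (h : IsRat X) : IsRat (mul (cr e) X) :=
  let ⟨_, a, b⟩ := h
  ⟨_, a.t e, (Rel.refl _).mul b⟩
theorem IsRat.d {X : Alg} (h : IsRat X) : IsRat X.d :=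
  let ⟨_, a, b⟩ := h
  ⟨_, a.d79, b.d79⟩
theorem IsRat.of_d {X : Alg} (h : IsRat X.d) : IsRat X := d_d X ▸ h.d

/-- Twisted tangles whose twists all have the sign `e`, with denominator and numerator. -/
inductive Cn79 (e : Bool) : ℕ → ℕ → Alg → Prop
  | zero : Cn79 e 1 0 .zero
  | inf : Cn79 e 0 1 .inf
  | s {q p : ℕ} {Z : Alg} : Cn79 e q p Z → Cn79 e q (p + q) (.add Z (.cr e))
  | t {q p : ℕ} {Z : Alg} : Cn79 e q p Z → Cn79 e (q + p) p (.mul (.cr e) Z)

/-- The canonical tangle of a fraction. -/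
def can79 (e : Bool) (q p : ℕ) : Alg :=
  if p = 0 then zero else if q = 0 then inf else if q ≤ p then add (can79 e q (p - q)) (cr e)
  else mul (cr e) (can79 e (q - p) p)
termination_by q + p
decreasing_by all_goals omega

theorem can79_zero (e : Bool) (q : ℕ) : can79 e q 0 = zero := by rw [can79, if_pos rfl]

theorem can79_inf (e : Bool) {p : ℕ} (h : p ≠ 0) : can79 e 0 p = inf := by
  rw [can79, if_neg h, if_pos rfl]

variable {e : Bool} {q p : ℕ} {Z : Alg}

theorem Cn79.rat (h : Cn79 e q p Z) : Rat Z := by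
  induction h with
  | zero => exact .zero
  | inf => exact .inf
  | s _ ih => exact ih.s _
  | t _ ih => exact ih.t _

theorem Cn79.d (h : Cn79 e q p Z) : Cn79 (!e) p q Z.d := by
  induction h with
  | zero => exact .inf
  | inf => exact .zero
  | s _ ih => exact ih.t
  | t _ ih => exact ih.s

theorem Cn79.cv (h : Cn79 e q p Z) :
    cv Z = ((q : ℤ), sg e * p) ∨ cv Z = -((q : ℤ), sg e * p) := by
  induction h with
  | zero => simp [Arb.cv]
  | inf => cases e <;> simp [Arb.cv, sg]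
  | s _ ih =>
    refine ih.imp (fun h => ?_) fun h => ?_ <;> simp only [Arb.cv, h, Prod.ext_iff] <;>
      simp <;> ring
  | t _ ih =>
    cases e
    · refine (ih.imp (fun h => ?_) fun h => ?_).symm <;> simp only [Arb.cv, h, Prod.ext_iff] <;>
        simp [sg] <;> ring
    · refine ih.imp (fun h => ?_) fun h => ?_ <;> simp only [Arb.cv, h, Prod.ext_iff] <;>
        simp [sg] <;> ring

theorem Cn79.can (h : Cn79 e q p Z) : q.Coprime p ∧ Rel Z (can79 e q p) := by
  induction h with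
  | zero => exact ⟨by simp, can79_zero e 1 ▸ .refl _⟩
  | inf => exact ⟨by simp, can79_inf e one_ne_zero ▸ .refl _⟩
  | @s q p Z _ ih =>
    refine ⟨by simpa using ih.1, (ih.2.add (.refl _)).trans ?_⟩
    rcases Nat.eq_zero_or_pos q with rfl | hq
    · rw [add_zero, can79_inf e (by rintro rfl; simpa using ih.1)]
      exact rel_inf_add_cr79 e
    · rw [can79.eq_1 e q (p + q), if_neg (by omega), if_neg (by omega), if_pos (by omega),
        Nat.add_sub_cancel]
      exact .refl _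
  | @t q p Z _ ih =>
    refine ⟨by simpa using ih.1, ((Rel.refl _).mul ih.2).trans ?_⟩
    rcases Nat.eq_zero_or_pos p with rfl | hp
    · rw [can79_zero, can79_zero]
      exact rel_cr_mul_zero79 e
    rcases Nat.eq_zero_or_pos q with rfl | hq
    · rw [zero_add, can79_inf e hp.ne', can79, if_neg hp.ne', if_neg hp.ne', if_pos le_rfl,
        Nat.sub_self, can79_zero]
      exact (rel_mul_inf79 _).trans (rel_zero_add79 _).symm
    · rw [can79.eq_1 e (q + p) p, if_neg (by omega), if_neg (by omega), if_neg (by omega),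
        Nat.add_sub_cancel]
      exact .refl _

theorem cn79_ex (e : Bool) (n : ℕ) : ∀ q p : ℕ, q + p ≤ n → q.Coprime p → ∃ Z, Cn79 e q p Z := by
  induction n with
  | zero => exact fun q p h c => by simp [show q = 0 by omega, show p = 0 by omega] at c
  | succ n ih =>
    intro q p h c
    rcases Nat.eq_zero_or_pos p with rfl | hp
    · obtain rfl := (Nat.coprime_zero_right q).1 c
      exact ⟨_, .zero⟩
    rcases Nat.eq_zero_or_pos q with rfl | hq
    · obtain rfl := (Nat.coprime_zero_left p).1 c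
      exact ⟨_, .inf⟩
    rcases le_total q p with l | l
    · obtain ⟨p, rfl⟩ := Nat.exists_eq_add_of_le' l
      obtain ⟨Z, hZ⟩ := ih q p (by omega) (by simpa using c)
      exact ⟨_, hZ.s⟩
    · obtain ⟨q, rfl⟩ := Nat.exists_eq_add_of_le' l
      obtain ⟨Z, hZ⟩ := ih q p (by omega) (by simpa using c)
      exact ⟨_, hZ.t⟩

theorem Cn79.s' (h : Cn79 e q p Z) (f : Bool) :
    ∃ e q p Y, Cn79 e q p Y ∧ Rel (add Z (cr f)) Y := by
  rcases Bool.eq_or_eq_not f e with rfl | rfl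
  · exact ⟨_, _, _, _, h.s, .refl _⟩
  cases h with
  | zero => exact ⟨_, _, _, _, .s .zero, .refl _⟩
  | inf => exact ⟨_, _, _, _, .s .inf, .refl _⟩
  | s h => exact ⟨_, _, _, _, h, rel_ss79 _ _⟩
  | t h => exact ⟨_, _, _, _, h.d.t, (rel_tt79 e _).symm.trans ((Rel.refl _).mul (rel_del e _))⟩

theorem Cn79.t' (h : Cn79 e q p Z) (f : Bool) :
    ∃ e q p Y, Cn79 e q p Y ∧ Rel (mul (cr f) Z) Y := by
  rcases Bool.eq_or_eq_not f e with rfl | rfl
  · exact ⟨_, _, _, _, h.t, .refl _⟩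
  cases h with
  | zero => exact ⟨_, _, _, _, .t .zero, .refl _⟩
  | inf => exact ⟨_, _, _, _, .t .inf, .refl _⟩
  | t h => exact ⟨_, _, _, _, h, rel_tt79 _ _⟩
  | @s _ _ Y h =>
    have := rel_del (!e) (mul (cr e) Y)
    rw [Alg.del, Bool.not_not] at this
    exact ⟨_, _, _, _, h.t.d, ((Rel.refl _).mul ((rel_tt79 e Y).symm.add (.refl _))).trans this⟩

theorem IsRat.cn79 {X : Alg} (h : IsRat X) : ∃ e q p Y, Cn79 e q p Y ∧ Rel X Y := by
  obtain ⟨R, hR, h⟩ := h
  suffices ∃ e q p Y, Cn79 e q p Y ∧ Rel R Y from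
    let ⟨e, q, p, Y, a, b⟩ := this
    ⟨e, q, p, Y, a, h.trans b⟩
  clear h
  induction hR with
  | zero => exact ⟨true, _, _, _, .zero, .refl _⟩
  | inf => exact ⟨true, _, _, _, .inf, .refl _⟩
  | s f _ ih =>
    obtain ⟨e, q, p, Y, a, b⟩ := ih
    obtain ⟨e, q, p, W, c, d⟩ := a.s' f
    exact ⟨e, q, p, W, c, (b.add (.refl _)).trans d⟩
  | t f _ ih =>
    obtain ⟨e, q, p, Y, a, b⟩ := ih
    obtain ⟨e, q, p, W, c, d⟩ := a.t' f
    exact ⟨e, q, p, W, c, ((Rel.refl _).mul b).trans d⟩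

/-- Every rational tangle is equivalent to the canonical tangle of its fraction. -/
theorem conway {X Y : Alg} (hX : IsRat X) (hY : IsRat Y) (h : cv Y = cv X ∨ cv Y = -cv X) :
    Rel X Y := by
  obtain ⟨e, q, p, A, a, a'⟩ := hX.cn79
  obtain ⟨f, q', p', B, b, b'⟩ := hY.cn79
  refine (a'.trans a.can.2).trans (Rel.symm ((b'.trans b.can.2).trans ?_))
  have k : ((q' : ℤ), sg f * p') = ((q : ℤ), sg e * p) ∨
      ((q' : ℤ), sg f * p') = -((q : ℤ), sg e * p) := by
    have h1 := a.cv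
    have h2 := b.cv
    have h3 := a'.2.cv_eq
    have h4 := b'.2.cv_eq
    generalize ((q' : ℤ), sg f * p') = u at *
    generalize ((q : ℤ), sg e * p) = v at *
    rcases h1 with h1 | h1 <;> rcases h2 with h2 | h2 <;> rcases h3 with h3 | h3 <;>
      rcases h4 with h4 | h4 <;> rcases h with h | h <;>
      simp only [h1, h2, h, neg_neg, neg_eq_iff_eq_neg] at h3 h4 <;> simp [h3, h4]
  have c := a.can.1
  have k' : q' = q ∧ p' = p ∧ (f = e ∨ p = 0 ∨ q = 0) := by
    cases e <;> cases f <;> simp [sg, Prod.ext_iff] at k ⊢ <;> omega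
  obtain ⟨rfl, rfl, rfl | rfl | rfl⟩ := k'
  · exact .refl _
  · rw [can79_zero, can79_zero]
    exact .refl _
  · have : p' ≠ 0 := by rintro rfl; simp at c
    rw [can79_inf _ this, can79_inf _ this]
    exact .refl _
theorem exists_rat (q p : ℤ) (h : IsCoprime q p) :
    ∃ R, IsRat R ∧ (cv R = (q, p) ∨ cv R = -(q, p)) := by
  obtain ⟨Z, hZ⟩ := cn79_ex (decide (0 ≤ q ↔ 0 ≤ p)) _ q.natAbs p.natAbs le_rfl
    (Int.isCoprime_iff_gcd_eq_one.1 h)
  refine ⟨Z, ⟨Z, hZ.rat, .refl _⟩, ?_⟩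
  have := hZ.cv
  by_cases h1 : 0 ≤ q <;> by_cases h2 : 0 ≤ p <;>
    simp only [h1, h2, sg, Prod.ext_iff, Prod.fst_neg, Prod.snd_neg, iff_self, iff_true, iff_false,
      not_true, decide_true, decide_false, if_true, Bool.false_eq_true, if_false] at this ⊢ <;>
    omega

end Pool.Agent.Lib.MP_140c34_gt.Arb
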