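import Mathlib

/-!
Link diagrams in Morse position, Reidemeister moves, the Kauffman bracket, algebraic tangles.
A diagram is a word read from the bottom to the top; strands are numbered `0, 1, ...` from the left.
-/

namespace Pool.Agent.Lib.MP_140c34_gt.Arb

open LaurentPolynomial

/-- One level of a diagram: a minimum creating the strands `i, i+1`, a maximum joining the strands
`i, i+1`, or a crossing of the strands `i, i+1` (`true`: the strand from lower left to upper right
is the over strand). -/
inductive Gen
  | cup (i : ℕ)
  | cap (i : ℕ)
  | crs (s : Bool) (i : ℕ)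
  deriving DecidableEq

open Gen

/-- The same piece, `k` strands further to the right. -/
def Gen.up (k : ℕ) : Gen → Gen
  | cup i => cup (i + k)
  | cap i => cap (i + k)
  | crs s i => crs s (i + k)

/-- Position of a piece. -/
def Gen.pos : Gen → ℕ
  | cup i => i
  | cap i => i
  | crs _ i => i

/-- Number of strands entering a piece from below. -/
def Gen.inn : Gen → ℕ
  | cup _ => 0
  | _ => 2

/-- Number of strands leaving a piece at the top. -/
def Gen.out : Gen → ℕ
  | cap _ => 0
  | _ => 2

/-- Number of strands at the top of a word that has `n` strands at the bottom. -/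
def width (n : ℤ) : List Gen → ℤ
  | [] => n
  | g :: w => width (n + g.out - g.inn) w

/-- Local moves at a level with `n` strands: planar isotopies (`zigL`, `zigR`, `slideCup`,
`slideCap`, `comm`) and the Reidemeister moves. -/
inductive Move (n : ℤ) : List Gen → List Gen → Prop
  | zigL (i : ℕ) : i < n → Move n [cup (i + 1), cap i] []
  | zigR (i : ℕ) : i < n → Move n [cup i, cap (i + 1)] []
  | slideCup (s : Bool) (i : ℕ) : Move n [cup (i + 1), crs s i] [cup i, crs (!s) (i + 1)]
  | slideCap (s : Bool) (i : ℕ) : Move n [crs s i, cap (i + 1)] [crs (!s) (i + 1), cap i]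
  | comm (g h : Gen) : Move n [g, h.up (g.pos + g.out)] [h.up (g.pos + g.inn), g]
  | r1Cup (s : Bool) (i : ℕ) : Move n [cup i, crs s i] [cup i]
  | r1Cap (s : Bool) (i : ℕ) : Move n [crs s i, cap i] [cap i]
  | r2 (s : Bool) (i : ℕ) : i + 1 < n → Move n [crs s i, crs (!s) i] []
  | r3 (s : Bool) (i : ℕ) :
      Move n [crs s i, crs s (i + 1), crs s i] [crs s (i + 1), crs s i, crs s (i + 1)]

/-- One local move inside a word with `n` strands at the bottom. -/
def Step (n : ℤ) (w w' : List Gen) : Prop :=
  ∃ u a b v, w = u ++ a ++ v ∧ w' = u ++ b ++ v ∧ Move (width n u) a b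

/-- Diagrams connected by a finite sequence of local moves and their inverses. -/
def Eqv (n : ℤ) : List Gen → List Gen → Prop := Relation.EqvGen (Step n)

/-- The loop value `d = -A^2 - A^(-2)`. -/
noncomputable def loopVal : ℤ[T;T⁻¹] := -T 2 - T (-2)

/-- Strands carry labels, equal exactly when the strands are joined below the present level.
A minimum adds two strands with a new label. -/
def cupL (i : ℕ) (L : List ℕ) : List ℕ := L.take i ++ (L.sum + 1) :: (L.sum + 1) :: L.drop i

/-- A maximum removes the strands `i, i+1` and merges their labels. -/
def capL (i : ℕ) (L : List ℕ) : List ℕ :=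
  (L.take i ++ L.drop (i + 2)).map fun x => if L[i + 1]? = some x then L[i]?.getD x else x

/-- A maximum closes a curve when its two strands were joined below. -/
noncomputable def capW (i : ℕ) (L : List ℕ) : ℤ[T;T⁻¹] := if L[i]? = L[i + 1]? then loopVal else 1

/-- State sum: every crossing is smoothed in both ways with the weights `A` and `A^(-1)`, every
closed curve has the weight `d`. For a link diagram `D`, `br D [] = d * ⟨D⟩`. -/
noncomputable def br : List Gen → List ℕ → ℤ[T;T⁻¹]
  | [], _ => 1
  | cup i :: w, L => br w (cupL i L)
  | cap i :: w, L => capW i L * br w (capL i L)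
  | crs s i :: w, L => T (if s then 1 else -1) * br w L +
      T (if s then -1 else 1) * (capW i L * br w (cupL i (capL i L)))

/-- Algebraic tangles: built from the tangles `0`, `∞`, `±1` by horizontal and vertical
composition. -/
inductive Alg
  | zero
  | inf
  | cr (s : Bool)
  | add (X Y : Alg)
  | mul (X Y : Alg)

/-- The diagram of an algebraic tangle, two ends at the bottom and two at the top: `add X Y` has
`X` to the left of `Y`, `mul X Y` has `X` below `Y`. -/
def Alg.word : Alg → List Gen
  | zero => [cap 0, cup 0]
  | inf => []
  | cr s => [crs s 0]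
  | add X Y => cup 1 :: (X.word ++ Y.word.map (Gen.up 2) ++ [cap 1])
  | mul X Y => X.word ++ Y.word

/-- Numerator closure: the two lower ends are joined and the two upper ends are joined. -/
def Alg.num (X : Alg) : List Gen := cup 0 :: (X.word ++ [cap 0])

end Pool.Agent.Lib.MP_140c34_gt.Arb
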