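import Pool.Agent.Lib.MP_140c34_gt.Arb.ExV4

/-! The sl(N) vertex model gives a real valued invariant of oriented words. -/

namespace Pool.Agent.Lib.MP_140c34_gt.Arb

/-- The axioms with real values. -/
structure IsRealH (v z : ℝ) (J : List OGen → ℝ) : Prop where
  circle : ∀ b, J [.cup b 0, .cap 0] = 1
  move : ∀ u x y w L M, dirs u [] = some L → dirs x L = some M → dirs y L = some M →
    dirs w M = some [] → Move L.length (x.map OGen.forget) (y.map OGen.forget) →
    J (u ++ x ++ w) = J (u ++ y ++ w)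
  skein : ∀ u w L a b S, dirs u [] = some (L ++ a :: b :: S) →
    dirs w (L ++ b :: a :: S) = some [] →
    v⁻¹ * J (u ++ [.crs (a == b) L.length] ++ w) - v * J (u ++ [.crs (a != b) L.length] ++ w) =
      z * J (u ++ (if a = b then [] else [.cap L.length, .cup b L.length]) ++ w)

open Finset OGen in
theorem skeinE {q : ℝ} {n : ℕ} (hq : q ≠ 0) (a b : Bool) (S L : List Bool) (f : StE n → ℝ)
    (c : StE n) (e : c.map Prod.fst = L ++ a :: b :: S) :
    q ^ n * opE q ([crs (a == b) 0].map (OGen.up L.length)) f c -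
      q⁻¹ ^ n * opE q ([crs (a != b) 0].map (OGen.up L.length)) f c = (q - q⁻¹) *
      opE q ((if a = b then [] else [cap 0, cup b 0]).map (OGen.up L.length)) f c := by
  induction L generalizing f c with
  | cons d L ih =>
    obtain ⟨x, c, rfl, -, e'⟩ := List.map_eq_cons_iff.1 e
    simp only [List.length_cons, opE_up]
    exact ih _ c e'
  | nil =>
    obtain ⟨⟨a, i⟩, c, rfl, rfl, e'⟩ := List.map_eq_cons_iff.1 e
    obtain ⟨⟨b, j⟩, c, rfl, rfl, -⟩ := List.map_eq_cons_iff.1 e'
    have v : q ^ n * q⁻¹ ^ n = 1 := vsE_mul (n := n) hq false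
    have e1 : ((a == b) == (a == b)) = true := beq_self_eq_true _
    have e2 : ((a != b) == (a == b)) = false := by cases a <;> cases b <;> rfl
    simp only [List.length_nil, funext up_zeroE, List.map_id', opE, o1E, forget, Gen.pos, atE, g0E,
      e1, e2, vsE, if_true, Bool.false_eq_true, if_false, tbE_sub]
    by_cases h : a = b
    · simp only [h, if_true, opE]
      linear_combination (q - q⁻¹) * f ((b, i) :: (b, j) :: c) * v
    obtain rfl : a = !b := Bool.eq_not_iff.2 h
    simp only [h, if_false, opE, o1E, forget, Gen.pos, atE, g0E, ne_eq, not_false_eq_true, true_and]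
    split_ifs
    · simp only [add_mul, sum_add_distrib, mul_assoc (q - q⁻¹), ← mul_sum]
      linear_combination (q - q⁻¹) * wpE q n (!b) i *
        (∑ k : Fin n, wcE q n b k * f ((b, k) :: (!b, k) :: c)) * v
    · ring

theorem exists_realH {q : ℝ} (hq : 0 < q) (N : ℕ) :
    ∃ J, IsRealH (q⁻¹ ^ (N + 1)) (q - q⁻¹) J := by
  have d : ∑ a ∈ Finset.range (N + 1), mE q (N + 1) a ≠ 0 :=
    (Finset.sum_pos (fun a _ => by unfold mE; positivity) (by simp)).ne'
  refine ⟨fun D => opE (n := N + 1) q D (fun _ => 1) [] / ∑ a ∈ Finset.range (N + 1), mE q (N + 1) a,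
    fun b => ?_, fun u x y w L M hu hx hy _ h => ?_, fun u w L a b S hu _ => ?_⟩
  · rw [div_eq_one_iff_eq d, ← wE_circle hq.ne' b]
    simp [opE, o1E, OGen.forget, Gen.pos, atE, g0E]
  · rw [(moveE hq.ne' h L M hx hy).ctx u w hu _ [] rfl]
  · have k := fun c e => skeinE hq.ne' a b S L (opE (n := N + 1) q w fun _ => 1) c e
    have l := opE_lin (q := q) (n := N + 1) u []
    have t := opE_congr (q := q) u (c := []) hu k
    have e : ((if a = b then [] else [OGen.cap 0, .cup b 0]).map (OGen.up L.length)) =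
        if a = b then [] else [.cap L.length, .cup b L.length] := by
      split_ifs <;> simp [OGen.up]
    simp only [e, List.map_cons, List.map_nil, OGen.up, Nat.zero_add] at t
    have t2 := (l.map_sub (q ^ (N + 1) • _) (q⁻¹ ^ (N + 1) • _)).symm.trans (t.trans (l.2 _ _))
    simp only [l.2, smul_eq_mul] at t2
    simp only [opE_append, inv_pow, inv_inv, ← mul_div_assoc, ← sub_div] at t2 ⊢
    rw [t2]

end Pool.Agent.Lib.MP_140c34_gt.Arb
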