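import Mathlib

/-! Vertex models: the tensor identities that give a link invariant. -/

namespace Pool.Agent.Lib.MP_140c34_gt.Arb

/-- `k b x`: weight of a minimum with left direction `b` and colour `x`. `R s a b x y x' y'`: weight
of the crossing `s` on the directions `a, b` with the colours `x, y` below and `x', y'` above. -/
structure VM (C : Type) [Fintype C] [DecidableEq C] (v z : ℝ) where
  k : Bool → C → ℝ
  R : Bool → Bool → Bool → C → C → C → C → ℝ
  D : ℝ
  k_ne : ∀ b x, k b x ≠ 0
  D_ne : D ≠ 0
  circ : ∀ b, ∑ x, k b x / k (!b) x = D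
  rot : ∀ s a b x y x' y', k b y * R s a b x y x' y' = k b x' * R (!s) (!b) a x' x y' y
  r1 : ∀ s a x' y', ∑ x, k a x * R s a (!a) x x x' y' = if x' = y' then k (!a) x' else 0
  r2 : ∀ s a b x y x' y', ∑ i, ∑ j, R s a b x y i j * R (!s) b a i j x' y' =
    if x = x' ∧ y = y' then 1 else 0
  yb : ∀ x y w x' y' w',
    ∑ i, ∑ j, ∑ l, R true true true x y i j * R true true true j w l w' *
        R true true true i l x' y' =
      ∑ i, ∑ j, ∑ l, R true true true y w i j * R true true true x i x' l *
        R true true true l j y' w'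
  sk1 : ∀ a x y x' y', v⁻¹ * R true a a x y x' y' - v * R false a a x y x' y' =
    z * if x = x' ∧ y = y' then 1 else 0
  sk2 : ∀ a x y x' y', v⁻¹ * R false a (!a) x y x' y' - v * R true a (!a) x y x' y' =
    z * if x = y ∧ x' = y' then k (!a) x' / k (!a) x else 0

end Pool.Agent.Lib.MP_140c34_gt.Arb
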