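import Pool.Agent.Lib.MP_140c34_gt.Arb.Kit

/-! Wide maxima: an arc that crosses `k` strands, and how it moves down through a word. -/

namespace Pool.Agent.Lib.MP_140c34_gt.Arb

open Gen

/-- Weight of a word: three for a crossing, one for an extremum. -/
def wt : List Gen → ℕ
  | [] => 0
  | crs _ _ :: w => wt w + 3
  | _ :: w => wt w + 1

theorem wt_append (u v : List Gen) : wt (u ++ v) = wt u + wt v := by
  induction u with
  | nil => simp [wt]
  | cons g u ih => cases g <;> simp [wt, ih] <;> omega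

/-- The left leg `i` crosses `k` strands to the right and meets the right leg `i + k + 1`. -/
def wc (t : Bool) : ℕ → ℕ → List Gen
  | i, 0 => [cap i]
  | i, k + 1 => crs t i :: wc t (i + 1) k

/-- The right leg crosses `k` strands to the left and meets the left leg `i`. -/
def wr (t : Bool) (i : ℕ) : ℕ → List Gen
  | 0 => [cap i]
  | k + 1 => crs t (i + k + 1) :: wr t i k

theorem wt_wc (t : Bool) (i k : ℕ) : wt (wc t i k) = 3 * k + 1 := by
  induction k generalizing i with
  | zero => rfl
  | succ k ih => simp [wc, wt, ih]; omega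

theorem wt_wr (t : Bool) (i k : ℕ) : wt (wr t i k) = 3 * k + 1 := by
  induction k with
  | zero => rfl
  | succ k ih => simp [wr, wt, ih]; omega

theorem Eqv.cons {n : ℤ} (g : Gen) {a b : List Gen} (h : Eqv (n + g.out - g.inn) a b) :
    Eqv n (g :: a) (g :: b) := Eqv.pre [g] h

theorem Move.head {n : ℤ} {a b : List Gen} (h : Move n a b) (w : List Gen) :
    Eqv n (a ++ w) (b ++ w) := h.eqv.post w

/-- Two crossings far from each other commute. -/
theorem crs_comm (n : ℤ) (s t : Bool) {i j : ℕ} (h : i + 2 ≤ j) (w : List Gen) :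
    Eqv n (crs s i :: crs t j :: w) (crs t j :: crs s i :: w) := by
  obtain ⟨d, rfl⟩ := Nat.exists_eq_add_of_le h
  have := (Move.comm (n := n) (crs s i) (crs t d)).head w
  simpa [Gen.up, Gen.pos, Gen.out, Gen.inn, Nat.add_comm d] using this

theorem cup_comm (n : ℤ) (s : Bool) {i j : ℕ} (h : i + 2 ≤ j) (w : List Gen) :
    Eqv n (crs s i :: cup j :: w) (cup j :: crs s i :: w) := by
  obtain ⟨d, rfl⟩ := Nat.exists_eq_add_of_le h
  have := (Move.comm (n := n) (crs s i) (cup d)).head w
  simpa [Gen.up, Gen.pos, Gen.out, Gen.inn, Nat.add_comm d] using this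

theorem wc_wr_aux (n : ℤ) (t : Bool) (i k : ℕ) :
    Eqv n (crs t i :: wr (!t) (i + 1) k) (wr (!t) i (k + 1)) := by
  induction k generalizing n with
  | zero => exact (Move.slideCap t i).eqv
  | succ k ih =>
    rw [wr, wr, show i + 1 + k + 1 = i + (k + 1) + 1 by omega]
    exact (crs_comm n t (!t) (by omega) _).tr (Eqv.cons _ (ih _))

theorem wc_wr (n : ℤ) (t : Bool) (i k : ℕ) : Eqv n (wc t i k) (wr (!t) i k) := by
  induction k generalizing n i with
  | zero => exact Eqv.rfl'
  | succ k ih => exact (Eqv.cons _ (ih _ _)).tr (wc_wr_aux n t i k)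

/-- A piece to the left of a wide maximum. -/
theorem wc_left (n : ℤ) (t : Bool) (g : Gen) (d k : ℕ) :
    Eqv n (g :: wc t (d + (g.pos + g.out)) k) (wc t (d + (g.pos + g.inn)) k ++ [g]) := by
  induction k generalizing n d with
  | zero => exact (Move.comm g (cap d)).eqv
  | succ k ih =>
    have h1 := (Move.comm (n := n) g (crs t d)).head (wc t (d + (g.pos + g.out) + 1) k)
    have h2 := ih (n + (crs t (d + (g.pos + g.inn))).out - (crs t (d + (g.pos + g.inn))).inn)
      (d + 1)
    rw [Nat.add_right_comm d 1, Nat.add_right_comm d 1] at h2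
    exact h1.tr (Eqv.cons _ h2)

theorem ty_wc (t : Bool) (i k : ℕ) : Ty (i + k + 2) (wc t i k) (i + k) := by
  induction k generalizing i with
  | zero => exact .cons (le_refl _) (.nil _)
  | succ k ih =>
    refine .cons (by simp [Gen.pos, Gen.inn]) ?_
    have := ih (i + 1)
    rw [show i + 1 + k = i + (k + 1) by omega] at this
    exact this

theorem ty_wr (t : Bool) (i k : ℕ) : Ty (i + k + 2) (wr t i k) (i + k) := by
  induction k with
  | zero => exact .cons (le_refl _) (.nil _)
  | succ k ih =>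
    refine .cons (by simp [Gen.pos, Gen.inn]) ?_
    have := ih.up 0 1 (by decide)
    rw [map_up_zero] at this
    exact this

/-- A piece to the right of a wide maximum. -/
theorem wc_right (n : ℤ) (t : Bool) (h : Gen) (i k : ℕ) :
    Eqv n (h.up (i + k + 2) :: wc t i k) (wc t i k ++ [h.up (i + k)]) :=
  ((ty_wc t i k).comm1 n h).sy

/-- The arc passes a crossing of two inner strands. -/
theorem wc_pass (n : ℤ) (t : Bool) (i d e : ℕ) :
    Eqv n (crs t (i + d + 1) :: wc t i (d + e + 2)) (wc t i (d + e + 2) ++ [crs t (i + d)]) := by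
  induction d generalizing n i with
  | zero =>
    simp only [Nat.add_zero, Nat.zero_add, wc]
    have h1 := ((Move.r3 (n := n) t i).head (wc t (i + 1 + 1) e)).sy
    refine h1.tr (Eqv.cons _ (Eqv.cons _ ?_))
    have := wc_left (n + (crs t i).out - (crs t i).inn + (crs t (i + 1)).out - (crs t (i + 1)).inn)
      t (crs t i) 0 e
    simpa [Gen.pos, Gen.out, Gen.inn] using this
  | succ d ih =>
    rw [show d + 1 + e + 2 = d + e + 2 + 1 by omega, wc]
    refine (crs_comm n t t (by omega) _).sy.tr (Eqv.cons _ ?_)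
    have := ih (n + (crs t i).out - (crs t i).inn) (i + 1)
    rw [show i + 1 + d = i + (d + 1) by omega] at this
    exact this

/-- The arc meets a minimum that makes two inner strands. -/
theorem wc_cup_in (n : ℤ) (t : Bool) (i d e : ℕ) (hn : (i : ℤ) + d + 1 ≤ n) :
    ∃ Z, Eqv n (cup (i + d + 1) :: wc t i (d + e + 2)) Z ∧ wt Z < 3 * (d + e + 2) := by
  induction d generalizing i with
  | zero =>
    simp only [Nat.add_zero, Nat.zero_add, wc]
    refine ⟨cup i :: wc t (i + 1 + 1) e, ?_, by simp [wt, wt_wc]; omega⟩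
    refine ((Move.slideCup (n := n) t i).head _).tr (Eqv.cons _ ?_)
    have := (Move.r2 (n := n + (cup i).out - (cup i).inn) (!t) (i + 1)
      (by simp [Gen.out, Gen.inn]; omega)).head (wc t (i + 1 + 1) e)
    simpa using this
  | succ d ih =>
    obtain ⟨Z, hZ, hw⟩ := ih (i + 1) (by push_cast at hn ⊢; omega)
    rw [show d + 1 + e + 2 = d + e + 2 + 1 by omega, wc]
    refine ⟨crs t i :: Z, ?_, by simp [wt]; omega⟩
    refine (cup_comm n t (by omega) _).sy.tr (Eqv.cons _ ?_)
    rw [show i + 1 + d = i + (d + 1) by omega] at hZ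
    simpa [Gen.out, Gen.inn] using hZ

/-- The left leg comes from a minimum on the left. -/
theorem wc_zigR (n : ℤ) (t : Bool) (j k : ℕ) (hn : (j : ℤ) + k < n) :
    ∃ Z, Eqv n (cup j :: wc t (j + 1) k) Z ∧ wt Z ≤ 3 * k := by
  induction k generalizing j with
  | zero => exact ⟨[], (Move.zigR j (by simpa using hn)).eqv, le_rfl⟩
  | succ k ih =>
    obtain ⟨Z, hZ, hw⟩ := ih (j + 1) (by push_cast at hn ⊢; omega)
    refine ⟨Z ++ [crs (!t) j], ?_, by simp [wt_append, wt]; omega⟩
    have h1 := ((Move.slideCup (n := n) (!t) j).head (wc t (j + 1 + 1) k)).sy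
    rw [Bool.not_not] at h1
    have h2 := wc_left (n + (cup (j + 1)).out - (cup (j + 1)).inn) t (crs (!t) j) 0 k
    simp only [Gen.pos, Nat.zero_add] at h2
    exact h1.tr ((Eqv.cons _ h2).tr (hZ.post [crs (!t) j]))

/-- The right leg comes from a minimum on the right. -/
theorem wr_zigL (n : ℤ) (t : Bool) (i k : ℕ) (hn : (i : ℤ) < n) :
    ∃ Z, Eqv n (cup (i + k + 1) :: wr t i k) Z ∧ wt Z ≤ 3 * k := by
  induction k with
  | zero => exact ⟨[], (Move.zigL i hn).eqv, le_rfl⟩
  | succ k ih =>
    obtain ⟨Z, hZ, hw⟩ := ih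
    refine ⟨Z ++ [crs (!t) (i + k)], ?_, by simp [wt_append, wt]; omega⟩
    have h1 := (Move.slideCup (n := n) t (i + k + 1)).head (wr t i k)
    have h2 := ((ty_wr t i k).comm1
      (n + (cup (i + k + 1)).out - (cup (i + k + 1)).inn) (crs (!t) 0)).sy
    simp only [Gen.up, Nat.zero_add] at h2
    exact h1.tr ((Eqv.cons _ h2).tr (hZ.post [crs (!t) (i + k)]))

/-- The same piece with a prescribed sign. -/
def sgn (s : Bool) : Gen → Gen
  | crs _ j => crs s j
  | x => x

/-- What happens when a wide maximum meets the piece below it. -/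
inductive Meet (n : ℤ) (g : Gen) (i k : ℕ) : Prop
  | small (s : Bool) (Z : List Gen) :
      Eqv n (sgn s g :: wc true i k) Z → wt Z < wt (g :: wc true i k) → Meet n g i k
  | down (s : Bool) (i' k' : ℕ) (Z : List Gen) :
      Eqv n (sgn s g :: wc true i k) (wc true i' k' ++ Z) →
      wt (wc true i' k' ++ Z) = wt (g :: wc true i k) → Meet n g i k
  | circle : g = cup i → k = 0 → Meet n g i k

theorem meet_crs (n : ℤ) (s : Bool) (j i k : ℕ) (hj : (j : ℤ) + 2 ≤ n) : Meet n (crs s j) i k := by
  rcases lt_trichotomy (j + 1) i with h | h | h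
  · obtain ⟨d, rfl⟩ : ∃ d, i = d + (j + 2) := ⟨i - (j + 2), by omega⟩
    exact .down s _ k _ (wc_left n true (crs s j) d k) (by simp [wt_append, wt, wt_wc])
  · subst h
    exact .down true j (k + 1) [] (Eqv.of_eq (by simp [wc, sgn])) (by simp [wt, wt_wc]; omega)
  rcases Nat.eq_or_lt_of_le (Nat.lt_succ_iff.mp h) with h | h
  · subst h
    cases k with
    | zero => exact .small s _ (Move.r1Cap s i).eqv (by simp [wt, wc])
    | succ k =>
      exact .small false _ ((Move.r2 false i (by omega)).head (wc true (i + 1) k))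
        (by simp [wt, wt_wc]; omega)
  rcases lt_trichotomy j (i + k) with h1 | h1 | h1
  · obtain ⟨d, rfl⟩ : ∃ d, j = i + d + 1 := ⟨j - i - 1, by omega⟩
    obtain ⟨e, rfl⟩ : ∃ e, k = d + e + 2 := ⟨k - d - 2, by omega⟩
    exact .down true _ _ _ (wc_pass n true i d e) (by simp [wt_append, wt, wt_wc])
  · obtain ⟨k, rfl⟩ : ∃ e, k = e + 1 := ⟨k - 1, by omega⟩
    subst h1
    refine .small true (wr false i k) ((Eqv.cons _ (wc_wr _ true i (k + 1))).tr ?_)
      (by simp [wt, wt_wc, wt_wr]; omega)
    exact (Move.r2 true (i + (k + 1)) (by omega)).head (wr false i k)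
  rcases Nat.eq_or_lt_of_le (Nat.succ_le_of_lt h1) with h2 | h2
  · subst h2
    refine .down false i (k + 1) [] ((Eqv.cons _ (wc_wr _ true i k)).tr ?_)
      (by simp [wt, wt_wc]; omega)
    rw [List.append_nil]
    exact (wc_wr n true i (k + 1)).sy
  · obtain ⟨d, rfl⟩ : ∃ d, j = d + (i + k + 2) := ⟨j - (i + k + 2), by omega⟩
    exact .down s _ _ _ (wc_right n true (crs s d) i k) (by simp [wt_append, wt, wt_wc, Gen.up])

theorem meet_cup (n : ℤ) (j i k : ℕ) (hj : (j : ℤ) ≤ n) (hi : (i : ℤ) + k ≤ n) :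
    Meet n (cup j) i k := by
  rcases lt_trichotomy (j + 1) i with h | h | h
  · obtain ⟨d, rfl⟩ : ∃ d, i = d + (j + 2) := ⟨i - (j + 2), by omega⟩
    exact .down true _ k _ (wc_left n true (cup j) d k) (by simp [wt_append, wt, wt_wc])
  · subst h
    obtain ⟨Z, hZ, hw⟩ := wc_zigR n true j k (by push_cast at hi; omega)
    exact .small true Z hZ (by simp [wt, wt_wc]; omega)
  rcases Nat.eq_or_lt_of_le (Nat.lt_succ_iff.mp h) with h | h
  · subst h
    cases k with
    | zero => exact .circle rfl rfl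
    | succ k =>
      exact .small true _ ((Move.r1Cup true i).head (wc true (i + 1) k))
        (by simp [wt, wt_wc])
  rcases lt_trichotomy j (i + k) with h1 | h1 | h1
  · obtain ⟨d, rfl⟩ : ∃ d, j = i + d + 1 := ⟨j - i - 1, by omega⟩
    obtain ⟨e, rfl⟩ : ∃ e, k = d + e + 2 := ⟨k - d - 2, by omega⟩
    obtain ⟨Z, hZ, hw⟩ := wc_cup_in n true i d e (by push_cast at hj; omega)
    exact .small true Z hZ (by simp [wt, wt_wc]; omega)
  · obtain ⟨k, rfl⟩ : ∃ e, k = e + 1 := ⟨k - 1, by omega⟩
    subst h1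
    refine .small true (cup (i + (k + 1)) :: wr false i k)
      ((Eqv.cons _ (wc_wr _ true i (k + 1))).tr ?_) (by simp [wt, wt_wc, wt_wr])
    exact (Move.r1Cup false (i + (k + 1))).head (wr false i k)
  rcases Nat.eq_or_lt_of_le (Nat.succ_le_of_lt h1) with h2 | h2
  · subst h2
    obtain ⟨Z, hZ, hw⟩ := wr_zigL n false i k (by push_cast at hj; omega)
    exact .small true Z ((Eqv.cons _ (wc_wr _ true i k)).tr hZ) (by simp [wt, wt_wc]; omega)
  · obtain ⟨d, rfl⟩ : ∃ d, j = d + (i + k + 2) := ⟨j - (i + k + 2), by omega⟩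
    exact .down true _ _ _ (wc_right n true (cup d) i k) (by simp [wt_append, wt, wt_wc, Gen.up])

end Pool.Agent.Lib.MP_140c34_gt.Arb
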