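import Pool.Agent.Lib.MP_140c34_gt.Arb.Defs

/-! Oriented link diagrams in Morse position, the HOMFLYPT polynomial and its Jones
specialisation. -/

namespace Pool.Agent.Lib.MP_140c34_gt.Arb

/-- One level of an oriented diagram. A minimum carries the direction of its left strand
(`true`: upwards); all other directions follow along the strands. -/
inductive OGen
  | cup (b : Bool) (i : ℕ)
  | cap (i : ℕ)
  | crs (s : Bool) (i : ℕ)

/-- The unoriented piece. -/
def OGen.forget : OGen → Gen
  | cup _ i => .cup i
  | cap i => .cap i
  | crs s i => .crs s i

/-- Directions of the strands above a piece, from the directions below it; `none` if the piece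
does not fit. -/
def OGen.step : OGen → List Bool → Option (List Bool)
  | cup b i, L => if i ≤ L.length then some (L.take i ++ b :: (!b) :: L.drop i) else none
  | cap i, L => match L.drop i with
    | a :: b :: S => if a = b then none else some (L.take i ++ S)
    | _ => none
  | crs _ i, L => match L.drop i with
    | a :: b :: S => some (L.take i ++ b :: a :: S)
    | _ => none

/-- Directions at the top of a word. `dirs D [] = some []` says that `D` is an oriented link
diagram. -/
def dirs : List OGen → List Bool → Option (List Bool)
  | [], L => some L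
  | g :: w, L => (g.step L).bind (dirs w)

/-- The monomial `v ^ a z ^ b` of `ℤ[v^±1, z^±1]`. -/
noncomputable def vz (a b : ℤ) : AddMonoidAlgebra ℤ (ℤ × ℤ) := AddMonoidAlgebra.single (a, b) 1

/-- `P` is `1` on the circle, does not change under a local move that keeps the directions at the
ends of the moved part, and satisfies the skein relation. At a crossing of strands with the
directions `a`, `b` the positive crossing is `crs (a == b)`. -/
structure IsHomflypt (P : List OGen → AddMonoidAlgebra ℤ (ℤ × ℤ)) : Prop where
  circle : ∀ b, P [.cup b 0, .cap 0] = 1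
  move : ∀ u x y w L M, dirs u [] = some L → dirs x L = some M → dirs y L = some M →
    dirs w M = some [] → Move L.length (x.map OGen.forget) (y.map OGen.forget) →
    P (u ++ x ++ w) = P (u ++ y ++ w)
  skein : ∀ u w L a b S, dirs u [] = some (L ++ a :: b :: S) →
    dirs w (L ++ b :: a :: S) = some [] →
    vz (-1) 0 * P (u ++ [.crs (a == b) L.length] ++ w) -
        vz 1 0 * P (u ++ [.crs (a != b) L.length] ++ w) =
      vz 0 1 * P (u ++ (if a = b then [] else [.cap L.length, .cup b L.length]) ++ w)

/-- The substitution `v = t`, `z = t^(1/2) - t^(-1/2)` with `t = X^(-4)`. -/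
noncomputable def jones (f : AddMonoidAlgebra ℤ (ℤ × ℤ)) : RatFunc ℚ :=
  f.coeff.sum fun m c => (c : RatFunc ℚ) * (RatFunc.X ^ (-4 : ℤ)) ^ m.1 *
    (RatFunc.X ^ (-2 : ℤ) - RatFunc.X ^ (2 : ℤ)) ^ m.2

end Pool.Agent.Lib.MP_140c34_gt.Arb
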