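import Pool.Agent.Lib.MP_140c34_gt.Arb.ExB
import Pool.Agent.Lib.MP_140c34_gt.Arb.Ori

/-! Orientations follow along moves. -/

namespace Pool.Agent.Lib.MP_140c34_gt.Arb

/-- The same oriented piece further to the right. -/
def OGen.sh (k : ℕ) : OGen → OGen
  | .cup b i => .cup b (i + k)
  | .cap i => .cap (i + k)
  | .crs s i => .crs s (i + k)

theorem step_sh (g : OGen) (A T : List Bool) :
    (g.sh A.length).step (A ++ T) = (g.step T).map (A ++ ·) := by
  have e1 : ∀ i, (A ++ T).take (i + A.length) = A ++ T.take i := fun i => by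
    rw [Nat.add_comm, List.take_length_add_append]
  have e2 : ∀ i, (A ++ T).drop (i + A.length) = T.drop i := fun i => by
    rw [Nat.add_comm, List.drop_length_add_append]
  cases g with
  | cup b i =>
    simp only [OGen.sh, OGen.step, e1, e2, List.length_append]
    by_cases h : i ≤ T.length
    · rw [if_pos h, if_pos (by omega)]; simp
    · rw [if_neg h, if_neg (by omega)]; rfl
  | cap i =>
    simp only [OGen.sh, OGen.step, e1, e2]
    rcases T.drop i with _ | ⟨a, _ | ⟨b, S⟩⟩ <;> simp
    split_ifs <;> simp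
  | crs s i =>
    simp only [OGen.sh, OGen.step, e1, e2]
    rcases T.drop i with _ | ⟨a, _ | ⟨b, S⟩⟩ <;> simp

theorem dirs_sh (x : List OGen) (A T : List Bool) :
    dirs (x.map (OGen.sh A.length)) (A ++ T) = (dirs x T).map (A ++ ·) := by
  induction x generalizing T with
  | nil => rfl
  | cons g x ih =>
    simp only [List.map_cons, dirs, step_sh]
    cases g.step T with
    | none => rfl
    | some M => simp [ih]

theorem dirs_app67 (u w : List OGen) (L : List Bool) :
    dirs (u ++ w) L = (dirs u L).bind (dirs w) := by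
  induction u generalizing L with
  | nil => rfl
  | cons g u ih =>
    simp only [List.cons_append, dirs]
    cases g.step L with
    | none => rfl
    | some M => simp [ih]

theorem step_fit {g : OGen} {L M : List Bool} (h : g.step L = some M) :
    g.forget.pos + g.forget.inn ≤ L.length ∧
      M.length + g.forget.inn = L.length + g.forget.out := by
  have key : ∀ {i a b S}, L.drop i = a :: b :: S →
      i + 2 ≤ L.length ∧ S.length + 2 + i = L.length := fun {i a b S} e => by
    have := congrArg List.length e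
    simp only [List.length_drop, List.length_cons] at this
    omega
  cases g with
  | cup b i =>
    simp only [OGen.step] at h
    split_ifs at h with h1
    obtain rfl := Option.some.inj h
    simp [OGen.forget, Gen.pos, Gen.inn, Gen.out, h1]
    omega
  | cap i =>
    simp only [OGen.step] at h
    split at h
    · rename_i a b S e
      have := key e
      split_ifs at h
      obtain rfl := Option.some.inj h
      simp [OGen.forget, Gen.pos, Gen.inn, Gen.out]
      omega
    · exact absurd h (by simp)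
  | crs s i =>
    simp only [OGen.step] at h
    split at h
    · rename_i a b S e
      have := key e
      obtain rfl := Option.some.inj h
      simp [OGen.forget, Gen.pos, Gen.inn, Gen.out]
      omega
    · exact absurd h (by simp)

theorem dirs_width {u : List OGen} {L M : List Bool} (h : dirs u L = some M) :
    width L.length (u.map OGen.forget) = M.length := by
  induction u generalizing L with
  | nil => obtain rfl := Option.some.inj h; rfl
  | cons g u ih =>
    simp only [dirs] at h
    obtain ⟨K, h1, h2⟩ := Option.bind_eq_some_iff.mp h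
    have := (step_fit h1).2
    rw [List.map_cons, width, ← ih h2]
    congr 1
    omega

/-- Directions given to the minima of a word. -/
def ori : List Gen → (ℕ → Bool) → List OGen
  | [], _ => []
  | .cup i :: w, β => .cup (β 0) i :: ori w fun n => β (n + 1)
  | .cap i :: w, β => .cap i :: ori w β
  | .crs s i :: w, β => .crs s i :: ori w β

theorem forget_ori (w : List Gen) (β : ℕ → Bool) : (ori w β).map OGen.forget = w := by
  induction w generalizing β with
  | nil => rfl
  | cons g w ih => cases g <;> simp [ori, OGen.forget, ih]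

theorem exists_ori (x : List OGen) : ∃ β, x = ori (x.map OGen.forget) β := by
  induction x with
  | nil => exact ⟨fun _ => true, rfl⟩
  | cons g x ih =>
    obtain ⟨β, h⟩ := ih
    cases g with
    | cup b i =>
      refine ⟨fun n => match n with | 0 => b | m + 1 => β m, ?_⟩
      exact congrArg (OGen.cup b i :: ·) h
    | cap i => exact ⟨β, by simp only [List.map_cons, OGen.forget, ori]; rw [← h]⟩
    | crs s i => exact ⟨β, by simp only [List.map_cons, OGen.forget, ori]; rw [← h]⟩

theorem ori_up (w : List Gen) (β : ℕ → Bool) (k : ℕ) :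
    ori (w.map (Gen.up k)) β = (ori w β).map (OGen.sh k) := by
  induction w generalizing β with
  | nil => rfl
  | cons g w ih => cases g <;> simp [ori, Gen.up, OGen.sh, ih]

/-- Every orientation of `x` on `L` has a partner on `y` with the same directions at the top. -/
def Lift (x y : List Gen) (L : List Bool) : Prop :=
  ∀ β M, dirs (ori x β) L = some M → ∃ γ, dirs (ori y γ) L = some M

theorem Lift.up {x y x' y' : List Gen} {L : List Bool} (i : ℕ) (hx : x' = x.map (Gen.up i))
    (hy : y' = y.map (Gen.up i)) (h : Lift x y (L.drop i))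
    (hi : (∃ g w, x = g :: w) ∨ i ≤ L.length) : Lift x' y' L := by
  subst hx hy
  intro β M hd
  have hi : i ≤ L.length := by
    rcases hi with ⟨g, w, rfl⟩ | hi
    · cases g <;>
      · simp only [List.map_cons, Gen.up, ori, dirs] at hd
        obtain ⟨K, h1, -⟩ := Option.bind_eq_some_iff.mp hd
        have := (step_fit h1).1
        simp only [OGen.forget, Gen.pos] at this
        omega
    · exact hi
  have e : (L.take i).length = i := by simp [hi]
  have k : ∀ z : List OGen, dirs (z.map (OGen.sh i)) L = (dirs z (L.drop i)).map (L.take i ++ ·) :=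
    fun z => by
      have := dirs_sh z (L.take i) (L.drop i)
      rwa [e, List.take_append_drop] at this
  rw [ori_up, k] at hd
  obtain ⟨K, h1, h2⟩ := Option.map_eq_some_iff.mp hd
  obtain ⟨γ, hγ⟩ := h β K h1
  exact ⟨γ, by rw [ori_up, k, hγ]; exact congrArg some h2⟩

theorem step_sh2 (g : OGen) (a b : Bool) (T : List Bool) :
    (g.sh 2).step (a :: b :: T) = (g.step T).map (a :: b :: ·) := step_sh g [a, b] T

theorem sh_zero (g : OGen) : g.sh 0 = g := by cases g <;> rfl

theorem step_cup0 (b : Bool) (T : List Bool) :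
    (OGen.cup b 0).step T = some (b :: (!b) :: T) := by simp [OGen.step]

theorem step_cap0 (a b : Bool) (T : List Bool) :
    (OGen.cap 0).step (a :: b :: T) = if a = b then none else some T := by simp [OGen.step]

theorem step_crs0 (s a b : Bool) (T : List Bool) :
    (OGen.crs s 0).step (a :: b :: T) = some (b :: a :: T) := by simp [OGen.step]

theorem comm_cup (h : OGen) (b : Bool) (T : List Bool) :
    dirs [.cup b 0, h.sh 2] T = dirs [h, .cup b 0] T := by
  cases e : h.step T <;> simp [dirs, step_cup0, step_sh2, e]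

theorem comm_cap (h : OGen) (T M : List Bool) :
    dirs [.cap 0, h] T = some M ↔ dirs [h.sh 2, .cap 0] T = some M := by
  rcases T with _ | ⟨a, _ | ⟨b, T⟩⟩
  · cases h <;> simp [dirs, OGen.step, OGen.sh]
  · cases h <;> simp [dirs, OGen.step, OGen.sh]
  · cases e : h.step T <;> by_cases hab : a = b <;> simp [dirs, step_sh2, e, hab, step_cap0]

theorem comm_crs (h : OGen) (s : Bool) (T M : List Bool) :
    dirs [.crs s 0, h.sh 2] T = some M ↔ dirs [h.sh 2, .crs s 0] T = some M := by
  rcases T with _ | ⟨a, _ | ⟨b, T⟩⟩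
  · cases h <;> simp [dirs, OGen.step, OGen.sh]
  · cases h <;> simp [dirs, OGen.step, OGen.sh]
  · cases e : h.step T <;> simp [dirs, step_sh2, e, step_crs0]

theorem lift_comm0 (g h : Gen) (hg : g.pos = 0) (T : List Bool) :
    Lift [g, h.up g.out] [h.up g.inn, g] T ∧ Lift [h.up g.inn, g] [g, h.up g.out] T := by
  cases g with
  | cup i =>
    obtain rfl : i = 0 := hg
    cases h with
    | cup j =>
      exact ⟨fun β M e => ⟨fun n => β (1 - n), (comm_cup (.cup (β 1) j) (β 0) T).symm.trans e⟩,
        fun β M e => ⟨fun n => β (1 - n), (comm_cup (.cup (β 0) j) (β 1) T).trans e⟩⟩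
    | cap j =>
      exact ⟨fun β M e => ⟨β, (comm_cup (.cap j) (β 0) T).symm.trans e⟩,
        fun β M e => ⟨β, (comm_cup (.cap j) (β 0) T).trans e⟩⟩
    | crs s j =>
      exact ⟨fun β M e => ⟨β, (comm_cup (.crs s j) (β 0) T).symm.trans e⟩,
        fun β M e => ⟨β, (comm_cup (.crs s j) (β 0) T).trans e⟩⟩
  | cap i =>
    obtain rfl : i = 0 := hg
    cases h with
    | cup j =>
      exact ⟨fun β M e => ⟨β, (comm_cap (.cup (β 0) j) T M).1 e⟩,
        fun β M e => ⟨β, (comm_cap (.cup (β 0) j) T M).2 e⟩⟩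
    | cap j =>
      exact ⟨fun β M e => ⟨β, (comm_cap (.cap j) T M).1 e⟩,
        fun β M e => ⟨β, (comm_cap (.cap j) T M).2 e⟩⟩
    | crs s j =>
      exact ⟨fun β M e => ⟨β, (comm_cap (.crs s j) T M).1 e⟩,
        fun β M e => ⟨β, (comm_cap (.crs s j) T M).2 e⟩⟩
  | crs t i =>
    obtain rfl : i = 0 := hg
    cases h with
    | cup j =>
      exact ⟨fun β M e => ⟨β, (comm_crs (.cup (β 0) j) t T M).1 e⟩,
        fun β M e => ⟨β, (comm_crs (.cup (β 0) j) t T M).2 e⟩⟩
    | cap j =>
      exact ⟨fun β M e => ⟨β, (comm_crs (.cap j) t T M).1 e⟩,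
        fun β M e => ⟨β, (comm_crs (.cap j) t T M).2 e⟩⟩
    | crs s j =>
      exact ⟨fun β M e => ⟨β, (comm_crs (.crs s j) t T M).1 e⟩,
        fun β M e => ⟨β, (comm_crs (.crs s j) t T M).2 e⟩⟩

theorem lift_move {L : List Bool} {x y : List Gen} (h : Move L.length x y) :
    Lift x y L ∧ Lift y x L := by
  have two : ∀ (i : ℕ) (x0 y0 : List Gen), x = x0.map (Gen.up i) → y = y0.map (Gen.up i) →
      ((∃ g w, x0 = g :: w) ∧ (∃ g w, y0 = g :: w) ∨ i ≤ L.length) →
      Lift x0 y0 (L.drop i) ∧ Lift y0 x0 (L.drop i) → Lift x y L ∧ Lift y x L :=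
    fun i x0 y0 hx hy hi k => ⟨Lift.up i hx hy k.1 (hi.imp_left And.left),
      Lift.up i hy hx k.2 (hi.imp_left And.right)⟩
  have len : ∀ i, (L.drop i).length = L.length - i := fun i => List.length_drop
  cases h with
  | zigL i h =>
    refine two i [.cup 1, .cap 0] [] (by simp [Gen.up, Nat.add_comm]) rfl (.inr (by omega)) ?_
    have := len i
    rcases e : L.drop i with _ | ⟨a, T⟩
    · rw [e] at this; simp at this; omega
    · constructor
      · intro β M
        cases a <;> cases hb : β 0 <;> simp [ori, dirs, OGen.step, hb]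
      · intro β M k
        refine ⟨fun _ => !a, ?_⟩
        cases a <;> simpa [ori, dirs, OGen.step] using k
  | zigR i h =>
    refine two i [.cup 0, .cap 1] [] (by simp [Gen.up, Nat.add_comm]) rfl (.inr (by omega)) ?_
    have := len i
    rcases e : L.drop i with _ | ⟨a, T⟩
    · rw [e] at this; simp at this; omega
    · constructor
      · intro β M
        cases a <;> cases hb : β 0 <;> simp [ori, dirs, OGen.step, hb]
      · intro β M k
        refine ⟨fun _ => a, ?_⟩
        cases a <;> simpa [ori, dirs, OGen.step] using k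
  | slideCup s i =>
    refine two i [.cup 1, .crs s 0] [.cup 0, .crs (!s) 1] (by simp [Gen.up, Nat.add_comm])
      (by simp [Gen.up, Nat.add_comm]) (.inl ⟨⟨_, _, rfl⟩, ⟨_, _, rfl⟩⟩) ?_
    rcases L.drop i with _ | ⟨a, T⟩ <;> refine ⟨fun β M k => ⟨β, ?_⟩, fun β M k => ⟨β, ?_⟩⟩ <;>
      simpa [ori, dirs, OGen.step] using k
  | slideCap s i =>
    refine two i [.crs s 0, .cap 1] [.crs (!s) 1, .cap 0] (by simp [Gen.up, Nat.add_comm])
      (by simp [Gen.up, Nat.add_comm]) (.inl ⟨⟨_, _, rfl⟩, ⟨_, _, rfl⟩⟩) ?_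
    rcases L.drop i with _ | ⟨a, _ | ⟨b, _ | ⟨c, T⟩⟩⟩ <;>
      refine ⟨fun β M k => ⟨β, ?_⟩, fun β M k => ⟨β, ?_⟩⟩ <;>
      simpa [ori, dirs, OGen.step] using k
  | comm g h =>
    obtain ⟨g0, h0, hp, rfl⟩ : ∃ g0 : Gen, ∃ p, g0.pos = 0 ∧ g = g0.up p := by
      cases g with
      | cup i => exact ⟨.cup 0, i, rfl, by simp [Gen.up]⟩
      | cap i => exact ⟨.cap 0, i, rfl, by simp [Gen.up]⟩
      | crs s i => exact ⟨.crs s 0, i, rfl, by simp [Gen.up]⟩
    exact two h0 [g0, h.up g0.out] [h.up g0.inn, g0] (by simp [up_up, hp, Nat.add_comm])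
      (by simp [up_up, hp, Nat.add_comm]) (.inl ⟨⟨_, _, rfl⟩, ⟨_, _, rfl⟩⟩)
      (lift_comm0 g0 h hp _)
  | r1Cup s i =>
    refine two i [.cup 0, .crs s 0] [.cup 0] (by simp [Gen.up]) (by simp [Gen.up])
      (.inl ⟨⟨_, _, rfl⟩, ⟨_, _, rfl⟩⟩) ?_
    refine ⟨fun β M k => ⟨fun _ => !β 0, ?_⟩, fun β M k => ⟨fun _ => !β 0, ?_⟩⟩ <;>
      simpa [ori, dirs, OGen.step] using k
  | r1Cap s i =>
    refine two i [.crs s 0, .cap 0] [.cap 0] (by simp [Gen.up]) (by simp [Gen.up])
      (.inl ⟨⟨_, _, rfl⟩, ⟨_, _, rfl⟩⟩) ?_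
    rcases L.drop i with _ | ⟨a, _ | ⟨b, T⟩⟩ <;>
      refine ⟨fun β M k => ⟨β, ?_⟩, fun β M k => ⟨β, ?_⟩⟩ <;>
      simpa [ori, dirs, OGen.step, eq_comm] using k
  | r2 s i h =>
    refine two i [.crs s 0, .crs (!s) 0] [] (by simp [Gen.up]) rfl (.inr (by omega)) ?_
    have := len i
    rcases e : L.drop i with _ | ⟨a, _ | ⟨b, T⟩⟩
    · rw [e] at this; simp at this; omega
    · rw [e] at this; simp at this; omega
    · refine ⟨fun β M k => ⟨β, ?_⟩, fun β M k => ⟨β, ?_⟩⟩ <;>
        simpa [ori, dirs, OGen.step] using k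
  | r3 s i =>
    refine two i [.crs s 0, .crs s 1, .crs s 0] [.crs s 1, .crs s 0, .crs s 1]
      (by simp [Gen.up, Nat.add_comm]) (by simp [Gen.up, Nat.add_comm])
      (.inl ⟨⟨_, _, rfl⟩, ⟨_, _, rfl⟩⟩) ?_
    rcases L.drop i with _ | ⟨a, _ | ⟨b, _ | ⟨c, T⟩⟩⟩ <;>
      refine ⟨fun β M k => ⟨β, ?_⟩, fun β M k => ⟨β, ?_⟩⟩ <;>
      simpa [ori, dirs, OGen.step] using k

end Pool.Agent.Lib.MP_140c34_gt.Arb
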