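import Pool.Agent.Lib.MP_140c34_gt.Arb.ExC

/-! Every oriented link diagram is reached from the circle by moves and skein triples. -/

namespace Pool.Agent.Lib.MP_140c34_gt.Arb

open Gen

/-- The oriented smoothing of a crossing of strands with the directions `a`, `b`. -/
def smo (a b : Bool) (i : ℕ) : List OGen := if a = b then [] else [.cap i, .cup b i]

/-- A class of diagrams closed under moves and under solving the skein relation. -/
structure Span (G : List OGen → Prop) : Prop where
  circle : ∀ b, G [.cup b 0, .cap 0]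
  move : ∀ u x y w L M, dirs u [] = some L → dirs x L = some M → dirs y L = some M →
    dirs w M = some [] → Move L.length (x.map OGen.forget) (y.map OGen.forget) →
    (G (u ++ x ++ w) ↔ G (u ++ y ++ w))
  flip : ∀ u w L a b S s, dirs u [] = some (L ++ a :: b :: S) →
    dirs w (L ++ b :: a :: S) = some [] → G (u ++ smo a b L.length ++ w) →
    G (u ++ [.crs s L.length] ++ w) → G (u ++ [.crs (!s) L.length] ++ w)
  smooth : ∀ u w L a b S, dirs u [] = some (L ++ a :: b :: S) →
    dirs w (L ++ b :: a :: S) = some [] → (∀ s, G (u ++ [.crs s L.length] ++ w)) →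
    G (u ++ smo a b L.length ++ w)

/-- All orientations of the word are in the class. -/
def All (G : List OGen → Prop) (W : List Gen) : Prop :=
  ∀ D : List OGen, D.map OGen.forget = W → dirs D [] = some [] → G D

/-- The word has an orientation that makes it a link diagram. -/
def Ok (W : List Gen) : Prop := ∃ D : List OGen, D.map OGen.forget = W ∧ dirs D [] = some []

variable {G : List OGen → Prop}

theorem All.of_ok {W : List Gen} (h : Ok W → All G W) : All G W :=
  fun D h1 h2 => h ⟨D, h1, h2⟩ D h1 h2

theorem step_cup (b : Bool) (L T : List Bool) :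
    (OGen.cup b L.length).step (L ++ T) = some (L ++ b :: (!b) :: T) := by simp [OGen.step]

theorem step_cap (a b : Bool) (L T : List Bool) :
    (OGen.cap L.length).step (L ++ a :: b :: T) = if a = b then none else some (L ++ T) := by
  simp [OGen.step]

theorem step_crs (s a b : Bool) (L T : List Bool) :
    (OGen.crs s L.length).step (L ++ a :: b :: T) = some (L ++ b :: a :: T) := by
  simp [OGen.step]

theorem dirs_smo (a b : Bool) (L S : List Bool) :
    dirs (smo a b L.length) (L ++ a :: b :: S) = some (L ++ b :: a :: S) := by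
  cases a <;> cases b <;> simp [smo, dirs, step_cap, step_cup]

theorem dirs3 {u x w : List OGen} {K L M N : List Bool} (h1 : dirs u K = some L)
    (h2 : dirs x L = some M) (h3 : dirs w M = some N) : dirs (u ++ x ++ w) K = some N := by
  simp [dirs_app67, h1, h2, h3]

theorem split3 {D : List OGen} {u a v : List Gen} (h : D.map OGen.forget = u ++ a ++ v)
    (hd : dirs D [] = some []) : ∃ u' a' v' L M, D = u' ++ a' ++ v' ∧ u'.map OGen.forget = u ∧
      a'.map OGen.forget = a ∧ v'.map OGen.forget = v ∧ dirs u' [] = some L ∧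
      dirs a' L = some M ∧ dirs v' M = some [] ∧ width 0 u = L.length := by
  obtain ⟨x, v', rfl, hx, hv⟩ := List.map_eq_append_iff.mp h
  obtain ⟨u', a', rfl, hu, ha⟩ := List.map_eq_append_iff.mp hx
  rw [dirs_app67, dirs_app67] at hd
  obtain ⟨M, h1, h3⟩ := Option.bind_eq_some_iff.mp hd
  obtain ⟨L, h1, h2⟩ := Option.bind_eq_some_iff.mp h1
  exact ⟨u', a', v', L, M, rfl, hu, ha, hv, h1, h2, h3, hu ▸ dirs_width h1⟩

theorem Ok.fit {u v : List Gen} {g : Gen} (h : Ok (u ++ g :: v)) :
    (g.pos : ℤ) + g.inn ≤ width 0 u := by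
  obtain ⟨D, h1, h2⟩ := h
  obtain ⟨u', a', v', L, M, -, -, ha, -, -, h4, -, h6⟩ :=
    split3 (u := u) (a := [g]) (v := v) (by simpa using h1) h2
  obtain ⟨x, rfl, rfl⟩ := List.map_eq_singleton_iff.mp ha
  obtain ⟨K, k, -⟩ := Option.bind_eq_some_iff.mp h4
  have := (step_fit k).1
  omega

theorem All.step (hG : Span G) {W W' : List Gen} (h : Step 0 W W') : All G W ↔ All G W' := by
  obtain ⟨u, a, b, v, rfl, rfl, hm⟩ := h
  constructor
  · intro H D h1 h2
    obtain ⟨u', b', v', L, M, rfl, rfl, rfl, rfl, k1, k2, k3, k4⟩ := split3 h1 h2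
    rw [k4] at hm
    obtain ⟨β, hβ⟩ := exists_ori b'
    obtain ⟨γ, hγ⟩ := (lift_move hm).2 β M (hβ ▸ k2)
    refine (hG.move u' (ori a γ) b' v' L M k1 hγ k2 k3 (by rwa [forget_ori])).1 ?_
    exact H _ (by simp [forget_ori]) (dirs3 k1 hγ k3)
  · intro H D h1 h2
    obtain ⟨u', a', v', L, M, rfl, rfl, rfl, rfl, k1, k2, k3, k4⟩ := split3 h1 h2
    rw [k4] at hm
    obtain ⟨β, hβ⟩ := exists_ori a'
    obtain ⟨γ, hγ⟩ := (lift_move hm).1 β M (hβ ▸ k2)
    refine (hG.move u' a' (ori b γ) v' L M k1 k2 hγ k3 (by rwa [forget_ori])).2 ?_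
    exact H _ (by simp [forget_ori]) (dirs3 k1 hγ k3)

theorem All.eqv (hG : Span G) {W W' : List Gen} (h : Eqv 0 W W') : All G W ↔ All G W' := by
  induction h with
  | rel _ _ h => exact All.step hG h
  | refl => rfl
  | symm _ _ _ ih => exact ih.symm
  | trans _ _ _ _ _ i1 i2 => exact i1.trans i2

theorem Eqv.nil_iff {W W' : List Gen} (h : Eqv 0 W W') : W = [] ↔ W' = [] := by
  induction h with
  | rel _ _ h =>
    obtain ⟨u, a, b, v, rfl, rfl, hm⟩ := h
    cases u with
    | cons => simp
    | nil => cases hm <;> simp_all [width] <;> omega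
  | refl => rfl
  | symm _ _ _ ih => exact ih.symm
  | trans _ _ _ _ _ i1 i2 => exact i1.trans i2

theorem wt_sgn (s : Bool) (g : Gen) (w : List Gen) : wt (sgn s g :: w) = wt (g :: w) := by
  cases g <;> rfl

/-- The sign of a crossing can be chosen. -/
theorem All.sign (hG : Span G) {u w : List Gen} {g : Gen} (s : Bool)
    (ih : ∀ W, wt W < wt (u ++ g :: w) → W ≠ [] → All G W) (h : All G (u ++ sgn s g :: w)) :
    All G (u ++ g :: w) := by
  cases g with
  | cup => exact h
  | cap => exact h
  | crs t j =>
    by_cases e : t = s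
    · subst e; exact h
    obtain rfl : t = !s := by cases s <;> cases t <;> simp_all
    intro D h1 h2
    obtain ⟨u', a', v', K, M, rfl, rfl, ha, rfl, k1, k2, k3, -⟩ :=
      split3 (u := u) (a := [crs (!s) j]) (v := w) (by simpa using h1) h2
    obtain ⟨x, rfl, hx⟩ := List.map_eq_singleton_iff.mp ha
    obtain rfl : x = .crs (!s) j := by cases x <;> simp_all [OGen.forget]
    obtain ⟨K', k, k'⟩ := Option.bind_eq_some_iff.mp k2
    obtain rfl := Option.some.inj k'
    have hf := (step_fit k).1
    simp only [OGen.forget, Gen.pos, Gen.inn] at hf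
    obtain ⟨L, a, b, S, rfl, rfl⟩ : ∃ L a b S, K = L ++ a :: b :: S ∧ j = L.length := by
      have hl : (K.drop j).length = K.length - j := List.length_drop
      rcases e : K.drop j with _ | ⟨a, _ | ⟨b, S⟩⟩
      · rw [e] at hl; simp at hl; omega
      · rw [e] at hl; simp at hl; omega
      · exact ⟨K.take j, a, b, S, by rw [← e, List.take_append_drop], by simp; omega⟩
    rw [step_crs] at k
    obtain rfl := Option.some.inj k
    refine hG.flip u' v' L a b S s k1 k3 ?_ ?_
    · refine ih _ ?_ ?_ _ rfl (dirs3 k1 (dirs_smo a b L S) k3)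
      · by_cases e : a = b <;> simp [smo, e, wt_append, wt, OGen.forget]
      · cases u' with
        | nil => simp [dirs] at k1
        | cons => simp
    · exact h _ (by simp [sgn, OGen.forget]) (dirs3 k1 (by simp [dirs, step_crs]) k3)

/-- A free circle with a strand on its right. -/
theorem All.circ (hG : Span G) {u w : List Gen} {i : ℕ} (hi : (i : ℤ) < width 0 u)
    (h : All G (u ++ w)) : All G (u ++ cup i :: cap i :: w) := by
  have h' : ∀ s, All G (u ++ [cup i, crs s (i + 1), cap i] ++ w) := fun s => by
    refine (All.eqv hG (Eqv.ctx u w (b := []) ?_)).2 (by simpa using h)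
    have h1 := ((Move.slideCup (n := width 0 u) (!s) i).head [cap i]).sy
    rw [Bool.not_not] at h1
    exact h1.tr ((Eqv.cons _ (Move.r1Cap (!s) i).eqv).tr (Move.zigL i hi).eqv)
  intro D h1 h2
  obtain ⟨u', a', v', K, M, rfl, rfl, ha, rfl, k1, k2, k3, k4⟩ :=
    split3 (u := u) (a := [cup i, cap i]) (v := w) (by simpa using h1) h2
  obtain ⟨b, rfl⟩ : ∃ b, a' = [.cup b i, .cap i] := by
    rcases a' with _ | ⟨x, _ | ⟨y, _ | ⟨z, r⟩⟩⟩ <;> simp at ha
    cases x <;> cases y <;> simp_all [OGen.forget]
  obtain ⟨L, a, S, rfl, rfl⟩ : ∃ L a S, K = L ++ a :: S ∧ i = L.length := by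
    have hl : (K.drop i).length = K.length - i := List.length_drop
    rcases e : K.drop i with _ | ⟨a, S⟩
    · rw [e] at hl; simp at hl; omega
    · exact ⟨K.take i, a, S, by rw [← e, List.take_append_drop], by simp; omega⟩
  obtain rfl : L ++ a :: S = M := by
    cases b <;> simpa [dirs, step_cup, step_cap] using k2
  have cu : ∀ c, dirs (u' ++ [.cup c L.length]) [] = some (L ++ c :: (!c) :: a :: S) := fun c => by
    simp [dirs_app67, k1, dirs, step_cup]
  have ca : ∀ c, dirs (.cap L.length :: v') (L ++ c :: (!c) :: a :: S) = some [] := fun c => by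
    cases c <;> simpa [dirs, step_cap] using k3
  have key : G (u' ++ [.cup (!a) L.length, .cap L.length] ++ v') := by
    have e1 : dirs (u' ++ [.cup (!a) L.length]) [] = some ((L ++ [!a]) ++ a :: a :: S) := by
      simpa using cu (!a)
    have e2 : dirs (.cap L.length :: v') ((L ++ [!a]) ++ a :: a :: S) = some [] := by
      simpa using ca (!a)
    have := hG.smooth _ _ _ a a S e1 e2 fun s =>
      h' s _ (by simp [OGen.forget]) (dirs3 e1 (by simp only [dirs, step_crs]; rfl) e2)
    simpa [smo] using this
  by_cases e : b = !a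
  · exact e ▸ key
  obtain rfl : b = a := by cases a <;> cases b <;> simp_all
  have m1 := hG.move u' [.cup (!b) L.length, .crs true L.length] [.cup b L.length]
    (.cap L.length :: v') _ (L ++ b :: (!b) :: b :: S) k1 (by simp [dirs, step_cup, step_crs])
    (by simp [dirs, step_cup]) (ca b) (Move.r1Cup true _)
  have m2 := hG.move (u' ++ [.cup (!b) L.length]) [.crs true L.length, .cap L.length]
    [.cap L.length] v' _ (L ++ b :: S) (cu (!b)) (by simp [dirs, step_cap, step_crs])
    (by simp [dirs, step_cap]) k3 (Move.r1Cap true _)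
  simp only [List.append_assoc, List.cons_append, List.nil_append] at m1 m2 key ⊢
  exact m1.1 (m2.2 key)

theorem circ_pass (n : ℤ) (j : ℕ) (hj : (j : ℤ) < n) :
    Eqv n [cup (j + 1), cap (j + 1)] [cup j, cap j] := by
  have h1 : Eqv n [cup (j + 1), crs true j, crs false j, cap (j + 1)] [cup (j + 1), cap (j + 1)] :=
    Eqv.cons _ ((Move.r2 true j (by simp [Gen.out, Gen.inn]; omega)).head [cap (j + 1)])
  have h2 : Eqv n [cup j, crs false (j + 1), crs true (j + 1), cap j] [cup j, cap j] :=
    Eqv.cons _ ((Move.r2 false (j + 1) (by simp [Gen.out, Gen.inn]; omega)).head [cap j])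
  refine h1.sy.tr (((Move.slideCup true j).head _).tr (Eqv.tr ?_ h2))
  exact Eqv.cons _ (Eqv.cons _ (Move.slideCap false j).eqv)

/-- No maximum in the word. -/
def NoCap (u : List Gen) : Prop := ∀ j, cap j ∉ u

theorem NoCap.le_width {u : List Gen} (h : NoCap u) (n : ℤ) : n ≤ width n u := by
  induction u generalizing n with
  | nil => exact le_rfl
  | cons g u ih =>
    have := ih (fun j hj => h j (List.mem_cons_of_mem _ hj)) (n + g.out - g.inn)
    cases g with
    | cap j => exact absurd List.mem_cons_self (h j)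
    | cup j => simp only [width, Gen.out, Gen.inn] at this ⊢; omega
    | crs s j => simp only [width, Gen.out, Gen.inn] at this ⊢; omega

theorem Ok.first {u v : List Gen} {g : Gen} (h : Ok (u ++ g :: v)) (hu : width 0 u ≤ 0) :
    g = cup 0 := by
  have := h.fit
  cases g <;> simp only [Gen.pos, Gen.inn, cup.injEq] at this ⊢ <;> omega

theorem NoCap.two_le {u v : List Gen} (h : NoCap u) (ho : Ok (u ++ v)) (hu : u ≠ []) :
    2 ≤ width 0 u := by
  obtain ⟨g, u, rfl⟩ := List.exists_cons_of_ne_nil hu
  obtain rfl := Ok.first (u := []) ho le_rfl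
  exact NoCap.le_width (fun j hj => h j (List.mem_cons_of_mem _ hj)) 2

theorem wc_eq (t : Bool) (i k : ℕ) :
    ∃ c, wc t i k = c ++ [cap (i + k)] ∧ ∀ n, width n c = n := by
  induction k generalizing i with
  | zero => exact ⟨[], rfl, fun _ => rfl⟩
  | succ k ih =>
    obtain ⟨c, h1, h2⟩ := ih (i + 1)
    exact ⟨crs t i :: c, by rw [wc, h1, show i + 1 + k = i + (k + 1) by omega]; rfl,
      fun n => by simp [width, Gen.out, Gen.inn, h2]⟩

theorem All.free (hG : Span G) {u w : List Gen} {i : ℕ} (hu : NoCap u)
    (ih : ∀ W, wt W < wt (u ++ cup i :: cap i :: w) → W ≠ [] → All G W) :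
    All G (u ++ cup i :: cap i :: w) := by
  refine All.of_ok fun ho => ?_
  have hi := ho.fit
  simp only [Gen.pos, Gen.inn] at hi
  by_cases e : u = []
  · subst e
    obtain ⟨⟩ := Ok.first ho le_rfl
    cases w with
    | nil =>
      intro D h1 _
      rcases D with _ | ⟨x, _ | ⟨y, _ | ⟨z, r⟩⟩⟩ <;> simp at h1
      cases x <;> cases y <;> simp_all [OGen.forget]
      exact hG.circle _
    | cons g w =>
      obtain rfl := Ok.first (u := [cup 0, cap 0]) ho (by simp [width, Gen.out, Gen.inn])
      have h1 : Eqv 0 (cup 0 :: cap 0 :: cup 0 :: w) (cup 0 :: cup 0 :: cap 0 :: w) :=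
        (Eqv.cons _ ((Move.comm (cap 0) (cup 0)).head w)).tr
          ((Move.comm (cup 0) (cup 0)).head (cap 0 :: w))
      refine (All.eqv hG h1).2 (All.circ hG (u := [cup 0]) (by simp [width, Gen.out, Gen.inn]) ?_)
      exact ih _ (by simp [wt]) (by simp)
  have h2 := hu.two_le ho e
  have h0 : All G (u ++ w) := ih _ (by simp [wt_append, wt]) (by simp [e])
  rcases lt_or_ge (i : ℤ) (width 0 u) with h | h
  · exact All.circ hG h h0
  · obtain ⟨j, rfl⟩ : ∃ j, i = j + 1 := ⟨i - 1, by omega⟩
    have hj : (j : ℤ) < width 0 u := by omega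
    have := (All.eqv hG (Eqv.ctx u w (circ_pass _ j hj))).2 (by simpa using All.circ hG hj h0)
    simpa using this

theorem All.inner (hG : Span G) {N : ℕ} (ih : ∀ W, wt W < N → W ≠ [] → All G W) (u : List Gen)
    (hu : NoCap u) (i k : ℕ) (w : List Gen) (hN : wt (u ++ (wc true i k ++ w)) = N) :
    All G (u ++ (wc true i k ++ w)) := by
  induction u using List.reverseRecOn generalizing i k w with
  | nil =>
    refine All.of_ok fun ho => ?_
    cases k <;> exact absurd (Ok.first (u := []) ho le_rfl) (by simp)
  | append_singleton u g iu =>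
    have hu' : NoCap u := fun j hj => hu j (List.mem_append_left _ hj)
    rw [List.append_assoc, List.singleton_append] at hN ⊢
    refine All.of_ok fun ho => ?_
    have hf := ho.fit
    have hm : Meet (width 0 u) g i k := by
      cases g with
      | cap j => exact absurd (by simp) (hu j)
      | crs s j => exact meet_crs _ s j i k hf
      | cup j =>
        obtain ⟨c, h1, h2⟩ := wc_eq true i k
        have : Ok ((u ++ cup j :: c) ++ cap (i + k) :: w) := by simpa [h1] using ho
        have := this.fit
        simp only [width_append, width, h2, Gen.pos, Gen.inn, Gen.out] at this hf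
        exact meet_cup _ j i k (by omega) (by omega)
    have hw : ∀ Z, wt (u ++ (Z ++ w)) + wt (g :: wc true i k) = N + wt Z := fun Z => by
      rw [← hN, ← List.cons_append]
      simp only [wt_append]
      omega
    cases hm with
    | small s Z h1 h2 =>
      have h3 := Eqv.ctx u w h1
      simp only [List.append_assoc, List.cons_append] at h3
      refine All.sign hG s (hN ▸ ih) ((All.eqv hG h3).2 (ih _ ?_ ?_))
      · have := hw Z
        omega
      · exact fun e => by simpa using h3.nil_iff.2 e
    | down s i' k' Z h1 h2 =>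
      have h3 := Eqv.ctx u w h1
      simp only [List.append_assoc, List.cons_append] at h3
      refine All.sign hG s (hN ▸ ih) ((All.eqv hG h3).2 (iu hu' i' k' _ ?_))
      have := hw (wc true i' k' ++ Z)
      rw [List.append_assoc] at this
      omega
    | circle h1 h2 =>
      subst h1 h2
      exact All.free hG hu' (hN ▸ ih)

theorem first_cap (W : List Gen) : NoCap W ∨ ∃ u i w, W = u ++ cap i :: w ∧ NoCap u := by
  induction W with
  | nil => exact .inl fun _ => List.not_mem_nil
  | cons g W ih =>
    by_cases e : ∃ i, g = cap i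
    · obtain ⟨i, rfl⟩ := e
      exact .inr ⟨[], i, W, rfl, fun _ => List.not_mem_nil⟩
    have k : ∀ u, NoCap u → NoCap (g :: u) := fun u hu j hj =>
      (List.mem_cons.mp hj).elim (fun h => e ⟨j, h.symm⟩) (hu j)
    rcases ih with h | ⟨u, i, w, rfl, h⟩
    · exact .inl (k _ h)
    · exact .inr ⟨g :: u, i, w, rfl, k _ h⟩

theorem Span.words (hG : Span G) (N : ℕ) : ∀ W, wt W = N → W ≠ [] → All G W := by
  induction N using Nat.strong_induction_on with
  | _ N ih =>
    intro W hW hne
    rcases first_cap W with h | ⟨u, i, w, rfl, h⟩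
    · intro D h1 h2
      have h3 := h.two_le (v := []) ⟨D, by simpa using h1, h2⟩ hne
      have h4 := dirs_width h2
      rw [h1] at h4
      simp only [List.length_nil, Nat.cast_zero] at h4
      omega
    · exact All.inner hG (fun W h1 => ih _ h1 W rfl) u h i 0 w hW

theorem Span.all (hG : Span G) {D : List OGen} (hd : dirs D [] = some []) (hne : D ≠ []) : G D :=
  hG.words _ _ rfl (by simpa using hne) D rfl hd

end Pool.Agent.Lib.MP_140c34_gt.Arb
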