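import Pool.Agent.Lib.MP_140c34_gt.Arb.ExA
import Pool.Agent.Lib.MP_140c34_gt.Arb.ExD
import Pool.Agent.Lib.MP_140c34_gt.Exist

/-! Existence and uniqueness of the HOMFLYPT polynomial of oriented link diagrams. -/

namespace Pool.Agent.Lib.MP_140c34_gt.Arb

theorem exists_homflypt : ∃ P, IsHomflypt P := by
  classical
  choose q hq hz using exists_q
  have h0 : ∀ M, 0 < q M := fun M => one_pos.trans (hq M)
  choose J hJ using fun s : ℕ × ℕ => exists_realH (h0 s.2) s.1
  simp only [hz] at hJ
  have hv : ∀ s : ℕ × ℕ, (q s.2)⁻¹ ^ (s.1 + 1) ≠ 0 := fun s => by have := h0 s.2; positivity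
  have hz0 : ∀ s : ℕ × ℕ, (2 : ℝ) ^ s.2 ≠ 0 := fun s => by positivity
  choose φ hφ using fun s : ℕ × ℕ => exists_phi (hv s) (hz0 s)
  have hψ : ∀ s a b, φ s (vz a b) = ((q s.2)⁻¹ ^ (s.1 + 1)) ^ a * (2 ^ s.2) ^ b := hφ
  have sp : Span fun D => ∃ p, ∀ s, φ s p = J s D := by
    refine ⟨fun b => ⟨1, fun s => by rw [(hJ s).circle, map_one]⟩,
      fun u x y w L M h1 h2 h3 h4 h5 => by
        simp only [fun s => (hJ s).move u x y w L M h1 h2 h3 h4 h5],
      fun u w L a b S t h1 h2 ⟨p, hp⟩ ⟨p', hp'⟩ => ?_, fun u w L a b S h1 h2 h => ?_⟩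
    · have hk := fun s => (hJ s).skein u w L a b S h1 h2
      by_cases e : t = (a == b)
      · subst e
        have e' : (!(a == b)) = (a != b) := rfl
        refine ⟨vz (-1) 0 * (vz (-1) 0 * p' - vz 0 1 * p), fun s => ?_⟩
        simp only [map_mul, map_sub, hψ, hp, hp', zpow_neg, zpow_one, zpow_zero, mul_one, one_mul,
          smo, e', ← hk s, sub_sub_cancel, inv_mul_cancel_left₀ (hv s)]
      · obtain rfl : t = (a != b) := by cases t <;> cases a <;> cases b <;> simp_all
        have e' : (!(a != b)) = (a == b) := by cases a <;> cases b <;> rfl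
        refine ⟨vz 1 0 * (vz 1 0 * p' + vz 0 1 * p), fun s => ?_⟩
        simp only [map_mul, map_add, hψ, hp, hp', zpow_one, zpow_zero, mul_one, one_mul,
          smo, e', ← hk s, add_sub_cancel, mul_inv_cancel_left₀ (hv s)]
    · obtain ⟨p, hp⟩ := h (a == b)
      obtain ⟨p', hp'⟩ := h (a != b)
      refine ⟨vz 0 (-1) * (vz (-1) 0 * p - vz 1 0 * p'), fun s => ?_⟩
      simp only [map_mul, map_sub, hψ, hp, hp', zpow_neg, zpow_one, zpow_zero, mul_one, one_mul,
        smo, (hJ s).skein u w L a b S h1 h2, inv_mul_cancel_left₀ (hz0 s)]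
  obtain ⟨E, hE⟩ : ∃ E : (ℕ × ℕ → ℝ) → AddMonoidAlgebra ℤ (ℤ × ℤ),
      ∀ j, (∃ p, ∀ s, φ s p = j s) → ∀ s, φ s (E j) = j s :=
    ⟨fun j => if h : ∃ p, ∀ s, φ s p = j s then h.choose else 0,
      fun j h s => by simpa only [dif_pos h] using h.choose_spec s⟩
  refine ⟨fun D => E fun s => J s D, fun b => ?_, fun u x y w L M h1 h2 h3 h4 h5 => ?_,
    fun u w L a b S h1 h2 => ?_⟩
  · exact phi_inj q hq φ hφ fun s => by rw [hE _ (sp.circle b), (hJ s).circle, map_one]
  · simp only [fun s => (hJ s).move u x y w L M h1 h2 h3 h4 h5]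
  · have hu : ∀ x : List OGen, u ++ x ++ w ≠ [] := fun x => by
      cases u with
      | nil => simp [dirs] at h1
      | cons => simp
    have hc : ∀ t, dirs (u ++ [.crs t L.length] ++ w) [] = some [] := fun t =>
      dirs3 h1 (by simp [dirs, step_crs]) h2
    have h3 := hE _ (sp.all (dirs3 h1 (dirs_smo a b L S) h2) (hu _))
    refine phi_inj q hq φ hφ fun s => ?_
    simp only [smo] at h3
    simp only [map_mul, map_sub, hψ, h3, fun t => hE _ (sp.all (hc t) (hu _)), zpow_neg, zpow_one,
      zpow_zero, mul_one, one_mul, (hJ s).skein u w L a b S h1 h2]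

theorem vz_mul (a b c d : ℤ) : vz a b * vz c d = vz (a + c) (b + d) := by
  simp [vz, AddMonoidAlgebra.single_mul_single]

/-- The axioms determine the value on every link diagram. -/
theorem homflypt_unique {P Q : List OGen → AddMonoidAlgebra ℤ (ℤ × ℤ)} (hP : IsHomflypt P)
    (hQ : IsHomflypt Q) {D : List OGen} (hd : dirs D [] = some []) (hne : D ≠ []) : P D = Q D := by
  have can : ∀ (a b : ℤ) (x y : AddMonoidAlgebra ℤ (ℤ × ℤ)), vz a b * x = vz a b * y → x = y :=
    fun a b x y h => by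
      have h1 : vz (-a) (-b) * vz a b = 1 := by
        rw [vz_mul, neg_add_cancel, neg_add_cancel]; rfl
      rw [← one_mul x, ← one_mul y, ← h1, mul_assoc, mul_assoc, h]
  have sp : Span fun D => P D = Q D := by
    refine ⟨fun b => by rw [hP.circle, hQ.circle], fun u x y w L M h1 h2 h3 h4 h5 => by
        rw [hP.move u x y w L M h1 h2 h3 h4 h5, hQ.move u x y w L M h1 h2 h3 h4 h5],
      fun u w L a b S t h1 h2 k1 k2 => ?_, fun u w L a b S h1 h2 h => ?_⟩
    · have e1 := hP.skein u w L a b S h1 h2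
      have e2 := hQ.skein u w L a b S h1 h2
      simp only [smo] at k1
      by_cases e : t = (a == b)
      · subst e
        refine can 1 0 _ _ ?_
        rw [k1, k2, ← e2] at e1
        exact sub_right_injective e1
      · obtain rfl : t = (a != b) := by cases t <;> cases a <;> cases b <;> simp_all
        have e' : (!(a != b)) = (a == b) := by cases a <;> cases b <;> rfl
        refine can (-1) 0 _ _ ?_
        rw [k1, k2, ← e2] at e1
        rw [e']
        exact sub_left_injective e1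
    · refine can 0 1 _ _ ?_
      rw [smo, ← hP.skein u w L a b S h1 h2, ← hQ.skein u w L a b S h1 h2, h, h]
  exact sp.all hd hne

end Pool.Agent.Lib.MP_140c34_gt.Arb
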