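import Pool.Agent.Lib.MP_140c34_gt.Arb.Ori

/-! The HOMFLYPT polynomial of an oriented link diagram. -/

namespace Pool.Agent.Lib.MP_140c34_gt.Arb

/-- A function with the properties `IsHomflypt`. Such a function exists and its value on every link
diagram is determined (`exists_homflypt`, `homflypt_unique` in `ExE`). -/
noncomputable def homflypt : List OGen → AddMonoidAlgebra ℤ (ℤ × ℤ) := Classical.epsilon IsHomflypt

end Pool.Agent.Lib.MP_140c34_gt.Arb
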