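import Pool.Agent.Lib.MP_140c34_gt.Arb.OriA

/-! Weights of the vertex model and their sums. -/

namespace Pool.Agent.Lib.MP_140c34_gt.Arb

open Finset

noncomputable section

/-- Rotation weight. -/
def mE (q : ℝ) (n a : ℕ) : ℝ := q⁻¹ ^ n * q ^ (2 * a + 1)
/-- Smoothing weight, left colour and right colour. -/
def thE (q : ℝ) (e : Bool) (l r : ℕ) : ℝ :=
  if l < r then (if e then q - q⁻¹ else 0) else if l = r then (if e then q - 1 else q⁻¹ - 1)
  else if e then 0 else -(q - q⁻¹)
def tbE (q : ℝ) (e b : Bool) (l r : ℕ) : ℝ := if b then thE q e l r else thE q e r l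
def vsE (q : ℝ) (n : ℕ) (e : Bool) : ℝ := if e then q⁻¹ ^ n else q ^ n
def wcE (q : ℝ) (n : ℕ) (b : Bool) (a : ℕ) : ℝ := if b then 1 else (mE q n a)⁻¹
def wpE (q : ℝ) (n : ℕ) (b : Bool) (a : ℕ) : ℝ := if b then mE q n a else 1

variable {q : ℝ} {n : ℕ}

theorem tbE_not (e b : Bool) (l r : ℕ) : tbE q e (!b) l r = tbE q e b r l := by
  cases b <;> rfl

theorem thE_sub (l r : ℕ) : thE q true l r = thE q false l r + (q - q⁻¹) := by
  unfold thE; split_ifs <;> simp_all

theorem tbE_sub (b : Bool) (l r : ℕ) : tbE q true b l r = tbE q false b l r + (q - q⁻¹) := by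
  cases b <;> exact thE_sub _ _

theorem thE_inv (e : Bool) (l r : ℕ) : thE q⁻¹ (!e) l r = thE q e r l := by
  cases e <;> simp only [thE, inv_inv, Bool.not_true, Bool.not_false, if_true, if_false,
    Bool.false_eq_true] <;> split_ifs <;> first | omega | ring

theorem mE_inv (a : ℕ) : mE q⁻¹ n a = (mE q n a)⁻¹ := by simp [mE, mul_comm]

theorem vsE_inv (e : Bool) : vsE q⁻¹ n e = vsE q n (!e) := by cases e <;> simp [vsE]

variable (hq : q ≠ 0)
include hq

theorem mE_ne (a : ℕ) : mE q n a ≠ 0 := by simp [mE, hq]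

theorem vsE_mul (e : Bool) : vsE q n e * vsE q n (!e) = 1 := by
  cases e <;> simp [vsE, hq]

theorem wE_zig (b : Bool) (a : ℕ) : wcE q n b a * wpE q n (!b) a = 1 := by
  cases b <;> simp [wcE, wpE, mE_ne hq]

theorem powE : q⁻¹ ^ n * q ^ (2 * n) = q ^ n := by
  rw [two_mul, pow_add, inv_pow, inv_mul_cancel_left₀ (pow_ne_zero _ hq)]

theorem tel0 (j : ℕ) : (q - q⁻¹) * ∑ a ∈ range j, mE q n a = q⁻¹ ^ n * (q ^ (2 * j) - 1) := by
  induction j with
  | zero => simp
  | succ j ih =>
    rw [sum_range_succ, mul_add, ih, mE]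
    field_simp
    ring

theorem tel1 (k j : ℕ) : ∑ a ∈ range j, mE q n a * thE q true k a =
    if j ≤ k then 0 else q⁻¹ ^ n * q ^ (2 * j) - mE q n k := by
  induction j with
  | zero => simp
  | succ j ih =>
    rw [sum_range_succ, ih]
    simp only [thE, mE, if_true]
    rcases lt_trichotomy j k with h | rfl | h
    · rw [if_pos h.le, if_neg h.not_gt, if_neg h.ne', if_pos (by omega)]; ring
    · simp only [le_rfl, lt_irrefl, if_true, if_false, Nat.succ_le_iff]; ring
    · rw [if_neg (by omega), if_pos h, if_neg (by omega)]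
      field_simp
      ring

theorem sumS1 (e : Bool) {k : ℕ} (hk : k < n) :
    ∑ a ∈ range n, mE q n a * thE q e k a = vsE q n (!e) - mE q n k := by
  have h1 := tel1 (n := n) hq k n
  have h3 := powE (n := n) hq
  rw [if_neg (by omega), h3] at h1
  cases e
  · have h0 := tel0 (n := n) hq n
    simp only [thE_sub, mul_add, sum_add_distrib, ← sum_mul] at h1
    simp only [vsE, Bool.not_false, if_true]
    linear_combination h1 - h0 - h3
  · exact h1

theorem sumS2 (e : Bool) {k : ℕ} (hk : k < n) :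
    ∑ a ∈ range n, (mE q n a)⁻¹ * thE q e a k = vsE q n (!e) - (mE q n k)⁻¹ := by
  have := sumS1 (inv_ne_zero hq) (!e) hk
  simpa only [thE_inv, mE_inv, vsE_inv, Bool.not_not] using this

theorem tel4 (a k j : ℕ) : ∑ d ∈ range j, mE q n d * (thE q true a d * thE q false k d) =
    if j ≤ a ∨ k < a then 0 else if a = k then mE q n a * ((q - 1) * (q⁻¹ - 1))
    else if j ≤ k then (q - q⁻¹) * (mE q n a - q⁻¹ ^ n * q ^ (2 * j))
    else (q - q⁻¹) * (mE q n a - mE q n k) := by
  induction j with
  | zero => simp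
  | succ j ih =>
    rw [sum_range_succ, ih]
    simp only [thE, mE, if_true, Bool.false_eq_true, if_false]
    split_ifs <;> first | omega | (subst_vars; field_simp; ring)

theorem sumS4 (e : Bool) {a k : ℕ} (ha : a < n) (hk : k < n) :
    mE q n a * thE q (!e) k a + mE q n k * thE q e a k +
      ∑ d ∈ range n, mE q n d * (thE q e a d * thE q (!e) k d) = 0 := by
  have key : ∀ {a k : ℕ}, a < n → k < n → mE q n a * thE q false k a + mE q n k * thE q true a k +
      ∑ d ∈ range n, mE q n d * (thE q true a d * thE q false k d) = 0 := by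
    intro a k ha hk
    rw [tel4 hq]
    simp only [thE, if_true, Bool.false_eq_true, if_false]
    split_ifs <;> first | omega | (subst_vars; field_simp; ring)
  cases e
  · have := key hk ha
    simp only [mul_comm (thE q true k _)] at this
    simp only [Bool.not_false]
    linear_combination this
  · exact key ha hk

theorem sumS3 (e : Bool) {a k : ℕ} (ha : a < n) (hk : k < n) :
    (mE q n a)⁻¹ * thE q (!e) a k + (mE q n k)⁻¹ * thE q e k a +
      ∑ d ∈ range n, (mE q n d)⁻¹ * (thE q e d a * thE q (!e) d k) = 0 := by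
  have := sumS4 (inv_ne_zero hq) (!e) ha hk
  simpa only [thE_inv, mE_inv] using this

theorem wE_r1 (e b : Bool) (k : Fin n) : vsE q n e * (wcE q n b k + wcE q n (!b) k *
    ∑ a : Fin n, wcE q n b a * wpE q n b a * tbE q e (!b) a k) = wcE q n (!b) k := by
  rw [Fin.sum_univ_eq_sum_range fun a => wcE q n b a * wpE q n b a * tbE q e (!b) a k]
  have v := vsE_mul (n := n) hq e
  have m := mul_inv_cancel₀ (mE_ne (n := n) hq k)
  cases b <;> simp only [wcE, wpE, tbE, Bool.not_true, Bool.not_false, if_true, if_false,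
    Bool.false_eq_true, mul_one, one_mul]
  · rw [sumS2 hq e k.2]; linear_combination v
  · rw [sumS1 hq e k.2]; linear_combination (mE q n k)⁻¹ * v - vsE q n e * m

theorem wE_r1' (e b : Bool) (a : Fin n) : vsE q n e * (wpE q n (!b) a + wpE q n b a *
    ∑ k : Fin n, tbE q e (!b) a k * wcE q n (!b) k * wpE q n (!b) k) = wpE q n b a := by
  rw [Fin.sum_univ_eq_sum_range fun k => tbE q e (!b) a k * wcE q n (!b) k * wpE q n (!b) k]
  have v := vsE_mul (n := n) hq e
  have m := mul_inv_cancel₀ (mE_ne (n := n) hq a)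
  cases b <;> simp only [wcE, wpE, tbE, Bool.not_true, Bool.not_false, if_true, if_false,
    Bool.false_eq_true, mul_one, one_mul, mul_comm (thE q e _ _)]
  · rw [sumS1 hq e a.2]; linear_combination v
  · rw [sumS2 hq e a.2]; linear_combination mE q n a * v - vsE q n e * m

theorem wE_r2 (e b : Bool) (a k : Fin n) : wpE q n (!b) a * (tbE q (!e) b a k * wcE q n b k) +
    wpE q n b a * (tbE q e (!b) a k * wcE q n (!b) k) + wpE q n b a *
    ((∑ d : Fin n, tbE q e (!b) a d * wcE q n (!b) d * wpE q n (!b) d * tbE q (!e) b d k) *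
      wcE q n b k) = 0 := by
  rw [Fin.sum_univ_eq_sum_range
    fun d => tbE q e (!b) a d * wcE q n (!b) d * wpE q n (!b) d * tbE q (!e) b d k]
  have m := mul_inv_cancel₀ (mE_ne (n := n) hq a)
  have m' := mul_inv_cancel₀ (mE_ne (n := n) hq k)
  have s4 := sumS4 hq e a.2 k.2
  have s3 := sumS3 hq e a.2 k.2
  simp only [mul_comm (thE q e _ _)] at s3 s4
  cases b <;> simp only [wcE, wpE, tbE, Bool.not_true, Bool.not_false, if_true, if_false,
    Bool.false_eq_true, mul_one, one_mul, mul_comm (thE q e _ _), mul_assoc]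
  · linear_combination (mE q n k)⁻¹ * s4 - thE q e a k * m'
  · linear_combination mE q n a * s3 - thE q (!e) a k * m

omit hq in
theorem wE_p (e b : Bool) (a c : ℕ) (h : a ≠ c) :
    tbE q e b a c * tbE q (!e) b a c = 0 ∧ tbE q e b a c + tbE q (!e) b c a = 0 := by
  cases e <;> cases b <;> simp only [tbE, thE] <;> split_ifs <;> first | omega | simp_all

theorem wE_e (e b : Bool) (a : ℕ) : (1 + tbE q e b a a) * (1 + tbE q (!e) b a a) = 1 := by
  cases e <;> cases b <;> simp [tbE, thE, hq]

theorem wE_circle (b : Bool) :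
    ∑ a : Fin n, wcE q n b a * wpE q n b a = ∑ a ∈ range n, mE q n a := by
  rw [Fin.sum_univ_eq_sum_range fun a => wcE q n b a * wpE q n b a]
  cases b <;> simp only [wcE, wpE, if_true, if_false, Bool.false_eq_true, mul_one, one_mul]
  by_cases z : q - q⁻¹ = 0
  · refine sum_congr rfl fun a _ => ?_
    rw [← mE_inv, ← sub_eq_zero.1 z]
  · have h0 := tel0 (n := n) hq n
    have h1 := tel0 (n := n) (inv_ne_zero hq) n
    simp only [mE_inv, inv_inv] at h1
    have h3 := powE (n := n) hq
    have h4 := powE (n := n) (inv_ne_zero hq)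
    rw [inv_inv] at h4
    exact mul_left_cancel₀ z (by linear_combination -h0 - h1 - h3 - h4)

/-- A crossing of the first two of three upward strands. -/
def r0E (q : ℝ) (F : ℕ → ℕ → ℕ → ℝ) (a b c : ℕ) : ℝ := F b a c + thE q true a b * F a b c
/-- A crossing of the last two of three upward strands. -/
def r1E (q : ℝ) (F : ℕ → ℕ → ℕ → ℝ) (a b c : ℕ) : ℝ := F a c b + thE q true b c * F a b c

theorem ybeE (F : ℕ → ℕ → ℕ → ℝ) (a b c : ℕ) :
    r0E q (r1E q (r0E q F)) a b c = r1E q (r0E q (r1E q F)) a b c := by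
  simp only [r0E, r1E, thE, if_true]
  rcases lt_trichotomy a b with h | rfl | h <;> rcases lt_trichotomy a c with k | rfl | k <;>
    split_ifs <;> first | omega | (subst_vars; field_simp; ring) | rfl | simp

end

end Pool.Agent.Lib.MP_140c34_gt.Arb
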