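import Pool.Agent.Lib.MP_140c34_gt.Arb.ExV1

/-! The state sum of the vertex model and its calculus. -/

namespace Pool.Agent.Lib.MP_140c34_gt.Arb

open Finset OGen

noncomputable section

abbrev StE (n : ℕ) := List (Bool × Fin n)

variable (q : ℝ) {n : ℕ}

/-- A piece in position zero. -/
def g0E : OGen → (StE n → ℝ) → StE n → ℝ
  | cup b _, f, S => ∑ a : Fin n, wcE q n b a * f ((b, a) :: (!b, a) :: S)
  | cap _, f, x :: y :: S => if x.1 ≠ y.1 ∧ x.2 = y.2 then wpE q n x.1 x.2 * f S else 0
  | crs s _, f, x :: y :: S => vsE q n (s == (x.1 == y.1)) * (f (y :: x :: S) +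
      if x.1 = y.1 then tbE q (s == (x.1 == y.1)) y.1 x.2 y.2 * f (x :: y :: S)
      else if x.2 = y.2 then wpE q n x.1 x.2 * ∑ k : Fin n,
        tbE q (s == (x.1 == y.1)) y.1 x.2 k * wcE q n y.1 k * f ((y.1, k) :: (x.1, k) :: S) else 0)
  | _, _, _ => 0

/-- A local operator in position `i`. -/
def atE : ℕ → ((StE n → ℝ) → StE n → ℝ) → (StE n → ℝ) → StE n → ℝ
  | 0, o, f, c => o f c
  | _ + 1, _, _, [] => 0
  | i + 1, o, f, x :: c => atE i o (fun d => f (x :: d)) c

def o1E (g : OGen) : (StE n → ℝ) → StE n → ℝ := atE g.forget.pos (g0E q g)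

/-- State sum of a word with continuation `f`. -/
def opE : List OGen → (StE n → ℝ) → StE n → ℝ
  | [], f => f
  | g :: w, f => o1E q g (opE w f)

variable {q}

theorem opE_append (u w : List OGen) (f : StE n → ℝ) : opE q (u ++ w) f = opE q u (opE q w f) := by
  induction u with
  | nil => rfl
  | cons g u ih => simp only [List.cons_append, opE, ih]

theorem g0E_up (k : ℕ) (g : OGen) : g0E (n := n) q (g.up k) = g0E q g := by
  funext f c
  cases g <;> rcases c with _ | ⟨x, _ | ⟨y, c⟩⟩ <;> rfl

theorem o1E_up (g : OGen) (k : ℕ) (f : StE n → ℝ) (x) (c : StE n) :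
    o1E q (g.up (k + 1)) f (x :: c) = o1E q (g.up k) (fun d => f (x :: d)) c := by
  simp only [o1E, g0E_up]
  cases g <;> rfl

theorem o1E_nil (g : OGen) (k : ℕ) (f : StE n → ℝ) : o1E q (g.up (k + 1)) f [] = 0 := by
  cases g <;> rfl

theorem up_zeroE (g : OGen) : g.up 0 = g := by cases g <;> rfl

theorem opE_up (w : List OGen) (k : ℕ) (f : StE n → ℝ) (x) (c : StE n) :
    opE q (w.map (OGen.up (k + 1))) f (x :: c) = opE q (w.map (OGen.up k)) (fun d => f (x :: d)) c := by
  induction w generalizing c with
  | nil => rfl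
  | cons g w ih => simp only [List.map_cons, opE, o1E_up, ih]

theorem step_upE (g : OGen) (k : ℕ) (b : Bool) (L : List Bool) :
    (g.up (k + 1)).step (b :: L) = ((g.up k).step L).map (b :: ·) := by
  have := step_pre (g.up k) [b] L
  cases g <;> exact this

theorem step_nilE (g : OGen) (k : ℕ) : (g.up (k + 1)).step [] = none := by
  cases g <;> simp [OGen.up, OGen.step]

theorem dirs_upE (w : List OGen) (k : ℕ) (b : Bool) (L : List Bool) :
    dirs (w.map (OGen.up (k + 1))) (b :: L) = (dirs (w.map (OGen.up k)) L).map (b :: ·) := by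
  induction w generalizing L with
  | nil => rfl
  | cons g w ih =>
    simp only [List.map_cons, dirs, step_upE]
    cases (g.up k).step L <;> simp [ih]

theorem base_exE (g : OGen) : ∃ g0 : OGen, g0.forget.pos = 0 ∧ g = g0.up g.forget.pos := by
  cases g with
  | cup b i => exact ⟨cup b 0, rfl, by simp [up, forget, Gen.pos]⟩
  | cap i => exact ⟨cap 0, rfl, by simp [up, forget, Gen.pos]⟩
  | crs s i => exact ⟨crs s 0, rfl, by simp [up, forget, Gen.pos]⟩

theorem o1E_congr (g : OGen) {f f' : StE n → ℝ} {c : StE n} {M : List Bool}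
    (h : g.step (c.map Prod.fst) = some M) (e : ∀ d : StE n, d.map Prod.fst = M → f d = f' d) :
    o1E q g f c = o1E q g f' c := by
  obtain ⟨k, g, h0, rfl⟩ : ∃ k, ∃ g0 : OGen, g0.forget.pos = 0 ∧ g = g0.up k := ⟨_, base_exE g⟩
  induction k generalizing c M f f' with
  | succ k ih =>
    rcases c with _ | ⟨x, c⟩
    · simp only [o1E_nil]
    rw [List.map_cons, step_upE] at h
    obtain ⟨M, h', rfl⟩ := Option.map_eq_some_iff.1 h
    simp only [o1E_up]
    exact ih (fun d hd => e _ (by simp [hd])) h'
  | zero =>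
    rw [up_zeroE] at h ⊢
    cases g <;> simp only [forget, Gen.pos] at h0 <;> subst h0
    · simp only [OGen.step, Nat.zero_le, if_true, Option.some.injEq] at h
      simp only [o1E, forget, Gen.pos, atE, g0E]
      exact sum_congr rfl fun a _ => by rw [e _ (by simpa using h)]
    · rcases c with _ | ⟨x, _ | ⟨y, c⟩⟩ <;> try rfl
      simp [OGen.step] at h
      simp only [o1E, forget, Gen.pos, atE, g0E, e c h.2]
    · rcases c with _ | ⟨x, _ | ⟨y, c⟩⟩ <;> try rfl
      simp [OGen.step] at h
      simp only [o1E, forget, Gen.pos, atE, g0E]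
      rw [e (y :: x :: c) (by simpa using h)]
      split_ifs with h1 h2
      · rw [e (x :: y :: c) (by simpa [h1] using h)]
      · congr 3
        exact sum_congr rfl fun a _ => by rw [e _ (by simpa using h)]
      · rfl

theorem opE_congr (u : List OGen) {f f' : StE n → ℝ} {c : StE n} {M : List Bool}
    (h : dirs u (c.map Prod.fst) = some M) (e : ∀ d : StE n, d.map Prod.fst = M → f d = f' d) :
    opE q u f c = opE q u f' c := by
  induction u generalizing c with
  | nil => exact e c (Option.some.inj h)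
  | cons g u ih =>
    obtain ⟨L, h1, h2⟩ := Option.bind_eq_some_iff.1 h
    exact o1E_congr g h1 fun d hd => ih (hd ▸ h2)

theorem o1E_lin (g : OGen) (c : StE n) : IsLinearMap ℝ fun f => o1E q g f c := by
  obtain ⟨k, g, h0, rfl⟩ : ∃ k, ∃ g0 : OGen, g0.forget.pos = 0 ∧ g = g0.up k := ⟨_, base_exE g⟩
  induction k generalizing c with
  | succ k ih =>
    rcases c with _ | ⟨x, c⟩
    · constructor <;> simp [o1E_nil]
    simp only [o1E_up]
    exact ⟨fun f f' => (ih c).1 (fun d => f (x :: d)) fun d => f' (x :: d),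
      fun t f => (ih c).2 t fun d => f (x :: d)⟩
  | zero =>
    rw [up_zeroE]
    cases g <;> simp only [forget, Gen.pos] at h0 <;> subst h0 <;>
      rcases c with _ | ⟨x, _ | ⟨y, c⟩⟩ <;> constructor <;> intros <;>
      simp only [o1E, forget, Gen.pos, atE, g0E, Pi.add_apply, Pi.smul_apply, smul_eq_mul, mul_add,
        sum_add_distrib, mul_left_comm _ (_ : ℝ) (_ : ℝ), ← mul_sum, add_zero, mul_zero] <;>
      split_ifs <;> ring

theorem opE_lin (u : List OGen) (c : StE n) : IsLinearMap ℝ fun f => opE q u f c := by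
  induction u generalizing c with
  | nil => exact ⟨fun _ _ => rfl, fun _ _ => rfl⟩
  | cons g u ih =>
    refine ⟨fun f f' => ?_, fun t f => ?_⟩
    · rw [opE, show opE q u (f + f') = opE q u f + opE q u f' from funext fun d => (ih d).1 f f']
      exact (o1E_lin g c).1 _ _
    · rw [opE, show opE q u (t • f) = t • opE q u f from funext fun d => (ih d).2 t f]
      exact (o1E_lin g c).2 _ _

variable (q n) in
/-- Equal state sums on the states with directions `L`. -/
def EE (L : List Bool) (x y : List OGen) : Prop :=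
  ∀ (f : StE n → ℝ) (c : StE n), c.map Prod.fst = L → opE q x f c = opE q y f c

theorem EE.symm {L x y} (h : EE q n L x y) : EE q n L y x := fun f c e => (h f c e).symm

theorem EE.trans {L x y z} (h : EE q n L x y) (k : EE q n L y z) : EE q n L x z :=
  fun f c e => (h f c e).trans (k f c e)

theorem EE.ctx {L M x y} (h : EE q n M x y) (u w : List OGen) (hu : dirs u L = some M) :
    EE q n L (u ++ x ++ w) (u ++ y ++ w) := fun f c e => by
  simp only [opE_append]
  exact opE_congr u (e ▸ hu) fun d hd => h _ d hd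

theorem EE.up {L k} {x y : List OGen} (h : EE q n L (x.map (OGen.up k)) (y.map (OGen.up k))) (b : Bool) :
    EE q n (b :: L) (x.map (OGen.up (k + 1))) (y.map (OGen.up (k + 1))) := fun f c e => by
  obtain ⟨a, c, rfl, -, e⟩ := List.map_eq_cons_iff.1 e
  simp only [opE_up]
  exact h _ c e

variable (q n) in
/-- Equal state sums whenever both words fit with the same directions at the ends. -/
def VE (x y : List OGen) : Prop := ∀ L M, dirs x L = some M → dirs y L = some M → EE q n L x y

theorem VE.up {g} {x y : List OGen} (h : VE q n (g :: x) y) (k : ℕ) :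
    VE q n ((g :: x).map (OGen.up k)) (y.map (OGen.up k)) := by
  induction k with
  | zero => simpa only [funext up_zeroE, List.map_id'] using h
  | succ k ih =>
    rintro (_ | ⟨b, L⟩) M h1 h2
    · simp [dirs, step_nilE] at h1
    rw [dirs_upE] at h1 h2
    obtain ⟨M, h3, rfl⟩ := Option.map_eq_some_iff.1 h1
    obtain ⟨M', h4, e⟩ := Option.map_eq_some_iff.1 h2
    obtain rfl : M' = M := by simpa using e
    exact (ih L _ h3 h4).up b

end

end Pool.Agent.Lib.MP_140c34_gt.Arb
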