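import Pool.Agent.Lib.MP_140c34_gt.Arb.ExV2

/-! The local moves in position zero. -/

namespace Pool.Agent.Lib.MP_140c34_gt.Arb

open Finset OGen

variable {q : ℝ} {n : ℕ}

variable (q n) in
/-- Equal state sums on all states. -/
def UE (x y : List OGen) : Prop := ∀ (f : StE n → ℝ) (c : StE n), opE q x f c = opE q y f c

theorem UE.ee {x y} (h : UE q n x y) (L : List Bool) : EE q n L x y := fun f c _ => h f c

theorem UE.symm {x y} (h : UE q n x y) : UE q n y x := fun f c => (h f c).symm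

theorem UE.trans {x y z} (h : UE q n x y) (k : UE q n y z) : UE q n x z :=
  fun f c => (h f c).trans (k f c)

theorem UE.ctx {x y} (h : UE q n x y) (u w : List OGen) : UE q n (u ++ x ++ w) (u ++ y ++ w) :=
  fun f c => by simp only [opE_append, funext (h _)]

theorem UE.up {g g'} {x y : List OGen} (h : UE q n (g :: x) (g' :: y)) (k : ℕ) :
    UE q n ((g :: x).map (OGen.up k)) ((g' :: y).map (OGen.up k)) := by
  induction k with
  | zero => simpa only [funext up_zeroE, List.map_id'] using h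
  | succ k ih =>
    rintro f (_ | ⟨a, c⟩)
    · simp only [List.map_cons, opE, o1E_nil]
    · simp only [opE_up, ih _ c]

theorem o1E_up2 (g : OGen) (f : StE n → ℝ) (x y) (c : StE n) :
    o1E q (g.up 2) f (x :: y :: c) = o1E q g (fun d => f (x :: y :: d)) c := by
  rw [o1E_up, o1E_up, up_zeroE]

theorem commE (g h : OGen) (h0 : g.forget.pos = 0) :
    UE q n [g, h.up g.forget.out] [h.up g.forget.inn, g] := by
  intro f c
  have lin := fun c => (o1E_lin (q := q) (n := n) h c).mk'
  have z : ∀ c : StE n, o1E q h (fun _ => 0) c = 0 := fun c => (o1E_lin h c).map_zero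
  have sm : ∀ (t : ℝ) (F : StE n → ℝ) c, o1E q h (fun d => t * F d) c = t * o1E q h F c :=
    fun t F c => (o1E_lin h c).2 t F
  have ad : ∀ (F G : StE n → ℝ) c, o1E q h (fun d => F d + G d) c = o1E q h F c + o1E q h G c :=
    fun F G c => (o1E_lin h c).1 F G
  have su : ∀ (F : Fin n → StE n → ℝ) c,
      o1E q h (fun d => ∑ k, F k d) c = ∑ k, o1E q h (F k) c := fun F c => by
    have := map_sum (IsLinearMap.mk' _ (o1E_lin (q := q) h c)) F univ
    simp only [IsLinearMap.mk'_apply] at this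
    rw [← this]
    congr 1
    funext d
    simp
  have e : ∀ g : OGen, g.forget.pos = 0 → o1E (n := n) q g = g0E q g := fun g h0 => by
    rw [o1E, h0]; rfl
  simp only [opE, e g h0]
  cases g with
  | cup b i =>
    simp only [forget, Gen.out, Gen.inn, up_zeroE, g0E, o1E_up2]
    exact ((su _ c).trans (sum_congr rfl fun k _ => sm _ _ c)).symm
  | cap i =>
    simp only [forget, Gen.out, Gen.inn, up_zeroE]
    rcases c with _ | ⟨x, _ | ⟨y, c⟩⟩
    · exact (o1E_nil h 1 _).symm
    · rw [o1E_up, o1E_nil]; rfl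
    simp only [o1E_up2, g0E]
    split_ifs
    exacts [(sm _ _ c).symm, (z c).symm]
  | crs s i =>
    simp only [forget, Gen.out, Gen.inn]
    rcases c with _ | ⟨x, _ | ⟨y, c⟩⟩
    · exact (o1E_nil h 1 _).symm
    · rw [o1E_up, o1E_nil]; rfl
    simp only [o1E_up2, g0E]
    split_ifs <;> simp only [sm, ad, su, z]

variable (hq : q ≠ 0)
include hq

theorem zigLE (d : Bool) (L : List Bool) : EE q n (d :: L) [cup (!d) 1, cap 0] [] := by
  intro f c e
  obtain ⟨⟨b, a⟩, c, rfl, rfl, -⟩ := List.map_eq_cons_iff.1 e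
  cases b <;> simp [opE, o1E, forget, Gen.pos, atE, g0E, wcE, wpE, mE_ne hq]

theorem zigRE (d : Bool) (L : List Bool) : EE q n (d :: L) [cup d 0, cap 1] [] := by
  intro f c e
  obtain ⟨⟨b, a⟩, c, rfl, rfl, -⟩ := List.map_eq_cons_iff.1 e
  cases b <;> simp [opE, o1E, forget, Gen.pos, atE, g0E, wcE, wpE, mE_ne hq]

theorem slideCupE (b s : Bool) : UE q n [cup b 1, crs s 0] [cup b 0, crs (!s) 1] := by
  rintro f (_ | ⟨⟨d, a⟩, c⟩)
  · simp [opE, o1E, forget, Gen.pos, atE, g0E]
  cases b <;> cases d <;> cases s <;>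
    simp [opE, o1E, forget, Gen.pos, atE, g0E, wcE, wpE, tbE, mE_ne hq, mul_add, sum_add_distrib,
      mul_sum, mul_left_comm, mul_assoc]

theorem slideCapE (s : Bool) : UE q n [crs s 0, cap 1] [crs (!s) 1, cap 0] := by
  rintro f (_ | ⟨⟨a, i⟩, _ | ⟨⟨b, j⟩, _ | ⟨⟨c, k⟩, S⟩⟩⟩)
  · rfl
  · rfl
  · simp [opE, o1E, forget, Gen.pos, atE, g0E]
  cases a <;> cases b <;> cases c <;> cases s <;>
    simp [opE, o1E, forget, Gen.pos, atE, g0E, wcE, wpE, tbE, mE_ne hq, mul_left_comm, mul_assoc]
  all_goals exact .inl (by split_ifs with h <;> simp [h])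

theorem r1CupE (b s : Bool) : UE q n [cup b 0, crs s 0] [cup (!b) 0] := by
  intro f c
  have e : (s == (b == !b)) = !s := by cases b <;> cases s <;> rfl
  simp only [opE, o1E, forget, Gen.pos, atE, g0E, e, Bool.eq_not_self, if_false, if_true,
    Bool.not_not]
  rw [← sum_congr rfl fun k _ => congrArg (· * f ((!b, k) :: (b, k) :: c)) (wE_r1 hq (!s) b k)]
  simp only [mul_add, sum_add_distrib, mul_sum, add_mul, sum_mul]
  rw [sum_comm]
  congr 1 <;> refine sum_congr rfl fun k _ => ?_
  · ring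
  · exact sum_congr rfl fun a _ => by ring

theorem r1CapE (s : Bool) : UE q n [crs s 0, cap 0] [cap 0] := by
  rintro f (_ | ⟨⟨a, i⟩, _ | ⟨⟨b, j⟩, S⟩⟩)
  · rfl
  · rfl
  by_cases h : a = b
  · simp [opE, o1E, forget, Gen.pos, atE, g0E, h]
  obtain rfl : b = !a := Bool.eq_not_iff.2 (Ne.symm h)
  by_cases k : i = j
  swap
  · simp [opE, o1E, forget, Gen.pos, atE, g0E, k, Ne.symm k]
  subst k
  have := wE_r1' hq (s == (a == !a)) a i
  simp only [opE, o1E, forget, Gen.pos, atE, g0E, Bool.eq_not_self, Bool.not_eq_self, if_false,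
    if_true, ne_eq, not_false_eq_true, and_self, ← mul_assoc, ← sum_mul]
  linear_combination this * f S

theorem r2E (s a b : Bool) (L : List Bool) : EE q n (a :: b :: L) [crs s 0, crs (!s) 0] [] := by
  intro f c e
  obtain ⟨⟨a, i⟩, c, rfl, rfl, e'⟩ := List.map_eq_cons_iff.1 e
  obtain ⟨⟨b, j⟩, c, rfl, rfl, -⟩ := List.map_eq_cons_iff.1 e'
  by_cases h : a = b
  · subst h
    have v := vsE_mul (n := n) hq s
    simp only [opE, o1E, forget, Gen.pos, atE, g0E, beq_self_eq_true, beq_true, if_true]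
    by_cases k : i = j
    · subst k
      linear_combination (vsE q n s * vsE q n (!s) * wE_e hq s a i + v) * f ((a, i) :: (a, i) :: c)
    · obtain ⟨p1, p2⟩ := wE_p (q := q) s a i j (Fin.val_ne_of_ne k)
      linear_combination (vsE q n s * vsE q n (!s) * p1 + v) * f ((a, i) :: (a, j) :: c) +
        vsE q n s * vsE q n (!s) * p2 * f ((a, j) :: (a, i) :: c)
  obtain rfl : b = !a := Bool.eq_not_iff.2 (Ne.symm h)
  have e1 : (s == (a == !a)) = !s := by cases a <;> cases s <;> rfl
  have e2 : ((!s) == ((!a) == a)) = !!s := by cases a <;> cases s <;> rfl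
  have v := vsE_mul (n := n) hq (!s)
  simp only [opE, o1E, forget, Gen.pos, atE, g0E, e1, e2, Bool.eq_not_self, Bool.not_eq_self,
    if_false, if_true]
  by_cases k : i = j
  swap
  · simp only [k, Ne.symm k, if_false]
    linear_combination v * f ((a, i) :: (!a, j) :: c)
  subst k
  have t : ∑ k : Fin n, (wpE q n (!a) i * (tbE q (!!s) a i k * wcE q n a k) +
      wpE q n a i * (tbE q (!s) (!a) i k * wcE q n (!a) k) + wpE q n a i *
      ((∑ d : Fin n, tbE q (!s) (!a) i d * wcE q n (!a) d * wpE q n (!a) d * tbE q (!!s) a d k) *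
        wcE q n a k)) * f ((a, k) :: (!a, k) :: c) = 0 :=
    sum_eq_zero fun k _ => by rw [wE_r2 hq, zero_mul]
  simp only [add_mul, sum_add_distrib, mul_assoc, ← mul_sum, sum_mul] at t
  rw [sum_comm] at t
  simp only [if_true, mul_add, sum_add_distrib, mul_assoc, mul_left_comm _ (vsE q n (!!s)),
    ← mul_sum] at t ⊢
  linear_combination v * f ((a, i) :: (!a, i) :: c) + vsE q n (!s) * vsE q n (!!s) * t

end Pool.Agent.Lib.MP_140c34_gt.Arb
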