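import Pool.Agent.Lib.MP_140c34_gt.Arb.ExV3

/-! The third Reidemeister move in all orientations, and all moves in all positions. -/

namespace Pool.Agent.Lib.MP_140c34_gt.Arb

open Finset OGen

variable {q : ℝ} {n : ℕ}

variable (q n) in
/-- The triangle move. -/
def YE (a b c s t u : Bool) : Prop :=
  ∀ L, EE q n (a :: b :: c :: L) [crs s 0, crs t 1, crs u 0] [crs u 1, crs t 0, crs s 1]

theorem step_injE {h h' : OGen} (e : h.forget = h'.forget) {L M} (h1 : h.step L = some M)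
    (h2 : h'.step L = some M) : h = h' := by
  cases h <;> cases h' <;> simp only [forget, Gen.cup.injEq, Gen.cap.injEq, Gen.crs.injEq,
    reduceCtorEq] at e
  · subst e
    simp only [OGen.step] at h1 h2
    split_ifs at h1 h2
    have := h1.trans h2.symm
    simp only [Option.some.injEq, List.append_cancel_left_eq, List.cons.injEq] at this
    rw [this.1]
  · rw [e]
  · rw [e.1, e.2]

theorem commV (g g' h h' : OGen) (h0 : g.forget.pos = 0) (e : g.forget = g'.forget)
    (e' : h.forget = h'.forget) : VE q n [g, h.up g.forget.out] [h'.up g.forget.inn, g'] := by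
  intro L M h1 h2
  suffices g' = g ∧ h' = h by rw [this.1, this.2]; exact (commE g h h0).ee L
  simp only [dirs, Option.bind_eq_some_iff, Option.some.injEq, exists_eq_right] at h1 h2
  obtain ⟨A, h1, k1⟩ := h1
  obtain ⟨B, h2, k2⟩ := h2
  have p := fun (h : OGen) (a b : Bool) S => step_pre h [a, b] S
  cases g <;> cases g' <;> simp only [forget, Gen.cup.injEq, Gen.cap.injEq, Gen.crs.injEq,
    reduceCtorEq, Gen.pos, Gen.out, Gen.inn, up_zeroE] at e h0 h1 h2 k1 k2 <;> subst h0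
  · subst e
    simp [OGen.step] at h1 k2
    subst h1 k2
    obtain ⟨C, c1, c2⟩ := Option.map_eq_some_iff.1 ((p h _ _ _).symm.trans k1)
    simp at c2
    exact ⟨by rw [c2.1], step_injE e'.symm h2 (c2.2 ▸ c1)⟩
  · subst e
    rcases L with _ | ⟨a, _ | ⟨b, L⟩⟩ <;> simp [OGen.step] at h1
    obtain ⟨C, c1, rfl⟩ := Option.map_eq_some_iff.1 ((p h' _ _ _).symm.trans h2)
    simp [OGen.step] at k2
    exact ⟨rfl, step_injE e'.symm (k2.2 ▸ c1) (h1.2 ▸ k1)⟩
  · obtain ⟨rfl, rfl⟩ := e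
    rcases L with _ | ⟨a, _ | ⟨b, L⟩⟩ <;> simp [OGen.step] at h1
    subst h1
    obtain ⟨C, c1, rfl⟩ := Option.map_eq_some_iff.1 ((p h' _ _ _).symm.trans h2)
    obtain ⟨E, c2, rfl⟩ := Option.map_eq_some_iff.1 ((p h _ _ _).symm.trans k1)
    simp [OGen.step] at k2
    exact ⟨rfl, step_injE e'.symm (k2 ▸ c1) c2⟩

theorem inv_cupE {g : OGen} {i} (h : g.forget = .cup i) : ∃ b, g = cup b i := by
  cases g <;> simp_all [forget]

theorem inv_capE {g : OGen} {i} (h : g.forget = .cap i) : g = cap i := by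
  cases g <;> simp_all [forget]

theorem inv_crsE {g : OGen} {s i} (h : g.forget = .crs s i) : g = crs s i := by
  cases g <;> simp_all [forget]

theorem inv_upE {g : OGen} {h : Gen} {k} (e : g.forget = h.up k) :
    ∃ g' : OGen, g = g'.up k ∧ g'.forget = h := by
  obtain ⟨y, h1, h2⟩ := exists_of_up k [h] [g] (by simp [e])
  obtain ⟨g', y, rfl, h3, -⟩ := List.map_eq_cons_iff.1 h2
  exact ⟨g', (List.cons.inj h1).1, h3⟩

theorem up_upE (g : OGen) (a b : ℕ) : (g.up a).up b = g.up (b + a) := by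
  cases g <;> simp [OGen.up, Nat.add_assoc, Nat.add_comm a]

variable (hq : q ≠ 0)
include hq

theorem ybase : YE q n true true true true true true := by
  intro L f c e
  obtain ⟨⟨a, i⟩, c, rfl, ⟨⟩, e1⟩ := List.map_eq_cons_iff.1 e
  obtain ⟨⟨b, j⟩, c, rfl, ⟨⟩, e2⟩ := List.map_eq_cons_iff.1 e1
  obtain ⟨⟨b, k⟩, c, rfl, ⟨⟩, -⟩ := List.map_eq_cons_iff.1 e2
  have := ybeE hq (fun a b d => if h : a < n ∧ b < n ∧ d < n then
    f ((true, ⟨a, h.1⟩) :: (true, ⟨b, h.2.1⟩) :: (true, ⟨d, h.2.2⟩) :: c) else 0) i j k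
  simp only [r0E, r1E, Fin.is_lt, and_self, dite_true, Fin.eta] at this
  simp only [opE, o1E, forget, Gen.pos, atE, g0E, beq_self_eq_true, if_true, tbE]
  linear_combination vsE q n true ^ 3 * this

theorem YE.g {a b c s t u} (h : YE q n a b c s t u) : YE q n b a c (!s) u t := by
  intro L
  have h1 := ((r2E (n := n) hq s a b L).up (k := 0) (x := [crs s 0, crs (!s) 0]) (y := []) c).ctx
    (L := b :: a :: c :: L) [crs (!s) 0, crs u 1, crs t 0] [] rfl
  have h2 := (h L).ctx (L := b :: a :: c :: L) [crs (!s) 0] [crs (!s) 1] rfl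
  have h3 := (r2E (n := n) hq (!s) b a (c :: L)).ctx [] [crs t 1, crs u 0, crs (!s) 1] rfl
  rw [Bool.not_not] at h3
  exact h1.symm.trans (h2.symm.trans h3)

theorem passE (s t d p r : Bool) (L : List Bool) : EE q n (p :: r :: d :: L)
    [cup d 0, crs s 1, crs t 2, cap 3] [crs (!t) 1, crs (!s) 0] := by
  have h1 := ((slideCapE (n := n) hq t).up 2).ctx [cup d 0, crs s 1] []
  have h2 := ((commE (q := q) (n := n) (crs s 0) (crs (!t) 0) rfl).up 1).ctx [cup d 0] [cap 2]
  have h3 := ((slideCapE (n := n) hq s).up 1).ctx [cup d 0, crs (!t) 3] []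
  have h4 := (commE (q := q) (n := n) (cup d 0) (crs (!t) 1) rfl).ctx [] [crs (!s) 2, cap 1]
  have h5 := (commE (q := q) (n := n) (cup d 0) (crs (!s) 0) rfl).ctx [crs (!t) 1] [cap 1]
  have h6 := (zigRE (n := n) hq d (p :: r :: L)).ctx (L := p :: r :: d :: L)
    [crs (!t) 1, crs (!s) 0] [] rfl
  exact ((h1.trans (h2.trans (h3.trans (h4.trans h5)))).ee _).trans h6

theorem YE.f {a b c s t u} (h : YE q n a b c s t u) : YE q n b c (!a) u (!s) (!t) := by
  intro L
  have h1 := (passE (n := n) hq t s (!a) c b L).ctx (L := b :: c :: (!a) :: L) [crs u 0] [] rfl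
  have h2 := (commE (q := q) (n := n) (cup (!a) 0) (crs u 0) rfl).ctx [] [crs t 1, crs s 2, cap 3]
  have h3 := ((h ((!a) :: L)).up (k := 0) (x := [crs s 0, crs t 1, crs u 0])
    (y := [crs u 1, crs t 0, crs s 1]) (!a)).ctx (L := b :: c :: (!a) :: L) [cup (!a) 0] [cap 3]
    (by simp [dirs, OGen.step])
  have h4 := ((commE (q := q) (n := n) (crs u 0) (cap 0) rfl).up 1).ctx
    [cup (!a) 0, crs s 1, crs t 2] []
  have h5 := (passE (n := n) hq s t (!a) b c L).ctx [] [crs u 1] rfl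
  exact h1.symm.trans ((h2.symm.ee _).trans (h3.symm.trans ((h4.ee _).trans h5)))

theorem r3E (s a b c : Bool) : YE q n a b c s s s := by
  have y := ybase (n := n) hq
  have F := fun {a b c s t u} => YE.f (n := n) (a := a) (b := b) (c := c) (s := s) (t := t) (u := u) hq
  have G := fun {a b c s t u} => YE.g (n := n) (a := a) (b := b) (c := c) (s := s) (t := t) (u := u) hq
  cases s <;> cases a <;> cases b <;> cases c
  exacts [G (F (F (G (F (G y))))), G (F (F (F (F y)))), F (G (F (F (F (F (F y)))))),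
    F (F (G (F (F (F y))))), F (F (G y)), F (G (F (F y))), G (F y), F (G (F (G (F (F (G y)))))),
    F (F (F y)), F (G (F (F (G (F y))))), G (F (G (F y))), F (G (F (G (F (F (F y)))))),
    F (G (F (G y))), G (F (G (F (F (F (F y)))))), F (F (G (F (G (F (F y)))))), y]

theorem moveE {m : ℤ} {x y : List OGen} (h : Move m (x.map forget) (y.map forget)) : VE q n x y := by
  generalize hx : x.map forget = x' at h
  generalize hy : y.map forget = y' at h
  cases h <;> simp only [List.map_eq_cons_iff, List.map_eq_nil_iff] at hx hy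
  case zigL i _ =>
    obtain ⟨_, _, rfl, a, _, _, rfl, b, rfl⟩ := hx
    obtain ⟨d, rfl⟩ := inv_cupE a
    have : VE q n [cup d 1, cap 0] [] := by
      rintro (_ | ⟨e, L⟩) M h1 - <;> simp [dirs, OGen.step] at h1
      obtain rfl : d = !e := Bool.eq_not_iff.2 (Ne.symm h1.1)
      exact zigLE hq e L
    simpa [OGen.up, inv_capE b, hy, Nat.add_comm] using this.up i
  case zigR i _ =>
    obtain ⟨_, _, rfl, a, _, _, rfl, b, rfl⟩ := hx
    obtain ⟨d, rfl⟩ := inv_cupE a
    have : VE q n [cup d 0, cap 1] [] := by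
      rintro (_ | ⟨e, L⟩) M h1 - <;> simp [dirs, OGen.step] at h1
      obtain rfl : d = e := h1.1
      exact zigRE hq d L
    simpa [OGen.up, inv_capE b, hy, Nat.add_comm] using this.up i
  case slideCup s i =>
    obtain ⟨_, _, rfl, a, _, _, rfl, b, rfl⟩ := hx
    obtain ⟨_, _, rfl, a', _, _, rfl, b', rfl⟩ := hy
    obtain ⟨d, rfl⟩ := inv_cupE a
    obtain ⟨d', rfl⟩ := inv_cupE a'
    have : VE q n [cup d 1, crs s 0] [cup d' 0, crs (!s) 1] := by
      rintro (_ | ⟨e, L⟩) M h1 h2 <;> simp [dirs, OGen.step] at h1 h2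
      obtain rfl : d = d' := (List.cons.inj (h1.trans h2.symm)).1
      exact (slideCupE hq d s).ee _
    simpa [OGen.up, inv_crsE b, inv_crsE b', Nat.add_comm] using this.up i
  case slideCap s i =>
    obtain ⟨_, _, rfl, a, _, _, rfl, b, rfl⟩ := hx
    obtain ⟨_, _, rfl, a', _, _, rfl, b', rfl⟩ := hy
    intro L M _ _
    simpa [OGen.up, inv_crsE a, inv_crsE a', inv_capE b, inv_capE b', Nat.add_comm]
      using ((slideCapE hq s).up i).ee L
  case comm g h =>
    obtain ⟨g1, _, rfl, rfl, _, _, rfl, b, rfl⟩ := hx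
    obtain ⟨_, _, rfl, a', g2, _, rfl, b', rfl⟩ := hy
    obtain ⟨h1, rfl, e1⟩ := inv_upE b
    obtain ⟨h2, rfl, e2⟩ := inv_upE a'
    obtain ⟨g0, p0, e0⟩ := base_exE g1
    generalize g1.forget.pos = k at e0 ⊢
    subst e0
    obtain ⟨g3, rfl, e3⟩ := inv_upE (b'.trans (forget_up _ _))
    have o : (g0.up k).forget.out = g0.forget.out ∧ (g0.up k).forget.inn = g0.forget.inn := by
      cases g0 <;> exact ⟨rfl, rfl⟩
    simpa [up_upE, o.1, o.2] using (commV g0 g3 h1 h2 p0 e3.symm (e1.trans e2.symm)).up k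
  case r1Cup s i =>
    obtain ⟨_, _, rfl, a, _, _, rfl, b, rfl⟩ := hx
    obtain ⟨_, _, rfl, a', rfl⟩ := hy
    obtain ⟨d, rfl⟩ := inv_cupE a
    obtain ⟨d', rfl⟩ := inv_cupE a'
    have : VE q n [cup d 0, crs s 0] [cup d' 0] := by
      intro L M h1 h2
      simp [dirs, OGen.step] at h1 h2
      obtain rfl : d' = !d := (List.cons.inj (h2.trans h1.symm)).1
      exact (r1CupE hq d s).ee _
    simpa [OGen.up, inv_crsE b] using this.up i
  case r1Cap s i =>
    obtain ⟨_, _, rfl, a, _, _, rfl, b, rfl⟩ := hx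
    obtain ⟨_, _, rfl, a', rfl⟩ := hy
    intro L M _ _
    simpa [OGen.up, inv_crsE a, inv_capE a', inv_capE b] using ((r1CapE hq s).up i).ee L
  case r2 s i _ =>
    obtain ⟨_, _, rfl, a, _, _, rfl, b, rfl⟩ := hx
    have : VE q n [crs s 0, crs (!s) 0] [] := by
      rintro (_ | ⟨e, _ | ⟨e', L⟩⟩) M h1 - <;> simp [dirs, OGen.step] at h1
      exact r2E hq s e e' L
    simpa [OGen.up, inv_crsE a, inv_crsE b, hy] using this.up i
  case r3 s i =>
    obtain ⟨_, _, rfl, a, _, _, rfl, b, _, _, rfl, c, rfl⟩ := hx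
    obtain ⟨_, _, rfl, a', _, _, rfl, b', _, _, rfl, c', rfl⟩ := hy
    have : VE q n [crs s 0, crs s 1, crs s 0] [crs s 1, crs s 0, crs s 1] := by
      rintro (_ | ⟨e, _ | ⟨e', _ | ⟨e'', L⟩⟩⟩) M h1 - <;> simp [dirs, OGen.step] at h1
      exact r3E hq s e e' e'' L
    simpa [OGen.up, inv_crsE a, inv_crsE b, inv_crsE c, inv_crsE a', inv_crsE b', inv_crsE c',
      Nat.add_comm] using this.up i

end Pool.Agent.Lib.MP_140c34_gt.Arb
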