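import Pool.Agent.Lib.MP_140c34_gt.Arb.Defs

/-! Second order jets of the bracket vector of a tangle at the point `d = 0`. -/

namespace Pool.Agent.Lib.MP_140c34_gt.Arb

/-- Rational polynomials modulo the third power of the variable. -/
@[ext] structure J where
  c0 : ℚ
  c1 : ℚ
  c2 : ℚ

namespace J

instance : Zero J := ⟨⟨0, 0, 0⟩⟩
instance : One J := ⟨⟨1, 0, 0⟩⟩
instance : Add J := ⟨fun x y => ⟨x.c0 + y.c0, x.c1 + y.c1, x.c2 + y.c2⟩⟩
instance : Neg J := ⟨fun x => ⟨-x.c0, -x.c1, -x.c2⟩⟩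
instance : Mul J :=
  ⟨fun x y => ⟨x.c0 * y.c0, x.c0 * y.c1 + x.c1 * y.c0, x.c0 * y.c2 + x.c1 * y.c1 + x.c2 * y.c0⟩⟩

@[simp] theorem zero_c0 : (0 : J).c0 = 0 := rfl
@[simp] theorem zero_c1 : (0 : J).c1 = 0 := rfl
@[simp] theorem zero_c2 : (0 : J).c2 = 0 := rfl
@[simp] theorem one_c0 : (1 : J).c0 = 1 := rfl
@[simp] theorem one_c1 : (1 : J).c1 = 0 := rfl
@[simp] theorem one_c2 : (1 : J).c2 = 0 := rfl
@[simp] theorem add_c0 (x y : J) : (x + y).c0 = x.c0 + y.c0 := rfl
@[simp] theorem add_c1 (x y : J) : (x + y).c1 = x.c1 + y.c1 := rfl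
@[simp] theorem add_c2 (x y : J) : (x + y).c2 = x.c2 + y.c2 := rfl
@[simp] theorem neg_c0 (x : J) : (-x).c0 = -x.c0 := rfl
@[simp] theorem neg_c1 (x : J) : (-x).c1 = -x.c1 := rfl
@[simp] theorem neg_c2 (x : J) : (-x).c2 = -x.c2 := rfl
@[simp] theorem mul_c0 (x y : J) : (x * y).c0 = x.c0 * y.c0 := rfl
@[simp] theorem mul_c1 (x y : J) : (x * y).c1 = x.c0 * y.c1 + x.c1 * y.c0 := rfl
@[simp] theorem mul_c2 (x y : J) :
    (x * y).c2 = x.c0 * y.c2 + x.c1 * y.c1 + x.c2 * y.c0 := rfl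

instance : CommRing J where
  add_assoc x y z := by ext <;> simp <;> ring
  zero_add x := by ext <;> simp
  add_zero x := by ext <;> simp
  add_comm x y := by ext <;> simp <;> ring
  neg_add_cancel x := by ext <;> simp
  mul_assoc x y z := by ext <;> simp <;> ring
  one_mul x := by ext <;> simp
  mul_one x := by ext <;> simp
  mul_comm x y := by ext <;> simp <;> ring
  zero_mul x := by ext <;> simp
  mul_zero x := by ext <;> simp
  left_distrib x y z := by ext <;> simp <;> ring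
  right_distrib x y z := by ext <;> simp <;> ring
  nsmul := nsmulRec
  zsmul := zsmulRec

@[simp] theorem sub_c0 (x y : J) : (x - y).c0 = x.c0 - y.c0 := by
  rw [sub_eq_add_neg, sub_eq_add_neg]; rfl
@[simp] theorem sub_c1 (x y : J) : (x - y).c1 = x.c1 - y.c1 := by
  rw [sub_eq_add_neg, sub_eq_add_neg]; rfl
@[simp] theorem sub_c2 (x y : J) : (x - y).c2 = x.c2 - y.c2 := by
  rw [sub_eq_add_neg, sub_eq_add_neg]; rfl

end J

/-- The variable. -/
def eta : J := ⟨0, 1, 0⟩
@[simp] theorem eta_c0 : eta.c0 = 0 := rfl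
@[simp] theorem eta_c1 : eta.c1 = 1 := rfl
@[simp] theorem eta_c2 : eta.c2 = 0 := rfl

/-- Change of sign of the variable. -/
def bar (x : J) : J := ⟨x.c0, -x.c1, x.c2⟩
@[simp] theorem bar_c0 (x : J) : (bar x).c0 = x.c0 := rfl
@[simp] theorem bar_c1 (x : J) : (bar x).c1 = -x.c1 := rfl
@[simp] theorem bar_c2 (x : J) : (bar x).c2 = x.c2 := rfl

/-- The norm. -/
def nrm (x : J) : J := x * bar x

/-- Sign of a crossing. -/
def sg (s : Bool) : ℤ := if s then 1 else -1

def zeroJ : J × J := (1, 0)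
def infJ : J × J := (0, 1)
def crJ (s : Bool) : J × J := (1, ⟨sg s, 1 / 2, sg s / 8⟩)
def addJ (x y : J × J) : J × J := (x.1 * y.1, x.2 * y.1 + x.1 * y.2 + eta * (x.2 * y.2))
def mulJ (x y : J × J) : J × J := (x.1 * y.2 + x.2 * y.1 - eta * (x.1 * y.1), x.2 * y.2)
def rotJ (x : J × J) : J × J := (x.2, -x.1)
/-- Jet of the numerator closure. -/
def ncl (x : J × J) : J := x.2 - eta * x.1

/-- Jet of an algebraic tangle. -/
def jet : Alg → J × J
  | .zero => zeroJ
  | .inf => infJ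
  | .cr s => crJ s
  | .add X Y => addJ (jet X) (jet Y)
  | .mul X Y => mulJ (jet X) (jet Y)

/-- Classical vector (denominator, numerator). -/
def cv : Alg → ℤ × ℤ
  | .zero => (1, 0)
  | .inf => (0, 1)
  | .cr s => (1, sg s)
  | .add X Y => ((cv X).1 * (cv Y).1, (cv X).2 * (cv Y).1 + (cv X).1 * (cv Y).2)
  | .mul X Y => ((cv X).1 * (cv Y).2 + (cv X).2 * (cv Y).1, (cv X).2 * (cv Y).2)

def mm (x : J × J) : ℚ := x.2.c1 * x.1.c0 - x.2.c0 * x.1.c1
def mu (x : J × J) : ℚ := 2 * mm x - x.1.c0 ^ 2 - x.2.c0 ^ 2 + 1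
def CC (P : J) : ℚ := P.c1 ^ 2 - 2 * P.c0 * P.c2
def WW (x : J × J) : ℚ := CC x.1
def VV (x : J × J) : ℚ := x.2.c1 * x.1.c1 - x.2.c2 * x.1.c0 - x.2.c0 * x.1.c2
def LL (x : J × J) : ℚ :=
  x.1.c0 * VV x - x.2.c0 * WW x + x.2.c0 * mm x - x.2.c0 ^ 3 / 3 - x.2.c0 * x.1.c0 ^ 2 / 24
/-- The second order invariant of the closure of the sum of two tangles. -/
def C2 (x y : J × J) : ℚ := CC (ncl (addJ x y))

/-- Equal up to a factor of norm one. -/
def JEq (x y : J × J) : Prop := ∃ w : J, nrm w = 1 ∧ y = (w * x.1, w * x.2)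

/-- Flip about the vertical axis. -/
def Alg.v : Alg → Alg
  | .add X Y => .add Y.v X.v
  | .mul X Y => .mul X.v Y.v
  | X => X

/-- Flip about the horizontal axis. -/
def Alg.h : Alg → Alg
  | .add X Y => .add X.h Y.h
  | .mul X Y => .mul Y.h X.h
  | X => X

/-- Flip about the diagonal through the upper left end. -/
def Alg.d : Alg → Alg
  | .zero => .inf
  | .inf => .zero
  | .cr s => .cr (!s)
  | .add X Y => .mul Y.d X.d
  | .mul X Y => .add Y.d X.d

/-- Half twist of the three ends other than the upper left one. -/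
def Alg.del (e : Bool) (Z : Alg) : Alg := .mul (.cr e) (.add (.mul (.cr e) Z) (.cr (!e)))

/-- Number of constructors. -/
def Alg.size : Alg → ℕ
  | .add X Y => X.size + Y.size + 1
  | .mul X Y => X.size + Y.size + 1
  | _ => 0

/-- Equivalent diagrams. -/
def TE (X Y : Alg) : Prop := Eqv 2 X.word Y.word

/-- Equivalent diagrams with equivalent jets. -/
def Rel (X Y : Alg) : Prop := TE X Y ∧ JEq (jet X) (jet Y)

/-- The lower closure of `X + r` is the trivial minimum. -/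
def Triv (X r : Alg) : Prop := Eqv 0 (Gen.cup 0 :: (Alg.add X r).word) [Gen.cup 0]

/-- Tangles obtained from `0` and `∞` by twisting on the right and at the bottom. -/
inductive Rat : Alg → Prop
  | zero : Rat .zero
  | inf : Rat .inf
  | s (e : Bool) {Z : Alg} : Rat Z → Rat (.add Z (.cr e))
  | t (e : Bool) {Z : Alg} : Rat Z → Rat (.mul (.cr e) Z)

/-- Rational tangles. -/
def IsRat (X : Alg) : Prop := ∃ R, Rat R ∧ Rel X R

/-- Determinant (with sign) of the closure of `X + r`. -/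
def det (X r : Alg) : ℤ := (cv X).2 * (cv r).1 + (cv X).1 * (cv r).2

open LaurentPolynomial in
/-- Coefficients of the tangles `0` and `∞` in the bracket of an algebraic tangle. -/
noncomputable def vec : Alg → ℤ[T;T⁻¹] × ℤ[T;T⁻¹]
  | .zero => (1, 0)
  | .inf => (0, 1)
  | .cr s => (T (if s then -1 else 1), T (if s then 1 else -1))
  | .add X Y => ((vec X).1 * (vec Y).1,
      (vec X).1 * (vec Y).2 + (vec X).2 * (vec Y).1 + loopVal * ((vec X).2 * (vec Y).2))
  | .mul X Y => ((vec X).1 * (vec Y).2 + (vec X).2 * (vec Y).1 + loopVal * ((vec X).1 * (vec Y).1),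
      (vec X).2 * (vec Y).2)

end Pool.Agent.Lib.MP_140c34_gt.Arb
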