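import Pool.Agent.Lib.MP_140c34_gt.Arb.Jet

/-! Reciprocity step and the inequality for three rational tangles. -/

namespace Pool.Agent.Lib.MP_140c34_gt.Arb

theorem WW_add_cr (e : Bool) (x : J × J) : WW (addJ x (crJ e)) = WW x := by
  cases e <;> simp [WW, CC, addJ, crJ]
theorem LL_add_cr (e : Bool) (x : J × J) : LL (addJ x (crJ e)) = LL x := by
  cases e <;> simp [LL, VV, WW, mm, CC, addJ, crJ, sg] <;> ring

theorem LL_rot67 (x : J × J) : 12 * x.1.c0 * LL (rotJ x) = 12 * x.2.c0 * LL x + x.2.c0 ^ 4 +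
    x.1.c0 ^ 4 - 5 * x.2.c0 ^ 2 * x.1.c0 ^ 2 + 3 * (mu x - 1) ^ 2 := by
  simp [LL, VV, WW, mm, CC, rotJ, mu]
  ring

theorem WW_rot67 (x : J × J) : x.1.c0 ^ 2 * WW (rotJ x) = x.2.c0 ^ 2 * WW x + 2 * x.2.c0 * LL x +
    mm x ^ 2 - 2 * x.2.c0 ^ 2 * mm x + 2 * x.2.c0 ^ 4 / 3 + x.2.c0 ^ 2 * x.1.c0 ^ 2 / 12 := by
  simp [LL, VV, WW, mm, CC, rotJ]
  ring

theorem stepL67 {P Q L M : ℚ} (hQ : 2 ≤ Q) (hP : 2 * Q ≤ P) (hL : L ≤ Q ^ 4 / 12)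
    (h : 12 * Q * M ≤ 12 * P * L + P ^ 4) : M ≤ P ^ 4 / 12 := by
  have hQ0 : 0 < Q := by linarith
  have hP0 : 0 < P := by linarith
  have h3 : (2 * Q) ^ 3 ≤ P ^ 3 := pow_le_pow_left₀ (by linarith) hP 3
  have e1 : 12 * P * L ≤ P * Q ^ 4 := by nlinarith [mul_le_mul_of_nonneg_left hL hP0.le]
  have e2 : P * Q ^ 4 ≤ Q * P ^ 4 / 8 := by
    nlinarith [mul_le_mul_of_nonneg_left h3 (mul_pos hP0 hQ0).le]
  have p4 : 0 < P ^ 4 := pow_pos hP0 4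
  have e3 : P ^ 4 ≤ Q * P ^ 4 / 2 := by nlinarith
  have e4 : Q * (12 * M) ≤ Q * P ^ 4 := by nlinarith [mul_pos hQ0 p4]
  have := le_of_mul_le_mul_left e4 hQ0
  linarith

theorem stepW67 {P Q W T M : ℚ} (hQ : 2 ≤ Q) (hP : 2 * Q ≤ P) (hW : -Q ^ 4 / 12 ≤ W)
    (hT : -(P * Q ^ 4 / 6) ≤ T)
    (h : Q ^ 2 * M = P ^ 2 * W + T + ((Q ^ 2 + P ^ 2 - 1) / 2) ^ 2 -
      2 * P ^ 2 * ((Q ^ 2 + P ^ 2 - 1) / 2) + 2 * P ^ 4 / 3 + P ^ 2 * Q ^ 2 / 12) :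
    -P ^ 4 / 12 ≤ M := by
  have hQ0 : 0 < Q := by linarith
  have hP0 : 0 < P := by linarith
  have hP4 : 4 ≤ P := by linarith
  have q2 : 0 < Q ^ 2 := pow_pos hQ0 2
  have p2 : 0 < P ^ 2 := pow_pos hP0 2
  have p3 : 0 < P ^ 3 := pow_pos hP0 3
  have p4 : 0 < P ^ 4 := pow_pos hP0 4
  have a1 : 4 * Q ^ 2 ≤ P ^ 2 := by nlinarith
  have a2 : 4 ≤ Q ^ 2 := by nlinarith
  have a3 : 16 ≤ P ^ 2 := by nlinarith
  have e0 : -(P ^ 2 * Q ^ 4 / 12) ≤ P ^ 2 * W := by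
    nlinarith [mul_le_mul_of_nonneg_left hW p2.le]
  have e1 : P ^ 2 * Q ^ 4 / 12 ≤ Q ^ 2 * P ^ 4 / 48 := by
    nlinarith [mul_le_mul_of_nonneg_left a1 (mul_pos p2 q2).le]
  have e2 : P * Q ^ 4 / 6 ≤ Q ^ 2 * P ^ 3 / 24 := by
    nlinarith [mul_le_mul_of_nonneg_left a1 (mul_pos hP0 q2).le]
  have e3 : Q ^ 2 * P ^ 3 / 24 ≤ Q ^ 2 * P ^ 4 / 96 := by
    nlinarith [mul_le_mul_of_nonneg_left hP4 (mul_pos q2 p3).le]
  have e4 : P ^ 4 / 12 ≤ Q ^ 2 * P ^ 4 / 48 := by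
    nlinarith [mul_le_mul_of_nonneg_left a2 p4.le]
  have e5 : P ^ 2 * Q ^ 2 / 2 ≤ Q ^ 2 * P ^ 4 / 32 := by
    nlinarith [mul_le_mul_of_nonneg_left a3 (mul_pos p2 q2).le]
  have e6 : Q ^ 2 * (-P ^ 4 / 12) ≤ Q ^ 2 * M := by
    rw [h]
    nlinarith [sq_nonneg (Q ^ 2 - 1), mul_pos p2 q2]
  exact le_of_mul_le_mul_left e6 q2

/-- With q = x.1.c0, p = x.2.c0, m = mm x, n = mu x - 1 (ring identities, checked numerically):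
12 q LL(rot x) = 12 p LL x + p^4 + q^4 - 5 p^2 q^2 + 3 n^2 and
q^2 WW(rot x) = p^2 WW x + 2 p LL x + m^2 - 2 p^2 m + 2 p^4 / 3 + p^2 q^2 / 12;
mu x = 0 gives m = (q^2 + p^2 - 1) / 2. Case |q| = 1 is exact. Case |q| ≥ 2 has |p| ≥ 4:
|LL rot| ≤ (p^4 / 8 + p^4 / 2) / 12, WW rot ≥ -p^4/48 - |p|^3/24 - p^4/48 - p^2/2. -/
theorem bound_step (x : J × J) (q p : ℤ) (hq : x.1.c0 = q) (hp : x.2.c0 = p) (hmu : mu x = 0)
    (h1 : 1 ≤ |q|) (h2 : 2 * |q| ≤ |p|) (hL : |LL x| ≤ (q : ℚ) ^ 4 / 12)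
    (hW : -(q : ℚ) ^ 4 / 12 ≤ WW x) (h0 : |q| = 1 → LL x = 0 ∧ WW x = 0) :
    |LL (rotJ x)| ≤ (p : ℚ) ^ 4 / 12 ∧ -(p : ℚ) ^ 4 / 12 ≤ WW (rotJ x) := by
  have iL := LL_rot67 x
  have iW := WW_rot67 x
  have hm : mm x = ((q : ℚ) ^ 2 + (p : ℚ) ^ 2 - 1) / 2 := by
    have := hmu
    unfold mu at this
    rw [hq, hp] at this
    linarith
  rw [hq, hp, hmu] at iL
  rw [hq, hp, hm] at iW
  have h2' : 2 * |(q : ℚ)| ≤ |(p : ℚ)| := by exact_mod_cast h2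
  have sp : |(p : ℚ)| ^ 2 = (p : ℚ) ^ 2 := sq_abs _
  have sq : |(q : ℚ)| ^ 2 = (q : ℚ) ^ 2 := sq_abs _
  have fp : |(p : ℚ)| ^ 4 = (p : ℚ) ^ 4 := by
    rw [show (4 : ℕ) = 2 * 2 from rfl, pow_mul, pow_mul, sp]
  have fq : |(q : ℚ)| ^ 4 = (q : ℚ) ^ 4 := by
    rw [show (4 : ℕ) = 2 * 2 from rfl, pow_mul, pow_mul, sq]
  have aL : 12 * |(q : ℚ)| * |LL (rotJ x)| = |12 * (q : ℚ) * LL (rotJ x)| := by
    rw [abs_mul, abs_mul]; norm_num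
  rcases h1.eq_or_lt with h1 | h1
  · obtain ⟨l0, w0⟩ := h0 h1.symm
    have q1 : |(q : ℚ)| = 1 := by exact_mod_cast h1.symm
    have q2 : (q : ℚ) ^ 2 = 1 := by rw [← sq, q1]; norm_num
    have q4 : (q : ℚ) ^ 4 = 1 := by rw [← fq, q1]; norm_num
    have p2 : 4 ≤ (p : ℚ) ^ 2 := by rw [← sp]; nlinarith
    rw [l0, q2, q4] at iL
    rw [l0, w0, q2] at iW
    rw [iL, q1] at aL
    constructor
    · have : |12 * (p : ℚ) * 0 + (p : ℚ) ^ 4 + 1 - 5 * (p : ℚ) ^ 2 * 1 + 3 * (0 - 1) ^ 2| ≤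
          (p : ℚ) ^ 4 := by
        rw [abs_le]; constructor <;> nlinarith
      linarith
    · nlinarith
  · have hQ : 2 ≤ |(q : ℚ)| := by
      have : 2 ≤ |q| := h1
      exact_mod_cast this
    have a1 : 4 * (q : ℚ) ^ 2 ≤ (p : ℚ) ^ 2 := by rw [← sp, ← sq]; nlinarith
    have a2 : 4 ≤ (q : ℚ) ^ 2 := by rw [← sq]; nlinarith
    have aP : |(p : ℚ) * LL x| = |(p : ℚ)| * |LL x| := abs_mul _ _
    constructor
    · rw [← fp]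
      refine stepL67 (L := |LL x|) hQ h2' (by rw [fq]; exact hL) ?_
      rw [aL, iL, fp, abs_le]
      have b1 := le_abs_self ((p : ℚ) * LL x)
      have b2 := neg_abs_le ((p : ℚ) * LL x)
      have c1 : (q : ℚ) ^ 4 + 3 ≤ 5 * (p : ℚ) ^ 2 * (q : ℚ) ^ 2 := by nlinarith
      have c2 : 5 * (p : ℚ) ^ 2 * (q : ℚ) ^ 2 ≤ 2 * (p : ℚ) ^ 4 := by nlinarith
      have c3 : 0 ≤ (q : ℚ) ^ 4 := by positivity
      constructor <;> nlinarith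
    · rw [← fp]
      refine stepW67 (W := WW x) (T := 2 * (p : ℚ) * LL x) hQ h2' (by rw [fq]; exact hW) ?_ ?_
      · have b2 := neg_abs_le ((p : ℚ) * LL x)
        have b3 := mul_le_mul_of_nonneg_left hL (abs_nonneg (p : ℚ))
        rw [fq]
        nlinarith
      · rw [sp, sq, fp]; exact iW

/-- The four additive quantities. -/
def f67 (x : J × J) : ℚ := x.2.c0 / x.1.c0
def g67 (x : J × J) : ℚ := mm x / x.1.c0 ^ 2 - f67 x ^ 2 / 2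
def k67 (x : J × J) : ℚ := LL x / x.1.c0 ^ 3
def o67 (x : J × J) : ℚ := WW x / x.1.c0 ^ 2

theorem f_add67 {x y : J × J} (hx : x.1.c0 ≠ 0) (hy : y.1.c0 ≠ 0) :
    f67 (addJ x y) = f67 x + f67 y := by
  simp only [f67, addJ, J.mul_c0, J.add_c0, eta_c0]
  field_simp
  ring

theorem g_add67 {x y : J × J} (hx : x.1.c0 ≠ 0) (hy : y.1.c0 ≠ 0) :
    g67 (addJ x y) = g67 x + g67 y := by
  simp only [g67, f67, mm, addJ, J.mul_c0, J.add_c0, J.mul_c1, J.add_c1, eta_c0, eta_c1]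
  field_simp
  ring

theorem o_add67 {x y : J × J} (hx : x.1.c0 ≠ 0) (hy : y.1.c0 ≠ 0) :
    o67 (addJ x y) = o67 x + o67 y := by
  simp only [o67, WW, CC, addJ, J.mul_c0, J.mul_c1, J.mul_c2]
  field_simp
  ring

theorem k_add67 {x y : J × J} (hx : x.1.c0 ≠ 0) (hy : y.1.c0 ≠ 0) :
    k67 (addJ x y) = k67 x + k67 y := by
  simp only [k67, LL, VV, WW, CC, mm, addJ, J.mul_c0, J.add_c0, J.mul_c1, J.add_c1, J.mul_c2,
    J.add_c2, eta_c0, eta_c1, eta_c2]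
  field_simp
  ring

theorem CC_ncl67 {x : J × J} (hx : x.1.c0 ≠ 0) : CC (ncl x) = x.1.c0 ^ 2 * (f67 x ^ 2 * o67 x +
    (1 - g67 x - f67 x ^ 2 / 2) ^ 2 +
      2 * f67 x * (k67 x + f67 x / 24 - f67 x * g67 x - f67 x ^ 3 / 6)) := by
  simp only [k67, o67, g67, f67, LL, VV, WW, CC, mm, ncl, J.mul_c0, J.sub_c0, J.mul_c1, J.sub_c1,
    J.mul_c2, J.sub_c2, eta_c0, eta_c1, eta_c2]
  field_simp
  ring

theorem g_val67 {x : J × J} (hx : x.1.c0 ≠ 0) (h : mu x = 0) :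
    g67 x = (1 - 1 / |x.1.c0| ^ 2) / 2 := by
  have hm : mm x = (x.1.c0 ^ 2 + x.2.c0 ^ 2 - 1) / 2 := by
    unfold mu at h
    linarith
  rw [sq_abs]
  simp only [g67, f67, hm]
  field_simp
  ring

theorem k_bd67 {x : J × J} (hx : x.1.c0 ≠ 0) (h : |LL x| ≤ x.1.c0 ^ 4 / 12) :
    |k67 x| ≤ |x.1.c0| / 12 := by
  have h0 : 0 < |x.1.c0| := abs_pos.mpr hx
  have f4 : |x.1.c0| ^ 4 = x.1.c0 ^ 4 := by
    rw [show (4 : ℕ) = 2 * 2 from rfl, pow_mul, pow_mul, sq_abs]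
  rw [k67, abs_div, abs_pow, div_le_iff₀ (pow_pos h0 3)]
  rw [← f4] at h
  linarith [show |x.1.c0| / 12 * |x.1.c0| ^ 3 = |x.1.c0| ^ 4 / 12 by ring]

theorem o_bd67 {x : J × J} (hx : x.1.c0 ≠ 0) (h : -x.1.c0 ^ 4 / 12 ≤ WW x) :
    -(|x.1.c0| ^ 2 / 12) ≤ o67 x := by
  have h0 : 0 < x.1.c0 ^ 2 := by positivity
  rw [sq_abs, o67, le_div_iff₀ h0]
  linarith [show -(x.1.c0 ^ 2 / 12) * x.1.c0 ^ 2 = -x.1.c0 ^ 4 / 12 by ring]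

/-- The numerical bounds for three denominators. -/
def Good67 (a b c : ℚ) : Prop := 1 / a ^ 2 + 1 / b ^ 2 + 1 / c ^ 2 ≤ 361 / 900 ∧
  a + b + c ≤ a * b * c / 3 ∧ a ^ 2 + b ^ 2 + c ^ 2 ≤ 423 / 10000 * (a * b * c) ^ 2 ∧
  30 ≤ a * b * c

theorem good67 {a b c : ℚ} (ha : 2 ≤ a) (hb : 3 ≤ b) (hc : 5 ≤ c) : Good67 a b c := by
  have a0 : 0 < a := by linarith
  have b0 : 0 < b := by linarith
  have c0 : 0 < c := by linarith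
  have ab : 6 ≤ a * b := by nlinarith
  have ac : 10 ≤ a * c := by nlinarith
  have bc : 15 ≤ b * c := by nlinarith
  have e1 : 15 * a ≤ a * b * c := by nlinarith
  have e2 : 10 * b ≤ a * b * c := by nlinarith
  have e3 : 6 * c ≤ a * b * c := by nlinarith
  have i1 : 1 / a ^ 2 ≤ 1 / 4 := one_div_le_one_div_of_le (by norm_num) (by nlinarith)
  have i2 : 1 / b ^ 2 ≤ 1 / 9 := one_div_le_one_div_of_le (by norm_num) (by nlinarith)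
  have i3 : 1 / c ^ 2 ≤ 1 / 25 := one_div_le_one_div_of_le (by norm_num) (by nlinarith)
  have s1 : (15 * a) ^ 2 ≤ (a * b * c) ^ 2 := pow_le_pow_left₀ (by linarith) e1 2
  have s2 : (10 * b) ^ 2 ≤ (a * b * c) ^ 2 := pow_le_pow_left₀ (by linarith) e2 2
  have s3 : (6 * c) ^ 2 ≤ (a * b * c) ^ 2 := pow_le_pow_left₀ (by linarith) e3 2
  have s0 := sq_nonneg (a * b * c)
  refine ⟨by linarith, by linarith, ?_, by linarith⟩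
  rw [mul_pow 15 a, mul_pow 10 b, mul_pow 6 c] at *
  linarith

theorem Good67.swap1 {a b c : ℚ} (h : Good67 a b c) : Good67 b a c := by
  obtain ⟨h1, h2, h3, h4⟩ := h
  have e : b * a * c = a * b * c := by ring
  unfold Good67
  rw [e]
  exact ⟨by linarith, by linarith, by linarith, h4⟩

theorem Good67.swap2 {a b c : ℚ} (h : Good67 a b c) : Good67 a c b := by
  obtain ⟨h1, h2, h3, h4⟩ := h
  have e : a * c * b = a * b * c := by ring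
  unfold Good67
  rw [e]
  exact ⟨by linarith, by linarith, by linarith, h4⟩

theorem cop67 {a b : ℤ} (h : IsCoprime a b) (ha : 2 ≤ |a|) : ¬ |a| ∣ |b| := by
  intro hd
  have h1 : a ∣ b := (dvd_abs _ _).mp ((abs_dvd _ _).mp hd)
  have := Int.isUnit_iff_abs_eq.mp (h.isUnit_of_dvd' dvd_rfl h1)
  omega

theorem good_int67 {a b c : ℤ} (a2 : 2 ≤ |a|) (b2 : 2 ≤ |b|) (c2 : 2 ≤ |c|)
    (hab : IsCoprime a b) (hac : IsCoprime a c) (hbc : IsCoprime b c) :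
    Good67 |(a : ℚ)| |(b : ℚ)| |(c : ℚ)| := by
  have n1 := cop67 hab a2
  have n2 := cop67 hab.symm b2
  have n3 := cop67 hac a2
  have n4 := cop67 hac.symm c2
  have n5 := cop67 hbc b2
  have n6 := cop67 hbc.symm c2
  have key : ∀ {u v w : ℤ}, 2 ≤ |u| → 3 ≤ |v| → 5 ≤ |w| → Good67 |(u : ℚ)| |(v : ℚ)| |(w : ℚ)| :=
    fun h1 h2 h3 => good67 (by exact_mod_cast h1) (by exact_mod_cast h2) (by exact_mod_cast h3)
  have cs : (3 ≤ |b| ∧ 5 ≤ |c|) ∨ (3 ≤ |c| ∧ 5 ≤ |b|) ∨ (3 ≤ |a| ∧ 5 ≤ |c|) ∨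
      (3 ≤ |c| ∧ 5 ≤ |a|) ∨ (3 ≤ |a| ∧ 5 ≤ |b|) ∨ (3 ≤ |b| ∧ 5 ≤ |a|) := by
    generalize |a| = A at *
    generalize |b| = B at *
    generalize |c| = C at *
    have d1 : A ≠ B := fun h => n1 (h ▸ dvd_rfl)
    have d2 : A ≠ C := fun h => n3 (h ▸ dvd_rfl)
    have d3 : B ≠ C := fun h => n5 (h ▸ dvd_rfl)
    have t1 : ¬(A = 2 ∧ B = 4) := fun h => n1 (by rw [h.1, h.2]; norm_num)
    have t2 : ¬(B = 2 ∧ A = 4) := fun h => n2 (by rw [h.1, h.2]; norm_num)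
    have t3 : ¬(A = 2 ∧ C = 4) := fun h => n3 (by rw [h.1, h.2]; norm_num)
    have t4 : ¬(C = 2 ∧ A = 4) := fun h => n4 (by rw [h.1, h.2]; norm_num)
    have t5 : ¬(B = 2 ∧ C = 4) := fun h => n5 (by rw [h.1, h.2]; norm_num)
    have t6 : ¬(C = 2 ∧ B = 4) := fun h => n6 (by rw [h.1, h.2]; norm_num)
    omega
  rcases cs with h | h | h | h | h | h
  · exact key a2 h.1 h.2
  · exact (key a2 h.1 h.2).swap2
  · exact (key b2 h.1 h.2).swap1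
  · exact (key b2 h.1 h.2).swap2.swap1
  · exact (key c2 h.1 h.2).swap1.swap2
  · exact (key c2 h.1 h.2).swap2.swap1.swap2

theorem fin67 {A N F o G k S s1 s2 : ℚ} (hA : |A| = N) (hF : (A * F) ^ 2 = 1)
    (ho : -(s2 / 12) ≤ o) (hk : |k| ≤ s1 / 12) (hG : G = (3 - S) / 2) (S0 : 0 ≤ S)
    (S1 : S ≤ 361 / 900) (h1 : s1 ≤ N / 3) (h2 : s2 ≤ 423 / 10000 * N ^ 2) (hN : 30 ≤ N) :
    0 < A ^ 2 * (F ^ 2 * o + (1 - G - F ^ 2 / 2) ^ 2 +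
      2 * F * (k + F / 24 - F * G - F ^ 3 / 6)) := by
  have e : A ^ 2 * (F ^ 2 * o + (1 - G - F ^ 2 / 2) ^ 2 +
      2 * F * (k + F / 24 - F * G - F ^ 3 / 6)) =
      o + A ^ 2 * (G - 1) ^ 2 - 1 - G - F ^ 2 / 12 + 1 / 12 + 2 * (A * (A * F) * k) := by
    linear_combination (o - 1 - G - F ^ 2 / 12 + 1 / 12) * hF
  have a2 : A ^ 2 = N ^ 2 := by rw [← hA, sq_abs]
  have n2 : 900 ≤ N ^ 2 := by nlinarith
  have f1 : |A * F| = 1 := by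
    have : |A * F| ^ 2 = 1 := by rw [sq_abs, hF]
    nlinarith [abs_nonneg (A * F)]
  have f2 : F ^ 2 ≤ 1 := by
    rw [mul_pow, a2] at hF
    nlinarith [sq_nonneg F]
  have t1 : |A * (A * F) * k| = N * |k| := by rw [abs_mul, abs_mul A, f1, hA, mul_one]
  have t2 := neg_abs_le (A * (A * F) * k)
  have t3 : N * |k| ≤ N * (N / 36) := mul_le_mul_of_nonneg_left (by linarith) (by linarith)
  have g1 : 89 / 1000 ≤ (G - 1) ^ 2 := by rw [hG]; nlinarith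
  have g2 : N ^ 2 * (89 / 1000) ≤ N ^ 2 * (G - 1) ^ 2 :=
    mul_le_mul_of_nonneg_left g1 (by linarith)
  rw [e, a2]
  nlinarith

/-- For q = x.1.c0 ≠ 0 put f = p/q, g = mm/q^2 - f^2/2, k = LL/q^3, o = WW/q^2. All four are
additive under addJ, mu = 0 gives g = (1 - 1/q^2)/2, and
CC (ncl x) = q^2 (f^2 o + (1 - g - f^2/2)^2 + 2 f (k + f/24 - f g - f^3/6)).
For the sum of three, A = abc, (A f)^2 = 1, G = g:
C = o + A^2 (G-1)^2 - 1 - G - f^2/12 + 1/12 + 2 A^2 f k. Sorted |a|,|b|,|c| are ≥ 2, 3, 5, so with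
u, v, w the inverses u^2+v^2+w^2 ≤ 361/900, uv+vw+wu ≤ 1/3, (uv)^2+.. ≤ 0.0423, |A| ≥ 30:
C ≥ (0.0896 - 0.0556 - 0.0036 - 0.003) A^2 > 0. -/
theorem monte (x y z : J × J) (a b c : ℤ) (ha : x.1.c0 = a) (hb : y.1.c0 = b) (hc : z.1.c0 = c)
    (ma : mu x = 0) (mb : mu y = 0) (mc : mu z = 0)
    (La : |LL x| ≤ (a : ℚ) ^ 4 / 12) (Lb : |LL y| ≤ (b : ℚ) ^ 4 / 12)
    (Lc : |LL z| ≤ (c : ℚ) ^ 4 / 12) (Wa : -(a : ℚ) ^ 4 / 12 ≤ WW x)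
    (Wb : -(b : ℚ) ^ 4 / 12 ≤ WW y) (Wc : -(c : ℚ) ^ 4 / 12 ≤ WW z)
    (a2 : 2 ≤ |a|) (b2 : 2 ≤ |b|) (c2 : 2 ≤ |c|)
    (hab : IsCoprime a b) (hac : IsCoprime a c) (hbc : IsCoprime b c)
    (hdet : (ncl (addJ (addJ x y) z)).c0 ^ 2 = 1) : 0 < C2 (addJ x y) z := by
  have nz : ∀ {u : ℤ}, 2 ≤ |u| → (u : ℚ) ≠ 0 := fun {u} h => by
    have : u ≠ 0 := fun e => by rw [e] at h; norm_num at h
    exact_mod_cast this
  have hx : x.1.c0 ≠ 0 := ha ▸ nz a2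
  have hy : y.1.c0 ≠ 0 := hb ▸ nz b2
  have hz : z.1.c0 ≠ 0 := hc ▸ nz c2
  have hxy : (addJ x y).1.c0 ≠ 0 := mul_ne_zero hx hy
  have hs : (addJ (addJ x y) z).1.c0 ≠ 0 := mul_ne_zero hxy hz
  obtain ⟨g1, g2, g3, g4⟩ := good_int67 a2 b2 c2 hab hac hbc
  rw [← ha] at La Wa
  rw [← hb] at Lb Wb
  rw [← hc] at Lc Wc
  rw [← ha, ← hb, ← hc] at g1 g2 g3 g4
  have k1 := k_bd67 hx La
  have k2 := k_bd67 hy Lb
  have k3 := k_bd67 hz Lc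
  have o1 := o_bd67 hx Wa
  have o2 := o_bd67 hy Wb
  have o3 := o_bd67 hz Wc
  unfold C2
  rw [CC_ncl67 hs]
  refine fin67 (N := |x.1.c0| * |y.1.c0| * |z.1.c0|)
    (S := 1 / |x.1.c0| ^ 2 + 1 / |y.1.c0| ^ 2 + 1 / |z.1.c0| ^ 2)
    (s1 := |x.1.c0| + |y.1.c0| + |z.1.c0|) (s2 := |x.1.c0| ^ 2 + |y.1.c0| ^ 2 + |z.1.c0| ^ 2)
    ?_ ?_ ?_ ?_ ?_ (by positivity) g1 g2 g3 g4
  · rw [← abs_mul, ← abs_mul]; rfl
  · rw [f67, mul_div_cancel₀ _ hs, ← hdet]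
    simp [ncl]
  · rw [o_add67 hxy hz, o_add67 hx hy]; linarith
  · rw [k_add67 hxy hz, k_add67 hx hy]
    linarith [abs_add_le (k67 x + k67 y) (k67 z), abs_add_le (k67 x) (k67 y)]
  · rw [g_add67 hxy hz, g_add67 hx hy, g_val67 hx ma, g_val67 hy mb, g_val67 hz mc]; ring

end Pool.Agent.Lib.MP_140c34_gt.Arb
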