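import Pool.Agent.Lib.MP_140c34_gt.Arb.Jet

/-! Basic facts on words and a checker for sequences of moves on words with boxes. -/

namespace Pool.Agent.Lib.MP_140c34_gt.Arb

open Gen

theorem up_up (g : Gen) (a b : ℕ) : (g.up a).up b = g.up (a + b) := by
  cases g <;> simp [Gen.up, Nat.add_assoc]
@[simp] theorem up_zero (g : Gen) : g.up 0 = g := by cases g <;> rfl
@[simp] theorem pos_up (g : Gen) (a : ℕ) : (g.up a).pos = g.pos + a := by cases g <;> rfl
@[simp] theorem inn_up (g : Gen) (a : ℕ) : (g.up a).inn = g.inn := by cases g <;> rfl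
@[simp] theorem out_up (g : Gen) (a : ℕ) : (g.up a).out = g.out := by cases g <;> rfl
theorem map_up_up (w : List Gen) (a b : ℕ) :
    (w.map (Gen.up a)).map (Gen.up b) = w.map (Gen.up (a + b)) := by
  simp [List.map_map, Function.comp_def, up_up]
@[simp] theorem map_up_zero (w : List Gen) : w.map (Gen.up 0) = w := by
  induction w with
  | nil => rfl
  | cons g w ih => simp [ih]

theorem width_append (n : ℤ) (u v : List Gen) : width n (u ++ v) = width (width n u) v := by
  induction u generalizing n with
  | nil => rfl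
  | cons g u ih => exact ih _

theorem width_add (n k : ℤ) (w : List Gen) : width (n + k) w = width n w + k := by
  induction w generalizing n with
  | nil => rfl
  | cons g w ih =>
    simp only [width]
    rw [← ih]; congr 1; ring

theorem width_up (k : ℕ) (n : ℤ) (w : List Gen) : width n (w.map (Gen.up k)) = width n w := by
  induction w generalizing n with
  | nil => rfl
  | cons g w ih => simp only [List.map_cons, width, inn_up, out_up, ih]

theorem Eqv.rfl' {n : ℤ} {w : List Gen} : Eqv n w w := Relation.EqvGen.refl _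
theorem Eqv.sy {n : ℤ} {a b : List Gen} (h : Eqv n a b) : Eqv n b a :=
  Relation.EqvGen.symm _ _ h
theorem Eqv.tr {n : ℤ} {a b c : List Gen} (h : Eqv n a b) (h' : Eqv n b c) : Eqv n a c :=
  Relation.EqvGen.trans _ _ _ h h'
theorem Eqv.of_eq {n : ℤ} {a b : List Gen} (h : a = b) : Eqv n a b := h ▸ Eqv.rfl'
theorem Move.eqv {n : ℤ} {a b : List Gen} (h : Move n a b) : Eqv n a b :=
  Relation.EqvGen.rel _ _ ⟨[], a, b, [], by simp, by simp, h⟩

theorem Eqv.lift {n m : ℤ} (f : List Gen → List Gen)
    (hf : ∀ a b, Step n a b → Step m (f a) (f b)) {a b : List Gen} (h : Eqv n a b) :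
    Eqv m (f a) (f b) := by
  induction h with
  | rel a b h => exact Relation.EqvGen.rel _ _ (hf _ _ h)
  | refl a => exact Eqv.rfl'
  | symm a b _ ih => exact ih.sy
  | trans a b c _ _ ih ih' => exact ih.tr ih'

theorem Eqv.ctx {n : ℤ} (u v : List Gen) {a b : List Gen} (h : Eqv (width n u) a b) :
    Eqv n (u ++ a ++ v) (u ++ b ++ v) := by
  refine Eqv.lift (fun w => u ++ w ++ v) ?_ h
  rintro _ _ ⟨p, x, y, q, rfl, rfl, hm⟩
  exact ⟨u ++ p, x, y, q ++ v, by simp, by simp, by rwa [width_append]⟩

theorem Eqv.pre {n : ℤ} (u : List Gen) {a b : List Gen} (h : Eqv (width n u) a b) :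
    Eqv n (u ++ a) (u ++ b) := by simpa using Eqv.ctx u [] h

theorem Eqv.post {n : ℤ} (v : List Gen) {a b : List Gen} (h : Eqv n a b) :
    Eqv n (a ++ v) (b ++ v) := by simpa using Eqv.ctx (n := n) [] v h

theorem Move.pad {n m : ℤ} {a b : List Gen} (h : Move n a b) (hm : n ≤ m) : Move m a b := by
  cases h with
  | zigL i h => exact .zigL i (by omega)
  | zigR i h => exact .zigR i (by omega)
  | slideCup s i => exact .slideCup s i
  | slideCap s i => exact .slideCap s i
  | comm g h => exact .comm g h
  | r1Cup s i => exact .r1Cup s i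
  | r1Cap s i => exact .r1Cap s i
  | r2 s i h => exact .r2 s i (by omega)
  | r3 s i => exact .r3 s i

theorem Move.up {n : ℤ} {a b : List Gen} (h : Move n a b) (k : ℕ) :
    Move (n + k) (a.map (Gen.up k)) (b.map (Gen.up k)) := by
  have e : ∀ i : ℕ, i + 1 + k = i + k + 1 := fun i => by omega
  cases h with
  | zigL i h => simpa [Gen.up, e] using Move.zigL (n := n + k) (i + k) (by push_cast; omega)
  | zigR i h => simpa [Gen.up, e] using Move.zigR (n := n + k) (i + k) (by push_cast; omega)
  | slideCup s i => simpa [Gen.up, e] using Move.slideCup (n := n + k) s (i + k)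
  | slideCap s i => simpa [Gen.up, e] using Move.slideCap (n := n + k) s (i + k)
  | comm g h =>
    have := Move.comm (n := n + k) (g.up k) h
    simp only [pos_up, inn_up, out_up] at this
    simp only [List.map_cons, List.map_nil, up_up]
    rwa [show g.pos + g.out + k = g.pos + k + g.out by omega,
      show g.pos + g.inn + k = g.pos + k + g.inn by omega]
  | r1Cup s i => exact Move.r1Cup s (i + k)
  | r1Cap s i => exact Move.r1Cap s (i + k)
  | r2 s i h => exact Move.r2 s (i + k) (by push_cast; omega)
  | r3 s i => simpa [Gen.up, e] using Move.r3 (n := n + k) s (i + k)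

theorem Eqv.pad {n m : ℤ} {a b : List Gen} (h : Eqv n a b) (hm : n ≤ m) : Eqv m a b := by
  refine Eqv.lift id ?_ h
  rintro _ _ ⟨p, x, y, q, rfl, rfl, hm'⟩
  refine ⟨p, x, y, q, rfl, rfl, hm'.pad ?_⟩
  have := width_add n (m - n) p
  rw [show n + (m - n) = m by ring] at this
  omega

theorem Eqv.up {n m : ℤ} {a b : List Gen} (h : Eqv n a b) (k : ℕ) (hm : n + k ≤ m) :
    Eqv m (a.map (Gen.up k)) (b.map (Gen.up k)) := by
  refine Eqv.pad (Eqv.lift (m := n + k) (List.map (Gen.up k)) ?_ h) hm
  rintro _ _ ⟨p, x, y, q, rfl, rfl, hm'⟩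
  refine ⟨p.map (Gen.up k), x.map (Gen.up k), y.map (Gen.up k), q.map (Gen.up k), by simp,
    by simp, ?_⟩
  rw [width_up, width_add]
  exact hm'.up k

/-- Words that only use the first strands. -/
inductive Ty : ℕ → List Gen → ℕ → Prop
  | nil (n : ℕ) : Ty n [] n
  | cons {n m : ℕ} {g : Gen} {w : List Gen} :
      g.pos + g.inn ≤ n → Ty (n + g.out - g.inn) w m → Ty n (g :: w) m

theorem Ty.append {n m k : ℕ} {u v : List Gen} (h : Ty n u m) (h' : Ty m v k) :
    Ty n (u ++ v) k := by
  induction h with
  | nil n => exact h'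
  | cons h1 _ ih => exact .cons h1 (ih h')

theorem Ty.up {n m : ℕ} {w : List Gen} (h : Ty n w m) (j k : ℕ) (hj : j ≤ k) :
    Ty (n + k) (w.map (Gen.up j)) (m + k) := by
  induction h with
  | nil n => exact .nil _
  | @cons n m g w h1 _ ih =>
    refine .cons (by simp; omega) ?_
    rw [inn_up, out_up, show n + k + g.out - g.inn = n + g.out - g.inn + k by omega]
    exact ih

theorem Ty.width_eq {n m : ℕ} {w : List Gen} (h : Ty n w m) (N : ℤ) : width N w = N + m - n := by
  induction h generalizing N with
  | nil n => simp [width]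
  | cons h1 _ ih => rw [width, ih]; omega

theorem ty_word (X : Alg) : Ty 2 X.word 2 := by
  induction X with
  | zero => exact .cons (by decide) (.cons (by decide) (.nil _))
  | inf => exact .nil _
  | cr s => exact .cons (le_refl _) (.nil _)
  | add X Y ihX ihY =>
    refine .cons (by decide) (Ty.append (Ty.append (m := 4) ?_ (ihY.up 2 2 le_rfl))
      (.cons (by decide) (.nil _)))
    have := ihX.up 0 2 (by decide)
    rw [map_up_zero] at this
    exact this
  | mul X Y ihX ihY => exact ihX.append ihY

theorem width_word (X : Alg) (N : ℤ) : width N X.word = N := by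
  rw [(ty_word X).width_eq]; omega

theorem Ty.comm1 {n m : ℕ} {w : List Gen} (h : Ty n w m) (N : ℤ) (x : Gen) :
    Eqv N (w ++ [x.up m]) (x.up n :: w) := by
  induction h generalizing N with
  | nil n => exact Eqv.rfl'
  | @cons n m g w h1 _ ih =>
    refine (Eqv.pre [g] (ih _)).tr ?_
    have := (Move.comm (n := N) g (x.up (n - g.pos - g.inn))).eqv.post w
    rw [up_up, up_up, show n - g.pos - g.inn + (g.pos + g.out) = n + g.out - g.inn by omega,
      show n - g.pos - g.inn + (g.pos + g.inn) = n by omega] at this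
    exact this

theorem Ty.comm {n m : ℕ} {w : List Gen} (h : Ty n w m) (N : ℤ) (y : List Gen) :
    Eqv N (w ++ y.map (Gen.up m)) (y.map (Gen.up n) ++ w) := by
  induction y generalizing N with
  | nil => simpa using Eqv.rfl'
  | cons x y ih =>
    have h1 := (h.comm1 N x).post (y.map (Gen.up m))
    have h2 := Eqv.pre (n := N) [x.up n] (ih _)
    simp only [List.map_cons]
    exact (Eqv.of_eq (by simp)).tr (h1.tr h2)

/-- A box: two strands in, two strands out, and a third strand passes over and under it. -/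
structure Box (w : List Gen) : Prop where
  ty : Ty 2 w 2
  nat : ∀ s, Eqv 3 (crs s 0 :: crs s 1 :: w) (w.map (Gen.up 1) ++ [crs s 0, crs s 1])

/-- Letters of words with boxes. -/
inductive G
  | g (x : Gen)
  | b (k i : ℕ)
  deriving DecidableEq

def G.up (k : ℕ) : G → G
  | .g x => .g (x.up k)
  | .b a i => .b a (i + k)
def G.pos : G → ℕ
  | .g x => x.pos
  | .b _ i => i
def G.inn : G → ℕ
  | .g x => x.inn
  | .b _ _ => 2
def G.out : G → ℕ
  | .g x => x.out
  | .b _ _ => 2
def U (i : ℕ) : G := .g (cup i)
def A (i : ℕ) : G := .g (cap i)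
def P (i : ℕ) : G := .g (crs true i)
def N (i : ℕ) : G := .g (crs false i)

def G.ev (env : ℕ → List Gen) : G → List Gen
  | .g x => [x]
  | .b a i => (env a).map (Gen.up i)

def ev (env : ℕ → List Gen) : List G → List Gen
  | [] => []
  | x :: w => x.ev env ++ ev env w

theorem ev_append (env : ℕ → List Gen) (u v : List G) : ev env (u ++ v) = ev env u ++ ev env v := by
  induction u with
  | nil => rfl
  | cons x u ih => simp [ev, ih]

theorem G.ev_up (env : ℕ → List Gen) (x : G) (k : ℕ) :
    (x.up k).ev env = (x.ev env).map (Gen.up k) := by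
  cases x with
  | g x => rfl
  | b a i => exact (map_up_up _ _ _).symm

theorem ev_up (env : ℕ → List Gen) (w : List G) (k : ℕ) :
    ev env (w.map (G.up k)) = (ev env w).map (Gen.up k) := by
  induction w with
  | nil => rfl
  | cons x w ih => simp [ev, ih, G.ev_up]

theorem G.ty {env : ℕ → List Gen} (he : ∀ a, Box (env a)) (x : G) :
    Ty (x.pos + x.inn) (x.ev env) (x.pos + x.out) := by
  cases x with
  | g x =>
    refine .cons le_rfl ?_
    rw [show (G.g x).pos + (G.g x).inn + x.out - x.inn = (G.g x).pos + (G.g x).out by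
      simp only [G.inn, G.out]; omega]
    exact .nil _
  | b a i =>
    have := (he a).ty.up i i le_rfl
    rwa [Nat.add_comm 2 i] at this

def wG (n : ℤ) : List G → ℤ
  | [] => n
  | x :: w => wG (n + x.out - x.inn) w

theorem width_ev {env : ℕ → List Gen} (he : ∀ a, Box (env a)) (n : ℤ) (w : List G) :
    width n (ev env w) = wG n w := by
  induction w generalizing n with
  | nil => rfl
  | cons x w ih =>
    rw [ev, width_append, ih, (G.ty he x).width_eq, wG]
    congr 1; push_cast; ring

/-- Names of moves. -/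
inductive Mv
  | zl (i : ℕ) | zr (i : ℕ) | su (s : Bool) (i : ℕ) | sa (s : Bool) (i : ℕ) | co (x y : G)
  | ru (s : Bool) (i : ℕ) | ra (s : Bool) (i : ℕ) | r2 (s : Bool) (i : ℕ) | r3 (s : Bool) (i : ℕ)
  | na (s : Bool) (a i : ℕ)

def Mv.lhs : Mv → List G
  | zl i => [U (i + 1), A i]
  | zr i => [U i, A (i + 1)]
  | su s i => [U (i + 1), .g (crs s i)]
  | sa s i => [.g (crs s i), A (i + 1)]
  | co x y => [x, y.up (x.pos + x.out)]
  | ru s i => [U i, .g (crs s i)]
  | ra s i => [.g (crs s i), A i]
  | r2 s i => [.g (crs s i), .g (crs (!s) i)]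
  | r3 s i => [.g (crs s i), .g (crs s (i + 1)), .g (crs s i)]
  | na s a i => [.g (crs s i), .g (crs s (i + 1)), .b a i]

def Mv.rhs : Mv → List G
  | zl _ => []
  | zr _ => []
  | su s i => [U i, .g (crs (!s) (i + 1))]
  | sa s i => [.g (crs (!s) (i + 1)), A i]
  | co x y => [y.up (x.pos + x.inn), x]
  | ru _ i => [U i]
  | ra _ i => [A i]
  | r2 _ _ => []
  | r3 s i => [.g (crs s (i + 1)), .g (crs s i), .g (crs s (i + 1))]
  | na s a i => [.b a (i + 1), .g (crs s i), .g (crs s (i + 1))]

def Mv.need : Mv → ℕ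
  | zl i => i + 1
  | zr i => i + 1
  | r2 _ i => i + 2
  | na _ _ i => i + 3
  | _ => 0

theorem Mv.sound {env : ℕ → List Gen} (he : ∀ a, Box (env a)) (n : ℤ) (m : Mv)
    (h : (m.need : ℤ) ≤ n) : Eqv n (ev env m.lhs) (ev env m.rhs) := by
  cases m with
  | zl i => exact (Move.zigL i (by simp [Mv.need] at h; omega)).eqv
  | zr i => exact (Move.zigR i (by simp [Mv.need] at h; omega)).eqv
  | su s i => exact (Move.slideCup s i).eqv
  | sa s i => exact (Move.slideCap s i).eqv
  | co x y =>
    simp only [Mv.lhs, Mv.rhs, ev, G.ev_up, List.append_nil]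
    exact (G.ty he x).comm n _
  | ru s i => exact (Move.r1Cup s i).eqv
  | ra s i => exact (Move.r1Cap s i).eqv
  | r2 s i => exact (Move.r2 s i (by simp [Mv.need] at h; omega)).eqv
  | r3 s i => exact (Move.r3 s i).eqv
  | na s a i =>
    have := ((he a).nat s).up (m := n) i (by simp [Mv.need] at h; omega)
    simp only [List.map_cons, List.map_append, List.map_nil, map_up_up, Gen.up, Nat.zero_add,
      Nat.add_comm 1 i] at this
    simpa [Mv.lhs, Mv.rhs, ev, G.ev] using this

/-- One step of a script: position, direction, move. -/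
def step (n : ℤ) (w : List G) (c : ℕ × Bool × Mv) : Option (List G) :=
  let a := if c.2.1 then c.2.2.lhs else c.2.2.rhs
  let b := if c.2.1 then c.2.2.rhs else c.2.2.lhs
  if (w.drop c.1).take a.length = a ∧ (c.2.2.need : ℤ) ≤ wG n (w.take c.1) then
    some (w.take c.1 ++ b ++ (w.drop c.1).drop a.length)
  else none

def run (n : ℤ) : List (ℕ × Bool × Mv) → List G → Option (List G)
  | [], w => some w
  | c :: s, w => (step n w c).bind (run n s)

theorem step_sound {env : ℕ → List Gen} (he : ∀ a, Box (env a)) {n : ℤ} {w w' : List G}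
    {c : ℕ × Bool × Mv} (h : step n w c = some w') : Eqv n (ev env w) (ev env w') := by
  obtain ⟨k, d, m⟩ := c
  simp only [step] at h
  split_ifs at h with h0 h1 h1
  all_goals
    obtain rfl := Option.some.inj h
    have hw := (List.take_append_drop k w).symm
    rw [← List.take_append_drop _ (w.drop k), h1.1, ← List.append_assoc] at hw
    conv_lhs => rw [hw]
    simp only [ev_append]
    refine Eqv.ctx _ _ ?_
    rw [width_ev he]
  · exact m.sound he _ h1.2
  · exact (m.sound he _ h1.2).sy

theorem run_sound {env : ℕ → List Gen} (he : ∀ a, Box (env a)) {n : ℤ}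
    (s : List (ℕ × Bool × Mv)) {w w' : List G} (h : run n s w = some w') :
    Eqv n (ev env w) (ev env w') := by
  induction s generalizing w with
  | nil => obtain rfl := Option.some.inj h; exact Eqv.rfl'
  | cons c s ih =>
    rw [run] at h
    obtain ⟨x, hx, hx'⟩ := Option.bind_eq_some_iff.mp h
    exact (step_sound he hx).tr (ih hx')

end Pool.Agent.Lib.MP_140c34_gt.Arb
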