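import Pool.Agent.Lib.MP_140c34_gt.Arb.RatB

/-! The induction on algebraic tangles. -/

namespace Pool.Agent.Lib.MP_140c34_gt.Arb

open Alg

theorem det_sim96 {X X' r r' : Alg} (a : cv X' = cv X ∨ cv X' = -cv X)
    (b : cv r' = cv r ∨ cv r' = -cv r) : det X' r' ^ 2 = det X r ^ 2 := by
  rcases a with a | a <;> rcases b with b | b <;> simp only [det, a, b] <;>
    simp only [Prod.fst_neg, Prod.snd_neg] <;> ring

theorem sim_add96 {X X' Y Y' : Alg} (a : cv X' = cv X ∨ cv X' = -cv X)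
    (b : cv Y' = cv Y ∨ cv Y' = -cv Y) :
    cv (add X' Y') = cv (add X Y) ∨ cv (add X' Y') = -cv (add X Y) := by
  rcases a with a | a <;> rcases b with b | b <;> simp [cv, a, b, add_comm]

theorem sim_sq96 {X X' : Alg} (a : cv X' = cv X ∨ cv X' = -cv X) :
    (cv X').1 ^ 2 = (cv X).1 ^ 2 := by
  rcases a with a | a <;> simp [a]

theorem cop96 {X r : Alg} (h : det X r ^ 2 = 1) :
    IsCoprime (cv X).1 (cv X).2 ∧ IsCoprime (cv r).1 (cv r).2 :=
  ⟨⟨det X r * (cv r).2, det X r * (cv r).1, by rw [← h]; simp only [det]; ring⟩,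
    ⟨det X r * (cv X).2, det X r * (cv X).1, by rw [← h]; simp only [det]; ring⟩⟩

theorem splice96 {X U X' U' : Alg} (hX : IsRat X') (hU : IsRat U')
    (a : cv X' = cv X ∨ cv X' = -cv X) (b : cv U' = cv U ∨ cv U' = -cv U) (h : det X U ^ 2 = 1) :
    C2 (jet X) (jet U) =
      C2 (jet X) (jet U') + C2 (jet X') (jet U) + mu (jet X) * mu (jet U) / 2 := by
  have k := splice a b
  rw [(brat hX hU ((det_sim96 a b).trans h)).1, mu_rat hX, mu_rat hU] at k
  linear_combination k

theorem rat_inf96 {R : Alg} (h : IsRat R) (h0 : (cv R).1 ^ 2 = 0) : Rel R inf := by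
  have k := coprime_rat h
  rw [sq_eq_zero_iff] at h0
  rw [h0, isCoprime_zero_left, Int.isUnit_iff] at k
  refine conway h isRat_inf ?_
  rcases k with k | k
  · left; ext <;> simp [cv, h0, k]
  · right; ext <;> simp [cv, h0, k]

theorem jeq_inf96 {Y : Alg} (h1 : (cv Y).1 ^ 2 = 1) (h2 : C2 (jet Y) infJ = 0) :
    JEq (addJ (jet Y) infJ) infJ := by
  have q : (jet Y).1.c0 ^ 2 = 1 := by rw [jet_q]; exact_mod_cast h1
  generalize jet Y = y at h2 q
  simp [C2, CC, ncl, addJ, infJ] at h2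
  refine ⟨bar (y.1 + eta * y.2), ?_, ?_⟩
  · ext <;> simp [nrm] <;> first | linear_combination q | linear_combination -h2 | ring
  · ext <;> simp [addJ, infJ] <;>
      first | linear_combination -q | linear_combination h2 | ring

theorem unit96 {a b : ℤ} (h : (a * b) ^ 2 = 1) : a ^ 2 = 1 ∧ b ^ 2 = 1 := by
  rw [mul_pow] at h
  exact ⟨Int.eq_one_of_mul_eq_one_right (sq_nonneg a) h,
    Int.eq_one_of_mul_eq_one_left (sq_nonneg b) h⟩

theorem one_le96 {a : ℤ} (h : a ≠ 0) : (1 : ℚ) ≤ (a : ℚ) ^ 2 := by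
  have : 1 ≤ a ^ 2 := Int.add_one_le_of_lt (sq_pos_of_ne_zero h)
  exact_mod_cast this

theorem cast_or96 {a b : ℤ} (h : ((a : ℚ) ^ 2 - 1) * ((b : ℚ) ^ 2 - 1) = 0) :
    a ^ 2 = 1 ∨ b ^ 2 = 1 := by
  refine (mul_eq_zero.1 h).imp (fun k => ?_) fun k => ?_ <;>
    exact_mod_cast sub_eq_zero.1 k

/-- The statement proved by induction on the size. -/
def Good (X : Alg) : Prop := ∀ r, IsRat r → det X r ^ 2 = 1 →
  0 ≤ C2 (jet X) (jet r) ∧ (C2 (jet X) (jet r) = 0 → (mu (jet X) = 0 → IsRat X) ∧ Triv X r)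

theorem good_rat {X : Alg} (h : IsRat X) : Good X := fun _ hr hd =>
  ⟨(brat h hr hd).1.ge, fun _ => ⟨fun _ => h, (brat h hr hd).2⟩⟩

/-- mul X Y ~ (mul X Y).d.del e (rel_del, d_d); move the three twists to r (triv_t, C2_t, assoc,
cr_add, cr_mul); mu_d, IsRat.of_d. -/
theorem good_of_d {X : Alg} (h : Good X.d) : Good X := by
  intro r hr hd
  have k := rel_del true X.d
  rw [d_d] at k
  have c : C2 (jet X) (jet r) =
      C2 (jet X.d) (jet (mul (cr true) (add (cr (!true)) (mul (cr true) r)))) := by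
    rw [← k.2.C2_eq (JEq.refl _)]
    simp only [Alg.del, jet]
    rw [C2_t, C2_assoc, C2_t]
  obtain ⟨g1, g2⟩ := h _ (((hr.cr_mul true).cr_add (!true)).cr_mul true) (by
    rw [← hd, det_rel96 k (Rel.refl r)]
    simp only [det, Alg.del, cv]
    ring)
  rw [← c, mu_d] at *
  refine ⟨g1, fun z => ⟨fun m => ((g2 z).1 m).of_d, ?_⟩⟩
  have t := ((triv_t _ _ _).2 (g2 z).2).of_te (te_add_assoc _ _ _).symm
  exact ((triv_t _ _ _).2 t).of_te (k.1.add (TE.refl r))

theorem absorb96 {Y : Alg} (g : Good Y) (h1 : (cv Y).1 ^ 2 = 1) (h2 : C2 (jet Y) infJ = 0) :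
    Rel (add Y inf) inf :=
  ⟨te_of_triv_inf ((g inf isRat_inf (by simpa [det, cv] using h1)).2 h2).2, jeq_inf96 h1 h2⟩

theorem absorb_v96 {Y : Alg} (g : Good Y.v) (h1 : (cv Y).1 ^ 2 = 1) (h2 : C2 (jet Y) infJ = 0) :
    Rel (add inf Y) inf := by
  have k := (absorb96 g (by rwa [cv_v]) (by rwa [jet_v])).1.v
  simp only [Alg.v, v_v] at k
  refine ⟨k, ?_⟩
  simp only [jet]
  rw [addJ_comm]
  exact jeq_inf96 h1 h2

/-- An integer tangle on the left is moved to the rational part. -/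
theorem triv_int96 {X Y r : Alg} (g : Good Y) (g' : Good Y.h) (hX : IsRat X) (hr : IsRat (add X r))
    (h1 : (cv X).1 ^ 2 = 1) (hd : det Y (add X r) ^ 2 = 1) (z : C2 (jet Y) (jet (add X r)) = 0) :
    Triv (add X Y) r := by
  rcases flype_int hX h1 Y with k | k
  · exact ((g _ hr hd).2 z).2.of_te ((k.1.add (TE.refl r)).trans (te_add_assoc _ _ _)).symm
  · exact ((g' _ hr (by simpa only [det, cv_h] using hd)).2 (by rwa [jet_h])).2.of_te
      ((k.1.add (TE.refl r)).trans (te_add_assoc _ _ _)).symm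

/-- U = add Y r, RU, RX, RY rational with the vectors of U, X, Y, V = add r RX, RV. Two splices:
C(X+Y,r) = C(X,RU) + C(Y,RV) + C(RX+RY,r) + mu X mu U / 2 + mu Y mu V / 2, all terms ≥ 0
(brat for (RX,RU) and (RY,RV)). x y z the denominators of X Y r. Zero case, Triv:
mu X = 0 = mu Y: X ~ RX, Y ~ RY, monte_rat, add_int, brat. mu X = 0 < mu Y: mu V = 0, so x or z is
a unit; x: flype_int and the hypothesis for Y or Y.h with add X r; z: Triv.v, flype_int and the
hypothesis for Y.v or Y.v.h with add r RX. mu X > 0: mu U = 0; z ≠ 0: Y ~ RY, U rational, assoc;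
z = 0: r ~ inf, RU ~ inf ~ RV, te_of_triv_inf for Y. IsRat: x, y ≠ 0 by mu_add; x = 0: X ~ inf,
RV ~ inf, te_of_triv_inf for Y.v, TE.v; the jet part of add inf Y ~ inf is: nrm of (jet Y).1 is 1
because ncl (addJ y infJ) has norm one; y = 0 in the same way. -/
theorem good_add {X Y : Alg} (ih : ∀ Z : Alg, Z.size ≤ X.size + Y.size → Good Z) :
    Good (add X Y) := by
  intro r hr hd
  have gX := ih X (by omega)
  have gY := ih Y (by omega)
  have dU : det X (add Y r) ^ 2 = 1 := by rw [← hd]; simp only [det, cv]; ring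
  have dY : det Y (add r X) ^ 2 = 1 := by rw [← hd]; simp only [det, cv]; ring
  obtain ⟨RX, hX, sX⟩ := exists_rat _ _ (cop96 dU).1
  obtain ⟨RU, hU, sU⟩ := exists_rat _ _ (cop96 dU).2
  obtain ⟨RY, hY, sY⟩ := exists_rat _ _ (cop96 dY).1
  simp only [Prod.mk.eta] at sX sU sY
  have dV : det Y (add r RX) ^ 2 = 1 := (det_sim96 (.inl rfl) (sim_add96 (.inl rfl) sX)).trans dY
  obtain ⟨RV, hV, sV⟩ := exists_rat _ _ (cop96 dV).2
  simp only [Prod.mk.eta] at sV
  have e1 := splice96 hX hU sX sU dU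
  have e2 := splice96 hY hV sY sV dV
  have e3 : C2 (jet (add X Y)) (jet r) = C2 (jet X) (jet (add Y r)) := C2_assoc _ _ _
  have e4 : C2 (jet RX) (jet (add Y r)) = C2 (jet Y) (jet (add r RX)) :=
    (C2_assoc _ _ _).symm.trans (C2_assoc' _ _ _)
  have e5 : C2 (jet (add RX RY)) (jet r) = C2 (jet RY) (jet (add r RX)) := C2_assoc' _ _ _
  obtain ⟨a1, a2⟩ := gX RU hU ((det_sim96 (.inl rfl) sU).trans dU)
  obtain ⟨b1, b2⟩ := gY RV hV ((det_sim96 (.inl rfl) sV).trans dV)
  obtain ⟨c1, c2⟩ := monte_rat hX hY hr ((det_sim96 (sim_add96 sX sY) (.inl rfl)).trans hd)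
  have mX := mu_nonneg X (cop96 dU).1
  have mY := mu_nonneg Y (cop96 dY).1
  have m1 := mul_nonneg mX (mu_nonneg _ (cop96 dU).2)
  have m2 := mul_nonneg mY (mu_nonneg _ (cop96 dV).2)
  refine ⟨by linarith, fun z => ?_⟩
  have a0 : C2 (jet X) (jet RU) = 0 := by linarith
  have b0 : C2 (jet Y) (jet RV) = 0 := by linarith
  obtain ⟨a3, a4⟩ := a2 a0
  obtain ⟨b3, b4⟩ := b2 b0
  have c3 := c2 (by linarith)
  have z1 : mu (jet X) * mu (jet (add Y r)) = 0 := by linarith
  have z2 : mu (jet Y) * mu (jet (add r RX)) = 0 := by linarith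
  rw [sim_sq96 sX, sim_sq96 sY] at c3
  have qU : (cv RU).1 ^ 2 = ((cv Y).1 * (cv r).1) ^ 2 := sim_sq96 sU
  have qV : (cv RV).1 ^ 2 = ((cv r).1 * (cv X).1) ^ 2 := by
    rw [sim_sq96 sV, sim_sq96 (sim_add96 (.inl rfl) sX)]; rfl
  have hD : (((cv X).2 * (cv Y).1 + (cv X).1 * (cv Y).2) * (cv r).1 +
    (cv X).1 * (cv Y).1 * (cv r).2) ^ 2 = 1 := hd
  rw [mu_add, mu_rat hr] at z1
  rw [mu_add, mu_rat hr, mu_rat hX] at z2
  constructor
  · intro m
    rw [mu_add] at m
    by_cases x0 : (cv X).1 = 0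
    · have y1 : (cv Y).1 ^ 2 = 1 := by
        rw [x0] at hD
        exact (unit96 (unit96 (b := (cv r).1) (a := (cv X).2 * (cv Y).1)
          (by linear_combination hD)).1).2
      have y2 : ((cv Y).1 : ℚ) ^ 2 = 1 := by exact_mod_cast y1
      have kX := rat_inf96 (a3 (by simpa [x0, y2] using m)) (by simp [x0])
      have kV := rat_inf96 hV (by simp [qV, x0])
      exact isRat_inf.congr ((kX.add (Rel.refl Y)).trans (absorb_v96
        (ih _ (by rw [size_v]; omega)) y1 (((JEq.refl _).C2_eq kV.2).symm.trans b0))).symm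
    by_cases y0 : (cv Y).1 = 0
    · have x1 : (cv X).1 ^ 2 = 1 := by
        rw [y0] at hD
        exact (unit96 (unit96 (b := (cv r).1) (a := (cv X).1 * (cv Y).2)
          (by linear_combination hD)).1).1
      have x2 : ((cv X).1 : ℚ) ^ 2 = 1 := by exact_mod_cast x1
      have kY := rat_inf96 (b3 (by simpa [y0, x2] using m)) (by simp [y0])
      have kU := rat_inf96 hU (by simp [qU, y0])
      exact isRat_inf.congr (((Rel.refl X).add kY).trans
        (absorb96 gX x1 (((JEq.refl _).C2_eq kU.2).symm.trans a0))).symm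
    have x1 := one_le96 x0
    have y1 := one_le96 y0
    have t1 := mul_nonneg mX (sub_nonneg.2 y1)
    have t2 := mul_nonneg mY (sub_nonneg.2 x1)
    have t3 := mul_nonneg (sub_nonneg.2 x1) (sub_nonneg.2 y1)
    exact (a3 (by linarith)).add_int (b3 (by linarith)) (cast_or96 (by linarith))
  by_cases r0 : (cv r).1 = 0
  · have kr := rat_inf96 hr (by simp [r0])
    have kU := rat_inf96 hU (by simp [qU, r0])
    have kV := rat_inf96 hV (by simp [qV, r0])
    have t := te_of_triv_inf (b4.of_te ((TE.refl Y).add kV.1))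
    exact a4.of_te (((TE.refl X).add (kU.1.trans (((TE.refl Y).add kr.1).trans t).symm)).trans
      (te_add_assoc _ _ _).symm)
  have fin : IsRat (add Y r) → Triv (add X Y) r := fun k =>
    a4.of_te (((TE.refl X).add (conway k hU sU).1.symm).trans (te_add_assoc _ _ _).symm)
  have r1 := one_le96 r0
  rcases mul_eq_zero.1 z1 with z1 | z1
  · have rX := a3 z1
    rcases mul_eq_zero.1 z2 with z2 | z2
    · rcases c3 with c | c | c
      · exact (brat (rX.add_int (b3 z2) (.inl c)) hr hd).2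
      · exact (brat (rX.add_int (b3 z2) (.inr c)) hr hd).2
      · exact fin ((b3 z2).add_int hr (.inr c))
    rcases cast_or96 (a := (cv r).1) (b := (cv RX).1) (by linear_combination z2) with c | c
    · have t := triv_int96 (Y := Y.v) (r := X) (ih _ (by rw [size_v]; omega))
        (ih _ (by rw [size_h, size_v]; omega)) hr (hr.add_int rX (.inl c)) c
        (by simpa only [det, cv_v] using dY) (by rw [jet_v, ← z]; exact (C2_assoc' _ _ _).symm)
      have t2 := (t.of_te (te_add_assoc _ _ _)).v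
      simp only [Alg.v, v_v] at t2
      exact t2.of_te ((rX.rel_v.1.add (TE.refl Y)).add hr.rel_v.1)
    · rw [sim_sq96 sX] at c
      refine triv_int96 gY (ih _ (by rw [size_h]; omega)) rX (rX.add_int hr (.inl c)) c
        (by rw [← hd]; simp only [det, cv]; ring) ?_
      rw [← z]
      simp only [jet]
      rw [C2_assoc', addJ_comm]
  · by_cases y0 : (cv Y).1 = 0
    · have c : (cv r).1 ^ 2 = 1 := by
        rw [y0] at hD
        exact (unit96 (b := (cv r).1) (a := (cv X).1 * (cv Y).2) (by linear_combination hD)).2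
      have c' : ((cv r).1 : ℚ) ^ 2 = 1 := by exact_mod_cast c
      exact fin ((b3 (by simpa [c'] using z1)).add_int hr (.inr c))
    have y1 := one_le96 y0
    have t2 := mul_nonneg mY (sub_nonneg.2 r1)
    have t3 := mul_nonneg (sub_nonneg.2 y1) (sub_nonneg.2 r1)
    exact fin ((b3 (by linarith)).add_int hr (cast_or96 (by linarith)))

theorem good (X : Alg) : Good X := by
  induction hn : X.size using Nat.strong_induction_on generalizing X with
  | _ n ih =>
  cases X with
  | zero => exact good_rat isRat_zero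
  | inf => exact good_rat isRat_inf
  | cr e => exact good_rat (isRat_cr e)
  | add X Y => exact good_add fun Z h => ih _ (by simp only [Alg.size] at hn; omega) Z rfl
  | mul X Y =>
    refine good_of_d (good_add fun Z h => ih _ ?_ Z rfl)
    simp only [Alg.size, size_d] at hn h
    omega

end Pool.Agent.Lib.MP_140c34_gt.Arb
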