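import Pool.Agent.Lib.MP_140c34_gt.Arb.Ori
import Pool.Agent.Lib.MP_140c34_gt.Arb.Kit

/-! Skein functionals on oriented words with fixed ends. -/

namespace Pool.Agent.Lib.MP_140c34_gt.Arb

/-- The same oriented piece further to the right. -/
def OGen.up (k : ℕ) : OGen → OGen
  | .cup b i => .cup b (i + k)
  | .cap i => .cap (i + k)
  | .crs s i => .crs s (i + k)

theorem forget_up (k : ℕ) (g : OGen) : (g.up k).forget = g.forget.up k := by cases g <;> rfl

theorem map_forget_up (k : ℕ) (x : List OGen) :
    (x.map (OGen.up k)).map OGen.forget = (x.map OGen.forget).map (Gen.up k) := by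
  simp [List.map_map, Function.comp_def, forget_up]

theorem exists_of_up (k : ℕ) (w : List Gen) (x : List OGen)
    (h : x.map OGen.forget = w.map (Gen.up k)) :
    ∃ y : List OGen, x = y.map (OGen.up k) ∧ y.map OGen.forget = w := by
  induction w generalizing x with
  | nil => exact ⟨[], by simpa using h, rfl⟩
  | cons g w ih =>
    obtain ⟨p, x', rfl, hp, hx⟩ := List.map_eq_cons_iff.1 h
    obtain ⟨y, rfl, rfl⟩ := ih x' hx
    cases p <;> cases g <;> simp [OGen.forget, Gen.up] at hp
    · rename_i b i j; exact ⟨.cup b j :: y, by simp [OGen.up, hp], rfl⟩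
    · rename_i i j; exact ⟨.cap j :: y, by simp [OGen.up, hp], rfl⟩
    · rename_i s i t j; exact ⟨.crs t j :: y, by simp [OGen.up, hp], rfl⟩

theorem dirs_append (u w : List OGen) (L : List Bool) :
    dirs (u ++ w) L = (dirs u L).bind (dirs w) := by
  induction u generalizing L with
  | nil => rfl
  | cons g u ih =>
    simp only [List.cons_append, dirs]
    cases g.step L <;> simp [ih]

theorem dirs_app {u w : List OGen} {L M N : List Bool} (h : dirs u L = some M)
    (h' : dirs w M = some N) : dirs (u ++ w) L = some N := by
  rw [dirs_append, h]; exact h'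

theorem dirs_split {u w : List OGen} {L N : List Bool} (h : dirs (u ++ w) L = some N) :
    ∃ M, dirs u L = some M ∧ dirs w M = some N := by
  rw [dirs_append] at h
  exact Option.bind_eq_some_iff.1 h

theorem step_pre (g : OGen) (Q L : List Bool) :
    (g.up Q.length).step (Q ++ L) = (g.step L).map (Q ++ ·) := by
  have t : ∀ i, (Q ++ L).take (i + Q.length) = Q ++ L.take i := fun i => by
    rw [Nat.add_comm, List.take_length_add_append]
  have d : ∀ i, (Q ++ L).drop (i + Q.length) = L.drop i := fun i => by
    rw [Nat.add_comm, List.drop_length_add_append]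
  cases g with
  | cup b i =>
    simp only [OGen.up, OGen.step, t, d, List.length_append]
    by_cases h : i ≤ L.length
    · rw [if_pos h, if_pos (by omega)]; simp
    · rw [if_neg h, if_neg (by omega)]; rfl
  | cap i =>
    simp only [OGen.up, OGen.step, t, d]
    split
    · split <;> simp
    · rfl
  | crs s i =>
    simp only [OGen.up, OGen.step, t, d]
    split
    · simp
    · rfl

theorem drop_two {L : List Bool} {i : ℕ} (h : i + 2 ≤ L.length) :
    ∃ a b T, L.drop i = a :: b :: T := by
  have : 2 ≤ (L.drop i).length := by simp; omega
  match hd : L.drop i, this with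
  | a :: b :: T, _ => exact ⟨a, b, T, rfl⟩

theorem step_suf (g : OGen) (L S : List Bool) (h : g.forget.pos + g.forget.inn ≤ L.length) :
    g.step (L ++ S) = (g.step L).map (· ++ S) := by
  have hi : g.forget.pos ≤ L.length := by omega
  have t := List.take_append_of_le_length (l₂ := S) hi
  have d := List.drop_append_of_le_length (l₂ := S) hi
  cases g with
  | cup b i =>
    simp only [OGen.forget, Gen.pos] at hi t d
    simp only [OGen.step, t, d, List.length_append]
    rw [if_pos hi, if_pos (by omega)]; simp
  | cap i =>
    simp only [OGen.forget, Gen.pos, Gen.inn] at h t d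
    obtain ⟨a, b, T, e⟩ := drop_two h
    simp only [OGen.step, t, d, e, List.cons_append]
    split <;> simp
  | crs s i =>
    simp only [OGen.forget, Gen.pos, Gen.inn] at h t d
    obtain ⟨a, b, T, e⟩ := drop_two h
    simp [OGen.step, t, d, e]

/-- Number of upward minus number of downward strands. -/
def flux (L : List Bool) : ℤ := (L.map fun b => if b then (1 : ℤ) else -1).sum

theorem flux_append (L M : List Bool) : flux (L ++ M) = flux L + flux M := by simp [flux]

theorem step_facts {g : OGen} {L M : List Bool} (h : g.step L = some M) :
    g.forget.pos + g.forget.inn ≤ L.length ∧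
      M.length = L.length + g.forget.out - g.forget.inn ∧ flux M = flux L := by
  cases g with
  | cup b i =>
    simp only [OGen.step] at h
    split at h
    · rename_i hi
      obtain rfl := Option.some.inj h
      refine ⟨hi, by simp [OGen.forget, Gen.out, Gen.inn]; omega, ?_⟩
      conv_rhs => rw [← List.take_append_drop i L]
      cases b <;> simp [flux]
    · exact absurd h (by simp)
  | cap i =>
    simp only [OGen.step] at h
    split at h
    · rename_i a b S e
      have hl := congrArg List.length e
      simp only [List.length_drop, List.length_cons] at hl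
      split at h
      · exact absurd h (by simp)
      · rename_i hab
        obtain rfl := Option.some.inj h
        refine ⟨by simp [OGen.forget, Gen.pos, Gen.inn]; omega,
          by simp [OGen.forget, Gen.out, Gen.inn]; omega, ?_⟩
        conv_rhs => rw [← List.take_append_drop i L, e]
        cases a <;> cases b <;> simp [flux] at hab ⊢
    · exact absurd h (by simp)
  | crs s i =>
    simp only [OGen.step] at h
    split at h
    · rename_i a b S e
      have hl := congrArg List.length e
      simp only [List.length_drop, List.length_cons] at hl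
      obtain rfl := Option.some.inj h
      refine ⟨by simp [OGen.forget, Gen.pos, Gen.inn]; omega,
        by simp [OGen.forget, Gen.out, Gen.inn]; omega, ?_⟩
      conv_rhs => rw [← List.take_append_drop i L, e]
      simp [flux]; ring
    · exact absurd h (by simp)

theorem dirs_pre (x : List OGen) (Q L : List Bool) :
    dirs (x.map (OGen.up Q.length)) (Q ++ L) = (dirs x L).map (Q ++ ·) := by
  induction x generalizing L with
  | nil => rfl
  | cons g x ih =>
    simp only [List.map_cons, dirs, step_pre]
    cases g.step L <;> simp [ih]

theorem dirs_suf {x : List OGen} {L M : List Bool} (S : List Bool) (h : dirs x L = some M) :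
    dirs x (L ++ S) = some (M ++ S) := by
  induction x generalizing L with
  | nil => obtain rfl := Option.some.inj h; rfl
  | cons g x ih =>
    obtain ⟨L', h1, h2⟩ := Option.bind_eq_some_iff.1 h
    rw [dirs, step_suf g L S (step_facts h1).1, h1]
    exact ih h2

theorem dirs_flux {x : List OGen} {L M : List Bool} (h : dirs x L = some M) : flux M = flux L := by
  induction x generalizing L with
  | nil => obtain rfl := Option.some.inj h; rfl
  | cons g x ih =>
    obtain ⟨L', h1, h2⟩ := Option.bind_eq_some_iff.1 h
    exact (ih h2).trans (step_facts h1).2.2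

theorem dirs_ty {x : List OGen} {n m : ℕ} (h : Ty n (x.map OGen.forget) m) {L S N : List Bool}
    (hL : L.length = n) (hN : dirs x (L ++ S) = some N) :
    ∃ M, dirs x L = some M ∧ M.length = m ∧ N = M ++ S := by
  induction x generalizing L n with
  | nil =>
    cases h
    exact ⟨L, rfl, hL, (Option.some.inj hN).symm⟩
  | cons g x ih =>
    subst hL
    rw [List.map_cons] at h
    cases h with
    | cons h1 h2 =>
      rw [dirs, step_suf g L S h1] at hN
      cases hg : g.step L with
      | none => simp [hg] at hN
      | some L' =>
        rw [hg] at hN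
        obtain ⟨M, e1, e2, e3⟩ := ih h2 (step_facts hg).2.1 hN
        exact ⟨M, by rw [dirs, hg]; exact e1, e2, e3⟩

theorem dirs_word {X : Alg} {x : List OGen} (hx : x.map OGen.forget = X.word) {a b : Bool}
    {S N : List Bool} (hN : dirs x (a :: b :: S) = some N) :
    ∃ c d, dirs x [a, b] = some [c, d] ∧ N = c :: d :: S := by
  obtain ⟨M, e1, e2, rfl⟩ := dirs_ty (hx ▸ ty_word X) (L := [a, b]) rfl hN
  match M, e2 with
  | [c, d], _ => exact ⟨c, d, e1, rfl⟩

variable {K : Type} [Field K]

/-- `F` is a skein functional on the words from `l` to `l'`, with `v = A^(-4)`,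
`z = A^(-2) - A^2`. -/
structure Sk (A : K) (l l' : List Bool) (F : List OGen → K) : Prop where
  move : ∀ u x y w L M, dirs u l = some L → dirs x L = some M → dirs y L = some M →
    dirs w M = some l' → Move L.length (x.map OGen.forget) (y.map OGen.forget) →
    F (u ++ x ++ w) = F (u ++ y ++ w)
  skein : ∀ u w L a b S, dirs u l = some (L ++ a :: b :: S) →
    dirs w (L ++ b :: a :: S) = some l' →
    A ^ 4 * F (u ++ [.crs (a == b) L.length] ++ w) -
        A⁻¹ ^ 4 * F (u ++ [.crs (a != b) L.length] ++ w) =
      (A⁻¹ ^ 2 - A ^ 2) * F (u ++ (if a = b then [] else [.cap L.length, .cup b L.length]) ++ w)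

variable {A : K} {l l' m m' : List Bool} {F : List OGen → K}

theorem Sk.ctx (h : Sk A l l' F) (p q : List OGen) (hp : dirs p l = some m)
    (hq : dirs q m' = some l') : Sk A m m' fun x => F (p ++ x ++ q) where
  move u x y w L M h1 h2 h3 h4 h5 := by
    have := h.move (p ++ u) x y (w ++ q) L M (dirs_app hp h1) h2 h3 (dirs_app h4 hq) h5
    simpa only [List.append_assoc] using this
  skein u w L a b S h1 h2 := by
    have := h.skein (p ++ u) (w ++ q) L a b S (dirs_app hp h1) (dirs_app h2 hq)
    simpa only [List.append_assoc] using this

theorem Sk.suf {S : List Bool} (h : Sk A (m ++ S) (m' ++ S) F) : Sk A m m' F where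
  move u x y w L M h1 h2 h3 h4 h5 :=
    h.move u x y w _ _ (dirs_suf S h1) (dirs_suf S h2) (dirs_suf S h3) (dirs_suf S h4)
      (h5.pad (by simp))
  skein u w L a b T h1 h2 :=
    h.skein u w L a b (T ++ S) (by simpa using dirs_suf S h1) (by simpa using dirs_suf S h2)

theorem Sk.pre {Q Q' : List Bool} (e : Q' = Q) (h : Sk A (Q ++ m) (Q' ++ m') F) :
    Sk A m m' fun x => F (x.map (OGen.up Q.length)) := by
  subst e
  have key : ∀ {x L M}, dirs x L = some M →
      dirs (x.map (OGen.up Q'.length)) (Q' ++ L) = some (Q' ++ M) := fun h => by
    rw [dirs_pre, h]; rfl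
  constructor
  · intro u x y w L M h1 h2 h3 h4 h5
    have := h.move _ _ _ _ _ _ (key h1) (key h2) (key h3) (key h4) (by
      rw [map_forget_up, map_forget_up]
      exact (h5.up Q'.length).pad (by simp; omega))
    simpa only [List.map_append] using this
  · intro u w L a b S h1 h2
    have := h.skein _ _ (Q' ++ L) a b S (by simpa using key h1) (by simpa using key h2)
    rw [List.length_append, Nat.add_comm] at this
    by_cases hab : a = b <;> simpa [hab, OGen.up] using this

end Pool.Agent.Lib.MP_140c34_gt.Arb
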