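import Pool.Agent.Lib.MP_140c34_gt.Arb.OriA

/-! Values of a skein functional on small words. -/

namespace Pool.Agent.Lib.MP_140c34_gt.Arb

open OGen

variable {K : Type} [Field K] {A : K} {F : List OGen → K} {a b c e s : Bool}

theorem kinkR (h : Sk A [a] [a] F) : F [cup a 1, crs s 0, cap 1] = F [] := by
  cases a <;>
  exact ((h.move [] [cup _ 1, crs s 0] [cup _ 0, crs (!s) 1] [cap 1] _ _ rfl rfl rfl rfl
    (.slideCup s 0)).trans (h.move [cup _ 0] [crs (!s) 1, cap 1] [cap 1] [] _ _ rfl rfl rfl rfl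
    (.r1Cap _ 1))).trans (h.move [] [cup _ 0, cap 1] [] [] _ _ rfl rfl rfl rfl
    (.zigR 0 (by decide)))

theorem kinkL (h : Sk A [a] [a] F) : F [cup (!a) 0, crs s 1, cap 0] = F [] := by
  have h1 : F [cup (!a) 1, crs (!s) 0, cap 0] = F [cup (!a) 0, crs s 1, cap 0] := by
    cases a <;> cases s <;>
    exact h.move [] [cup _ 1, crs _ 0] [cup _ 0, crs _ 1] [cap 0] _ _ rfl rfl rfl rfl
      (.slideCup _ 0)
  have h2 : F [cup (!a) 1, crs (!s) 0, cap 0] = F [cup (!a) 1, cap 0] := by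
    cases a <;>
    exact h.move [cup _ 1] [crs _ 0, cap 0] [cap 0] [] _ _ rfl rfl rfl rfl (.r1Cap _ 0)
  have h3 : F [cup (!a) 1, cap 0] = F [] := by
    cases a <;>
    exact h.move [] [cup _ 1, cap 0] [] [] _ _ rfl rfl rfl rfl (.zigL 0 (by decide))
  rw [← h1, h2, h3]

theorem loop_pass (h : Sk A [a] [a] F) : F [cup e 0, cap 0] = F [cup e 1, cap 1] := by
  cases a <;> cases e <;>
  exact (h.move [cup _ 0] [crs true 1, crs false 1] [] [cap 0] _ _ rfl rfl rfl rfl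
    (.r2 true 1 (by decide))).symm.trans <|
    (h.move [] [cup _ 1, crs false 0] [cup _ 0, crs true 1] [crs false 1, cap 0] _ _ rfl rfl rfl rfl
      (.slideCup false 0)).symm.trans <|
    (h.move [cup _ 1, crs false 0] [crs true 0, cap 1] [crs false 1, cap 0] [] _ _ rfl rfl rfl rfl
      (.slideCap true 0)).symm.trans <|
    h.move [cup _ 1] [crs false 0, crs true 0] [] [cap 1] _ _ rfl rfl rfl rfl
      (.r2 false 0 (by decide))

theorem loop_alg (hz : A⁻¹ ^ 2 - A ^ 2 ≠ 0) {x y : K}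
    (h : A ^ 4 * x - A⁻¹ ^ 4 * x = (A⁻¹ ^ 2 - A ^ 2) * y) : y = (-A ^ 2 - A⁻¹ ^ 2) * x := by
  apply mul_left_cancel₀ hz
  rw [← h]; ring

theorem loopR (hz : A⁻¹ ^ 2 - A ^ 2 ≠ 0) (h : Sk A [a] [a] F) :
    F [cup e 1, cap 1] = (-A ^ 2 - A⁻¹ ^ 2) * F [] := by
  by_cases he : e = a
  · subst he
    have := h.skein [cup e 1] [cap 1] [] e e [!e] (by cases e <;> rfl) (by cases e <;> rfl)
    simp only [List.length_nil, if_true, List.cons_append, List.nil_append, kinkR h] at this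
    exact loop_alg hz this
  · obtain rfl : e = !a := by cases a <;> cases e <;> simp at he ⊢
    have := h.skein [cup (!a) 0] [cap 0] [!a] a a [] (by cases a <;> rfl) (by cases a <;> rfl)
    simp only [List.length_singleton, if_true, List.cons_append, List.nil_append, kinkL h] at this
    rw [← loop_pass h]
    exact loop_alg hz this

theorem loop_cup (hz : A⁻¹ ^ 2 - A ^ 2 ≠ 0) (h : Sk A [] [c, !c] F) :
    F [cup e 0, cap 0, cup c 0] = (-A ^ 2 - A⁻¹ ^ 2) * F [cup c 0] := by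
  have h1 : Sk A [c] [c] fun x => F ([cup c 0] ++ x ++ []) :=
    Sk.suf (S := [!c]) (h.ctx [cup c 0] [] rfl rfl)
  have h2 := (loop_pass (e := e) h1).trans (loopR hz h1)
  refine Eq.trans ?_ h2
  cases c <;> cases e <;>
  exact (h.move [cup _ 0] [cap 0, cup _ 0] [cup _ 2, cap 0] [] _ _ rfl rfl rfl rfl
    (.comm (.cap 0) (.cup 0))).trans
    (h.move [] [cup _ 0, cup _ 2] [cup _ 0, cup _ 0] [cap 0] _ _ rfl rfl rfl rfl
      (.comm (.cup 0) (.cup 0)))

theorem mZZ (hz : A⁻¹ ^ 2 - A ^ 2 ≠ 0) (h : Sk A [a, !a] [c, !c] F) :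
    F [cap 0, cup e 0, cap 0, cup c 0] = (-A ^ 2 - A⁻¹ ^ 2) * F [cap 0, cup c 0] :=
  loop_cup hz (h.ctx [cap 0] [] (by cases a <;> rfl) rfl)

theorem mZC (h : Sk A [a, !a] [c, !c] F) :
    F [cap 0, cup (!c) 0, crs s 0] = F [cap 0, cup c 0] := by
  cases a <;> cases c <;>
  exact h.move [cap 0] [cup _ 0, crs s 0] [cup _ 0] [] _ _ rfl rfl rfl rfl (.r1Cup s 0)

theorem mCZ (h : Sk A [a, !a] [c, !c] F) :
    F [crs s 0, cap 0, cup c 0] = F [cap 0, cup c 0] := by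
  cases a <;> cases c <;>
  exact h.move [] [crs s 0, cap 0] [cap 0] [cup _ 0] _ _ rfl rfl rfl rfl (.r1Cap s 0)

theorem mR2 (h : Sk A [a, b] [a, b] F) : F [crs true 0, crs false 0] = F [] :=
  h.move [] [crs true 0, crs false 0] [] [] _ _ rfl rfl rfl rfl (.r2 true 0 (by simp))

theorem mCC1 (h : Sk A [a, a] [a, a] F) :
    A ^ 4 * F [crs true 0, crs true 0] - A⁻¹ ^ 4 * F [] = (A⁻¹ ^ 2 - A ^ 2) * F [crs true 0] := by
  have := h.skein [crs true 0] [] [] a a [] rfl rfl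
  simpa [mR2 h] using this

theorem mCC2 (h : Sk A [a, !a] [a, !a] F) :
    A ^ 4 * F [] - A⁻¹ ^ 4 * F [crs true 0, crs true 0] =
      (A⁻¹ ^ 2 - A ^ 2) * F [cap 0, cup a 0] := by
  have := h.skein [crs true 0] [] [] (!a) a [] rfl rfl
  rw [← mCZ (s := true) h, ← mR2 h]
  cases a <;> simpa using this

theorem cr1 (h : Sk A [a, a] [a, a] F) :
    A ^ 4 * F [crs true 0] - A⁻¹ ^ 4 * F [crs false 0] = (A⁻¹ ^ 2 - A ^ 2) * F [] := by
  simpa using h.skein [] [] [] a a [] rfl rfl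

theorem cr3 (h : Sk A [!a, a] [a, !a] F) :
    A ^ 4 * F [crs false 0] - A⁻¹ ^ 4 * F [crs true 0] = (A⁻¹ ^ 2 - A ^ 2) * F [cap 0, cup a 0] := by
  have := h.skein [] [] [] (!a) a [] rfl rfl
  cases a <;> simpa using this

theorem aII (hz : A⁻¹ ^ 2 - A ^ 2 ≠ 0) (h : Sk A [a, b] [a, b] F) :
    F [cup e 1, cap 1] = (-A ^ 2 - A⁻¹ ^ 2) * F [] :=
  loopR hz (Sk.suf (m := [a]) (m' := [a]) (S := [b]) h)

theorem aZI (h : Sk A [a, b] [a, b] F) : F [cup (!a) 1, cap 0, cup a 0, cap 1] = F [] := by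
  cases a <;> cases b <;>
  exact (h.move [] [cup _ 1, cap 0] [] [cup _ 0, cap 1] _ _ rfl rfl rfl rfl
    (.zigL 0 (by decide))).trans
    (h.move [] [cup _ 0, cap 1] [] [] _ _ rfl rfl rfl rfl (.zigR 0 (by decide)))

theorem aIZ (h : Sk A [a, b] [a, b] F) : F [cup b 1, cap 2, cup (!b) 2, cap 1] = F [] := by
  cases a <;> cases b <;>
  exact (h.move [] [cup _ 1, cap 2] [] [cup _ 2, cap 1] _ _ rfl rfl rfl rfl
    (.zigR 1 (by decide))).trans
    (h.move [] [cup _ 2, cap 1] [] [] _ _ rfl rfl rfl rfl (.zigL 1 (by decide)))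

theorem cupcap (h : Sk A [a, !a] [c, !c] F) : F [cup c 0, cap 2] = F [cap 0, cup c 0] := by
  cases a <;> cases c <;>
  exact h.move [] [cup _ 0, cap 2] [cap 0, cup _ 0] [] _ _ rfl rfl rfl rfl
    (.comm (.cup 0) (.cap 0))

theorem aZZ (h : Sk A [a, !a] [c, !c] F) :
    F [cup (!a) 1, cap 0, cup c 0, cap 2, cup c 2, cap 1] = F [cap 0, cup c 0] := by
  rw [← cupcap h]
  cases a <;> cases c <;>
  exact (h.move [] [cup _ 1, cap 0] [] [cup _ 0, cap 2, cup _ 2, cap 1] _ _ rfl rfl rfl rfl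
    (.zigL 0 (by decide))).trans
    (h.move [cup _ 0, cap 2] [cup _ 2, cap 1] [] [] _ _ rfl rfl rfl rfl (.zigL 1 (by decide)))

theorem aCI (h : Sk A [a, b] [a, b] F) : F [cup a 1, crs s 0, cap 1] = F [] :=
  kinkR (Sk.suf (m := [a]) (m' := [a]) (S := [b]) h)

theorem aIC (h : Sk A [a, b] [a, b] F) : F [cup (!b) 1, crs s 2, cap 1] = F [] :=
  kinkL (Sk.pre (Q := [a]) (m := [b]) (m' := [b]) rfl h)

theorem aCZ (h : Sk A [a, b] [b, a] F) :
    F [cup b 1, crs s 0, cap 2, cup (!a) 2, cap 1] = F [crs s 0] := by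
  cases a <;> cases b <;>
  exact (h.move [cup _ 1, crs s 0, cap 2] [cup _ 2, cap 1] [] [] _ _ rfl rfl rfl rfl
    (.zigL 1 (by decide))).trans <|
    (h.move [cup _ 1] [crs s 0, cap 2] [cap 2, crs s 0] [] _ _ rfl rfl rfl rfl
      (.comm (.crs s 0) (.cap 0))).trans <|
    h.move [] [cup _ 1, cap 2] [] [crs s 0] _ _ rfl rfl rfl rfl (.zigR 1 (by decide))

theorem aZC (h : Sk A [a, b] [b, a] F) :
    F [cup (!a) 1, cap 0, cup b 0, crs s 2, cap 1] = F [crs s 0] := by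
  cases a <;> cases b <;>
  exact (h.move [] [cup _ 1, cap 0] [] [cup _ 0, crs s 2, cap 1] _ _ rfl rfl rfl rfl
    (.zigL 0 (by decide))).trans <|
    (h.move [] [cup _ 0, crs s 2] [crs s 0, cup _ 0] [cap 1] _ _ rfl rfl rfl rfl
      (.comm (.cup 0) (.crs s 0))).trans <|
    h.move [crs s 0] [cup _ 0, cap 1] [] [] _ _ rfl rfl rfl rfl (.zigR 0 (by decide))

theorem aR2 (h : Sk A [a, !a] [c, !c] F) :
    F [cup c 1, crs true 0, crs false 2, cap 1] = F [cap 0, cup c 0] := by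
  rw [← cupcap h]
  cases a <;> cases c <;>
  exact (h.move [] [cup _ 1, crs true 0] [cup _ 0, crs false 1] [crs false 2, cap 1] _ _
    rfl rfl rfl rfl (.slideCup true 0)).trans <|
    (h.move [cup _ 0, crs false 1] [crs true 1, cap 2] [crs false 2, cap 1] [] _ _ rfl rfl rfl rfl
      (.slideCap true 1)).symm.trans <|
    h.move [cup _ 0] [crs false 1, crs true 1] [] [cap 2] _ _ rfl rfl rfl rfl
      (.r2 false 1 (by decide))

theorem aCC1 (h : Sk A [a, !a] [a, !a] F) :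
    A ^ 4 * F [cup a 1, crs true 0, crs true 2, cap 1] - A⁻¹ ^ 4 * F [cap 0, cup a 0] =
      (A⁻¹ ^ 2 - A ^ 2) * F [] := by
  have := h.skein [cup a 1, crs true 0] [cap 1] [a, a] (!a) (!a) [] rfl (by cases a <;> rfl)
  rw [← aR2 h, ← aCI (s := true) h]
  simpa using this

theorem aCC2 (h : Sk A [!a, a] [a, !a] F) :
    A ^ 4 * F [cap 0, cup a 0] - A⁻¹ ^ 4 * F [cup a 1, crs true 0, crs true 2, cap 1] =
      (A⁻¹ ^ 2 - A ^ 2) * F [crs true 0] := by
  have := h.skein [cup a 1, crs true 0] [cap 1] [a, !a] (!a) a [] rfl (by cases a <;> rfl)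
  have h' : Sk A [!a, !!a] [a, !a] F := by simpa using h
  rw [← aR2 h', ← aCZ (s := true) h]
  cases a <;> simpa using this

end Pool.Agent.Lib.MP_140c34_gt.Arb
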