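import Pool.Agent.Lib.MP_140c34_gt.Arb.OriB

/-! A skein functional on an oriented algebraic tangle is given by the bracket vector. -/

namespace Pool.Agent.Lib.MP_140c34_gt.Arb

open OGen

variable {K : Type} [Field K] {A : K} {F : List OGen → K}

/-- The value of the tangle `0`, formal if the directions do not allow it. -/
noncomputable def Zv (A : K) (a b c : Bool) (F : List OGen → K) : K :=
  if a = b then A * (-A ^ 3 * F [crs true 0] - A * F []) else F [cap 0, cup c 0]

/-- The value of the tangle `∞`, formal if the directions do not allow it. -/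
noncomputable def Iv (A : K) (a c : Bool) (F : List OGen → K) : K :=
  if a = c then F [] else A⁻¹ * (-A⁻¹ ^ 3 * F [crs true 0] - A⁻¹ * F [cap 0, cup c 0])

theorem lin_ZI {a b c d : Bool} (hf : flux [c, d] = flux [a, b]) {t p q : K}
    {G G1 G2 : List OGen → K}
    (h : ∀ y, dirs y [a, b] = some [c, d] → t * G y = p * G1 y + q * G2 y) :
    t * Zv A a b c G = p * Zv A a b c G1 + q * Zv A a b c G2 ∧
      t * Iv A a c G = p * Iv A a c G1 + q * Iv A a c G2 := by
  cases a <;> cases b <;> cases c <;> cases d <;> simp [flux] at hf <;> simp [Zv, Iv] <;>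
  first
  | exact ⟨by linear_combination (-A ^ 4) * h [crs true 0] rfl - A ^ 2 * h [] rfl, h [] rfl⟩
  | exact ⟨h _ rfl, h [] rfl⟩
  | exact ⟨h _ rfl, by
      linear_combination (-A⁻¹ ^ 4) * h [crs true 0] rfl - A⁻¹ ^ 2 * h [cap 0, cup _ 0] rfl⟩

theorem mul_table (h0 : A ≠ 0) (hz : A⁻¹ ^ 2 - A ^ 2 ≠ 0) {a b e f c d : Bool}
    (h1 : flux [e, f] = flux [a, b]) (h2 : flux [c, d] = flux [e, f]) (h : Sk A [a, b] [c, d] F) :
    (Zv A a b e fun y => Zv A e f c fun y' => F (y ++ y')) = (-A ^ 2 - A⁻¹ ^ 2) * Zv A a b c F ∧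
    (Zv A a b e fun y => Iv A e c fun y' => F (y ++ y')) = Zv A a b c F ∧
    (Iv A a e fun y => Zv A e f c fun y' => F (y ++ y')) = Zv A a b c F ∧
    (Iv A a e fun y => Iv A e c fun y' => F (y ++ y')) = Iv A a c F := by
  have hA : A * A⁻¹ = 1 := mul_inv_cancel₀ h0
  by_cases hab : a = b
  · subst hab
    obtain ⟨rfl, rfl, rfl, rfl⟩ : a = e ∧ a = f ∧ a = c ∧ a = d := by
      revert h1 h2; cases a <;> cases e <;> cases f <;> cases c <;> cases d <;> simp [flux]
    have := mCC1 h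
    simp only [Zv, Iv, if_true, List.cons_append, List.nil_append, List.append_nil, and_self,
      and_true]
    field_simp at this ⊢
    linear_combination this
  · obtain ⟨rfl, rfl, rfl⟩ : b = !a ∧ f = !e ∧ d = !c := by
      revert h1 h2 hab
      cases a <;> cases b <;> cases e <;> cases f <;> cases c <;> cases d <;> simp [flux]
    have k1 := mZZ (e := e) hz h
    have k2 := mZC (s := true) h
    have k3 := mCZ (s := true) h
    have k4 : a = c → A ^ 4 * F [] - A⁻¹ ^ 4 * F [crs true 0, crs true 0] =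
        (A⁻¹ ^ 2 - A ^ 2) * F [cap 0, cup a 0] := fun hc => mCC2 (by subst hc; exact h)
    cases a <;> cases e <;> cases c <;> simp [Zv, Iv] at k1 k2 k3 k4 ⊢ <;>
      simp only [k1, k2, k3, true_and, and_true] <;>
      (try refine ⟨?_, ?_⟩) <;> (try refine ⟨?_, ?_⟩) <;> (try refine ⟨?_, ?_⟩) <;>
      (try field_simp at k4) <;> (try field_simp) <;> first | ring1 | linear_combination -k4 | skip

/-- The word of a sum. -/
def sumW (e : Bool) (y y' : List OGen) : List OGen :=
  cup e 1 :: (y ++ y'.map (OGen.up 2) ++ [cap 1])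

theorem add_table (h0 : A ≠ 0) (hz : A⁻¹ ^ 2 - A ^ 2 ≠ 0) {a b e g c d : Bool}
    (h1 : flux [c, g] = flux [a, e]) (h2 : flux [!g, d] = flux [!e, b])
    (h : Sk A [a, b] [c, d] F) :
    (Zv A a e c fun y => Zv A (!e) b (!g) fun y' => F (sumW e y y')) = Zv A a b c F ∧
    (Zv A a e c fun y => Iv A (!e) (!g) fun y' => F (sumW e y y')) = Iv A a c F ∧
    (Iv A a c fun y => Zv A (!e) b (!g) fun y' => F (sumW e y y')) = Iv A a c F ∧
    (Iv A a c fun y => Iv A (!e) (!g) fun y' => F (sumW e y y')) =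
      (-A ^ 2 - A⁻¹ ^ 2) * Iv A a c F := by
  by_cases hc : a = c
  · subst hc
    obtain ⟨rfl, rfl⟩ : e = g ∧ b = d := by
      revert h1 h2; cases a <;> cases b <;> cases e <;> cases g <;> cases d <;> simp [flux]
    have k1 := aII (e := e) hz h
    have k2 := aZI h
    have k3 := aIZ h
    have k4 := aCI (s := true) h
    have k5 := aIC (s := true) h
    have k6 : a = b → F [cup b 1, crs true 0, cap 2, cup (!a) 2, cap 1] = F [crs true 0] :=
      fun hc => aCZ (by subst hc; exact h)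
    have k7 : a = b → F [cup (!a) 1, cap 0, cup b 0, crs true 2, cap 1] = F [crs true 0] :=
      fun hc => aZC (by subst hc; exact h)
    have k8 : b = (!a) → F [cup (!a) 1, cap 0, cup a 0, cap 2, cup a 2, cap 1] =
        F [cap 0, cup a 0] := fun hc => aZZ (by subst hc; exact h)
    have k9 : b = (!a) → A ^ 4 * F [cup a 1, crs true 0, crs true 2, cap 1] -
        A⁻¹ ^ 4 * F [cap 0, cup a 0] = (A⁻¹ ^ 2 - A ^ 2) * F [] :=
      fun hc => aCC1 (by subst hc; exact h)
    cases a <;> cases b <;> cases e <;>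
      simp [Zv, Iv, sumW, OGen.up] at k1 k2 k3 k4 k5 k6 k7 k8 k9 ⊢ <;>
      simp only [k1, k2, k3, k4, k5, k6, k7, k8, true_and, and_true, true_or] <;>
      (try refine ⟨?_, ?_⟩) <;> (try refine ⟨?_, ?_⟩) <;> (try refine ⟨?_, ?_⟩) <;>
      (try field_simp at k9) <;> (try field_simp) <;> first | ring1 | linear_combination k9 | skip
  · obtain ⟨rfl, rfl, rfl, rfl, rfl⟩ : a = (!c) ∧ c = b ∧ c = e ∧ g = (!c) ∧ d = !c := by
      revert h1 h2 hc
      cases a <;> cases b <;> cases e <;> cases g <;> cases c <;> cases d <;> simp [flux]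
    have k1 := aCZ (s := true) h
    have k2 := aZC (s := true) h
    have k3 := aZZ (a := !c) (c := c) (by simpa using h)
    have k9 := aCC2 h
    cases c <;> simp [Zv, Iv, sumW, OGen.up] at k1 k2 k3 k9 ⊢ <;>
      simp only [k1, k2, k3, true_and, and_true, true_or] <;>
      (try refine ⟨?_, ?_⟩) <;> (try refine ⟨?_, ?_⟩) <;> (try refine ⟨?_, ?_⟩) <;>
      (try field_simp at k9) <;> (try field_simp) <;> first | ring1 | linear_combination -k9 | skip

open LaurentPolynomial in
theorem skein_vec (h0 : A ≠ 0) (hz : A⁻¹ ^ 2 - A ^ 2 ≠ 0) (φ : ℤ[T;T⁻¹] →+* K) (h1 : φ (T 1) = A)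
    (h2 : φ (T (-1)) = A⁻¹) (hd : φ loopVal = -A ^ 2 - A⁻¹ ^ 2) (X : Alg) :
    ∀ (x : List OGen) (a b c d : Bool), x.map OGen.forget = X.word →
      dirs x [a, b] = some [c, d] → ∃ k : ℤ, ∀ F, Sk A [a, b] [c, d] F →
        (-A ^ 3) ^ k * F x = φ (vec X).1 * Zv A a b c F + φ (vec X).2 * Iv A a c F := by
  have h3 : -A ^ 3 ≠ 0 := neg_ne_zero.2 (pow_ne_zero _ h0)
  induction X with
  | zero =>
    intro x a b c d hx hr
    match x, hx with
    | [cap i, cup e j], hx =>
      obtain ⟨rfl, rfl⟩ : i = 0 ∧ j = 0 := by simpa [Alg.word, OGen.forget] using hx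
      obtain ⟨hab, rfl⟩ : a ≠ b ∧ e = c := by
        revert hr; cases a <;> cases b <;> simp +contextual [dirs, OGen.step]
      exact ⟨0, fun F _ => by simp [vec, Zv, hab]⟩
  | inf =>
    intro x a b c d hx hr
    obtain rfl : x = [] := by simpa [Alg.word] using hx
    obtain ⟨rfl, rfl⟩ : a = c ∧ b = d := by simpa [dirs] using hr
    exact ⟨0, fun F _ => by simp [vec, Iv]⟩
  | cr s =>
    intro x a b c d hx hr
    match x, hx with
    | [crs t i], hx =>
      obtain ⟨rfl, rfl⟩ : t = s ∧ i = 0 := by simpa [Alg.word, OGen.forget] using hx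
      obtain ⟨rfl, rfl⟩ : b = c ∧ a = d := by simpa [dirs, OGen.step] using hr
      by_cases hab : a = b
      · subst hab
        refine ⟨if t then 1 else -1, fun F h => ?_⟩
        have := cr1 h
        cases t <;> simp [vec, Zv, Iv, h1, h2] <;> field_simp at this ⊢
        · linear_combination this
        · ring
      · obtain rfl : a = !b := by revert hab; cases a <;> cases b <;> simp
        refine ⟨if t then -1 else 1, fun F h => ?_⟩
        have := cr3 h
        cases t <;> simp [vec, Zv, Iv, h1, h2] <;> field_simp at this ⊢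
        · linear_combination -this
        · ring
  | mul X Y ihX ihY =>
    intro x a b c d hx hr
    obtain ⟨x1, x2, rfl, hx1, hx2⟩ := List.map_eq_append_iff.1 hx
    obtain ⟨M, r1, r2⟩ := dirs_split hr
    obtain ⟨e, f, -, rfl⟩ := dirs_word hx1 r1
    obtain ⟨k1, H1⟩ := ihX x1 a b e f hx1 r1
    obtain ⟨k2, H2⟩ := ihY x2 e f c d hx2 r2
    refine ⟨k1 + k2, fun F h => ?_⟩
    have e1 := H1 _ (h.ctx [] x2 rfl r2)
    have e2 := lin_ZI (A := A) (dirs_flux r1) fun y hy => H2 _ (h.ctx y [] hy rfl)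
    obtain ⟨t1, t2, t3, t4⟩ := mul_table h0 hz (dirs_flux r1) (dirs_flux r2) h
    simp only [List.nil_append, List.append_nil] at e1 e2
    rw [t1, t2, t3, t4] at e2
    simp only [vec, map_add, map_mul, hd, zpow_add₀ h3]
    linear_combination (-A ^ 3) ^ k2 * e1 + φ (vec X).1 * e2.1 + φ (vec X).2 * e2.2
  | add X Y ihX ihY =>
    intro x a b c d hx hr
    obtain ⟨p, x', rfl, hp, hx'⟩ := List.map_eq_cons_iff.1 hx
    obtain ⟨x12, q, rfl, hx12, hq⟩ := List.map_eq_append_iff.1 hx'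
    obtain ⟨x1, x2', rfl, hx1, hx2'⟩ := List.map_eq_append_iff.1 hx12
    obtain ⟨x2, rfl, hx2⟩ := exists_of_up 2 _ _ hx2'
    obtain ⟨e, rfl⟩ : ∃ e, p = cup e 1 := by
      cases p <;> simp [OGen.forget] at hp
      exact ⟨_, by rw [hp]⟩
    obtain rfl : q = [cap 1] := by
      obtain ⟨q, q', rfl, hq1, hq2⟩ := List.map_eq_cons_iff.1 hq
      cases q <;> simp [OGen.forget] at hq1 hq2
      rw [hq1, hq2]
    have hr' : dirs (x1 ++ x2.map (OGen.up 2) ++ [cap 1]) [a, e, !e, b] = some [c, d] := hr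
    obtain ⟨M', r12, r3⟩ := dirs_split hr'
    obtain ⟨M, r1, r2⟩ := dirs_split r12
    obtain ⟨c', g, r1', rfl⟩ := dirs_word hx1 r1
    have r2' := (dirs_pre x2 [c', g] [!e, b]).symm.trans r2
    obtain ⟨N, r2'', rfl⟩ := Option.map_eq_some_iff.1 r2'
    obtain ⟨g', d', -, rfl⟩ := dirs_word hx2 r2''
    obtain ⟨rfl, rfl, rfl⟩ : g' = (!g) ∧ c' = c ∧ d' = d := by
      revert r3; cases g <;> cases g' <;> simp [dirs, OGen.step]
    obtain ⟨k1, H1⟩ := ihX x1 a e c' g hx1 r1'
    obtain ⟨k2, H2⟩ := ihY x2 (!e) b (!g) d' hx2 r2''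
    refine ⟨k1 + k2, fun F h => ?_⟩
    have e1 := H1 _ (Sk.suf (m := [a, e]) (m' := [c', g]) (S := [!e, b])
      (h.ctx [cup e 1] (x2.map (OGen.up 2) ++ [cap 1]) rfl (dirs_app r2 r3)))
    have e2 := lin_ZI (A := A) (dirs_flux r1') fun y hy => H2 _
      (Sk.pre (Q := [c', g]) (m := [!e, b]) (m' := [!g, d']) rfl
        (h.ctx (cup e 1 :: y) [cap 1] (dirs_suf [!e, b] hy) r3))
    obtain ⟨t1, t2, t3, t4⟩ := add_table h0 hz (dirs_flux r1') (dirs_flux r2'') h
    simp only [sumW, List.cons_append, List.nil_append, List.append_assoc, List.length_cons,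
      List.length_nil, Nat.zero_add, Nat.reduceAdd] at e1 e2 t1 t2 t3 t4 ⊢
    rw [t1, t2, t3, t4] at e2
    simp only [vec, map_add, map_mul, hd, zpow_add₀ h3]
    linear_combination (-A ^ 3) ^ k2 * e1 + φ (vec X).1 * e2.1 + φ (vec X).2 * e2.2

end Pool.Agent.Lib.MP_140c34_gt.Arb
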