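import Pool.Agent.Lib.MP_140c34_gt.Arb.OriC

/-! The Jones specialisation of the HOMFLYPT polynomial of an algebraic diagram. -/

namespace Pool.Agent.Lib.MP_140c34_gt.Arb

open OGen LaurentPolynomial

/-- The variable of the field of rational functions. -/
noncomputable abbrev xx : RatFunc ℚ := RatFunc.X

theorem xx_ne : xx ≠ 0 := RatFunc.X_ne_zero

/-- Laurent polynomials as rational functions. -/
noncomputable def toRat : ℤ[T;T⁻¹] →+* RatFunc ℚ :=
  eval₂ (Int.castRingHom _) (Units.mk0 xx xx_ne)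

theorem toRat_T (n : ℤ) : toRat (T n) = xx ^ n := by
  simp [toRat, eval₂_T]

theorem toRat_inj : Function.Injective toRat := by
  rw [injective_iff_map_eq_zero]
  intro p hp
  obtain ⟨n, q, hq⟩ := exists_T_pow p
  have h1 : toRat (Polynomial.toLaurent q) = 0 := by rw [hq, map_mul, hp, zero_mul]
  have h2 : toRat (Polynomial.toLaurent q) =
      algebraMap (Polynomial ℚ) (RatFunc ℚ) (q.map (Int.castRingHom ℚ)) := by
    have : toRat.comp Polynomial.toLaurent =
        (algebraMap (Polynomial ℚ) (RatFunc ℚ)).comp (Polynomial.mapRingHom (Int.castRingHom ℚ)) := by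
      apply Polynomial.ringHom_ext'
      · exact Subsingleton.elim _ _
      · simp [toRat_T]
    exact RingHom.congr_fun this q
  rw [h2, map_eq_zero_iff _ (RatFunc.algebraMap_injective ℚ),
    Polynomial.map_eq_zero_iff (RingHom.injective_int _)] at h1
  rw [h1, map_zero] at hq
  exact (isUnit_T (n : ℤ)).mul_left_eq_zero.1 hq.symm

theorem toRat_loop : toRat loopVal = -xx ^ 2 - xx⁻¹ ^ 2 := by
  simp [loopVal, toRat_T, zpow_ofNat]

theorem zz_ne : xx⁻¹ ^ 2 - xx ^ 2 ≠ 0 := by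
  intro h
  have h1 : toRat (T (-2)) = toRat (T 2) := by
    rw [toRat_T, toRat_T]; simpa [sub_eq_zero, zpow_ofNat] using h
  have h2 := congrArg degree (toRat_inj h1)
  rw [degree_T, degree_T] at h2
  exact absurd (WithBot.coe_injective h2) (by decide)

/-- The substitution as a ring homomorphism. -/
noncomputable def jonesHom : AddMonoidAlgebra ℤ (ℤ × ℤ) →ₐ[ℤ] RatFunc ℚ :=
  AddMonoidAlgebra.lift ℤ (RatFunc ℚ) (ℤ × ℤ)
    { toFun := fun m => (xx⁻¹ ^ 4) ^ m.toAdd.1 * (xx⁻¹ ^ 2 - xx ^ 2) ^ m.toAdd.2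
      map_one' := by simp
      map_mul' := fun m n => by
        rw [toAdd_mul, Prod.fst_add, Prod.snd_add, zpow_add₀ zz_ne,
          zpow_add₀ (pow_ne_zero _ (inv_ne_zero xx_ne))]
        ring }

theorem jones_eq (f : AddMonoidAlgebra ℤ (ℤ × ℤ)) : jones f = jonesHom f := by
  rw [jonesHom, AddMonoidAlgebra.lift_apply', jones]
  refine Finsupp.sum_congr fun m _ => ?_
  simp [mul_assoc, zpow_ofNat]

theorem jonesHom_vz (a b : ℤ) :
    jonesHom (vz a b) = (xx⁻¹ ^ 4) ^ a * (xx⁻¹ ^ 2 - xx ^ 2) ^ b := by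
  rw [jonesHom, vz, AddMonoidAlgebra.lift_single, Algebra.smul_def, map_one, one_mul]; rfl

variable {P : List OGen → AddMonoidAlgebra ℤ (ℤ × ℤ)}

theorem IsHomflypt.sk (hP : IsHomflypt P) : Sk xx [] [] fun x => jones (P x) where
  move u x y w L M h1 h2 h3 h4 h5 := by rw [hP.move u x y w L M h1 h2 h3 h4 h5]
  skein u w L a b S h1 h2 := by
    have := congrArg jonesHom (hP.skein u w L a b S h1 h2)
    simpa [jones_eq, jonesHom_vz] using this

/-- The Jones specialisation of a closed algebraic diagram is the bracket up to a unit. -/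
theorem jones_num (hP : IsHomflypt P) (X : Alg) (D : List OGen) (hD : D.map OGen.forget = X.num)
    (hc : dirs D [] = some []) :
    ∃ k : ℤ, (-xx ^ 3) ^ k * jones (P D) = toRat (loopVal * (vec X).1 + (vec X).2) := by
  obtain ⟨p, x', rfl, hp, hx'⟩ := List.map_eq_cons_iff.1 hD
  obtain ⟨x, q, rfl, hx, hq⟩ := List.map_eq_append_iff.1 hx'
  obtain ⟨e, rfl⟩ : ∃ e, p = cup e 0 := by
    cases p <;> simp [OGen.forget] at hp
    exact ⟨_, by rw [hp]⟩
  obtain rfl : q = [cap 0] := by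
    obtain ⟨q, q', rfl, hq1, hq2⟩ := List.map_eq_cons_iff.1 hq
    cases q <;> simp [OGen.forget] at hq1 hq2
    rw [hq1, hq2]
  have hr : dirs (x ++ [cap 0]) [e, !e] = some [] := hc
  obtain ⟨M, r1, r2⟩ := dirs_split hr
  obtain ⟨c, d, -, rfl⟩ := dirs_word hx r1
  obtain rfl : d = !c := by revert r2; cases c <;> cases d <;> simp [dirs, OGen.step]
  obtain ⟨k, H⟩ := skein_vec xx_ne zz_ne toRat (by simp [toRat_T]) (by simp [toRat_T]) toRat_loop
    X x e (!e) c (!c) hx r1
  have one : ∀ b, jones (P [cup b 0, cap 0]) = 1 := fun b => by rw [hP.circle, jones_eq, map_one]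
  have k1 : jones (P [cup e 0, cap 0, cup c 0, cap 0]) = -xx ^ 2 - xx⁻¹ ^ 2 := by
    have := loop_cup (e := e) zz_ne (hP.sk.ctx [] [cap 0] rfl r2)
    simpa [one] using this
  have k2 : c = (!e) → jones (P [cup e 0, crs true 0, cap 0]) = 1 := by
    rintro rfl
    rw [← one (!e)]
    cases e <;>
    exact hP.sk.move [] [cup _ 0, crs true 0] [cup _ 0] [cap 0] _ _ rfl rfl rfl rfl (.r1Cup _ 0)
  have e1 := H _ (hP.sk.ctx [cup e 0] [cap 0] rfl r2)
  refine ⟨k, e1.trans ?_⟩
  have h0 := xx_ne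
  rw [map_add, map_mul, toRat_loop]
  cases e <;> cases c <;> simp [Zv, Iv] at k2 ⊢ <;> simp only [one, k1, k2] <;> field_simp <;> ring

theorem vec_unit (hP : IsHomflypt P) (X : Alg) (D : List OGen) (hD : D.map OGen.forget = X.num)
    (hc : dirs D [] = some []) (h : jones (P D) = 1) :
    ∃ k : ℤ, loopVal * (vec X).1 + (vec X).2 = T k ∨ loopVal * (vec X).1 + (vec X).2 = -T k := by
  obtain ⟨k, hk⟩ := jones_num hP X D hD hc
  rw [h, mul_one] at hk
  have e : (xx ^ 3) ^ k = toRat (T (3 * k)) := by rw [toRat_T, zpow_mul]; rfl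
  refine ⟨3 * k, ?_⟩
  rcases Int.even_or_odd k with hk' | hk'
  · exact Or.inl (toRat_inj (by rw [← hk, hk'.neg_zpow, e]))
  · exact Or.inr (toRat_inj (by rw [← hk, hk'.neg_zpow, e, map_neg]))

end Pool.Agent.Lib.MP_140c34_gt.Arb
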