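import Pool.Agent.Lib.MP_140c34_gt.Arb.OriD

/-! The bridge for unlinks. -/

namespace Pool.Agent.Lib.MP_140c34_gt.Arb

open LaurentPolynomial

theorem jones_unlink (m : ℕ) : jones ((vz (-1) (-1) - vz 1 (-1)) ^ m) = toRat (loopVal ^ m) := by
  rw [jones_eq, map_pow, map_pow, map_sub, jonesHom_vz, jonesHom_vz, toRat_loop]
  congr 1
  have h0 := xx_ne
  rw [← sub_mul, zpow_neg_one, zpow_neg_one, zpow_one, mul_inv_eq_iff_eq_mul₀ zz_ne]
  field_simp
  ring

theorem vec_unlink {P : List OGen → AddMonoidAlgebra ℤ (ℤ × ℤ)} (hP : IsHomflypt P) (X : Alg)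
    (D : List OGen) (hD : D.map OGen.forget = X.num) (hc : dirs D [] = some []) (m : ℕ)
    (h : jones (P D) = jones ((vz (-1) (-1) - vz 1 (-1)) ^ m)) :
    ∃ k : ℤ, loopVal * (vec X).1 + (vec X).2 = loopVal ^ m * T k ∨
      loopVal * (vec X).1 + (vec X).2 = -(loopVal ^ m * T k) := by
  obtain ⟨k, hk⟩ := jones_num hP X D hD hc
  rw [h, jones_unlink, mul_comm] at hk
  have e : (xx ^ 3) ^ k = toRat (T (3 * k)) := by rw [toRat_T, zpow_mul]; rfl
  refine ⟨3 * k, ?_⟩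
  rcases Int.even_or_odd k with hk' | hk'
  · exact Or.inl (toRat_inj (by rw [← hk, hk'.neg_zpow, e, map_mul]))
  · exact Or.inr (toRat_inj (by rw [← hk, hk'.neg_zpow, e, map_neg, map_mul, mul_neg]))

end Pool.Agent.Lib.MP_140c34_gt.Arb
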