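import Pool.Agent.Lib.MP_140c34_gt.Arb.QA1
import Pool.Agent.Lib.MP_140c34_gt.Arb.JetA

/-! The map from vectors in the variable t to jets. -/

namespace Pool.Agent.Lib.MP_140c34_gt.Arb

open LaurentPolynomial

theorem pi_T43 (k : ℤ) : pi (T k) = ((tJ ^ k : Jˣ) : J) := by
  simp only [pi, LaurentPolynomial.eval₂_T]

theorem pi_T1_43 : pi (T 1) = ⟨1, 1, 1 / 2⟩ := by
  rw [pi_T43, zpow_one]; rfl

theorem pi_Tm43 : pi (T (-1)) = ⟨1, -1, 1 / 2⟩ := by
  rw [pi_T43, zpow_neg, zpow_one]; rfl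

theorem ev1_T43 (k : ℤ) : ev1 (T k) = 1 := by
  simp only [ev1, LaurentPolynomial.eval₂_T, one_zpow, Units.val_one]

theorem pi_T_aux43 (k : ℤ) : (pi (T k)).c0 = 1 ∧ nrm (pi (T k)) = 1 := by
  have h1 : nrm (⟨1, 1, 1 / 2⟩ : J) = 1 := by rw [nrm_iff]; norm_num
  have h2 : nrm (⟨1, -1, 1 / 2⟩ : J) = 1 := by rw [nrm_iff]; norm_num
  induction k using Int.induction_on with
  | zero => rw [T_zero, map_one]; exact ⟨rfl, nrm_one⟩
  | succ k ih =>
    rw [T_add, map_mul, pi_T1_43, nrm_mul, ih.2, h1, J.mul_c0, ih.1]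
    norm_num
  | pred k ih =>
    rw [sub_eq_add_neg, T_add, map_mul, pi_Tm43, nrm_mul, ih.2, h2, J.mul_c0, ih.1]
    norm_num

theorem Un.nrm_pi {a : Lam} (ha : Un a) : nrm (pi a) = 1 := by
  obtain ⟨k, rfl | rfl⟩ := ha
  · exact (pi_T_aux43 k).2
  · rw [map_neg, nrm_neg]; exact (pi_T_aux43 k).2

theorem Un.ev1_sq {a : Lam} (ha : Un a) : ev1 a ^ 2 = 1 := by
  obtain ⟨k, rfl | rfl⟩ := ha
  · rw [ev1_T43, one_pow]
  · rw [map_neg, ev1_T43, neg_one_sq]

theorem intCast_c0_43 (n : ℤ) : ((n : ℤ) : J).c0 = n := by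
  induction n using Int.induction_on with
  | zero => simp
  | succ k ih => push_cast at ih ⊢; rw [J.add_c0, ih]; rfl
  | pred k ih => push_cast at ih ⊢; rw [J.sub_c0, ih]; rfl

theorem nrm_uJ43 : nrm uJ = 1 := by
  rw [nrm_iff]; norm_num [uJ]

theorem uJ_inv43 : uJ * uJ * pi (T (-1)) = 1 := by
  rw [pi_Tm43]; ext <;> norm_num [uJ]

theorem pi_c0 (a : Lam) : (pi a).c0 = ev1 a := by
  induction a using LaurentPolynomial.induction_on' with
  | add p q hp hq => rw [map_add, map_add, J.add_c0, hp, hq, Int.cast_add]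
  | C_mul_T n c =>
    have e1 : pi (C c) = (c : J) := by
      rw [pi, LaurentPolynomial.eval₂_C, eq_intCast]
    have e2 : ev1 (C c) = c := by
      simp only [ev1, LaurentPolynomial.eval₂_C, RingHom.id_apply]
    rw [map_mul, map_mul, J.mul_c0, (pi_T_aux43 n).1, ev1_T43, e1, e2, intCast_c0_43, mul_one,
      mul_one]
theorem pi_sq : pi sq = eta * uJ := by
  rw [sq, map_sub, map_one, pi_T1_43]
  ext <;> norm_num [uJ]
theorem ev1_sq : ev1 sq = 0 := by
  rw [sq, map_sub, map_one, ev1_T43, sub_self]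
theorem pi_sq_mul_c1 (a : Lam) : (pi (sq * a)).c1 = ev1 a := by
  rw [map_mul, pi_sq, ← pi_c0]
  simp [uJ]
theorem jq_add (x y : Lam × Lam) : jq (addQ x y) = addJ (jq x) (jq y) := by
  simp only [jq, addQ, addJ, map_add, map_mul, pi_sq, Prod.mk.injEq, true_and]
  ring
theorem jeq_jq_rot (x : Lam × Lam) : JEq (jq (rotQ x)) (rotJ (jq x)) := by
  refine ⟨uJ, nrm_uJ43, ?_⟩
  simp only [jq, rotQ, rotJ, map_neg, map_mul, Prod.mk.injEq, true_and]
  linear_combination (pi x.1) * uJ_inv43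
theorem jq_q (x : Lam × Lam) : (jq x).1.c0 = (cl x).1 := pi_c0 _
theorem jq_p (x : Lam × Lam) : (jq x).2.c0 = (cl x).2 := by
  simp only [jq, cl, J.mul_c0, pi_c0, uJ, one_mul]
theorem ncl_jq (x : Lam × Lam) : ncl (jq x) = uJ * pi (nq x) := by
  simp only [ncl, jq, nq, map_sub, map_mul, pi_sq]
  linear_combination (eta * pi x.1) * uJ_inv43
theorem CC_nq (x y : Lam × Lam) : CC (pi (nq (addQ x y))) = C2 (jq x) (jq y) := by
  rw [C2, ← jq_add, ncl_jq, CC_mul nrm_uJ43]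
theorem ev1_nq (x y : Lam × Lam) :
    ev1 (nq (addQ x y)) = (cl x).2 * (cl y).1 + (cl x).1 * (cl y).2 := by
  simp only [nq, addQ, cl, map_sub, map_add, map_mul, ev1_sq]
  ring
theorem QEq.jeq {x y : Lam × Lam} (h : QEq x y) : JEq (jq x) (jq y) := by
  obtain ⟨w, hw, rfl⟩ := h
  refine ⟨pi w, hw.nrm_pi, ?_⟩
  simp only [jq, Prod.smul_fst, Prod.smul_snd, smul_eq_mul, map_mul, Prod.mk.injEq, true_and]
  ring
theorem jeq_jq_mul43 (x y : Lam × Lam) : JEq (jq (mulQ x y)) (mulJ (jq x) (jq y)) := by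
  refine ⟨uJ, nrm_uJ43, ?_⟩
  simp only [jq, mulQ, mulJ, map_add, map_sub, map_mul, pi_sq, Prod.mk.injEq]
  constructor
  · linear_combination (eta * (pi x.1 * pi y.1)) * uJ_inv43
  · ring
theorem jeq_jet (X : Alg) : JEq (jet X) (jq (qv X)) := by
  induction X with
  | zero => exact ⟨1, nrm_one, by simp [jet, qv, jq, zeroQ, zeroJ]⟩
  | inf => exact ⟨uJ, nrm_uJ43, by simp [jet, qv, jq, infQ, infJ]⟩
  | cr s =>
    refine ⟨1, nrm_one, ?_⟩
    cases s
    · simp only [jet, qv, jq, crQ, crJ, map_one, one_mul, Bool.false_eq_true, if_false, map_neg,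
        pi_Tm43, Prod.mk.injEq, true_and]
      ext <;> norm_num [uJ, sg]
    · simp only [jet, qv, jq, crQ, crJ, map_one, one_mul, if_true, Prod.mk.injEq, true_and]
      ext <;> norm_num [uJ, sg]
  | add X Y hX hY =>
    rw [jet, qv, jq_add]
    exact hX.add hY
  | mul X Y hX hY =>
    rw [jet, qv]
    exact (hX.mul hY).trans (jeq_jq_mul43 _ _).symm
theorem cl_qv (X : Alg) : cl (qv X) = cv X := by
  induction X with
  | zero => simp [cl, qv, cv, zeroQ]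
  | inf => simp [cl, qv, cv, infQ]
  | cr s => cases s <;> simp [cl, qv, cv, crQ, sg, ev1_T43]
  | add X Y hX hY =>
    rw [cv, ← hX, ← hY]
    simp only [cl, qv, addQ, map_add, map_mul, ev1_sq, zero_mul, add_zero]
  | mul X Y hX hY =>
    rw [cv, ← hX, ← hY]
    simp only [cl, qv, mulQ, map_add, map_sub, map_mul, ev1_sq, zero_mul, mul_zero, sub_zero]
theorem Rel2.rel {X Y : Alg} (h : Rel2 X Y) : Rel X Y :=
  ⟨h.1, ((jeq_jet X).trans h.2.jeq).trans (jeq_jet Y).symm⟩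
theorem IsRat2.isRat {X : Alg} (h : IsRat2 X) : IsRat X := by
  obtain ⟨R, hR, h⟩ := h
  exact ⟨R, hR, h.rel⟩
theorem nuQ_rat {X : Alg} (h : IsRat2 X) : nuQ (qv X) = -1 := by
  rw [nuQ, ← (jeq_jet X).mu_eq, mu_rat h.isRat, zero_sub]
/-- The splice identity for jets with equal constant terms up to sign. -/
theorem spliceJ (x x' u u' : J × J) (s t : ℚ) (hs : s ^ 2 = 1) (ht : t ^ 2 = 1)
    (h1 : x'.1.c0 = s * x.1.c0) (h2 : x'.2.c0 = s * x.2.c0) (h3 : u'.1.c0 = t * u.1.c0)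
    (h4 : u'.2.c0 = t * u.2.c0) :
    C2 x u + C2 x' u' - C2 x u' - C2 x' u = (mu x - mu x') * (mu u - mu u') / 2 := by
  have key : ∀ (y y' : J × J) (r : ℚ), r ^ 2 = 1 → y'.1.c0 = r * y.1.c0 → y'.2.c0 = r * y.2.c0 →
      ∃ z : J × J, (z = y' ∨ z = -y') ∧ z.1.c0 = y.1.c0 ∧ z.2.c0 = y.2.c0 := by
    intro y y' r hr a b
    rcases sq_eq_one_iff.1 hr with rfl | rfl
    · exact ⟨_, Or.inl rfl, by simpa using a, by simpa using b⟩
    · exact ⟨_, Or.inr rfl, by simp [a], by simp [b]⟩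
  obtain ⟨z, hz, a1, a2⟩ := key x x' s hs h1 h2
  obtain ⟨w, hw, a3, a4⟩ := key u u' t ht h3 h4
  have := splice0 a1 a2 a3 a4
  rcases hz with rfl | rfl <;> rcases hw with rfl | rfl <;>
    simpa only [C2_neg_left, C2_neg_right, mu_neg] using this

end Pool.Agent.Lib.MP_140c34_gt.Arb
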