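import Pool.Agent.Lib.MP_140c34_gt.Arb.QDef

/-! Ring identities for the vectors in the variable `t`. -/

namespace Pool.Agent.Lib.MP_140c34_gt.Arb

open LaurentPolynomial

set_option linter.unusedSimpArgs false

theorem T_inv35 : (T (-1) : Lam) * T 1 = 1 := by rw [← T_add]; simp

theorem un_T (k : ℤ) : Un (T k) := ⟨k, Or.inl rfl⟩
theorem un_negT (k : ℤ) : Un (-T k) := ⟨k, Or.inr rfl⟩
theorem Un.one : Un 1 := ⟨0, Or.inl T_zero.symm⟩
theorem un_neg_one : Un (-1) := ⟨0, Or.inr (by rw [T_zero])⟩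

theorem Un.mul {a b : Lam} (ha : Un a) (hb : Un b) : Un (a * b) := by
  obtain ⟨k, rfl | rfl⟩ := ha <;> obtain ⟨l, rfl | rfl⟩ := hb <;> refine ⟨k + l, ?_⟩ <;>
    rw [T_add]
  exacts [Or.inl rfl, Or.inr (by ring), Or.inr (by ring), Or.inl (by ring)]

theorem Un.inv {a : Lam} (ha : Un a) : ∃ b, Un b ∧ b * a = 1 := by
  obtain ⟨k, rfl | rfl⟩ := ha
  · exact ⟨T (-k), un_T _, by rw [← T_add]; simp⟩
  · exact ⟨-T (-k), un_negT _, by rw [neg_mul_neg, ← T_add]; simp⟩

theorem Un.ne_zero {a : Lam} (ha : Un a) : a ≠ 0 := by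
  obtain ⟨b, _, hb⟩ := ha.inv
  rintro rfl
  simp at hb

theorem QEq.refl (x : Lam × Lam) : QEq x x := ⟨1, Un.one, (one_smul _ _).symm⟩

theorem QEq.symm {x y : Lam × Lam} (h : QEq x y) : QEq y x := by
  obtain ⟨w, hw, rfl⟩ := h
  obtain ⟨b, hb, hbw⟩ := hw.inv
  exact ⟨b, hb, by rw [smul_smul, hbw, one_smul]⟩

theorem QEq.trans {x y z : Lam × Lam} (h : QEq x y) (h' : QEq y z) : QEq x z := by
  obtain ⟨w, hw, rfl⟩ := h
  obtain ⟨u, hu, rfl⟩ := h'
  exact ⟨u * w, hu.mul hw, smul_smul _ _ _⟩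

theorem addQ_smul_left (c : Lam) (x y : Lam × Lam) : addQ (c • x) y = c • addQ x y := by
  ext1 <;> simp [addQ] <;> ring
theorem addQ_smul_right (c : Lam) (x y : Lam × Lam) : addQ x (c • y) = c • addQ x y := by
  ext1 <;> simp [addQ] <;> ring
theorem mulQ_smul_left (c : Lam) (x y : Lam × Lam) : mulQ (c • x) y = c • mulQ x y := by
  ext1 <;> simp [mulQ] <;> ring
theorem mulQ_smul_right (c : Lam) (x y : Lam × Lam) : mulQ x (c • y) = c • mulQ x y := by
  ext1 <;> simp [mulQ] <;> ring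
theorem rotQ_smul (c : Lam) (x : Lam × Lam) : rotQ (c • x) = c • rotQ x := by
  ext1 <;> simp [rotQ]
  ring
theorem nq_smul (c : Lam) (x : Lam × Lam) : nq (c • x) = c * nq x := by
  simp [nq]; ring

theorem QEq.add {x x' y y' : Lam × Lam} (h : QEq x x') (h' : QEq y y') :
    QEq (addQ x y) (addQ x' y') := by
  obtain ⟨w, hw, rfl⟩ := h
  obtain ⟨u, hu, rfl⟩ := h'
  exact ⟨w * u, hw.mul hu, by rw [addQ_smul_left, addQ_smul_right, smul_smul]⟩

theorem QEq.mul {x x' y y' : Lam × Lam} (h : QEq x x') (h' : QEq y y') :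
    QEq (mulQ x y) (mulQ x' y') := by
  obtain ⟨w, hw, rfl⟩ := h
  obtain ⟨u, hu, rfl⟩ := h'
  exact ⟨w * u, hw.mul hu, by rw [mulQ_smul_left, mulQ_smul_right, smul_smul]⟩

theorem QEq.rot {x y : Lam × Lam} (h : QEq x y) : QEq (rotQ x) (rotQ y) := by
  obtain ⟨w, hw, rfl⟩ := h
  exact ⟨w, hw, rotQ_smul _ _⟩

theorem addQ_comm (x y : Lam × Lam) : addQ x y = addQ y x := by
  ext1 <;> simp only [addQ] <;> ring
theorem addQ_assoc (x y z : Lam × Lam) : addQ (addQ x y) z = addQ x (addQ y z) := by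
  ext1 <;> simp only [addQ] <;> ring
theorem addQ_zero (x : Lam × Lam) : addQ x zeroQ = x := by
  ext1 <;> simp [addQ, zeroQ]
theorem mulQ_comm (x y : Lam × Lam) : mulQ x y = mulQ y x := by
  ext1 <;> simp only [mulQ] <;> ring
theorem mulQ_assoc (x y z : Lam × Lam) : mulQ (mulQ x y) z = mulQ x (mulQ y z) := by
  ext1 <;> simp only [mulQ] <;> ring
theorem mulQ_inf (x : Lam × Lam) : mulQ x infQ = x := by
  ext1 <;> simp [mulQ, infQ]
theorem addQ_inf (x : Lam × Lam) : addQ x infQ = nq (addQ x infQ) • infQ := by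
  ext1 <;> simp [addQ, infQ, nq]

theorem qeq_inf_add_cr (e : Bool) : QEq (addQ infQ (crQ e)) infQ := by
  have h := T_inv35
  cases e
  · refine ⟨T 1, un_T _, ?_⟩
    ext1 <;> simp only [addQ, mulQ, rotQ, nq, infQ, zeroQ, crQ, sq, Alg.del, qv, Bool.not_true, Bool.not_false,
      if_true, Bool.false_eq_true, if_false, Prod.smul_fst, Prod.smul_snd, smul_eq_mul] <;> grind
  · refine ⟨T (-1), un_T _, ?_⟩
    ext1 <;> simp only [addQ, mulQ, rotQ, nq, infQ, zeroQ, crQ, sq, Alg.del, qv, Bool.not_true, Bool.not_false,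
      if_true, Bool.false_eq_true, if_false, Prod.smul_fst, Prod.smul_snd, smul_eq_mul] <;> grind

theorem qeq_cr_mul_zero (e : Bool) : QEq (mulQ (crQ e) zeroQ) zeroQ := by
  have h := T_inv35
  cases e
  · refine ⟨-1, un_neg_one, ?_⟩
    ext1 <;> simp only [addQ, mulQ, rotQ, nq, infQ, zeroQ, crQ, sq, Alg.del, qv, Bool.not_true, Bool.not_false,
      if_true, Bool.false_eq_true, if_false, Prod.smul_fst, Prod.smul_snd, smul_eq_mul] <;> grind
  · refine ⟨T 1, un_T _, ?_⟩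
    ext1 <;> simp only [addQ, mulQ, rotQ, nq, infQ, zeroQ, crQ, sq, Alg.del, qv, Bool.not_true, Bool.not_false,
      if_true, Bool.false_eq_true, if_false, Prod.smul_fst, Prod.smul_snd, smul_eq_mul] <;> grind

theorem qeq_cr_add_cr (e : Bool) : QEq (addQ (crQ e) (crQ (!e))) zeroQ := by
  have h := T_inv35
  cases e
  · refine ⟨1, Un.one, ?_⟩
    ext1 <;> simp only [addQ, mulQ, rotQ, nq, infQ, zeroQ, crQ, sq, Alg.del, qv, Bool.not_true, Bool.not_false,
      if_true, Bool.false_eq_true, if_false, Prod.smul_fst, Prod.smul_snd, smul_eq_mul] <;> grind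
  · refine ⟨1, Un.one, ?_⟩
    ext1 <;> simp only [addQ, mulQ, rotQ, nq, infQ, zeroQ, crQ, sq, Alg.del, qv, Bool.not_true, Bool.not_false,
      if_true, Bool.false_eq_true, if_false, Prod.smul_fst, Prod.smul_snd, smul_eq_mul] <;> grind

theorem qeq_cr_mul_cr (e : Bool) : QEq (mulQ (crQ e) (crQ (!e))) infQ := by
  have h := T_inv35
  cases e
  · refine ⟨-T 1, un_negT _, ?_⟩
    ext1 <;> simp only [addQ, mulQ, rotQ, nq, infQ, zeroQ, crQ, sq, Alg.del, qv, Bool.not_true, Bool.not_false,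
      if_true, Bool.false_eq_true, if_false, Prod.smul_fst, Prod.smul_snd, smul_eq_mul] <;> grind
  · refine ⟨-T 1, un_negT _, ?_⟩
    ext1 <;> simp only [addQ, mulQ, rotQ, nq, infQ, zeroQ, crQ, sq, Alg.del, qv, Bool.not_true, Bool.not_false,
      if_true, Bool.false_eq_true, if_false, Prod.smul_fst, Prod.smul_snd, smul_eq_mul] <;> grind

theorem qv_v (X : Alg) : qv X.v = qv X := by
  induction X with
  | zero => rfl
  | inf => rfl
  | cr s => rfl
  | add X Y ihX ihY => simp only [Alg.v, qv, ihX, ihY, addQ_comm (qv Y)]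
  | mul X Y ihX ihY => simp only [Alg.v, qv, ihX, ihY]

theorem qv_h (X : Alg) : qv X.h = qv X := by
  induction X with
  | zero => rfl
  | inf => rfl
  | cr s => rfl
  | add X Y ihX ihY => simp only [Alg.h, qv, ihX, ihY]
  | mul X Y ihX ihY => simp only [Alg.h, qv, ihX, ihY, mulQ_comm (qv Y)]

theorem mulQ_rot (x y : Lam × Lam) : QEq (mulQ (rotQ y) (rotQ x)) (rotQ (addQ x y)) := by
  have h := T_inv35
  refine ⟨-T 1, un_negT _, ?_⟩
  ext1 <;> simp only [mulQ, rotQ, addQ, Prod.smul_fst, Prod.smul_snd, smul_eq_mul]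
  · linear_combination (-(x.2 * y.1 + x.1 * y.2 + sq * (x.2 * y.2))) * h
  · linear_combination (T (-1) * x.1 * y.1) * h

theorem addQ_rot (x y : Lam × Lam) : addQ (rotQ y) (rotQ x) = rotQ (mulQ x y) := by
  ext1 <;> simp only [mulQ, rotQ, addQ] <;> ring

theorem qeq_d (X : Alg) : QEq (qv X.d) (rotQ (qv X)) := by
  have h := T_inv35
  induction X with
  | zero =>
    refine ⟨-T (-1), un_negT _, ?_⟩
    ext1 <;> simp [Alg.d, qv, rotQ, infQ, zeroQ]
  | inf =>
    refine ⟨1, Un.one, ?_⟩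
    ext1 <;> simp [Alg.d, qv, rotQ, infQ, zeroQ]
  | cr s =>
    cases s
    · refine ⟨-T (-1), un_negT _, ?_⟩
      ext1 <;> simp [Alg.d, qv, rotQ, crQ]
    · refine ⟨1, Un.one, ?_⟩
      ext1 <;> simp [Alg.d, qv, rotQ, crQ]
  | add X Y ihX ihY => exact (ihY.mul ihX).trans (mulQ_rot _ _)
  | mul X Y ihX ihY => exact addQ_rot (qv X) (qv Y) ▸ ihY.add ihX

theorem qeq_del (e : Bool) (X : Alg) : QEq (qv (X.del e)) (rotQ (qv X)) := by
  have h := T_inv35
  cases e
  · refine ⟨-1, un_neg_one, ?_⟩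
    ext1 <;> simp only [addQ, mulQ, rotQ, nq, infQ, zeroQ, crQ, sq, Alg.del, qv, Bool.not_true, Bool.not_false,
      if_true, Bool.false_eq_true, if_false, Prod.smul_fst, Prod.smul_snd, smul_eq_mul] <;> grind
  · refine ⟨T 1, un_T _, ?_⟩
    ext1 <;> simp only [addQ, mulQ, rotQ, nq, infQ, zeroQ, crQ, sq, Alg.del, qv, Bool.not_true, Bool.not_false,
      if_true, Bool.false_eq_true, if_false, Prod.smul_fst, Prod.smul_snd, smul_eq_mul] <;> grind

theorem nq_t (e : Bool) (z r : Lam × Lam) :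
    nq (addQ (mulQ (crQ e) z) r) = nq (addQ z (mulQ (crQ e) r)) := by
  simp only [nq, addQ, mulQ]
  have h := T_inv35
  cases e <;> simp only [crQ, sq, if_true, Bool.false_eq_true, if_false] <;> grind

theorem PQ_congr {X X' r r' : Alg} (h : QEq (qv (.add X r)) (qv (.add X' r'))) :
    ∃ w, Un w ∧ PQ X r = w * PQ X' r' := by
  obtain ⟨w, hw, h⟩ := h.symm
  exact ⟨w, hw, by rw [PQ, PQ, ← nq_smul]; exact congrArg nq h⟩

end Pool.Agent.Lib.MP_140c34_gt.Arb
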