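import Pool.Agent.Lib.MP_140c34_gt.Arb.QS

/-! From the bracket to the variable t. -/

namespace Pool.Agent.Lib.MP_140c34_gt.Arb

open LaurentPolynomial

/-- Evaluation at a complex number. -/
noncomputable def ev89 (z : ℂˣ) : Lam →+* ℂ := LaurentPolynomial.eval₂ (Int.castRingHom ℂ) z

theorem ev89_T (z : ℂˣ) (n : ℤ) : ev89 z (T n) = (z : ℂ) ^ n := by
  rw [ev89, eval₂_T, Units.val_zpow_eq_zpow_val]

theorem ev89_inj {f : Lam} (h : ∀ z, ev89 z f = 0) : f = 0 := by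
  obtain ⟨n, p, hp⟩ := exists_T_pow f
  have h1 : p.map (Int.castRingHom ℂ) = 0 := by
    refine Polynomial.eq_zero_of_infinite_isRoot _ ((Set.infinite_of_finite_compl
      (s := {x : ℂ | x ≠ 0}) (by simp [Set.compl_setOf])).mono fun x hx => ?_)
    have e := congrArg (ev89 (Units.mk0 x hx)) hp
    rw [map_mul, h, zero_mul, ev89, eval₂_toLaurent] at e
    simpa [Polynomial.IsRoot, Polynomial.eval_map] using e
  have h2 : p = 0 := (Polynomial.map_eq_zero_iff Int.cast_injective).1 h1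
  rw [h2, map_zero] at hp
  exact (isUnit_T (n : ℤ)).mul_left_eq_zero.1 hp.symm

theorem ev89_sq (t : ℂˣ) : ev89 t sq = t - 1 := by
  rw [sq, map_sub, ev89_T, map_one, zpow_one]

theorem ev89_loop (z : ℂˣ) : ev89 z loopVal = -(z : ℂ) ^ 2 - ((z : ℂ) ^ 2)⁻¹ := by
  rw [loopVal, map_sub, map_neg, ev89_T, ev89_T, zpow_neg, zpow_ofNat]

theorem vec89 (X : Alg) : ∃ j : ℤ, ∀ z t : ℂˣ, (t : ℂ) = -(z : ℂ) ^ 4 →
    ev89 z (vec X).1 = (z : ℂ) ^ j * ev89 t (qv X).1 ∧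
      ev89 z (vec X).2 = (z : ℂ) ^ j * (z ^ 2 * ev89 t (qv X).2) := by
  induction X with
  | zero => exact ⟨0, fun z t _ => by simp [vec, qv, zeroQ]⟩
  | inf =>
    refine ⟨-2, fun z t _ => ?_⟩
    simp [vec, qv, infQ, zpow_ofNat]
  | cr s =>
    cases s with
    | true =>
      refine ⟨-1, fun z t _ => ?_⟩
      have z0 := z.ne_zero
      simp only [vec, qv, crQ, if_true, ev89_T, map_one, mul_one, zpow_neg, zpow_one, true_and]
      field_simp
    | false =>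
      refine ⟨1, fun z t ht => ?_⟩
      have z0 := z.ne_zero
      simp only [vec, qv, crQ, Bool.false_eq_true, if_false, ev89_T, map_one, mul_one, zpow_neg,
        zpow_one, true_and, map_neg, ht]
      field_simp
  | add X Y ihX ihY =>
    obtain ⟨a, ha⟩ := ihX
    obtain ⟨b, hb⟩ := ihY
    refine ⟨a + b, fun z t ht => ?_⟩
    obtain ⟨a1, a2⟩ := ha z t ht
    obtain ⟨b1, b2⟩ := hb z t ht
    have z0 := z.ne_zero
    simp only [vec, qv, addQ, map_mul, map_add, a1, a2, b1, b2, ev89_loop, ev89_sq, zpow_add₀ z0,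
      ht]
    constructor
    · ring
    · field_simp
      ring
  | mul X Y ihX ihY =>
    obtain ⟨a, ha⟩ := ihX
    obtain ⟨b, hb⟩ := ihY
    refine ⟨a + b + 2, fun z t ht => ?_⟩
    obtain ⟨a1, a2⟩ := ha z t ht
    obtain ⟨b1, b2⟩ := hb z t ht
    have z0 := z.ne_zero
    simp only [vec, qv, mulQ, map_mul, map_add, map_sub, a1, a2, b1, b2, ev89_loop, ev89_sq,
      zpow_add₀ z0, ev89_T, zpow_neg, zpow_one, zpow_ofNat, ht]
    constructor
    · field_simp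
      ring
    · ring

theorem four89 {l : ℤ} (h : Complex.I ^ l = 1) : ∃ q, l = 4 * q :=
  (Complex.isPrimitiveRoot_I.zpow_eq_one_iff_dvd l).1 h

/-- Evaluate at complex numbers: the closure is a unit times `(t - 1) ^ m` for `t = -A ^ 4`; the
values at `A = 1` and `A = i` show that the unit is a function of `t`. -/
theorem nq_of_vec (X : Alg) (m : ℕ) (k : ℤ)
    (h : loopVal * (vec X).1 + (vec X).2 = loopVal ^ m * T k ∨
      loopVal * (vec X).1 + (vec X).2 = -(loopVal ^ m * T k)) :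
    ∃ P', nq (qv X) = sq ^ m * P' ∧ ev1 P' ^ 2 = 1 ∧ CC (pi P') = 0 := by
  obtain ⟨j, hj⟩ := vec89 X
  obtain ⟨s, hs, h⟩ : ∃ s : ℂ, (s = 1 ∨ s = -1) ∧ ∀ z, ev89 z (loopVal * (vec X).1 + (vec X).2) =
      s * (ev89 z loopVal ^ m * (z : ℂ) ^ k) := by
    rcases h with h | h
    · exact ⟨1, Or.inl rfl, fun z => by rw [h, map_mul, map_pow, ev89_T, one_mul]⟩
    · exact ⟨-1, Or.inr rfl, fun z => by rw [h, map_neg, map_mul, map_pow, ev89_T, neg_one_mul]⟩
  have key : ∀ z t : ℂˣ, (t : ℂ) = -(z : ℂ) ^ 4 →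
      ev89 t (nq (qv X)) = s * ((t - 1) ^ m * (z : ℂ) ^ (k - j - 2 - 2 * m)) := by
    intro z t ht
    obtain ⟨a1, a2⟩ := hj z t ht
    have z0 := z.ne_zero
    have e := h z
    have e1 : ev89 z loopVal = (t - 1) / (z : ℂ) ^ 2 := by
      rw [ev89_loop, ht]; field_simp
    rw [map_add, map_mul, a1, a2, e1, div_pow] at e
    have e2 : (z : ℂ) ^ (2 * (m : ℤ)) = (z ^ 2) ^ m := by
      rw [zpow_mul, zpow_natCast, zpow_ofNat]
    have zj : (z : ℂ) ^ j ≠ 0 := zpow_ne_zero _ z0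
    rw [zpow_sub₀ z0, zpow_sub₀ z0, zpow_sub₀ z0, e2, zpow_ofNat]
    simp only [nq, map_sub, map_mul, ev89_sq, ev89_T, zpow_neg, zpow_one]
    have e3 : s * ((t - 1 : ℂ) ^ m * ((z : ℂ) ^ k / z ^ j / z ^ 2 / (z ^ 2) ^ m)) =
        s * ((t - 1 : ℂ) ^ m / (z ^ 2) ^ m * z ^ k) / (z ^ j * z ^ 2) := by
      field_simp
    rw [e3, ← e, ht]
    field_simp
    ring
  have s0 : s ≠ 0 := by rcases hs with rfl | rfl <;> simp
  obtain ⟨q, hq⟩ : ∃ q, k - j - 2 - 2 * m = 4 * q := by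
    have e1 := key 1 (-1) (by simp)
    have e2 := key (Units.mk0 Complex.I Complex.I_ne_zero) (-1) (by simp [Complex.I_pow_four])
    rw [e1, Units.val_one, one_zpow, Units.val_mk0] at e2
    refine four89 (mul_left_cancel₀ (pow_ne_zero m ?_) (mul_left_cancel₀ s0 e2)).symm
    norm_num
  obtain ⟨P', hP, hE⟩ : ∃ P', Un P' ∧ ∀ t : ℂˣ, ev89 t P' = s * (-(t : ℂ)) ^ q := by
    rcases Int.even_or_odd q with e | e <;> rcases hs with rfl | rfl
    · exact ⟨T q, ⟨q, Or.inl rfl⟩, fun t => by rw [ev89_T, e.neg_zpow, one_mul]⟩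
    · exact ⟨-T q, ⟨q, Or.inr rfl⟩, fun t => by rw [map_neg, ev89_T, e.neg_zpow, neg_one_mul]⟩
    · exact ⟨-T q, ⟨q, Or.inr rfl⟩, fun t => by rw [map_neg, ev89_T, e.neg_zpow, one_mul]⟩
    · exact ⟨T q, ⟨q, Or.inl rfl⟩, fun t => by rw [ev89_T, e.neg_zpow, neg_one_mul, neg_neg]⟩
  refine ⟨P', sub_eq_zero.1 (ev89_inj fun t => ?_), hP.ev1_sq, ?_⟩
  · obtain ⟨z, hz⟩ := IsAlgClosed.exists_pow_nat_eq (-(t : ℂ)) (n := 4) (by norm_num)
    have z0 : z ≠ 0 := fun e => by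
      rw [e] at hz
      exact t.ne_zero (by simpa using hz.symm)
    rw [map_sub, key (Units.mk0 z z0) t (by rw [Units.val_mk0, hz, neg_neg]), hq, map_mul, map_pow,
      ev89_sq, hE, Units.val_mk0, zpow_mul, zpow_ofNat, hz]
    ring
  · have := ((nrm_iff _).1 hP.nrm_pi).2
    rw [CC, this, sub_self]

end Pool.Agent.Lib.MP_140c34_gt.Arb
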