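import Pool.Agent.Lib.MP_140c34_gt.Arb.Jet

/-! The bracket vector in the variable `t`, with exact division by `t - 1`. -/

namespace Pool.Agent.Lib.MP_140c34_gt.Arb

open LaurentPolynomial

abbrev Lam := ℤ[T;T⁻¹]

noncomputable section

def sq : Lam := T 1 - 1
def zeroQ : Lam × Lam := (1, 0)
def infQ : Lam × Lam := (0, 1)
def crQ (s : Bool) : Lam × Lam := (1, if s then 1 else -T (-1))
def addQ (x y : Lam × Lam) : Lam × Lam := (x.1 * y.1, x.2 * y.1 + x.1 * y.2 + sq * (x.2 * y.2))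
def mulQ (x y : Lam × Lam) : Lam × Lam :=
  (x.1 * y.2 + x.2 * y.1 - T (-1) * sq * (x.1 * y.1), x.2 * y.2)
def rotQ (x : Lam × Lam) : Lam × Lam := (x.2, -(T (-1) * x.1))
/-- Value of the numerator closure. -/
def nq (x : Lam × Lam) : Lam := x.2 - T (-1) * sq * x.1

def qv : Alg → Lam × Lam
  | .zero => zeroQ
  | .inf => infQ
  | .cr s => crQ s
  | .add X Y => addQ (qv X) (qv Y)
  | .mul X Y => mulQ (qv X) (qv Y)

/-- Signed monomials. -/
def Un (w : Lam) : Prop := ∃ k : ℤ, w = T k ∨ w = -T k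
def QEq (x y : Lam × Lam) : Prop := ∃ w, Un w ∧ y = w • x

/-- The jet of `t`. -/
def tJ : Jˣ := ⟨⟨1, 1, 1 / 2⟩, ⟨1, -1, 1 / 2⟩, by ext <;> norm_num, by ext <;> norm_num⟩
/-- Its square root. -/
def uJ : J := ⟨1, 1 / 2, 1 / 8⟩
def pi : Lam →+* J := LaurentPolynomial.eval₂ (Int.castRingHom J) tJ
def ev1 : Lam →+* ℤ := LaurentPolynomial.eval₂ (RingHom.id ℤ) 1
def jq (x : Lam × Lam) : J × J := (pi x.1, uJ * pi x.2)
def cl (x : Lam × Lam) : ℤ × ℤ := (ev1 x.1, ev1 x.2)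
def nuQ (x : Lam × Lam) : ℚ := mu (jq x) - 1
/-- Value of the closure of `X + r`. -/
def PQ (X r : Alg) : Lam := nq (addQ (qv X) (qv r))

/-- A free loop added to a tangle. -/
def lo (X : Alg) : Alg := .mul (.add .inf .inf) X

/-- The lower closure of `X + r` is the trivial minimum with `m` free loops. -/
def TrivL (m : ℕ) (X r : Alg) : Prop :=
  Eqv 0 (Gen.cup 0 :: (Alg.add X r).word) (Gen.cup 0 :: (lo^[m] .inf).word)

def Rel2 (X Y : Alg) : Prop := TE X Y ∧ QEq (qv X) (qv Y)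
def IsRat2 (X : Alg) : Prop := ∃ R, Rat R ∧ Rel2 X R

/-- If the leading coefficient at `t = 1` is a unit, the second order invariant is not negative,
and when it vanishes `A` holds for the order of vanishing. -/
def Fine (P : Lam) (A : ℕ → Prop) : Prop :=
  ∀ m P', P = sq ^ m * P' → ev1 P' ^ 2 = 1 → 0 ≤ CC (pi P') ∧ (CC (pi P') = 0 → A m)

def InV (x : Lam × Lam) : Prop :=
  2 ≤ nuQ x ∧ nuQ x ≠ ((Int.gcd (cl x).1 (cl x).2 : ℕ) : ℚ) ^ 2
def InT (X : Alg) : Prop := ∃ (j : ℕ) (x : Lam × Lam), qv X = sq ^ j • x ∧ InV x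
def OutT (X : Alg) : Prop :=
  ∃ R c, IsRat2 R ∧ c ≠ 0 ∧ qv X = c • qv R ∧ Fine c fun m => TE X (lo^[m] R)
def Clo (X : Alg) : Prop := ∀ r, IsRat2 r → Fine (PQ X r) fun m => TrivL m X r
def GoodL (X : Alg) : Prop := (OutT X ∨ InT X) ∧ Clo X

end

end Pool.Agent.Lib.MP_140c34_gt.Arb
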