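import Pool.Agent.Lib.MP_140c34_gt.Arb.QMon

/-! The induction for links. x, y, z are the denominators (cv _).1 of the rational tangles. -/

namespace Pool.Agent.Lib.MP_140c34_gt.Arb

open Alg

theorem fine_rel96 {X r X' r' : Alg} (k : Rel2 (add X r) (add X' r'))
    (h : Fine (PQ X' r') fun m => TrivL m X' r') : Fine (PQ X r) fun m => TrivL m X r := by
  obtain ⟨w, hw, e⟩ := PQ_congr k.2
  rw [e]
  exact (h.un hw).mono fun m t => t.of_te k.1.symm

/-- `X` is `Y` up to a factor that records free loops. -/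
def Sc96 (X Y : Alg) (c : Lam) : Prop := qv X = c • qv Y ∧ Fine c fun m => TE X (lo^[m] Y)

theorem Sc96.left {X R : Alg} {c : Lam} (h : Sc96 X R c) (Y : Alg) :
    Sc96 (add X Y) (add R Y) c :=
  ⟨by simp only [qv, h.1, addQ_smul_left],
    h.2.mono fun m t => (t.add (TE.refl Y)).trans (te_lo_add_left m R Y)⟩

theorem Sc96.right {Y R : Alg} {c : Lam} (h : Sc96 Y R c) (X : Alg) :
    Sc96 (add X Y) (add X R) c :=
  ⟨by simp only [qv, h.1, addQ_smul_right],
    h.2.mono fun m t => ((TE.refl X).add t).trans (te_lo_add_right m X R)⟩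

theorem Sc96.trans {X Y Z : Alg} {c d : Lam} (h : Sc96 X Y c) (k : Sc96 Y Z d) :
    Sc96 X Z (c * d) :=
  ⟨by rw [h.1, k.1, mul_smul], h.2.mul k.2 fun a b s t => by
    rw [Function.iterate_add_apply]
    exact s.trans (t.lo a)⟩

theorem Sc96.fine {X Y r : Alg} {c : Lam} (h : Sc96 X Y c)
    (k : Fine (PQ Y r) fun m => TrivL m Y r) : Fine (PQ X r) fun m => TrivL m X r := by
  have e : PQ X r = c * PQ Y r := by simp only [PQ, h.1, addQ_smul_left, nq_smul]
  rw [e]
  exact h.2.mul k fun a b s t => t.lo ((s.add (TE.refl r)).trans (te_lo_add_left a Y r))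

theorem sc_rel96 {X Y : Alg} (h : Rel2 X Y) : ∃ w, w ≠ 0 ∧ Sc96 X Y w := by
  obtain ⟨w, hw, e⟩ := h.2.symm
  exact ⟨w, hw.ne_zero, e, fine_un hw h.1⟩

theorem sc_inf96 {Y : Alg} (h : Clo Y) : Sc96 (add Y inf) inf (PQ Y inf) :=
  ⟨addQ_inf _, (h inf isRat2_inf).mono fun _ t => te_of_trivL_inf t⟩

theorem sc_inf_v96 {Y : Alg} (h : Clo Y.v) : Sc96 (add inf Y) inf (PQ Y inf) := by
  have k := (h inf isRat2_inf).mono fun _ t => te_of_trivL_inf' t
  simp only [PQ, qv_v] at k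
  exact ⟨(addQ_comm _ _).trans (addQ_inf _), k⟩

theorem inT_of96 {W : Alg} {c : Lam} {u : Lam × Lam} (e : qv W = c • u) (hc : c ≠ 0) (h : InV u) :
    InT W := by
  obtain ⟨j, d, rfl, hd⟩ := sq_factor hc
  exact ⟨j, d • u, by rw [e, mul_smul], h.smul hd⟩

theorem small96 {a : ℤ} (h : |a| ≤ 1) : a ^ 2 = 1 ∨ a = 0 := by
  rcases abs_le.1 h with ⟨h1, h2⟩
  interval_cases a <;> simp

theorem fine_pos96 {Q : Lam} {A : ℕ → Prop} (j : ℕ)
    (h : ∀ m P, Q = sq ^ m * P → ev1 P ^ 2 = 1 → 0 < CC (pi P)) : Fine (sq ^ j * Q) A := by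
  refine fine_of_pos fun m P e hP => ?_
  have p0 : ev1 P ≠ 0 := fun z => by simp [z] at hP
  have q0 : Q ≠ 0 := by
    rintro rfl
    rcases mul_eq_zero.1 (e.symm.trans (mul_zero _)) with z | z
    · exact pow_ne_zero _ sq_ne_zero z
    · simp [z] at p0
  obtain ⟨n, Q', rfl, hQ⟩ := sq_factor q0
  rw [← mul_assoc, ← pow_add] at e
  exact h n P (by rw [(sq_unique e hQ p0).2]) hP

theorem fine_int96 {R Y r : Alg} (hR : IsRat2 R) (hY : Clo Y) (hY' : Clo Y.h) (hr : IsRat2 r)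
    (h : (cv R).1 ^ 2 = 1) : Fine (PQ (add R Y) r) fun m => TrivL m (add R Y) r := by
  have k := hR.add_int hr (.inl h)
  rcases flype_int2 hR h Y with f | f
  · exact fine_rel96 ((f.add (Rel2.refl r)).trans (rel2_add_assoc _ _ _)) (hY _ k)
  · exact fine_rel96 ((f.add (Rel2.refl r)).trans (rel2_add_assoc _ _ _)) (hY' _ k)

theorem fine_zero96 {R Y r : Alg} (hR : IsRat2 R) (hY : Clo Y.v) (hr : IsRat2 r)
    (h : (cv R).1 = 0) : Fine (PQ (add R Y) r) fun m => TrivL m (add R Y) r :=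
  fine_rel96 (((hR.rel_inf h).add (Rel2.refl Y)).add (Rel2.refl r))
    ((sc_inf_v96 hY).fine (clo_rat isRat2_inf r hr))

theorem nonneg96 {Y r : Alg} {j : ℕ} {P : Lam} (h : Clo Y) (hr : IsRat2 r) (e : PQ Y r = sq ^ j * P)
    (hP : ev1 P ^ 2 = 1) : 0 ≤ CC (pi P) := (h r hr j P e hP).1

theorem goodL_rat {X : Alg} (h : IsRat2 X) : GoodL X :=
  ⟨.inl ⟨X, 1, h, one_ne_zero, (one_smul _ _).symm, fine_un Un.one (TE.refl X)⟩, clo_rat h⟩
/-- X ~ X.d.del e (rel2_del, d_d). Out: R.d and te_lo_del. In: InV.rot. Clo: move three twists. -/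
theorem goodL_of_d {X : Alg} (h : GoodL X.d) : GoodL X := by
  have k := rel2_del true X.d
  have q := qeq_d X.d
  rw [d_d] at k q
  obtain ⟨w, hw, e⟩ := q.symm
  refine ⟨h.1.imp ?_ ?_, fun r hr => ?_⟩
  · rintro ⟨R, c, hR, c0, e1, f⟩
    obtain ⟨w', hw', e2⟩ := qeq_d R
    refine ⟨R.d, w * w' * c, hR.d, mul_ne_zero (hw.mul hw').ne_zero c0, ?_,
      (f.un (hw.mul hw')).mono fun m t => ?_⟩
    · rw [e, e1, rotQ_smul, e2, smul_smul, smul_smul, mul_right_comm]
    · exact k.1.symm.trans ((t.del true).trans ((te_lo_del _ m R).trans ((te_del _ R).lo m)))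
  · rintro ⟨j, x, e1, hx⟩
    exact ⟨j, w • rotQ x, by rw [e, e1, rotQ_smul, smul_comm], hx.rot.congr ⟨w, hw, rfl⟩⟩
  refine fine_rel96 (k.symm.add (Rel2.refl r)) ?_
  have g := h.2 _ (((hr.cr_mul true).cr_add (!true)).cr_mul true)
  have c : PQ (X.d.del true) r = PQ X.d (mul (cr true) (add (cr (!true)) (mul (cr true) r))) := by
    simp only [PQ, Alg.del, qv]
    rw [nq_t, addQ_assoc, nq_t]
  rw [c]
  exact g.mono fun m t =>
    (trivL_t _ _ _ _).2 (((trivL_t _ _ _ _).2 t).of_te (te_add_assoc _ _ _).symm)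
theorem GoodL.den_ne {Y : Alg} (h : GoodL Y) : PQ Y inf ≠ 0 := by
  rcases h.1 with ⟨R, c, hR, c0, e, -⟩ | ⟨j, x, e, hx⟩ <;>
    simp only [PQ, e, addQ_smul_left, nq_smul]
  · exact mul_ne_zero c0 (rat_den_ne hR)
  · exact mul_ne_zero (pow_ne_zero _ sq_ne_zero) hx.den_ne
/-- r ~ inf: PQ (X+Y) inf = PQ X inf * PQ Y inf, Fine.mul, te_of_trivL_inf for Y. -/
theorem fine_inf {X Y r : Alg} (hX : Clo X) (hY : Clo Y) (hr : IsRat2 r) (z : (cv r).1 = 0) :
    Fine (PQ (add X Y) r) fun m => TrivL m (add X Y) r := by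
  refine fine_rel96 ((Rel2.refl _).add (hr.rel_inf z)) ?_
  have e : PQ (add X Y) inf = PQ Y inf * PQ X inf := by
    simp only [PQ, qv]
    rw [addQ_assoc, addQ_inf (qv Y), addQ_smul_right, nq_smul, ← addQ_inf]
  rw [e]
  exact (hY inf isRat2_inf).mul (hX inf isRat2_inf) fun a b s t => t.lo ((te_add_assoc _ _ _).trans
    (((TE.refl X).add (te_of_trivL_inf s)).trans (te_lo_add_right a X inf)))
/-- x^2 = 1: flype_int2, Clo of Y or Y.h at add R r. z^2 = 1: TrivL.v, flype_int2, Clo of Y.v or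
Y.v.h at add r R. x = 0: PQ Y.v inf * PQ inf r, te_of_trivL_inf', clo_rat. z = 0: fine_inf. -/
theorem fine_left {R Y r : Alg} (hR : IsRat2 R) (hY : ∀ Z : Alg, Z.size ≤ Y.size → Clo Z)
    (hr : IsRat2 r) (h : |(cv R).1| ≤ 1 ∨ |(cv r).1| ≤ 1) :
    Fine (PQ (add R Y) r) fun m => TrivL m (add R Y) r := by
  rcases h with h | h <;> rcases small96 h with h | h
  · exact fine_int96 hR (hY Y le_rfl) (hY _ (size_h Y).le) hr h
  · exact fine_zero96 hR (hY _ (size_v Y).le) hr h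
  · have k := fine_int96 hr (hY _ (size_v Y).le) (hY _ (by rw [size_h, size_v])) hR h
    have e : PQ (add R Y) r = PQ (add r Y.v) R := by
      simp only [PQ, qv, qv_v]
      rw [addQ_comm (qv R), addQ_assoc, addQ_comm (qv R), ← addQ_assoc, addQ_comm (qv Y)]
    rw [e]
    refine k.mono fun m t => ?_
    have t2 := (t.of_te (te_add_assoc _ _ _)).v
    simp only [Alg.v, v_v] at t2
    exact t2.of_te ((hR.rel_v.1.add (TE.refl Y)).add hr.rel_v.1)
  · exact fine_inf (clo_rat hR) (hY Y le_rfl) hr h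
/-- y^2 = 1 or z^2 = 1: assoc. y = 0: PQ X inf * PQ inf r. z = 0: fine_inf. -/
theorem fine_right {X R r : Alg} (hX : Clo X) (hR : IsRat2 R) (hr : IsRat2 r)
    (h : |(cv R).1| ≤ 1 ∨ |(cv r).1| ≤ 1) :
    Fine (PQ (add X R) r) fun m => TrivL m (add X R) r := by
  rcases h with h | h <;> rcases small96 h with h | h
  · exact fine_rel96 (rel2_add_assoc _ _ _) (hX _ (hR.add_int hr (.inl h)))
  · exact fine_rel96 (((Rel2.refl X).add (hR.rel_inf h)).add (Rel2.refl r))
      ((sc_inf96 hX).fine (clo_rat isRat2_inf r hr))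
  · exact fine_rel96 (rel2_add_assoc _ _ _) (hX _ (hR.add_int hr (.inr h)))
  · exact fine_inf hX (clo_rat hR) hr h
/-- fine_right with clo_rat, x ≤ 1 directly (add_int, or x = 0 as in fine_left), else monte2. -/
theorem clo_rat_rat {R R' : Alg} (hR : IsRat2 R) (hR' : IsRat2 R') : Clo (add R R') := by
  intro r hr
  by_cases h : |(cv R').1| ≤ 1 ∨ |(cv r).1| ≤ 1
  · exact fine_right (clo_rat hR) hR' hr h
  by_cases x : |(cv R).1| ≤ 1
  · rcases small96 x with x | x
    · exact clo_rat (hR.add_int hR' (.inl x)) r hr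
    · exact fine_zero96 hR (clo_rat (hR'.congr hR'.rel_v.symm)) hr x
  exact fine_of_pos fun m P e hP => monte2 hR hR' hr (by omega) (by omega) (by omega) e hP
/-- fine_left, or x, z ≥ 2: add r R is essential (rat_add_rat), pos_in_in with Clo Y (order j) and
clo_rat_rat, fine_of_pos (sq_factor, sq_unique to pass from sq^j * P). -/
theorem clo_rat_in {R Y : Alg} (hR : IsRat2 R) (hY : InT Y)
    (ih : ∀ Z : Alg, Z.size ≤ Y.size → Clo Z) : Clo (add R Y) := by
  intro r hr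
  by_cases h : |(cv R).1| ≤ 1 ∨ |(cv r).1| ≤ 1
  · exact fine_left hR ih hr h
  obtain ⟨j, y, e, hy⟩ := hY
  have c : PQ (add R Y) r = sq ^ j * nq (addQ y (addQ (qv r) (qv R))) := by
    simp only [PQ, qv, e, addQ_smul_left, addQ_smul_right, nq_smul]
    rw [addQ_comm (qv R), addQ_assoc, addQ_comm (qv R)]
  rw [c]
  refine fine_pos96 j fun m P => pos_in_in hy (rat_add_rat hr hR (by omega) (by omega))
    (fun S hS => nonneg96 (j := j) (ih Y le_rfl) hS ?_)
    fun S hS => nonneg96 (j := 0) (clo_rat_rat hS hr) hR ?_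
  · simp only [PQ, e, addQ_smul_left, nq_smul]
  · simp only [PQ, qv, addQ_assoc, pow_zero, one_mul]
theorem clo_in_rat {X R : Alg} (hX : InT X) (hX' : Clo X) (hR : IsRat2 R) : Clo (add X R) := by
  intro r hr
  by_cases h : |(cv R).1| ≤ 1 ∨ |(cv r).1| ≤ 1
  · exact fine_right hX' hR hr h
  obtain ⟨j, x, e, hx⟩ := hX
  have c : PQ (add X R) r = sq ^ j * nq (addQ x (addQ (qv R) (qv r))) := by
    simp only [PQ, qv, e, addQ_smul_left, nq_smul, addQ_assoc]
  rw [c]
  refine fine_pos96 j fun m P => pos_in_in hx (rat_add_rat hR hr (by omega) (by omega))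
    (fun S hS => nonneg96 (j := j) hX' hS ?_)
    fun S hS => nonneg96 (j := 0) (clo_rat_rat hS hR) hr ?_
  · simp only [PQ, e, addQ_smul_left, nq_smul]
  · simp only [PQ, qv, addQ_assoc, pow_zero, one_mul]
/-- z = 0: fine_inf. z ≠ 0: Y + r is essential (in_add_rat), pos_in_in with Clo X and clo_rat_in. -/
theorem clo_in_in {X Y : Alg} (hX : InT X) (hX' : Clo X) (hY : InT Y)
    (ih : ∀ Z : Alg, Z.size ≤ Y.size → Clo Z) : Clo (add X Y) := by
  intro r hr
  by_cases z : (cv r).1 = 0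
  · exact fine_inf hX' (ih Y le_rfl) hr z
  have g := fun S hS => clo_rat_in (R := S) hS hY ih
  obtain ⟨j, x, e, hx⟩ := hX
  obtain ⟨k, y, e', hy⟩ := hY
  have c : PQ (add X Y) r = sq ^ (j + k) * nq (addQ x (addQ y (qv r))) := by
    simp only [PQ, qv, e, e', addQ_smul_left, addQ_smul_right, nq_smul, addQ_assoc]
    ring
  rw [c]
  refine fine_pos96 _ fun m P => pos_in_in hx (in_add_rat hy hr z)
    (fun S hS => nonneg96 (j := j) hX' hS ?_) fun S hS => nonneg96 (j := k) (g S hS) hr ?_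
  · simp only [PQ, e, addQ_smul_left, nq_smul]
  · simp only [PQ, qv, e', addQ_smul_left, addQ_smul_right, nq_smul, addQ_assoc]
/-- Clo: replace an Out part by its rational tangle (Fine.mul, TrivL.lo, te_lo_add_left / right).
Out or In: X Out with x = 0: Out with R = inf, c * unit * PQ Y inf (addQ_inf, den_ne, Clo Y.v); the
same for y = 0; both Out with x^2 = 1 or y^2 = 1: Out (add_int); both Out with x, y ≥ 2:
rat_add_rat, sq_factor, InV.smul; one Out, one In: in_add_rat; both In: in_add_in. -/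
theorem goodL_add {X Y : Alg} (ih : ∀ Z : Alg, Z.size ≤ X.size + Y.size → GoodL Z) :
    GoodL (add X Y) := by
  have gX := ih X (by omega)
  have gY := ih Y (by omega)
  have iY : ∀ Z : Alg, Z.size ≤ Y.size → Clo Z := fun Z h => (ih Z (by omega)).2
  have L : ∀ {R c}, IsRat2 R → c ≠ 0 → Sc96 X R c → (cv R).1 = 0 → OutT (add X Y) := by
    intro R c hR c0 s z
    obtain ⟨w, w0, t⟩ := sc_rel96 ((hR.rel_inf z).add (Rel2.refl Y))
    exact ⟨inf, _, isRat2_inf, mul_ne_zero (mul_ne_zero c0 w0) gY.den_ne,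
      ((s.left Y).trans t).trans (sc_inf_v96 (iY _ (size_v Y).le))⟩
  have M : ∀ {R c}, IsRat2 R → c ≠ 0 → Sc96 Y R c → (cv R).1 = 0 → OutT (add X Y) := by
    intro R c hR c0 s z
    obtain ⟨w, w0, t⟩ := sc_rel96 ((Rel2.refl X).add (hR.rel_inf z))
    exact ⟨inf, _, isRat2_inf, mul_ne_zero (mul_ne_zero c0 w0) gX.den_ne,
      ((s.right X).trans t).trans (sc_inf96 gX.2)⟩
  rcases gX.1 with ⟨R, c, hR, c0, s⟩ | hX <;> rcases gY.1 with ⟨S, d, hS, d0, t⟩ | hY
  · have u : Sc96 (add X Y) (add R S) (c * d) := (Sc96.left s Y).trans (Sc96.right t R)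
    refine ⟨?_, fun r hr => u.fine (clo_rat_rat hR hS r hr)⟩
    by_cases x : |(cv R).1| ≤ 1
    · rcases small96 x with x | x
      · exact .inl ⟨_, _, hR.add_int hS (.inl x), mul_ne_zero c0 d0, u⟩
      · exact .inl (L hR c0 s x)
    by_cases y : |(cv S).1| ≤ 1
    · rcases small96 y with y | y
      · exact .inl ⟨_, _, hR.add_int hS (.inr y), mul_ne_zero c0 d0, u⟩
      · exact .inl (M hS d0 t y)
    exact .inr (inT_of96 u.1 (mul_ne_zero c0 d0) (rat_add_rat hR hS (by omega) (by omega)))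
  · refine ⟨?_, fun r hr => (Sc96.left s Y).fine (clo_rat_in hR hY iY r hr)⟩
    by_cases x : (cv R).1 = 0
    · exact .inl (L hR c0 s x)
    obtain ⟨k, y, e, hy⟩ := hY
    refine .inr (inT_of96 (c := c * sq ^ k) ?_ (mul_ne_zero c0 (pow_ne_zero _ sq_ne_zero))
      (in_add_rat hy hR x))
    simp only [qv, s.1, e, addQ_smul_left, addQ_smul_right, smul_smul]
    rw [addQ_comm, mul_comm]
  · refine ⟨?_, fun r hr => (Sc96.right t X).fine (clo_in_rat hX gX.2 hS r hr)⟩
    by_cases y : (cv S).1 = 0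
    · exact .inl (M hS d0 t y)
    obtain ⟨k, x, e, hx⟩ := hX
    refine .inr (inT_of96 (c := d * sq ^ k) ?_ (mul_ne_zero d0 (pow_ne_zero _ sq_ne_zero))
      (in_add_rat hx hS y))
    simp only [qv, t.1, e, addQ_smul_left, addQ_smul_right, smul_smul]
  · refine ⟨.inr ?_, clo_in_in hX gX.2 hY iY⟩
    obtain ⟨j, x, e, hx⟩ := hX
    obtain ⟨k, y, e', hy⟩ := hY
    have c : qv (add X Y) = sq ^ (k + j) • addQ x y := by
      simp only [qv, e, e', addQ_smul_left, addQ_smul_right, smul_smul, pow_add]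
    rcases in_add_in hx hy with h | ⟨z, h, hz⟩
    · exact ⟨_, _, c, h⟩
    · exact ⟨k + j + 1, z, by rw [c, h, smul_smul, pow_succ], hz⟩
theorem goodL (X : Alg) : GoodL X := by
  induction hn : X.size using Nat.strong_induction_on generalizing X with
  | _ n ih =>
  cases X with
  | zero => exact goodL_rat isRat2_zero
  | inf => exact goodL_rat isRat2_inf
  | cr e => exact goodL_rat (isRat2_cr e)
  | add X Y => exact goodL_add fun Z h => ih _ (by simp only [Alg.size] at hn; omega) Z rfl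
  | mul X Y =>
    refine goodL_of_d (goodL_add fun Z h => ih _ ?_ Z rfl)
    simp only [Alg.size, size_d] at hn h
    omega

end Pool.Agent.Lib.MP_140c34_gt.Arb
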