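import Pool.Agent.Lib.MP_140c34_gt.Arb.OriD
import Pool.Agent.Lib.MP_140c34_gt.Arb.QMain
import Pool.Agent.Lib.MP_140c34_gt.Arb.QBr

/-! The unlink value of the Jones specialisation forces the unlink. -/

namespace Pool.Agent.Lib.MP_140c34_gt.Arb

open LaurentPolynomial

theorem jones_loop : jonesHom (vz (-1) (-1) - vz 1 (-1)) = toRat loopVal := by
  have h1 := zz_ne
  have h2 := xx_ne
  rw [map_sub, jonesHom_vz, jonesHom_vz, toRat_loop, ← sub_mul, zpow_neg_one, zpow_neg_one,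
    zpow_one, ← div_eq_mul_inv, div_eq_iff h1]
  field_simp
  ring

theorem unlink_of_vec (X : Alg) (m : ℕ) (k : ℤ)
    (h : loopVal * (vec X).1 + (vec X).2 = loopVal ^ m * T k ∨
      loopVal * (vec X).1 + (vec X).2 = -(loopVal ^ m * T k)) :
    Eqv 0 X.num (List.replicate (m + 1) [Gen.cup 0, Gen.cap 0]).flatten := by
  obtain ⟨P', h1, h2, h3⟩ := nq_of_vec X m k h
  have h4 : PQ X .zero = sq ^ m * P' := by rw [PQ, ← h1]; exact congrArg nq (addQ_zero _)
  exact eqv_numL (((goodL X).2 _ isRat2_zero m P' h4 h2).2 h3)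

theorem unlink_of_jones {P : List OGen → AddMonoidAlgebra ℤ (ℤ × ℤ)} (hP : IsHomflypt P)
    (X : Alg) (D : List OGen) (hD : D.map OGen.forget = X.num) (hc : dirs D [] = some [])
    (m : ℕ) (h : jones (P D) = jones ((vz (-1) (-1) - vz 1 (-1)) ^ m)) :
    Eqv 0 X.num (List.replicate (m + 1) [Gen.cup 0, Gen.cap 0]).flatten := by
  obtain ⟨k, hk⟩ := jones_num hP X D hD hc
  rw [h, jones_eq, map_pow, jones_loop] at hk
  refine unlink_of_vec X m (3 * k) ?_
  have e : (xx ^ 3) ^ k = toRat (T (3 * k)) := by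
    rw [toRat_T, zpow_mul]; norm_cast
  rcases Int.even_or_odd k with hk' | hk'
  · left
    apply toRat_inj
    rw [← hk, hk'.neg_zpow, e, map_mul, map_pow, mul_comm]
  · right
    apply toRat_inj
    rw [← hk, hk'.neg_zpow, e, map_neg, map_mul, map_pow]
    ring

end Pool.Agent.Lib.MP_140c34_gt.Arb
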