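import Pool.Agent.Lib.MP_140c34_gt.Arb.QS

/-! Essential tangles. Notation in the comments: n = nuQ, (q, p) = cl, g = gcd q p. For a sum
n(x+y) = n(x) q(y)^2 + n(y) q(x)^2 + q(x)^2 q(y)^2 (mu_addJ), cl(x+y) = (q q', p q' + q p'). -/

namespace Pool.Agent.Lib.MP_140c34_gt.Arb

open LaurentPolynomial

theorem nu_eq26 (x : Lam × Lam) : nuQ x =
    2 * ((pi x.2).c1 + (ev1 x.2 : ℚ) / 2) * (ev1 x.1 : ℚ) - 2 * (ev1 x.2 : ℚ) * (pi x.1).c1 -
      (ev1 x.1 : ℚ) ^ 2 - (ev1 x.2 : ℚ) ^ 2 := by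
  simp only [nuQ, mu, mm, jq, J.mul_c0, J.mul_c1, pi_c0, uJ]
  ring
theorem nu_smul26 (c : Lam) (x : Lam × Lam) : nuQ (c • x) = (ev1 c : ℚ) ^ 2 * nuQ x := by
  rw [nu_eq26, nu_eq26]
  simp only [Prod.smul_fst, Prod.smul_snd, smul_eq_mul, map_mul, J.mul_c1, pi_c0, Int.cast_mul]
  ring
theorem nu_add26 (x y : Lam × Lam) : nuQ (addQ x y) =
    nuQ x * (ev1 y.1 : ℚ) ^ 2 + nuQ y * (ev1 x.1 : ℚ) ^ 2 +
      (ev1 x.1 : ℚ) ^ 2 * (ev1 y.1 : ℚ) ^ 2 := by
  simp only [nuQ, jq_add, mu_addJ, jq_q, cl]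
  ring
theorem cl_add26 (x y : Lam × Lam) : cl (addQ x y) =
    (ev1 x.1 * ev1 y.1, ev1 x.2 * ev1 y.1 + ev1 x.1 * ev1 y.2) := by
  simp [cl, addQ, ev1_sq]
theorem nu_sq26 (al p : Lam) :
    nuQ (sq * al, p) = -2 * (ev1 p : ℚ) * (ev1 al : ℚ) - (ev1 p : ℚ) ^ 2 := by
  rw [nu_eq26]
  simp only [pi_sq_mul_c1]
  simp only [map_mul, ev1_sq, zero_mul, Int.cast_zero]
  ring
theorem gcd_zero26 (p : ℤ) : ((Int.gcd 0 p : ℕ) : ℚ) ^ 2 = (p : ℚ) ^ 2 := by
  rw [Int.gcd_zero_left, ← Int.cast_natCast, ← Int.cast_pow, ← Int.cast_pow, Int.natAbs_sq]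
theorem gcd_mul26 (c q p : ℤ) :
    ((Int.gcd (c * q) (c * p) : ℕ) : ℚ) ^ 2 = (c : ℚ) ^ 2 * ((Int.gcd q p : ℕ) : ℚ) ^ 2 := by
  rw [Int.gcd_mul_left, Nat.cast_mul, mul_pow, ← gcd_zero26 c, Int.gcd_zero_left]
theorem one_le26 {c : ℤ} (h : c ≠ 0) : (1 : ℚ) ≤ (c : ℚ) ^ 2 := by
  have : 1 ≤ c ^ 2 := by
    have := pow_pos (abs_pos.2 h) 2
    rw [sq_abs] at this
    omega
  exact_mod_cast this
theorem four_le26 {c : ℤ} (h : 2 ≤ |c|) : (4 : ℚ) ≤ (c : ℚ) ^ 2 := by
  have : 4 ≤ c ^ 2 := by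
    rw [← sq_abs]
    nlinarith
  exact_mod_cast this
theorem div26 {N : ℤ} (M : ℤ) (hN : N ≠ 0) :
    N ∣ M ∧ ((Int.gcd N M : ℕ) : ℚ) ^ 2 = (N : ℚ) ^ 2 ∨
      4 * ((Int.gcd N M : ℕ) : ℚ) ^ 2 ≤ (N : ℚ) ^ 2 := by
  obtain ⟨k, hk⟩ := Int.gcd_dvd_left N M
  have hk0 : k ≠ 0 := by
    rintro rfl
    exact hN (by rw [hk, mul_zero])
  have hq : (N : ℚ) = ((Int.gcd N M : ℕ) : ℚ) * (k : ℚ) := by exact_mod_cast hk
  by_cases h2 : 2 ≤ |k|
  · right
    have := four_le26 h2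
    have h0 := sq_nonneg ((Int.gcd N M : ℕ) : ℚ)
    have : (N : ℚ) ^ 2 = ((Int.gcd N M : ℕ) : ℚ) ^ 2 * (k : ℚ) ^ 2 := by rw [← mul_pow, ← hq]
    nlinarith
  · left
    have h1 : k * k = 1 := by
      have := abs_pos.2 hk0
      have h : |k| = 1 := by omega
      rw [← abs_mul_abs_self, h, one_mul]
    refine ⟨Dvd.dvd.trans ⟨k, ?_⟩ (Int.gcd_dvd_right N M), ?_⟩
    · linear_combination (-k) * hk - ((Int.gcd N M : ℕ) : ℤ) * h1
    · have h1' : (k : ℚ) * k = 1 := by exact_mod_cast h1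
      have : (N : ℚ) ^ 2 = ((Int.gcd N M : ℕ) : ℚ) ^ 2 * (k : ℚ) ^ 2 := by rw [← mul_pow, ← hq]
      rw [this, pow_two (k : ℚ), h1', mul_one]

/-- n and g^2 are both multiplied by (ev1 c)^2. -/
theorem InV.smul {x : Lam × Lam} {c : Lam} (h : InV x) (hc : ev1 c ≠ 0) : InV (c • x) := by
  have h1 := one_le26 hc
  obtain ⟨h2, hne⟩ := h
  refine ⟨?_, ?_⟩
  · rw [nu_smul26]
    nlinarith
  · rw [nu_smul26]
    simp only [cl, Prod.smul_fst, Prod.smul_snd, smul_eq_mul, map_mul] at hne ⊢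
    rw [gcd_mul26]
    intro h
    exact hne (mul_left_cancel₀ (by positivity) h)

theorem InV.congr {x y : Lam × Lam} (h : InV x) (h' : QEq x y) : InV y := by
  obtain ⟨w, hw, rfl⟩ := h'
  refine h.smul fun h0 => ?_
  have := hw.ev1_sq
  rw [h0] at this
  norm_num at this
theorem ev1_T26 (k : ℤ) : ev1 (T k) = 1 := by
  simp [ev1]

theorem InV.rot {x : Lam × Lam} (h : InV x) : InV (rotQ x) := by
  have hn : nuQ (rotQ x) = nuQ x := by
    simp only [nuQ]
    rw [(jeq_jq_rot x).mu_eq, mu_rotJ]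
  obtain ⟨h2, hne⟩ := h
  refine ⟨hn ▸ h2, ?_⟩
  rw [hn]
  simp only [cl, rotQ, map_neg, map_mul, ev1_T26, one_mul, Int.gcd_neg] at hne ⊢
  rwa [Int.gcd_comm]
theorem arith26 {A G A' G' n n' : ℚ} (e : n = -2 * G * A - G ^ 2) (e' : n' = -2 * G' * A' - G' ^ 2)
    (h : 2 ≤ n) (h' : 2 ≤ n') (k : n ≠ G ^ 2) (k' : n' ≠ G' ^ 2) :
    2 ≤ -2 * (G * A' + A * G' + G * G') * (A * A') - (G * A' + A * G' + G * G') ^ 2 ∧
      -2 * (G * A' + A * G' + G * G') * (A * A') - (G * A' + A * G' + G * G') ^ 2 ≠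
        (G * A' + A * G' + G * G') ^ 2 := by
  have hG : G ≠ 0 := by
    rintro rfl
    rw [e] at h
    norm_num at h
  have hG' : G' ≠ 0 := by
    rintro rfl
    rw [e'] at h'
    norm_num at h'
  have hs : 0 < G ^ 2 := by positivity
  have ht : 0 < G' ^ 2 := by positivity
  have i1 : 4 * (G ^ 2 * G' ^ 2) *
      (-2 * (G * A' + A * G' + G * G') * (A * A') - (G * A' + A * G' + G * G') ^ 2) =
      (G ^ 2 * G' ^ 2 + n * n') * (n * G' ^ 2 + n' * G ^ 2) := by
    rw [e, e']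
    ring
  have i2 : 4 * (G ^ 2 * G' ^ 2) *
      (-2 * (G * A' + A * G' + G * G') * (A * A') - (G * A' + A * G' + G * G') ^ 2 -
        (G * A' + A * G' + G * G') ^ 2) =
      (n * G' ^ 2 + n' * G ^ 2) * ((G ^ 2 - n) * (G' ^ 2 - n')) := by
    rw [e, e']
    ring
  generalize -2 * (G * A' + A * G' + G * G') * (A * A') - (G * A' + A * G' + G * G') ^ 2 = N at *
  generalize (G * A' + A * G' + G * G') ^ 2 = K at *
  generalize G ^ 2 = s at *
  generalize G' ^ 2 = t at *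
  have hst : 0 < s * t := mul_pos hs ht
  have a1 : 2 * (s + t) ≤ n * t + n' * s := by nlinarith
  have a2 : s * t + 4 ≤ s * t + n * n' := by nlinarith
  refine ⟨?_, fun hNK => ?_⟩
  · have a3 : (s * t + 4) * (2 * (s + t)) ≤ (s * t + n * n') * (n * t + n' * s) :=
      mul_le_mul a2 a1 (by positivity) (by linarith)
    have a4 : 4 * (s * t) * 2 ≤ (s * t + 4) * (2 * (s + t)) := by
      have := mul_nonneg hs.le (sq_nonneg (t - 2))
      have := mul_pos hs hst
      nlinarith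
    exact le_of_mul_le_mul_left (by linarith) (by linarith : 0 < 4 * (s * t))
  · rw [hNK, sub_self, mul_zero] at i2
    exact mul_ne_zero (by linarith : 0 < n * t + n' * s).ne'
      (mul_ne_zero (sub_ne_zero.2 k.symm) (sub_ne_zero.2 k'.symm)) i2.symm
theorem in_add_zero26 {x y : Lam × Lam} (hy : InV y) (q : ev1 x.1 ≠ 0) (q' : ev1 y.1 = 0) :
    InV (addQ x y) := by
  have h1 := one_le26 q
  obtain ⟨h2, hne⟩ := hy
  simp only [cl, q', gcd_zero26] at hne
  refine ⟨?_, ?_⟩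
  · rw [nu_add26, q']
    push_cast
    nlinarith
  · rw [nu_add26, cl_add26, q']
    simp only [mul_zero, zero_add, gcd_zero26]
    push_cast
    intro h
    refine hne (mul_left_cancel₀ (by positivity : (ev1 x.1 : ℚ) ^ 2 ≠ 0) ?_)
    linear_combination h

/-- q q' ≠ 0: n'' > (q q')^2 ≥ g''^2. q' = 0 ≠ q: n'' = n' q^2, g'' = g' |q|. q = q' = 0: a = sq al,
a' = sq al', z = (sq al al', p al' + al p' + p p'). -/
theorem in_add_in {x y : Lam × Lam} (hx : InV x) (hy : InV y) :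
    InV (addQ x y) ∨ ∃ z, addQ x y = sq • z ∧ InV z := by
  by_cases q : ev1 x.1 = 0 <;> by_cases q' : ev1 y.1 = 0
  · right
    obtain ⟨a, p⟩ := x
    obtain ⟨a', p'⟩ := y
    obtain ⟨al, rfl⟩ := sq_dvd q
    obtain ⟨al', rfl⟩ := sq_dvd q'
    refine ⟨(sq * (al * al'), p * al' + al * p' + p * p'), ?_, ?_⟩
    · refine Prod.ext ?_ ?_ <;> simp only [addQ, Prod.smul_fst, Prod.smul_snd, smul_eq_mul] <;> ring
    · obtain ⟨h, k⟩ := hx
      obtain ⟨h', k'⟩ := hy
      simp only [cl, map_mul, ev1_sq, zero_mul, gcd_zero26] at k k'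
      have := arith26 (nu_sq26 al p) (nu_sq26 al' p') h h' k k'
      unfold InV
      rw [nu_sq26]
      simp only [cl, map_mul, map_add, ev1_sq, zero_mul, gcd_zero26]
      push_cast
      exact this
  · left
    rw [addQ_comm]
    exact in_add_zero26 hx q' q
  · exact Or.inl (in_add_zero26 hy q q')
  · left
    have h1 := one_le26 q
    have h1' := one_le26 q'
    have hn := nu_add26 x y
    have a1 : 2 * 1 ≤ nuQ x * (ev1 y.1 : ℚ) ^ 2 :=
      mul_le_mul hx.1 h1' (by norm_num) (by linarith [hx.1])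
    have a2 : 2 * 1 ≤ nuQ y * (ev1 x.1 : ℚ) ^ 2 :=
      mul_le_mul hy.1 h1 (by norm_num) (by linarith [hy.1])
    have a3 : 0 ≤ (ev1 x.1 : ℚ) ^ 2 * (ev1 y.1 : ℚ) ^ 2 := by positivity
    refine ⟨by linarith, ?_⟩
    rw [cl_add26]
    intro h
    rcases div26 (ev1 x.2 * ev1 y.1 + ev1 x.1 * ev1 y.2) (mul_ne_zero q q') with ⟨-, k⟩ | k
    · simp only [] at h
      rw [k] at h
      push_cast at h
      nlinarith
    · simp only [] at h
      rw [← h] at k
      push_cast at k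
      nlinarith
theorem gcd_unit26 {b : ℤ} (hb : b * b = 1) (q p c : ℤ) :
    Int.gcd (q * b) (p * b + q * c) = Int.gcd q p := by
  apply Nat.dvd_antisymm
  · have h1 := Int.gcd_dvd_left (q * b) (p * b + q * c)
    have h2 := Int.gcd_dvd_right (q * b) (p * b + q * c)
    apply Int.dvd_gcd
    · have := h1.mul_right b
      rwa [mul_assoc, hb, mul_one] at this
    · have := (h2.mul_right b).sub (h1.mul_right c)
      have e : (p * b + q * c) * b - q * b * c = p := by linear_combination p * hb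
      rwa [e] at this
  · have h1 := Int.gcd_dvd_left q p
    have h2 := Int.gcd_dvd_right q p
    exact Int.dvd_gcd (h1.mul_right b) ((h2.mul_right b).add (h1.mul_right c))
theorem gcd_full26 {q p b c : ℤ} (hb : b ≠ 0) (hc : IsCoprime b c) (h : q * b ∣ p * b + q * c) :
    (q : ℚ) ^ 2 = (b : ℚ) ^ 2 * ((Int.gcd q p : ℕ) : ℚ) ^ 2 := by
  have h1 : b ∣ q * c := (dvd_add_right (dvd_mul_left b p)).1 ((dvd_mul_left b q).trans h)
  obtain ⟨k, rfl⟩ := hc.dvd_of_dvd_mul_right h1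
  have h2 : b * k ∣ p + k * c := by
    refine (mul_dvd_mul_iff_right hb).1 ?_
    have e : (p + k * c) * b = p * b + b * k * c := by ring
    rwa [e]
  obtain ⟨t, ht⟩ := h2
  have hp : p = k * (b * t - c) := by linear_combination ht
  have hg : Int.gcd b (b * t - c) = 1 := by
    rw [← Int.isCoprime_iff_gcd_eq_one]
    obtain ⟨u, v, huv⟩ := hc
    exact ⟨u + v * t, -v, by linear_combination huv⟩
  rw [hp, mul_comm b k, gcd_mul26, hg]
  push_cast
  ring

/-- (b, c) = cv R coprime, b ≠ 0, n'' = n b^2 + q^2 (b^2 - 1) ≥ 2. -/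
theorem in_add_rat {x : Lam × Lam} {R : Alg} (hx : InV x) (hR : IsRat2 R) (h : (cv R).1 ≠ 0) :
    InV (addQ x (qv R)) := by
  have hc := coprime_rat hR.isRat
  have e1 : ev1 (qv R).1 = (cv R).1 := congrArg Prod.fst (cl_qv R)
  have e2 : ev1 (qv R).2 = (cv R).2 := congrArg Prod.snd (cl_qv R)
  have hn := nu_add26 x (qv R)
  have hcl := cl_add26 x (qv R)
  rw [nuQ_rat hR, e1] at hn
  rw [e1, e2] at hcl
  obtain ⟨h2, hne⟩ := hx
  simp only [cl] at hne
  unfold InV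
  rw [hcl, hn]
  generalize (cv R).1 = b at *
  generalize (cv R).2 = c at *
  generalize ev1 x.1 = q at *
  generalize ev1 x.2 = p at *
  generalize nuQ x = n at *
  have h1 := one_le26 h
  have a1 : 2 * 1 ≤ n * (b : ℚ) ^ 2 := mul_le_mul h2 h1 (by norm_num) (by linarith)
  have a2 : 0 ≤ (q : ℚ) ^ 2 * ((b : ℚ) ^ 2 - 1) := mul_nonneg (sq_nonneg _) (by linarith)
  refine ⟨by linarith, fun k => ?_⟩
  simp only [] at k
  by_cases q0 : q = 0
  · subst q0
    simp only [zero_mul, add_zero, gcd_zero26] at k hne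
    push_cast at k
    refine hne (mul_left_cancel₀ (by positivity : (b : ℚ) ^ 2 ≠ 0) ?_)
    linear_combination k
  by_cases b2 : 2 ≤ |b|
  · have h4 := four_le26 b2
    rcases div26 (p * b + q * c) (mul_ne_zero q0 h) with ⟨d, j⟩ | j
    · have := gcd_full26 h hc d
      rw [j] at k
      push_cast at k
      refine hne (mul_left_cancel₀ (by positivity : (b : ℚ) ^ 2 ≠ 0) ?_)
      linear_combination k + this
    · rw [← k] at j
      push_cast at j
      have := mul_nonneg (sq_nonneg (q : ℚ)) (sub_nonneg.2 h4)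
      have := sq_nonneg (q : ℚ)
      nlinarith
  · have hb : b * b = 1 := by
      have := abs_pos.2 h
      have h : |b| = 1 := by omega
      rw [← abs_mul_abs_self, h, one_mul]
    have hb' : (b : ℚ) ^ 2 = 1 := by
      rw [pow_two]
      exact_mod_cast hb
    rw [gcd_unit26 hb, hb'] at k
    exact hne (by linear_combination k)

/-- n'' = a^2 b^2 - a^2 - b^2 ≥ a^2 b^2 / 2 ≥ 8, below (a b)^2 and above (a b / 2)^2. -/
theorem rat_add_rat {R R' : Alg} (hR : IsRat2 R) (hR' : IsRat2 R') (h : 2 ≤ |(cv R).1|)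
    (h' : 2 ≤ |(cv R').1|) : InV (addQ (qv R) (qv R')) := by
  have e1 : ev1 (qv R).1 = (cv R).1 := congrArg Prod.fst (cl_qv R)
  have e1' : ev1 (qv R').1 = (cv R').1 := congrArg Prod.fst (cl_qv R')
  have hn := nu_add26 (qv R) (qv R')
  have hcl := cl_add26 (qv R) (qv R')
  rw [nuQ_rat hR, nuQ_rat hR', e1, e1'] at hn
  rw [e1, e1'] at hcl
  unfold InV
  rw [hcl, hn]
  generalize (cv R).1 = a at *
  generalize (cv R').1 = b at *
  have h4 := four_le26 h
  have h4' := four_le26 h'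
  have a0 : a ≠ 0 := by
    rintro rfl
    norm_num at h
  have b0 : b ≠ 0 := by
    rintro rfl
    norm_num at h'
  have a1 := mul_nonneg (sub_nonneg.2 h4) (sub_nonneg.2 h4')
  refine ⟨by nlinarith, fun k => ?_⟩
  simp only [] at k
  rcases div26 (ev1 (qv R).2 * b + a * ev1 (qv R').2) (mul_ne_zero a0 b0) with ⟨-, j⟩ | j
  · rw [j] at k
    push_cast at k
    nlinarith
  · rw [← k] at j
    push_cast at j
    nlinarith

/-- If a + sq p = 0 then A = -G and n = G^2 = g^2. -/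
theorem InV.den_ne {x : Lam × Lam} (h : InV x) : nq (addQ x infQ) ≠ 0 := by
  obtain ⟨a, p⟩ := x
  intro h0
  have e : a = sq * (-p) := by
    simp only [nq, addQ, infQ] at h0
    linear_combination h0
  subst e
  refine h.2 ?_
  rw [nu_sq26]
  simp only [cl, map_mul, map_neg, ev1_sq, zero_mul, gcd_zero26]
  push_cast
  ring

/-- If m > 0 then cl y = k (q, -p) for a rational k, and the first order
coefficient P1 of ncl (addJ (jq x) (jq y)) has 2 k P1 = n' + k^2 n. -/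
theorem in_in_par {x y : Lam × Lam} {m : ℕ} {P : Lam} (hx : InV x) (hy : InV y)
    (h : nq (addQ x y) = sq ^ m * P) (hP : ev1 P ^ 2 = 1) : m = 0 := by
  by_contra hm
  obtain ⟨m, rfl⟩ := Nat.exists_eq_succ_of_ne_zero hm
  have h' : nq (addQ x y) = sq * (sq ^ m * P) := by
    rw [h, pow_succ]
    ring
  have e0 : ev1 (nq (addQ x y)) = 0 := by rw [h', map_mul, ev1_sq, zero_mul]
  have e1 : (pi (nq (addQ x y))).c1 ^ 2 ≤ 1 := by
    rw [h', pi_sq_mul_c1, map_mul, map_pow, ev1_sq]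
    cases m with
    | zero =>
      rw [pow_zero, one_mul]
      exact_mod_cast hP.le
    | succ m => simp
  have e2 := congrArg J.c1 (ncl_jq (addQ x y))
  rw [jq_add] at e2
  simp only [ncl, addJ, J.sub_c1, J.add_c1, J.mul_c1, J.mul_c0, eta_c0, eta_c1, jq_q, jq_p, pi_c0,
    e0, uJ] at e2
  rw [ev1_nq] at e0
  have e0' : ((cl x).2 : ℚ) * (cl y).1 + (cl x).1 * (cl y).2 = 0 := by exact_mod_cast e0
  have n1 := hx.1
  have n2 := hy.1
  simp only [nuQ, mu, mm, jq_q, jq_p] at n1 n2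
  generalize ((cl x).1 : ℚ) = q at *
  generalize ((cl x).2 : ℚ) = p at *
  generalize ((cl y).1 : ℚ) = q' at *
  generalize ((cl y).2 : ℚ) = p' at *
  generalize (pi (nq (addQ x y))).c1 = P1 at *
  generalize (jq x).1.c1 = a at *
  generalize (jq x).2.c1 = b at *
  generalize (jq y).1.c1 = a' at *
  generalize (jq y).2.c1 = b' at *
  have hk : ∃ k : ℚ, q' = k * q ∧ p' = -(k * p) := by
    by_cases q0 : q = 0
    · have p0 : p ≠ 0 := by
        rintro rfl
        rw [q0] at n1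
        norm_num at n1
      refine ⟨-p' / p, ?_, by field_simp⟩
      rw [q0] at e0' ⊢
      rw [mul_zero]
      exact mul_left_cancel₀ p0 (by linear_combination e0')
    · refine ⟨q' / q, by field_simp, ?_⟩
      field_simp
      linear_combination e0'
  obtain ⟨k, rfl, rfl⟩ := hk
  have e3 : 2 * k * P1 =
      (2 * (b' * (k * q) - -(k * p) * a') - (k * q) ^ 2 - (-(k * p)) ^ 2 + 1 - 1) +
        k ^ 2 * (2 * (b * q - p * a) - q ^ 2 - p ^ 2 + 1 - 1) := by
    push_cast at e2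
    linear_combination (-2 * k) * e2
  have a1 := mul_le_mul_of_nonneg_left n1 (sq_nonneg k)
  nlinarith [sq_nonneg (k - P1)]

end Pool.Agent.Lib.MP_140c34_gt.Arb
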