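import Pool.Agent.Lib.MP_140c34_gt.Arb.QFin
import Pool.Agent.Lib.MP_140c34_gt.Arb.ExD

/-! The statement for every diagram of an arborescent link. -/

namespace Pool.Agent.Lib.MP_140c34_gt.Arb

variable {P : List OGen → AddMonoidAlgebra ℤ (ℤ × ℤ)}

/-- Some orientation of the word has the value `c`. -/
def Val (P : List OGen → AddMonoidAlgebra ℤ (ℤ × ℤ)) (c : AddMonoidAlgebra ℤ (ℤ × ℤ))
    (W : List Gen) : Prop :=
  ∃ D : List OGen, D.map OGen.forget = W ∧ dirs D [] = some [] ∧ P D = c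

theorem Val.step (hP : IsHomflypt P) {c : AddMonoidAlgebra ℤ (ℤ × ℤ)} {W W' : List Gen}
    (h : Step 0 W W') : Val P c W ↔ Val P c W' := by
  obtain ⟨u, a, b, v, rfl, rfl, hm⟩ := h
  constructor
  · rintro ⟨D, h1, h2, rfl⟩
    obtain ⟨u', a', v', L, M, rfl, rfl, rfl, rfl, k1, k2, k3, k4⟩ := split3 h1 h2
    rw [k4] at hm
    obtain ⟨β, hβ⟩ := exists_ori a'
    obtain ⟨γ, hγ⟩ := (lift_move hm).1 β M (hβ ▸ k2)
    refine ⟨u' ++ ori b γ ++ v', by simp [forget_ori], dirs3 k1 hγ k3, ?_⟩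
    exact (hP.move u' a' _ v' L M k1 k2 hγ k3 (by rwa [forget_ori])).symm
  · rintro ⟨D, h1, h2, rfl⟩
    obtain ⟨u', b', v', L, M, rfl, rfl, rfl, rfl, k1, k2, k3, k4⟩ := split3 h1 h2
    rw [k4] at hm
    obtain ⟨β, hβ⟩ := exists_ori b'
    obtain ⟨γ, hγ⟩ := (lift_move hm).2 β M (hβ ▸ k2)
    refine ⟨u' ++ ori a γ ++ v', by simp [forget_ori], dirs3 k1 hγ k3, ?_⟩
    exact hP.move u' _ b' v' L M k1 hγ k2 k3 (by rwa [forget_ori])

theorem Val.eqv (hP : IsHomflypt P) {c : AddMonoidAlgebra ℤ (ℤ × ℤ)} {W W' : List Gen}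
    (h : Eqv 0 W W') : Val P c W ↔ Val P c W' := by
  induction h with
  | rel _ _ h => exact Val.step hP h
  | refl => rfl
  | symm _ _ _ ih => exact ih.symm
  | trans _ _ _ _ _ ih ih' => exact ih.trans ih'

theorem unlink_of_eqv (hP : IsHomflypt P) (D : List OGen) (hc : dirs D [] = some []) (X : Alg)
    (hD : Eqv 0 (D.map OGen.forget) X.num) (m : ℕ)
    (h : jones (P D) = jones ((vz (-1) (-1) - vz 1 (-1)) ^ m)) :
    Eqv 0 (D.map OGen.forget) (List.replicate (m + 1) [Gen.cup 0, Gen.cap 0]).flatten := by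
  obtain ⟨D', h1, h2, h3⟩ := (Val.eqv hP hD).1 ⟨D, rfl, hc, rfl⟩
  exact hD.tr (unlink_of_jones hP X D' h1 h2 m (h3 ▸ h))

end Pool.Agent.Lib.MP_140c34_gt.Arb
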