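import Pool.Agent.Lib.MP_140c34_gt.Arb.Top
import Pool.Agent.Lib.MP_140c34_gt.Arb.QDef

/-! Free loops. -/

namespace Pool.Agent.Lib.MP_140c34_gt.Arb

open Alg

theorem te_lo1_left (X Y : Alg) : TE (add (lo X) Y) (lo (add X Y)) :=
  te_script X Y X (.add (.mul (.add .inf .inf) (.var 0)) (.var 1))
    (.mul (.add .inf .inf) (.add (.var 0) (.var 1)))
    [(0, false, .co (U 1) (U 0)), (1, false, .co (A 1) (U 0))] (by decide)

theorem te_lo1_right (X Y : Alg) : TE (add X (lo Y)) (lo (add X Y)) :=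
  te_script X Y X (.add (.var 0) (.mul (.add .inf .inf) (.var 1)))
    (.mul (.add .inf .inf) (.add (.var 0) (.var 1)))
    [(1, true, .co (.b 0 0) (U 1)), (0, true, .co (U 1) (U 0)), (2, true, .co (.b 0 0) (A 1)),
     (1, true, .co (U 1) (A 0))] (by decide)

theorem te_lo1_top (X : Alg) : TE (mul X (add inf inf)) (lo X) :=
  te_script X X X (.mul (.var 0) (.add .inf .inf)) (.mul (.add .inf .inf) (.var 0))
    [(2, false, .r2 true 0), (3, true, .sa false 0), (1, true, .su true 0),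
     (2, true, .r2 false 1), (0, false, .co (U 0) (.b 0 0)), (1, false, .co (A 0) (.b 0 0)),
     (1, false, .r2 false 1), (0, false, .su true 0), (2, false, .sa false 0),
     (1, true, .r2 true 0)] (by decide)

theorem eqv_loop : Eqv 0 [Gen.cup 0, Gen.cup 1, Gen.cap 1] [Gen.cup 0, Gen.cap 0, Gen.cup 0] :=
  run_sound (env := fun _ => []) (fun _ => box_inf)
    [(2, false, .r2 true 0), (3, true, .sa false 0), (1, true, .su true 0),
     (2, true, .r2 false 1), (0, false, .co (U 0) (U 0)), (1, false, .co (A 0) (U 0))]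
    (w := [U 0, U 1, A 1]) (w' := [U 0, A 0, U 0]) (by decide)

theorem lo_succ (m : ℕ) (X : Alg) : lo^[m + 1] X = lo (lo^[m] X) :=
  Function.iterate_succ_apply' _ _ _

theorem TE.lo1 {X Y : Alg} (h : TE X Y) : TE (lo X) (lo Y) := (TE.refl _).mul h

theorem TE.lo {X Y : Alg} (m : ℕ) (h : TE X Y) : TE (lo^[m] X) (lo^[m] Y) := by
  induction m with
  | zero => exact h
  | succ m ih => rw [lo_succ, lo_succ]; exact ih.lo1

theorem te_lo_add_left (m : ℕ) (X Y : Alg) : TE (add (lo^[m] X) Y) (lo^[m] (add X Y)) := by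
  induction m with
  | zero => exact TE.refl _
  | succ m ih => rw [lo_succ, lo_succ]; exact (te_lo1_left _ _).trans ih.lo1

theorem te_lo_add_right (m : ℕ) (X Y : Alg) : TE (add X (lo^[m] Y)) (lo^[m] (add X Y)) := by
  induction m with
  | zero => exact TE.refl _
  | succ m ih => rw [lo_succ, lo_succ]; exact (te_lo1_right _ _).trans ih.lo1

theorem te_lo1_mul (X Y : Alg) : TE (mul X (lo Y)) (lo (mul X Y)) :=
  (te_mul_assoc _ _ _).symm.trans (((te_lo1_top X).mul (TE.refl Y)).trans (te_mul_assoc _ _ _))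

theorem te_lo_mul (m : ℕ) (X Y : Alg) : TE (mul X (lo^[m] Y)) (lo^[m] (mul X Y)) := by
  induction m with
  | zero => exact TE.refl _
  | succ m ih => rw [lo_succ, lo_succ]; exact (te_lo1_mul _ _).trans ih.lo1

theorem te_lo_del (e : Bool) (m : ℕ) (X : Alg) :
    TE ((lo^[m] X).del e) (lo^[m] (X.del e)) :=
  ((TE.refl _).mul (((te_lo_mul m _ X).add (TE.refl _)).trans (te_lo_add_left m _ _))).trans
    (te_lo_mul m _ _)

theorem lo_v (m : ℕ) (X : Alg) : (lo^[m] X).v = lo^[m] X.v := by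
  induction m with
  | zero => rfl
  | succ m ih => rw [lo_succ, lo_succ, ← ih]; rfl

theorem TrivL.of_te {m : ℕ} {X r X' r' : Alg} (h : TrivL m X r) (h' : TE (add X r) (add X' r')) :
    TrivL m X' r' := h'.cup.sy.tr h

theorem cup_lo {X Y : Alg} (m : ℕ) (h : Eqv 0 (Gen.cup 0 :: X.word) (Gen.cup 0 :: Y.word)) :
    Eqv 0 (Gen.cup 0 :: (lo^[m] X).word) (Gen.cup 0 :: (lo^[m] Y).word) := by
  induction m with
  | zero => exact h
  | succ m ih =>
    rw [lo_succ, lo_succ]
    exact (te_lo1_top _).cup.sy.tr ((ih.post (add inf inf).word).tr (te_lo1_top _).cup)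

theorem TrivL.lo {a b : ℕ} {X r X' r' : Alg} (h : TrivL b X r)
    (h' : TE (add X' r') (lo^[a] (add X r))) : TrivL (a + b) X' r' := by
  unfold TrivL
  rw [Function.iterate_add_apply]
  exact h'.cup.tr (cup_lo a h)

theorem trivL_t (m : ℕ) (e : Bool) (Z r : Alg) :
    TrivL m (mul (cr e) Z) r ↔ TrivL m Z (mul (cr e) r) :=
  ⟨fun h => (eqv_t e Z r).sy.tr h, fun h => (eqv_t e Z r).tr h⟩

theorem cup_conj (X : Alg) :
    Eqv 0 (Gen.cup 0 :: X.v.word) ((Gen.cup 0 :: X.word) ++ [Gen.crs false 0]) :=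
  (te_conj X).symm.cup.tr
    ((Move.r1Cup (n := 0) true 0).eqv.post (X.word ++ [Gen.crs false 0]))

theorem TrivL.v {m : ℕ} {X r : Alg} (h : TrivL m X r) : TrivL m r.v X.v := by
  have h1 := (cup_conj (add X r)).tr ((Eqv.post _ h).tr (cup_conj (Arb.lo^[m] inf)).sy)
  rw [lo_v] at h1
  exact h1

theorem trivL_of_inf {X r : Alg} (h : TE (add X r) inf) : TrivL 0 X r := h.cup
theorem trivL_inf_inf : TrivL 1 inf inf := Eqv.rfl'
theorem trivL_zero_zero : TrivL 1 zero zero := (te_add_zero zero).cup.tr eqv_loop.sy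

theorem te_of_trivL_inf {m : ℕ} {Y : Alg} (h : TrivL m Y inf) :
    TE (add Y inf) (lo^[m] inf) := by
  have h0 : TE (add (lo^[m] zero) inf) (lo^[m] inf) :=
    (te_lo_add_left m _ _).trans ((te_zero_add inf).lo m)
  have h1 := Eqv.post [Gen.cap 1] (Eqv.pad (m := 2) (h.tr h0.cup.sy) (by decide))
  exact TE.trans ((eqv_zig Y).tr (h1.tr (eqv_zig _).sy)) h0

theorem v_v35 (X : Alg) : X.v.v = X := by
  induction X with
  | zero => rfl
  | inf => rfl
  | cr s => rfl
  | add X Y ihX ihY => simp only [Alg.v, ihX, ihY]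
  | mul X Y ihX ihY => simp only [Alg.v, ihX, ihY]

theorem te_of_trivL_inf' {m : ℕ} {Y : Alg} (h : TrivL m Y.v inf) :
    TE (add inf Y) (lo^[m] inf) := by
  have h1 := (te_of_trivL_inf h).v
  rw [lo_v] at h1
  simpa only [Alg.v, v_v35] using h1

theorem eqv_loops (m : ℕ) : Eqv 0 (Gen.cup 0 :: ((lo^[m] inf).word ++ [Gen.cap 0]))
    (List.replicate (m + 1) [Gen.cup 0, Gen.cap 0]).flatten := by
  induction m with
  | zero => exact Eqv.rfl'
  | succ m ih =>
    rw [lo_succ]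
    exact (eqv_loop.post ((lo^[m] inf).word ++ [Gen.cap 0])).tr
      (Eqv.pre (n := 0) [Gen.cup 0, Gen.cap 0] ih)

theorem eqv_numL {m : ℕ} {X : Alg} (h : TrivL m X zero) :
    Eqv 0 X.num (List.replicate (m + 1) [Gen.cup 0, Gen.cap 0]).flatten :=
  (Eqv.post [Gen.cap 0] ((te_add_zero X).cup.sy.tr h)).tr (eqv_loops m)

end Pool.Agent.Lib.MP_140c34_gt.Arb
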