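import Pool.Agent.Lib.MP_140c34_gt.Arb.Conway
import Pool.Agent.Lib.MP_140c34_gt.Arb.JetB

/-! Integer tangles, two rational tangles, three rational tangles. -/

namespace Pool.Agent.Lib.MP_140c34_gt.Arb

open Alg

theorem h_h96 (X : Alg) : X.h.h = X := by
  induction X <;> simp_all [Alg.h]

theorem Rat.vh96 {R : Alg} (h : Rat R) : TE R.v R ∧ TE R.h R := by
  induction h with
  | zero => exact ⟨TE.refl _, TE.refl _⟩
  | inf => exact ⟨TE.refl _, TE.refl _⟩
  | s e _ ih =>
    exact ⟨((TE.refl (cr e)).add ih.1).trans ((te_flype_h e _).trans (ih.2.add (TE.refl _))),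
      ih.2.add (TE.refl (cr e))⟩
  | t e _ ih =>
    exact ⟨(TE.refl (cr e)).mul ih.1, (ih.2.mul (TE.refl (cr e))).trans
      ((ih.1.symm.mul (TE.refl (cr e))).trans (te_flype_v e _).symm)⟩

theorem rel_flype96 (e : Bool) (X : Alg) : Rel (add (cr e) X) (add X.h (cr e)) := by
  refine ⟨te_flype_h e X, ?_⟩
  simp only [jet, jet_h]
  rw [addJ_comm]
  exact JEq.refl _

theorem rel_add_zero96 (X : Alg) : Rel (add X zero) X := by
  refine ⟨te_add_zero X, ?_⟩
  simp only [jet, addJ_zero]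
  exact JEq.refl _

theorem rel_zero_add96 (X : Alg) : Rel (add zero X) X := by
  refine ⟨te_zero_add X, ?_⟩
  simp only [jet]
  rw [addJ_comm, addJ_zero]
  exact JEq.refl _

/-- Induction on Rat for the pair (h, v) with the two flypes; transport along Rel by the flype
itself (mul c X ~ mul X.v c) or by TE.v. Only v is used later. -/
theorem IsRat.rel_v {X : Alg} (h : IsRat X) : Rel X.v X := by
  obtain ⟨R, hR, h⟩ := h
  refine ⟨h.1.v.trans (hR.vh96.1.trans h.1.symm), ?_⟩
  rw [jet_v]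
  exact JEq.refl _

theorem IsRat.cr_add (e : Bool) {X : Alg} (h : IsRat X) : IsRat (add (cr e) X) := by
  obtain ⟨R, hR, h⟩ := h
  have h2 : Rel R.h R := ⟨hR.vh96.2, by rw [jet_h]; exact JEq.refl _⟩
  exact ⟨_, hR.s e, ((Rel.refl _).add h).trans ((rel_flype96 e R).trans (h2.add (Rel.refl _)))⟩

/-- Horizontal twists. -/
def tw96 (e : Bool) : ℕ → Alg
  | 0 => zero
  | n + 1 => add (tw96 e n) (cr e)

/-- Vertical twists. -/
def tv96 (e : Bool) : ℕ → Alg
  | 0 => inf
  | n + 1 => mul (cr e) (tv96 e n)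

theorem sg_sq96 (e : Bool) : sg e * sg e = 1 := by cases e <;> rfl

theorem sg_ex96 (k : ℤ) : ∃ (e : Bool) (n : ℕ), n * sg e = k := by
  rcases le_total 0 k with h | h
  · exact ⟨true, k.toNat, by simp [sg, h]⟩
  · exact ⟨false, (-k).toNat, by simp [sg, h]⟩

theorem tw_rat96 (e : Bool) (n : ℕ) : IsRat (tw96 e n) := by
  induction n with
  | zero => exact isRat_zero
  | succ n ih => exact ih.add_cr e

theorem tv_rat96 (e : Bool) (n : ℕ) : IsRat (tv96 e n) := by
  induction n with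
  | zero => exact isRat_inf
  | succ n ih => exact ih.cr_mul e

theorem tw_cv96 (e : Bool) (n : ℕ) : cv (tw96 e n) = (1, n * sg e) := by
  induction n with
  | zero => simp [tw96, cv]
  | succ n ih => simp [tw96, cv, ih, add_mul]

theorem tv_cv96 (e : Bool) (n : ℕ) :
    cv (tv96 e n) = (n * sg e, 1) ∨ cv (tv96 e n) = -(n * sg e, 1) := by
  induction n with
  | zero => simp [tv96, cv]
  | succ n ih => cases e <;> rcases ih with ih | ih <;> simp [tv96, cv, ih, sg, add_comm]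

theorem int_tw96 {X : Alg} (hX : IsRat X) (h : (cv X).1 ^ 2 = 1) : ∃ e n, Rel X (tw96 e n) := by
  obtain ⟨e, n, hn⟩ := sg_ex96 ((cv X).1 * (cv X).2)
  refine ⟨e, n, conway hX (tw_rat96 e n) ?_⟩
  rw [tw_cv96, hn]
  rcases sq_eq_one_iff.1 h with h | h
  · left; ext <;> simp [h]
  · right; ext <;> simp [h]

theorem int_tv96 {X : Alg} (hX : IsRat X) (h : (cv X).2 ^ 2 = 1) : ∃ e n, Rel X (tv96 e n) := by
  obtain ⟨e, n, hn⟩ := sg_ex96 ((cv X).1 * (cv X).2)
  refine ⟨e, n, conway hX (tv_rat96 e n) ?_⟩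
  have := tv_cv96 e n
  rw [hn] at this
  rcases sq_eq_one_iff.1 h with h | h <;> rcases this with t | t <;> rw [t]
  · left; ext <;> simp [h]
  · right; ext <;> simp [h]
  · right; ext <;> simp [h]
  · left; ext <;> simp [h]

/-- A rational tangle with denominator ±1 is ~ zero + c + ... + c (conway). -/
theorem IsRat.add_int {X Y : Alg} (hX : IsRat X) (hY : IsRat Y)
    (h : (cv X).1 ^ 2 = 1 ∨ (cv Y).1 ^ 2 = 1) : IsRat (add X Y) := by
  rcases h with h | h
  · obtain ⟨e, n, r⟩ := int_tw96 hX h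
    refine IsRat.congr ?_ (r.symm.add (Rel.refl Y))
    clear r
    induction n generalizing Y with
    | zero => exact hY.congr (rel_zero_add96 Y).symm
    | succ n ih => exact (ih (hY.cr_add e)).congr (rel_add_assoc _ _ _).symm
  · obtain ⟨e, n, r⟩ := int_tw96 hY h
    refine IsRat.congr ?_ ((Rel.refl X).add r.symm)
    clear r
    induction n with
    | zero => exact hX.congr (rel_add_zero96 X).symm
    | succ n ih => exact (ih.add_cr e).congr (rel_add_assoc _ _ _)

theorem flype_tw96 (e : Bool) (n : ℕ) (Y : Alg) :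
    Rel (add (tw96 e n) Y) (add Y (tw96 e n)) ∨ Rel (add (tw96 e n) Y) (add Y.h (tw96 e n)) := by
  induction n generalizing Y with
  | zero => exact .inl ((rel_zero_add96 Y).trans (rel_add_zero96 Y).symm)
  | succ n ih =>
    have k : Rel (add (tw96 e (n + 1)) Y) (add (add (tw96 e n) Y.h) (cr e)) :=
      (rel_add_assoc _ _ _).trans
        (((Rel.refl _).add (rel_flype96 e Y)).trans (rel_add_assoc _ _ _).symm)
    rcases ih Y.h with h | h
    · exact .inr (k.trans ((h.add (Rel.refl _)).trans (rel_add_assoc _ _ _)))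
    · rw [h_h96] at h
      exact .inl (k.trans ((h.add (Rel.refl _)).trans (rel_add_assoc _ _ _)))

theorem flype_int {X : Alg} (hX : IsRat X) (h : (cv X).1 ^ 2 = 1) (Y : Alg) :
    Rel (add X Y) (add Y X) ∨ Rel (add X Y) (add Y.h X) := by
  obtain ⟨e, n, r⟩ := int_tw96 hX h
  exact (flype_tw96 e n Y).imp
    (fun k => (r.add (Rel.refl _)).trans (k.trans ((Rel.refl _).add r.symm)))
    (fun k => (r.add (Rel.refl _)).trans (k.trans ((Rel.refl _).add r.symm)))

theorem tw_LW96 (e : Bool) (n : ℕ) (x : J × J) :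
    LL (addJ x (jet (tw96 e n))) = LL x ∧ WW (addJ x (jet (tw96 e n))) = WW x := by
  induction n with
  | zero => simp [tw96, jet, addJ_zero]
  | succ n ih => simpa only [tw96, jet, ← addJ_assoc, LL_add_cr, WW_add_cr] using ih

theorem int_LW {X : Alg} (hX : IsRat X) (h : (cv X).1 ^ 2 = 1) :
    LL (jet X) = 0 ∧ WW (jet X) = 0 := by
  obtain ⟨e, n, r⟩ := int_tw96 hX h
  have k := tw_LW96 e n zeroJ
  rw [addJ_comm, addJ_zero] at k
  have z : LL zeroJ = 0 ∧ WW zeroJ = 0 := by simp [LL, WW, VV, CC, mm, zeroJ]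
  rw [← abs_eq_zero, r.2.LL_abs, r.2.WW_eq, k.1, k.2, z.1, z.2]
  simp

theorem det_rel96 {X X' r r' : Alg} (h : Rel X X') (h' : Rel r r') : det X' r' ^ 2 = det X r ^ 2 := by
  rcases h.2.cv_eq with a | a <;> rcases h'.2.cv_eq with b | b <;> simp only [det, a, b] <;>
    simp only [Prod.fst_neg, Prod.snd_neg] <;> ring

theorem brat_rel96 {X X' r r' : Alg} (h : Rel X X') (h' : Rel r r')
    (k : C2 (jet X') (jet r') = 0 ∧ Triv X' r') : C2 (jet X) (jet r) = 0 ∧ Triv X r :=
  ⟨(h.2.C2_eq h'.2).trans k.1, k.2.of_te (h.1.add h'.1).symm⟩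

theorem brat_zero96 (e : Bool) (n : ℕ) :
    C2 (jet zero) (jet (tv96 e n)) = 0 ∧ Triv zero (tv96 e n) := by
  induction n with
  | zero => exact ⟨by simp [tv96, jet, C2, CC, ncl, addJ, zeroJ, infJ], triv_of_inf (te_zero_add _)⟩
  | succ n ih =>
    have k := brat_rel96 (X := mul (cr e) zero) ⟨te_cr_mul_zero e, jeq_cr_mul_zero e⟩
      (Rel.refl _) ih
    exact ⟨(C2_t e _ _).symm.trans k.1, (triv_t e _ _).1 k.2⟩

theorem inf_tw96 (e : Bool) (n : ℕ) : Rel (add inf (tw96 e n)) inf := by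
  induction n with
  | zero => exact rel_add_zero96 _
  | succ n ih =>
    exact (rel_add_assoc _ _ _).symm.trans
      ((ih.add (Rel.refl _)).trans ⟨te_inf_add_cr e, jeq_inf_add_cr e⟩)

/-- Induction on Rat X for all r (move the twist to r by assoc + cr_add, by triv_t + C2_t);
X = inf: r is an integer, add inf r ~ inf; X = zero: r ~ c * ... * c * inf. -/
theorem brat {X r : Alg} (hX : IsRat X) (hr : IsRat r) (h : det X r ^ 2 = 1) :
    C2 (jet X) (jet r) = 0 ∧ Triv X r := by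
  obtain ⟨R, hR, k⟩ := hX
  refine brat_rel96 k (Rel.refl r) ?_
  rw [← det_rel96 k (Rel.refl r)] at h
  clear k
  induction hR generalizing r with
  | zero =>
    obtain ⟨e, n, k⟩ := int_tv96 hr (by simpa [det, cv] using h)
    exact brat_rel96 (Rel.refl _) k (brat_zero96 e n)
  | inf =>
    obtain ⟨e, n, k⟩ := int_tw96 hr (by simpa [det, cv] using h)
    have l := ((Rel.refl inf).add k).trans (inf_tw96 e n)
    exact ⟨l.2.CC_ncl.trans (by simp [jet, CC, ncl, infJ]), triv_of_inf l.1⟩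
  | s e _ ih =>
    have k := ih (hr.cr_add e) (by rw [← h]; simp only [det, cv]; ring)
    exact ⟨(C2_assoc _ _ _).trans k.1, k.2.of_te (te_add_assoc _ _ _).symm⟩
  | t e _ ih =>
    have k := ih (hr.cr_mul e) (by rw [← h]; simp only [det, cv]; ring)
    exact ⟨(C2_t e _ _).trans k.1, (triv_t e _ _).2 k.2⟩

theorem near96 (p q : ℤ) (hq : q ≠ 0) : ∃ k : ℤ, 2 * |p + q * k| ≤ |q| := by
  have h1 := Int.emod_nonneg p hq
  have h2 := Int.emod_lt_abs p hq
  have h3 := Int.emod_add_mul_ediv p q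
  by_cases h : 2 * (p % q) ≤ |q|
  · refine ⟨-(p / q), ?_⟩
    rw [show p + q * -(p / q) = p % q by linear_combination -h3, abs_of_nonneg h1]
    exact h
  · rcases abs_cases q with ⟨a, -⟩ | ⟨a, -⟩
    · refine ⟨-(p / q) - 1, ?_⟩
      rw [show p + q * (-(p / q) - 1) = p % q - |q| by linear_combination a - h3,
        abs_of_nonpos (by omega)]
      omega
    · refine ⟨-(p / q) + 1, ?_⟩
      rw [show p + q * (-(p / q) + 1) = p % q - |q| by linear_combination a - h3,
        abs_of_nonpos (by omega)]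
      omega

/-- Strong induction on |q|: twist so that 1 ≤ |p|, 2|p| ≤ |q|, use the hypothesis for X.d and
bound_step (rot of rot is -x). -/
theorem rat_bound {X : Alg} (hX : IsRat X) (h : (cv X).1 ≠ 0) :
    |LL (jet X)| ≤ ((cv X).1 : ℚ) ^ 4 / 12 ∧ -((cv X).1 : ℚ) ^ 4 / 12 ≤ WW (jet X) := by
  induction hm : (cv X).1.natAbs using Nat.strong_induction_on generalizing X with
  | _ m ih =>
  by_cases h1 : (cv X).1 ^ 2 = 1
  · obtain ⟨a, b⟩ := int_LW hX h1
    have : (0 : ℚ) ≤ ((cv X).1 : ℚ) ^ 4 := by positivity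
    rw [a, b, abs_zero]
    constructor <;> linarith
  obtain ⟨k, hk⟩ := near96 (cv X).2 (cv X).1 h
  obtain ⟨e, n, rfl⟩ := sg_ex96 k
  have hY : IsRat (add X (tw96 e n)) := hX.add_int (tw_rat96 e n) (.inr (by simp [tw_cv96]))
  have c1 : (cv (add X (tw96 e n))).1 = (cv X).1 := by simp [cv, tw_cv96]
  have c2 : (cv (add X (tw96 e n))).2 = (cv X).2 + (cv X).1 * (n * sg e) := by simp [cv, tw_cv96]
  have lw := tw_LW96 e n (jet X)
  rw [← c2] at hk
  change LL (jet (add X (tw96 e n))) = _ ∧ WW (jet (add X (tw96 e n))) = _ at lw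
  generalize add X (tw96 e n) = Y at hY c1 c2 lw hk
  rw [← lw.1, ← lw.2, ← c1]
  rw [← c1] at h h1 hk hm
  have p0 : (cv Y).2 ≠ 0 := fun p0 => by
    have := coprime_rat hY
    rw [p0, isCoprime_zero_right, Int.isUnit_iff] at this
    rcases this with a | a <;> simp [a] at h1
  have d1 : |(cv Y.d).1| = |(cv Y).2| := by rcases cv_d Y with a | a <;> simp [a]
  have d2 : |(cv Y.d).2| = |(cv Y).1| := by rcases cv_d Y with a | a <;> simp [a]
  have d3 : ((cv Y.d).2 : ℚ) ^ 4 = ((cv Y).1 : ℚ) ^ 4 := by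
    rcases cv_d Y with a | a <;> simp [a] <;> ring
  have p1 : 0 < |(cv Y).2| := abs_pos.2 p0
  have i := ih (cv Y.d).1.natAbs (by
    rw [← hm]
    rw [← Int.natCast_natAbs, ← Int.natCast_natAbs] at d1 hk
    rw [← Int.natCast_natAbs] at p1
    omega) hY.d (by rw [← abs_pos, d1]; exact p1) rfl
  have b := bound_step (jet Y.d) _ _ (jet_q _) (jet_p _) (mu_rat hY.d) (by omega) (by omega)
    i.1 i.2 fun a => int_LW hY.d (by rw [← sq_abs, a]; rfl)
  have j := jeq_d Y.d
  rw [d_d] at j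
  rw [j.LL_abs, j.WW_eq, ← d3]
  exact b

theorem monte_rat {X Y Z : Alg} (hX : IsRat X) (hY : IsRat Y) (hZ : IsRat Z)
    (h : det (add X Y) Z ^ 2 = 1) :
    0 ≤ C2 (jet (add X Y)) (jet Z) ∧ (C2 (jet (add X Y)) (jet Z) = 0 →
      (cv X).1 ^ 2 = 1 ∨ (cv Y).1 ^ 2 = 1 ∨ (cv Z).1 ^ 2 = 1) := by
  by_cases h1 : (cv X).1 ^ 2 = 1 ∨ (cv Y).1 ^ 2 = 1
  · exact ⟨(brat (hX.add_int hY h1) hZ h).1.ge, fun _ => by tauto⟩
  by_cases h2 : (cv Z).1 ^ 2 = 1
  · have k := brat hX (hY.add_int hZ (.inr h2)) (by rw [← h]; simp only [det, cv]; ring)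
    exact ⟨((C2_assoc _ _ _).trans k.1).ge, fun _ => by tauto⟩
  rw [not_or] at h1
  have hd : (ncl (addJ (addJ (jet X) (jet Y)) (jet Z))).c0 ^ 2 = 1 := by
    have := ncl_c0 (add X Y) Z
    simp only [jet] at this
    rw [this]
    exact_mod_cast h
  simp only [det, cv] at h
  have bX := fun n => rat_bound hX n
  have bY := fun n => rat_bound hY n
  have bZ := fun n => rat_bound hZ n
  have qX := jet_q X
  have qY := jet_q Y
  have qZ := jet_q Z
  generalize (cv X).1 = a, (cv Y).1 = b, (cv Z).1 = c, (cv X).2 = p, (cv Y).2 = q,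
    (cv Z).2 = r at *
  have hab : IsCoprime a b := ⟨((p * b + a * q) * c + a * b * r) * (q * c + b * r),
    ((p * b + a * q) * c + a * b * r) * (p * c), by linear_combination h⟩
  have hac : IsCoprime a c := ⟨((p * b + a * q) * c + a * b * r) * (q * c + b * r),
    ((p * b + a * q) * c + a * b * r) * (p * b), by linear_combination h⟩
  have hbc : IsCoprime b c := ⟨((p * b + a * q) * c + a * b * r) * (p * c + a * r),
    ((p * b + a * q) * c + a * b * r) * (a * q), by linear_combination h⟩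
  have two : ∀ u w : ℤ, IsCoprime u w → u ^ 2 ≠ 1 → w ^ 2 ≠ 1 → u ≠ 0 ∧ 2 ≤ |u| := by
    intro u w k hu hw
    have u0 : u ≠ 0 := by
      rintro rfl
      rw [isCoprime_zero_left, Int.isUnit_iff] at k
      rcases k with a | a <;> simp [a] at hw
    have := abs_pos.2 u0
    have : |u| ≠ 1 := fun a => hu (by rw [← sq_abs, a]; rfl)
    exact ⟨u0, by omega⟩
  obtain ⟨a0, a2⟩ := two a b hab h1.1 h1.2
  obtain ⟨b0, b2⟩ := two b c hbc h1.2 h2
  obtain ⟨c0, c2⟩ := two c a hac.symm h2 h1.1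
  have k := monte _ _ _ a b c qX qY qZ (mu_rat hX) (mu_rat hY) (mu_rat hZ) (bX a0).1 (bY b0).1
    (bZ c0).1 (bX a0).2 (bY b0).2 (bZ c0).2 a2 b2 c2 hab hac hbc hd
  exact ⟨k.le, fun z => absurd z k.ne'⟩

end Pool.Agent.Lib.MP_140c34_gt.Arb
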