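import Pool.Agent.Lib.MP_140c34_gt.Arb.QRat
import Pool.Agent.Lib.MP_140c34_gt.Arb.QTop
import Pool.Agent.Lib.MP_140c34_gt.Arb.QIn
import Pool.Agent.Lib.MP_140c34_gt.Arb.RatB

/-! Two and three rational tangles, two essential tangles. -/

namespace Pool.Agent.Lib.MP_140c34_gt.Arb

open Alg

theorem ev1_PQ79 (X r : Alg) : ev1 (PQ X r) = det X r := by
  rw [PQ, ev1_nq, cl_qv, cl_qv, det]

theorem CC_PQ79 (X r : Alg) : CC (pi (PQ X r)) = C2 (jet X) (jet r) :=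
  (CC_nq _ _).trans ((jeq_jet X).C2_eq (jeq_jet r)).symm

theorem fine_rel79 {X X' r r' : Alg} (h : Rel2 (add X r) (add X' r'))
    (k : Fine (PQ X' r') fun m => TrivL m X' r') : Fine (PQ X r) fun m => TrivL m X r := by
  obtain ⟨w, hw, e⟩ := PQ_congr h.2
  rw [e]
  exact (k.mono fun m t => t.of_te h.1.symm).un hw

theorem fine_vac79 {P : Lam} {A : ℕ → Prop} (h0 : ev1 P ≠ 0) (h1 : ev1 P ^ 2 ≠ 1) : Fine P A := by
  rintro (_ | m) P' rfl h
  · rw [pow_zero, one_mul] at h1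
    exact absurd h h1
  · exact absurd (by rw [pow_succ', map_mul, map_mul, ev1_sq, zero_mul, zero_mul]) h0

theorem fine_t79 (e : Bool) (Z r : Alg) :
    (Fine (PQ (mul (cr e) Z) r) fun m => TrivL m (mul (cr e) Z) r) ↔
      Fine (PQ Z (mul (cr e) r)) fun m => TrivL m Z (mul (cr e) r) := by
  rw [show PQ (mul (cr e) Z) r = PQ Z (mul (cr e) r) from nq_t e _ _]
  exact ⟨fun h => h.mono fun m t => (trivL_t m e Z r).1 t,
    fun h => h.mono fun m t => (trivL_t m e Z r).2 t⟩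

theorem tv_rat79 (e : Bool) (n : ℕ) : IsRat2 (tv96 e n) := by
  induction n with
  | zero => exact isRat2_inf
  | succ n ih => exact ih.cr_mul e

theorem int_tv79 {X : Alg} (hX : IsRat2 X) (h : (cv X).2 ^ 2 = 1) : ∃ e n, Rel2 X (tv96 e n) := by
  obtain ⟨e, n, hn⟩ := sg_ex96 ((cv X).1 * (cv X).2)
  refine ⟨e, n, conway2 hX (tv_rat79 e n) ?_⟩
  have := tv_cv96 e n
  rw [hn] at this
  rcases sq_eq_one_iff.1 h with h | h <;> rcases this with t | t <;> rw [t]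
  · left; ext <;> simp [h]
  · right; ext <;> simp [h]
  · right; ext <;> simp [h]
  · left; ext <;> simp [h]

theorem IsRat2.rel_zero79 {X : Alg} (hX : IsRat2 X) (h : (cv X).2 = 0) : Rel2 X zero := by
  refine conway2 hX isRat2_zero ?_
  have c := coprime_rat hX.isRat
  rw [h, isCoprime_zero_right, Int.isUnit_iff] at c
  rcases c with c | c
  · left; ext <;> simp [cv, h, c]
  · right; ext <;> simp [cv, h, c]

theorem PQ_inf_inf79 : PQ inf inf = sq := by simp [PQ, qv, nq, addQ, infQ]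

theorem fine_zero_tv79 (e : Bool) (n : ℕ) :
    Fine (PQ zero (tv96 e n)) fun m => TrivL m zero (tv96 e n) := by
  induction n with
  | zero =>
    rw [show PQ zero (tv96 e 0) = 1 by simp [tv96, PQ, qv, nq, addQ, infQ, zeroQ]]
    exact fine_un .one (trivL_of_inf (te_zero_add _))
  | succ n ih => exact (fine_t79 e _ _).1 (fine_rel79 ((rel2_cr_mul_zero79 e).add (.refl _)) ih)

/-- Induction on the twists, for all closures. -/
theorem clo_rat {X : Alg} (hX : IsRat2 X) : Clo X := by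
  obtain ⟨R, hR, k⟩ := hX
  intro r hr
  refine fine_rel79 (k.add (.refl r)) ?_
  clear k
  induction hR generalizing r with
  | zero =>
    have d : ev1 (PQ zero r) = (cv r).2 := by simp [ev1_PQ79, det, cv]
    by_cases h0 : (cv r).2 = 0
    · refine fine_rel79 ((Rel2.refl _).add (hr.rel_zero79 h0)) ?_
      rw [show PQ zero zero = -LaurentPolynomial.T (-1) * sq by simp [PQ, qv, nq, addQ, zeroQ]]
      exact (fine_sq trivL_zero_zero).un ⟨-1, .inr rfl⟩
    by_cases h1 : (cv r).2 ^ 2 = 1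
    · obtain ⟨e, n, k⟩ := int_tv79 hr h1
      exact fine_rel79 ((Rel2.refl _).add k) (fine_zero_tv79 e n)
    · exact fine_vac79 (d ▸ h0) (d ▸ h1)
  | inf =>
    have d : ev1 (PQ inf r) = (cv r).1 := by simp [ev1_PQ79, det, cv]
    by_cases h0 : (cv r).1 = 0
    · refine fine_rel79 ((Rel2.refl _).add (hr.rel_inf h0)) ?_
      rw [PQ_inf_inf79]
      exact fine_sq trivL_inf_inf
    by_cases h1 : (cv r).1 ^ 2 = 1
    · refine fine_rel79 ((rel2_inf_add hr h1).trans (rel2_add_zero inf).symm) ?_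
      rw [show PQ inf zero = 1 by simp [PQ, qv, nq, addQ, infQ, zeroQ]]
      exact fine_un .one (trivL_of_inf (te_add_zero _))
    · exact fine_vac79 (d ▸ h0) (d ▸ h1)
  | s e _ ih => exact fine_rel79 (rel2_add_assoc _ _ _) (ih _ (hr.cr_add e))
  | t e _ ih => exact (fine_t79 e _ _).2 (ih _ (hr.cr_mul e))
theorem rat_den_ne {X : Alg} (hX : IsRat2 X) : PQ X inf ≠ 0 := by
  by_cases h0 : (cv X).1 = 0
  · obtain ⟨w, hw, e⟩ := PQ_congr ((hX.rel_inf h0).add (.refl inf)).2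
    rw [e, PQ_inf_inf79]
    exact mul_ne_zero hw.ne_zero sq_ne_zero
  · intro h
    have d := ev1_PQ79 X inf
    rw [h, map_zero] at d
    exact h0 (by simpa [det, cv] using d.symm)

theorem three79 {u v w : ℤ} (hu : 2 ≤ u) (hv : 2 ≤ v) (hw : 3 ≤ w) :
    2 * (u * v * w) < (u * v * w) ^ 2 - (v * w) ^ 2 - (u * w) ^ 2 - (u * v) ^ 2 := by
  have a1 : 4 * (v * w) ^ 2 ≤ u ^ 2 * (v * w) ^ 2 :=
    mul_le_mul_of_nonneg_right (by nlinarith) (sq_nonneg _)
  have a2 : 4 * (u * w) ^ 2 ≤ v ^ 2 * (u * w) ^ 2 :=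
    mul_le_mul_of_nonneg_right (by nlinarith) (sq_nonneg _)
  have a3 : 9 * (u * v) ^ 2 ≤ w ^ 2 * (u * v) ^ 2 :=
    mul_le_mul_of_nonneg_right (by nlinarith) (sq_nonneg _)
  have a4 : 4 ≤ u * v := by nlinarith
  have a5 : 12 ≤ u * v * w := by nlinarith
  have a6 : 12 * (u * v * w) ≤ u * v * w * (u * v * w) :=
    mul_le_mul_of_nonneg_right a5 (by linarith)
  linarith

theorem two79 {a b c k : ℤ} (ha : 2 ≤ |a|) (hb : 2 ≤ |b|) (hc : 2 ≤ |c|) (hk : |k| ≤ 1)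
    (h : 2 * (a * b * c) * k = (a * b * c) ^ 2 - (b * c) ^ 2 - (a * c) ^ 2 - (a * b) ^ 2) :
    |a| = 2 ∧ |b| = 2 ∧ |c| = 2 := by
  have l : (|a| * |b| * |c|) ^ 2 - (|b| * |c|) ^ 2 - (|a| * |c|) ^ 2 - (|a| * |b|) ^ 2 ≤
      2 * (|a| * |b| * |c|) := by
    simp only [← abs_mul, sq_abs]
    rw [← h]
    refine (le_abs_self _).trans ?_
    rw [abs_mul, abs_mul, abs_two]
    exact mul_le_of_le_one_right (by positivity) hk
  generalize |a| = u, |b| = v, |c| = w at *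
  refine ⟨by_contra fun n => ?_, by_contra fun n => ?_, by_contra fun n => ?_⟩
  · linarith [three79 hb hc (show 3 ≤ u by omega)]
  · linarith [three79 ha hc (show 3 ≤ v by omega)]
  · linarith [three79 ha hb (show 3 ≤ w by omega)]

theorem odd79 {a p : ℤ} (ha : |a| = 2) (h : IsCoprime a p) : p % 2 = 1 := by
  by_contra n
  have := h.isUnit_of_dvd' (show (2 : ℤ) ∣ a from ha ▸ (abs_dvd _ _).2 dvd_rfl)
    (show (2 : ℤ) ∣ p by omega)
  rw [Int.isUnit_iff] at this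
  omega

/-- Three rational tangles with denominators at least two. -/
theorem monte2 {X Y Z : Alg} (hX : IsRat2 X) (hY : IsRat2 Y) (hZ : IsRat2 Z)
    (x2 : 2 ≤ |(cv X).1|) (y2 : 2 ≤ |(cv Y).1|) (z2 : 2 ≤ |(cv Z).1|) {m : ℕ} {P : Lam}
    (h : PQ (add X Y) Z = sq ^ m * P) (hP : ev1 P ^ 2 = 1) : 0 < CC (pi P) := by
  have d := ev1_PQ79 (add X Y) Z
  rcases m with _ | m
  · rw [pow_zero, one_mul] at h
    subst h
    obtain ⟨k1, k2⟩ := monte_rat hX.isRat hY.isRat hZ.isRat (d ▸ hP)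
    rw [CC_PQ79]
    refine lt_of_le_of_ne k1 fun e => ?_
    rcases k2 e.symm with t | t | t <;> rw [← sq_abs] at t <;> nlinarith
  exfalso
  rw [pow_succ', mul_assoc] at h
  rw [h, map_mul, ev1_sq, zero_mul] at d
  have hk : |ev1 (sq ^ m * P)| ≤ 1 := by
    rcases m with _ | m
    · rw [pow_zero, one_mul, ← sq_le_one_iff_abs_le_one, hP]
    · rw [pow_succ', mul_assoc, map_mul, ev1_sq, zero_mul]
      simp
  have n := ncl_jq (addQ (qv (add X Y)) (qv Z))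
  rw [show nq (addQ (qv (add X Y)) (qv Z)) = sq * (sq ^ m * P) from h] at n
  have n0 := congrArg J.c0 n
  have n1 := congrArg J.c1 n
  simp only [J.mul_c0, J.mul_c1, pi_c0, pi_sq_mul_c1, map_mul ev1 sq, ev1_sq, ncl, J.sub_c0,
    J.sub_c1, eta_c0, eta_c1, uJ] at n0 n1
  have mX : mu (jq (qv X)) = 0 := by linarith [nuQ_rat hX, show nuQ (qv X) = _ - 1 from rfl]
  have mY : mu (jq (qv Y)) = 0 := by linarith [nuQ_rat hY, show nuQ (qv Y) = _ - 1 from rfl]
  have mZ : mu (jq (qv Z)) = 0 := by linarith [nuQ_rat hZ, show nuQ (qv Z) = _ - 1 from rfl]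
  have e1 := mu_addJ (jq (qv X)) (jq (qv Y))
  have e2 := mu_addJ (addJ (jq (qv X)) (jq (qv Y))) (jq (qv Z))
  have e3 : (addJ (jq (qv X)) (jq (qv Y))).1.c0 = (cv X).1 * (cv Y).1 := by
    simp only [addJ, J.mul_c0, jq_q, cl_qv]
  have e4 : (addJ (addJ (jq (qv X)) (jq (qv Y))) (jq (qv Z))).1.c0 =
      (cv X).1 * (cv Y).1 * (cv Z).1 := by
    rw [← e3]
    simp only [addJ, J.mul_c0, jq_q, cl_qv]
  rw [e1, e3, mX, mY, mZ, mu, mm, e4] at e2
  simp only [jq_q, cl_qv] at e2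
  rw [jq_add, show qv (add X Y) = addQ (qv X) (qv Y) from rfl, jq_add] at n0 n1
  rw [e4] at n1
  generalize addJ (addJ (jq (qv X)) (jq (qv Y))) (jq (qv Z)) = s at n0 n1 e2
  have s0 : s.2.c0 = 0 := by simpa using n0
  rw [s0] at e2
  obtain ⟨a, b, c⟩ := two79 x2 y2 z2 hk (by
    refine Int.cast_injective (α := ℚ) ?_
    push_cast at n1 ⊢
    linear_combination e2 - 2 * ((cv X).1 * (cv Y).1 * (cv Z).1 : ℚ) * n1)
  have p := odd79 a (coprime_rat hX.isRat)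
  have q := odd79 b (coprime_rat hY.isRat)
  have r := odd79 c (coprime_rat hZ.isRat)
  simp only [det, cv] at d
  rcases (abs_eq (by norm_num)).1 a with a | a <;> rcases (abs_eq (by norm_num)).1 b with b | b <;>
    rcases (abs_eq (by norm_num)).1 c with c | c <;> rw [a, b, c] at d <;> omega

theorem rat_sign79 {x : Lam × Lam} (h : IsCoprime (cl x).1 (cl x).2) : ∃ R, IsRat2 R ∧ ∃ s : ℤ,
    s ^ 2 = 1 ∧ (cv R).1 = s * (cl x).1 ∧ (cv R).2 = s * (cl x).2 := by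
  obtain ⟨R, hR, e | e⟩ := exists_rat2 _ _ h
  · exact ⟨R, hR, 1, rfl, by simp [e], by simp [e]⟩
  · exact ⟨R, hR, -1, rfl, by simp [e], by simp [e]⟩

/-- Two essential tangles. -/
theorem pos_in_in {x y : Lam × Lam} (hx : InV x) (hy : InV y)
    (h1 : ∀ R, IsRat2 R → ev1 (nq (addQ x (qv R))) ^ 2 = 1 → 0 ≤ CC (pi (nq (addQ x (qv R)))))
    (h2 : ∀ R, IsRat2 R → ev1 (nq (addQ (qv R) y)) ^ 2 = 1 → 0 ≤ CC (pi (nq (addQ (qv R) y))))
    {m : ℕ} {P : Lam} (h : nq (addQ x y) = sq ^ m * P) (hP : ev1 P ^ 2 = 1) :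
    0 < CC (pi P) := by
  obtain rfl := in_in_par hx hy h hP
  rw [pow_zero, one_mul] at h
  subst h
  rw [ev1_nq] at hP
  obtain ⟨R, hR, s, hs, r1, r2⟩ := rat_sign79 (x := x)
    ⟨((cl x).2 * (cl y).1 + (cl x).1 * (cl y).2) * (cl y).2,
      ((cl x).2 * (cl y).1 + (cl x).1 * (cl y).2) * (cl y).1, by linear_combination hP⟩
  obtain ⟨U, hU, t, ht, u1, u2⟩ := rat_sign79 (x := y)
    ⟨((cl x).2 * (cl y).1 + (cl x).1 * (cl y).2) * (cl x).2,
      ((cl x).2 * (cl y).1 + (cl x).1 * (cl y).2) * (cl x).1, by linear_combination hP⟩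
  have k1 := h1 U hU (by rw [ev1_nq, cl_qv, u1, u2]; linear_combination t ^ 2 * hP + ht)
  have k2 := h2 R hR (by rw [ev1_nq, cl_qv, r1, r2]; linear_combination s ^ 2 * hP + hs)
  have k3 := (brat hR.isRat hU.isRat (by
    rw [det, r1, r2, u1, u2]
    linear_combination s ^ 2 * t ^ 2 * hP + t ^ 2 * hs + ht)).1
  rw [(jeq_jet R).C2_eq (jeq_jet U)] at k3
  have sp := spliceJ (jq x) (jq (qv R)) (jq y) (jq (qv U)) s t (by exact_mod_cast hs)
    (by exact_mod_cast ht) (by rw [jq_q, jq_q, cl_qv, r1, Int.cast_mul])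
    (by rw [jq_p, jq_p, cl_qv, r2, Int.cast_mul]) (by rw [jq_q, jq_q, cl_qv, u1, Int.cast_mul])
    (by rw [jq_p, jq_p, cl_qv, u2, Int.cast_mul])
  have mR : mu (jq (qv R)) = 0 := by linarith [nuQ_rat hR, show nuQ (qv R) = _ - 1 from rfl]
  have mU : mu (jq (qv U)) = 0 := by linarith [nuQ_rat hU, show nuQ (qv U) = _ - 1 from rfl]
  have mx : 0 < mu (jq x) := by linarith [hx.1, show nuQ x = _ - 1 from rfl]
  have my : 0 < mu (jq y) := by linarith [hy.1, show nuQ y = _ - 1 from rfl]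
  rw [CC_nq] at k1 k2 ⊢
  rw [mR, mU, sub_zero, sub_zero] at sp
  linarith [mul_pos mx my]

end Pool.Agent.Lib.MP_140c34_gt.Arb
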