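import Pool.Agent.Lib.MP_140c34_gt.Arb.Top
import Pool.Agent.Lib.MP_140c34_gt.Arb.QA
import Pool.Agent.Lib.MP_140c34_gt.Arb.RatB

/-! Conway.lean and the first half of RatB.lean again, with QEq in place of JEq. -/

namespace Pool.Agent.Lib.MP_140c34_gt.Arb

open Alg

theorem Rel2.refl (X : Alg) : Rel2 X X := ⟨.refl X, .refl _⟩
theorem Rel2.symm {X Y : Alg} (h : Rel2 X Y) : Rel2 Y X := ⟨h.1.symm, h.2.symm⟩
theorem Rel2.trans {X Y Z : Alg} (h : Rel2 X Y) (h' : Rel2 Y Z) : Rel2 X Z :=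
  ⟨h.1.trans h'.1, h.2.trans h'.2⟩
theorem Rel2.add {X X' Y Y' : Alg} (h : Rel2 X X') (h' : Rel2 Y Y') :
    Rel2 (add X Y) (add X' Y') := ⟨h.1.add h'.1, h.2.add h'.2⟩
theorem Rel2.mul {X X' Y Y' : Alg} (h : Rel2 X X') (h' : Rel2 Y Y') :
    Rel2 (mul X Y) (mul X' Y') := ⟨h.1.mul h'.1, h.2.mul h'.2⟩

theorem qeq_of_eq79 {x y : Lam × Lam} (h : x = y) : QEq x y := h ▸ .refl x

theorem rel2_add_assoc (X Y Z : Alg) : Rel2 (add (add X Y) Z) (add X (add Y Z)) :=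
  ⟨te_add_assoc X Y Z, qeq_of_eq79 (addQ_assoc _ _ _)⟩
theorem rel2_del (e : Bool) (X : Alg) : Rel2 (X.del e) X.d :=
  ⟨te_del e X, (qeq_del e X).trans (qeq_d X).symm⟩

theorem rel2_mul_assoc79 (X Y Z : Alg) : Rel2 (mul (mul X Y) Z) (mul X (mul Y Z)) :=
  ⟨te_mul_assoc X Y Z, qeq_of_eq79 (mulQ_assoc _ _ _)⟩
theorem rel2_add_zero (X : Alg) : Rel2 (add X zero) X :=
  ⟨te_add_zero X, qeq_of_eq79 (addQ_zero _)⟩
theorem rel2_zero_add (X : Alg) : Rel2 (add zero X) X :=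
  ⟨te_zero_add X, qeq_of_eq79 ((addQ_comm _ _).trans (addQ_zero _))⟩
theorem rel2_mul_inf79 (X : Alg) : Rel2 (mul X inf) X :=
  ⟨te_mul_inf X, qeq_of_eq79 (mulQ_inf _)⟩
theorem rel2_inf_mul79 (X : Alg) : Rel2 (mul inf X) X :=
  ⟨te_inf_mul X, qeq_of_eq79 ((mulQ_comm _ _).trans (mulQ_inf _))⟩
theorem rel2_inf_add_cr79 (e : Bool) : Rel2 (add inf (cr e)) inf :=
  ⟨te_inf_add_cr e, qeq_inf_add_cr e⟩
theorem rel2_cr_mul_zero79 (e : Bool) : Rel2 (mul (cr e) zero) zero :=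
  ⟨te_cr_mul_zero e, qeq_cr_mul_zero e⟩
theorem rel2_cr_add_cr79 (e : Bool) : Rel2 (add (cr e) (cr (!e))) zero :=
  ⟨te_cr_add_cr e, qeq_cr_add_cr e⟩
theorem rel2_cr_mul_cr79 (e : Bool) : Rel2 (mul (cr e) (cr (!e))) inf :=
  ⟨te_cr_mul_cr e, qeq_cr_mul_cr e⟩

/-- opposite twists on the right cancel -/
theorem rel2_ss79 (e : Bool) (X : Alg) : Rel2 (add (add X (cr e)) (cr (!e))) X :=
  (rel2_add_assoc _ _ _).trans (((Rel2.refl X).add (rel2_cr_add_cr79 e)).trans (rel2_add_zero X))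

/-- opposite twists at the bottom cancel -/
theorem rel2_tt79 (e : Bool) (X : Alg) : Rel2 (mul (cr (!e)) (mul (cr e) X)) X := by
  have := rel2_cr_mul_cr79 (!e)
  rw [Bool.not_not] at this
  exact (rel2_mul_assoc79 _ _ _).symm.trans ((this.mul (.refl X)).trans (rel2_inf_mul79 X))

theorem Rel2.d79 {X Y : Alg} (h : Rel2 X Y) : Rel2 X.d Y.d :=
  (rel2_del true X).symm.trans (((Rel2.refl _).mul (((Rel2.refl _).mul h).add (.refl _))).trans
    (rel2_del true Y))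

theorem IsRat2.congr {X Y : Alg} (h : IsRat2 X) (h' : Rel2 X Y) : IsRat2 Y :=
  let ⟨R, a, b⟩ := h
  ⟨R, a, h'.symm.trans b⟩
theorem isRat2_zero : IsRat2 zero := ⟨_, .zero, .refl _⟩
theorem isRat2_inf : IsRat2 inf := ⟨_, .inf, .refl _⟩
theorem isRat2_cr (e : Bool) : IsRat2 (cr e) := ⟨_, .s e .zero, (rel2_zero_add _).symm⟩
theorem IsRat2.add_cr (e : Bool) {X : Alg} (h : IsRat2 X) : IsRat2 (add X (cr e)) :=
  let ⟨_, a, b⟩ := h
  ⟨_, a.s e, b.add (.refl _)⟩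
theorem IsRat2.cr_mul (e : Bool) {X : Alg} (h : IsRat2 X) : IsRat2 (mul (cr e) X) :=
  let ⟨_, a, b⟩ := h
  ⟨_, a.t e, (Rel2.refl _).mul b⟩
theorem IsRat2.d {X : Alg} (h : IsRat2 X) : IsRat2 X.d :=
  let ⟨_, a, b⟩ := h
  ⟨_, a.d79, b.d79⟩

variable {e : Bool} {q p : ℕ} {Z : Alg}

theorem Cn79.can2 (h : Cn79 e q p Z) : q.Coprime p ∧ Rel2 Z (can79 e q p) := by
  induction h with
  | zero => exact ⟨by simp, can79_zero e 1 ▸ .refl _⟩
  | inf => exact ⟨by simp, can79_inf e one_ne_zero ▸ .refl _⟩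
  | @s q p Z _ ih =>
    refine ⟨by simpa using ih.1, (ih.2.add (.refl _)).trans ?_⟩
    rcases Nat.eq_zero_or_pos q with rfl | hq
    · rw [add_zero, can79_inf e (by rintro rfl; simpa using ih.1)]
      exact rel2_inf_add_cr79 e
    · rw [can79.eq_1 e q (p + q), if_neg (by omega), if_neg (by omega), if_pos (by omega),
        Nat.add_sub_cancel]
      exact .refl _
  | @t q p Z _ ih =>
    refine ⟨by simpa using ih.1, ((Rel2.refl _).mul ih.2).trans ?_⟩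
    rcases Nat.eq_zero_or_pos p with rfl | hp
    · rw [can79_zero, can79_zero]
      exact rel2_cr_mul_zero79 e
    rcases Nat.eq_zero_or_pos q with rfl | hq
    · rw [zero_add, can79_inf e hp.ne', can79, if_neg hp.ne', if_neg hp.ne', if_pos le_rfl,
        Nat.sub_self, can79_zero]
      exact (rel2_mul_inf79 _).trans (rel2_zero_add _).symm
    · rw [can79.eq_1 e (q + p) p, if_neg (by omega), if_neg (by omega), if_neg (by omega),
        Nat.add_sub_cancel]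
      exact .refl _

theorem Cn79.s2 (h : Cn79 e q p Z) (f : Bool) :
    ∃ e q p Y, Cn79 e q p Y ∧ Rel2 (add Z (cr f)) Y := by
  rcases Bool.eq_or_eq_not f e with rfl | rfl
  · exact ⟨_, _, _, _, h.s, .refl _⟩
  cases h with
  | zero => exact ⟨_, _, _, _, .s .zero, .refl _⟩
  | inf => exact ⟨_, _, _, _, .s .inf, .refl _⟩
  | s h => exact ⟨_, _, _, _, h, rel2_ss79 _ _⟩
  | t h => exact ⟨_, _, _, _, h.d.t, (rel2_tt79 e _).symm.trans ((Rel2.refl _).mul (rel2_del e _))⟩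

theorem Cn79.t2 (h : Cn79 e q p Z) (f : Bool) :
    ∃ e q p Y, Cn79 e q p Y ∧ Rel2 (mul (cr f) Z) Y := by
  rcases Bool.eq_or_eq_not f e with rfl | rfl
  · exact ⟨_, _, _, _, h.t, .refl _⟩
  cases h with
  | zero => exact ⟨_, _, _, _, .t .zero, .refl _⟩
  | inf => exact ⟨_, _, _, _, .t .inf, .refl _⟩
  | t h => exact ⟨_, _, _, _, h, rel2_tt79 _ _⟩
  | @s _ _ Y h =>
    have := rel2_del (!e) (mul (cr e) Y)
    rw [Alg.del, Bool.not_not] at this
    exact ⟨_, _, _, _, h.t.d, ((Rel2.refl _).mul ((rel2_tt79 e Y).symm.add (.refl _))).trans this⟩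

theorem IsRat2.cn79 {X : Alg} (h : IsRat2 X) : ∃ e q p Y, Cn79 e q p Y ∧ Rel2 X Y := by
  obtain ⟨R, hR, h⟩ := h
  suffices ∃ e q p Y, Cn79 e q p Y ∧ Rel2 R Y from
    let ⟨e, q, p, Y, a, b⟩ := this
    ⟨e, q, p, Y, a, h.trans b⟩
  clear h
  induction hR with
  | zero => exact ⟨true, _, _, _, .zero, .refl _⟩
  | inf => exact ⟨true, _, _, _, .inf, .refl _⟩
  | s f _ ih =>
    obtain ⟨e, q, p, Y, a, b⟩ := ih
    obtain ⟨e, q, p, W, c, d⟩ := a.s2 f
    exact ⟨e, q, p, W, c, (b.add (.refl _)).trans d⟩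
  | t f _ ih =>
    obtain ⟨e, q, p, Y, a, b⟩ := ih
    obtain ⟨e, q, p, W, c, d⟩ := a.t2 f
    exact ⟨e, q, p, W, c, ((Rel2.refl _).mul b).trans d⟩

/-- Every rational tangle is equivalent to the canonical tangle of its fraction. -/
theorem conway2 {X Y : Alg} (hX : IsRat2 X) (hY : IsRat2 Y) (h : cv Y = cv X ∨ cv Y = -cv X) :
    Rel2 X Y := by
  obtain ⟨e, q, p, A, a, a'⟩ := hX.cn79
  obtain ⟨f, q', p', B, b, b'⟩ := hY.cn79
  refine (a'.trans a.can2.2).trans (Rel2.symm ((b'.trans b.can2.2).trans ?_))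
  have k : ((q' : ℤ), sg f * p') = ((q : ℤ), sg e * p) ∨
      ((q' : ℤ), sg f * p') = -((q : ℤ), sg e * p) := by
    have h1 := a.cv
    have h2 := b.cv
    have h3 := a'.rel.2.cv_eq
    have h4 := b'.rel.2.cv_eq
    generalize ((q' : ℤ), sg f * p') = u at *
    generalize ((q : ℤ), sg e * p) = v at *
    rcases h1 with h1 | h1 <;> rcases h2 with h2 | h2 <;> rcases h3 with h3 | h3 <;>
      rcases h4 with h4 | h4 <;> rcases h with h | h <;>
      simp only [h1, h2, h, neg_neg, neg_eq_iff_eq_neg] at h3 h4 <;> simp [h3, h4]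
  have c := a.can2.1
  have k' : q' = q ∧ p' = p ∧ (f = e ∨ p = 0 ∨ q = 0) := by
    cases e <;> cases f <;> simp [sg, Prod.ext_iff] at k ⊢ <;> omega
  obtain ⟨rfl, rfl, rfl | rfl | rfl⟩ := k'
  · exact .refl _
  · rw [can79_zero, can79_zero]
    exact .refl _
  · have : p' ≠ 0 := by rintro rfl; simp at c
    rw [can79_inf _ this, can79_inf _ this]
    exact .refl _
theorem exists_rat2 (q p : ℤ) (h : IsCoprime q p) :
    ∃ R, IsRat2 R ∧ (cv R = (q, p) ∨ cv R = -(q, p)) := by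
  obtain ⟨Z, hZ⟩ := cn79_ex (decide (0 ≤ q ↔ 0 ≤ p)) _ q.natAbs p.natAbs le_rfl
    (Int.isCoprime_iff_gcd_eq_one.1 h)
  refine ⟨Z, ⟨Z, hZ.rat, .refl _⟩, ?_⟩
  have := hZ.cv
  by_cases h1 : 0 ≤ q <;> by_cases h2 : 0 ≤ p <;>
    simp only [h1, h2, sg, Prod.ext_iff, Prod.fst_neg, Prod.snd_neg, iff_self, iff_true, iff_false,
      not_true, decide_true, decide_false, if_true, Bool.false_eq_true, if_false] at this ⊢ <;>
    omega

theorem rel2_flype79 (e : Bool) (X : Alg) : Rel2 (add (cr e) X) (add X.h (cr e)) := by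
  refine ⟨te_flype_h e X, ?_⟩
  simp only [qv, qv_h]
  rw [addQ_comm]
  exact QEq.refl _

theorem IsRat2.rel_v {X : Alg} (h : IsRat2 X) : Rel2 X.v X := by
  obtain ⟨R, hR, h⟩ := h
  refine ⟨h.1.v.trans (hR.vh96.1.trans h.1.symm), ?_⟩
  rw [qv_v]
  exact QEq.refl _

theorem IsRat2.cr_add (e : Bool) {X : Alg} (h : IsRat2 X) : IsRat2 (add (cr e) X) := by
  obtain ⟨R, hR, h⟩ := h
  have h2 : Rel2 R.h R := ⟨hR.vh96.2, by rw [qv_h]; exact QEq.refl _⟩
  exact ⟨_, hR.s e, ((Rel2.refl _).add h).trans ((rel2_flype79 e R).trans (h2.add (Rel2.refl _)))⟩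

theorem tw_rat79 (e : Bool) (n : ℕ) : IsRat2 (tw96 e n) := by
  induction n with
  | zero => exact isRat2_zero
  | succ n ih => exact ih.add_cr e

theorem int_tw79 {X : Alg} (hX : IsRat2 X) (h : (cv X).1 ^ 2 = 1) : ∃ e n, Rel2 X (tw96 e n) := by
  obtain ⟨e, n, hn⟩ := sg_ex96 ((cv X).1 * (cv X).2)
  refine ⟨e, n, conway2 hX (tw_rat79 e n) ?_⟩
  rw [tw_cv96, hn]
  rcases sq_eq_one_iff.1 h with h | h
  · left; ext <;> simp [h]
  · right; ext <;> simp [h]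

theorem IsRat2.add_int {X Y : Alg} (hX : IsRat2 X) (hY : IsRat2 Y)
    (h : (cv X).1 ^ 2 = 1 ∨ (cv Y).1 ^ 2 = 1) : IsRat2 (add X Y) := by
  rcases h with h | h
  · obtain ⟨e, n, r⟩ := int_tw79 hX h
    refine IsRat2.congr ?_ (r.symm.add (Rel2.refl Y))
    clear r
    induction n generalizing Y with
    | zero => exact hY.congr (rel2_zero_add Y).symm
    | succ n ih => exact (ih (hY.cr_add e)).congr (rel2_add_assoc _ _ _).symm
  · obtain ⟨e, n, r⟩ := int_tw79 hY h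
    refine IsRat2.congr ?_ ((Rel2.refl X).add r.symm)
    clear r
    induction n with
    | zero => exact hX.congr (rel2_add_zero X).symm
    | succ n ih => exact (ih.add_cr e).congr (rel2_add_assoc _ _ _)

theorem flype_tw79 (e : Bool) (n : ℕ) (Y : Alg) :
    Rel2 (add (tw96 e n) Y) (add Y (tw96 e n)) ∨ Rel2 (add (tw96 e n) Y) (add Y.h (tw96 e n)) := by
  induction n generalizing Y with
  | zero => exact .inl ((rel2_zero_add Y).trans (rel2_add_zero Y).symm)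
  | succ n ih =>
    have k : Rel2 (add (tw96 e (n + 1)) Y) (add (add (tw96 e n) Y.h) (cr e)) :=
      (rel2_add_assoc _ _ _).trans
        (((Rel2.refl _).add (rel2_flype79 e Y)).trans (rel2_add_assoc _ _ _).symm)
    rcases ih Y.h with h | h
    · exact .inr (k.trans ((h.add (Rel2.refl _)).trans (rel2_add_assoc _ _ _)))
    · rw [h_h96] at h
      exact .inl (k.trans ((h.add (Rel2.refl _)).trans (rel2_add_assoc _ _ _)))

theorem flype_int2 {X : Alg} (hX : IsRat2 X) (h : (cv X).1 ^ 2 = 1) (Y : Alg) :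
    Rel2 (add X Y) (add Y X) ∨ Rel2 (add X Y) (add Y.h X) := by
  obtain ⟨e, n, r⟩ := int_tw79 hX h
  exact (flype_tw79 e n Y).imp
    (fun k => (r.add (Rel2.refl _)).trans (k.trans ((Rel2.refl _).add r.symm)))
    (fun k => (r.add (Rel2.refl _)).trans (k.trans ((Rel2.refl _).add r.symm)))

theorem IsRat2.rel_inf {X : Alg} (hX : IsRat2 X) (h : (cv X).1 = 0) : Rel2 X inf := by
  refine conway2 hX isRat2_inf ?_
  have c := coprime_rat hX.isRat
  rw [h, isCoprime_zero_left, Int.isUnit_iff] at c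
  rcases c with c | c
  · left; ext <;> simp [cv, h, c]
  · right; ext <;> simp [cv, h, c]
theorem rel2_inf_add {X : Alg} (hX : IsRat2 X) (h : (cv X).1 ^ 2 = 1) : Rel2 (add inf X) inf :=
  (isRat2_inf.add_int hX (.inr h)).rel_inf (by simp [cv])

end Pool.Agent.Lib.MP_140c34_gt.Arb
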