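import Pool.Agent.Lib.MP_140c34_gt.Arb.QA

/-! Order of vanishing at t = 1. -/

namespace Pool.Agent.Lib.MP_140c34_gt.Arb

open LaurentPolynomial in
theorem ev1_T89 (n : ℤ) : ev1 (T n) = 1 := by
  rw [ev1, eval₂_T, one_zpow, Units.val_one]

open LaurentPolynomial in
theorem sq_T89 (n : ℤ) : sq ∣ (T n - 1 : Lam) := by
  induction n using Int.induction_on with
  | zero => simp
  | succ n h =>
    have e : (T (n + 1) - 1 : Lam) = (T n - 1) * T 1 + sq := by rw [T_add, sq]; ring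
    rw [e]
    exact dvd_add (h.mul_right _) dvd_rfl
  | pred n h =>
    have e0 : (T 1 * T (-1) : Lam) = 1 := by rw [← T_add]; simp
    have e : (T (-n - 1) - 1 : Lam) = (T (-n) - 1) * T (-1) - sq * T (-1) := by
      rw [T_sub, sq]; linear_combination e0
    rw [e]
    exact dvd_sub (h.mul_right _) (dvd_mul_right _ _)

open LaurentPolynomial in
theorem sq_sub89 (P : Lam) : sq ∣ P - C (ev1 P) := by
  induction P using LaurentPolynomial.induction_on' with
  | add p q hp hq =>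
    rw [map_add, map_add, add_sub_add_comm]
    exact dvd_add hp hq
  | C_mul_T n a =>
    have e : ev1 (C a) = a := by rw [ev1, eval₂_C]; rfl
    rw [map_mul, ev1_T89, e, mul_one, ← mul_sub_one]
    exact (sq_T89 n).mul_left _

theorem ne89 {P : Lam} (h : ev1 P ^ 2 = 1) : ev1 P ≠ 0 := fun e => by simp [e] at h

theorem sq_ne_zero : sq ≠ 0 := fun e => by
  have := pi_sq_mul_c1 1
  simp [e] at this
theorem sq_dvd {P : Lam} (h : ev1 P = 0) : ∃ Q, P = sq * Q := by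
  have := sq_sub89 P
  rwa [h, map_zero, sub_zero] at this
theorem sq_factor {P : Lam} (h : P ≠ 0) : ∃ m P', P = sq ^ m * P' ∧ ev1 P' ≠ 0 := by
  have : IsNoetherianRing Lam :=
    IsLocalization.isNoetherianRing (Submonoid.powers (Polynomial.X : Polynomial ℤ)) Lam
      inferInstance
  obtain ⟨m, P', h1, h2⟩ := WfDvdMonoid.max_power_factor' h (x := sq) fun u => by
    simpa [ev1_sq] using u.map ev1
  exact ⟨m, P', h2, fun e => h1 (sq_dvd e)⟩
theorem sq_le89 {m n : ℕ} {P Q : Lam} (h : sq ^ m * P = sq ^ n * Q) (hP : ev1 P ≠ 0) : n ≤ m := by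
  by_contra k
  obtain ⟨c, rfl⟩ : ∃ c, n = m + (c + 1) := ⟨n - m - 1, by omega⟩
  rw [pow_add, mul_assoc] at h
  have e := mul_left_cancel₀ (pow_ne_zero m sq_ne_zero) h
  exact hP (by rw [e, map_mul, map_pow, ev1_sq]; simp)
theorem sq_unique {m n : ℕ} {P Q : Lam} (h : sq ^ m * P = sq ^ n * Q) (hP : ev1 P ≠ 0)
    (hQ : ev1 Q ≠ 0) : m = n ∧ P = Q := by
  obtain rfl : m = n := le_antisymm (sq_le89 h.symm hQ) (sq_le89 h hP)
  exact ⟨rfl, mul_left_cancel₀ (pow_ne_zero m sq_ne_zero) h⟩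
theorem Fine.mono {P : Lam} {A B : ℕ → Prop} (h : Fine P A) (hAB : ∀ m, A m → B m) :
    Fine P B := fun m P' e u => ⟨(h m P' e u).1, fun k => hAB m ((h m P' e u).2 k)⟩
theorem CC_add89 {P Q : Lam} (hP : ev1 P ^ 2 = 1) (hQ : ev1 Q ^ 2 = 1) :
    CC (pi (P * Q)) = CC (pi P) + CC (pi Q) := by
  have a : (pi P).c0 ^ 2 = 1 := by rw [pi_c0]; exact_mod_cast hP
  have b : (pi Q).c0 ^ 2 = 1 := by rw [pi_c0]; exact_mod_cast hQ
  simp only [map_mul, CC, J.mul_c0, J.mul_c1, J.mul_c2]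
  linear_combination ((pi Q).c1 ^ 2 - 2 * (pi Q).c0 * (pi Q).c2) * a +
    ((pi P).c1 ^ 2 - 2 * (pi P).c0 * (pi P).c2) * b
/-- Factor both, the leading coefficients are integers with product a unit, CC is additive. -/
theorem Fine.mul {P Q : Lam} {A B C : ℕ → Prop} (hP : Fine P A) (hQ : Fine Q B)
    (h : ∀ a b, A a → B b → C (a + b)) : Fine (P * Q) C := by
  intro m R e u
  have R0 : R ≠ 0 := fun k => ne89 u (by rw [k, map_zero])
  have n0 : P * Q ≠ 0 := e ▸ mul_ne_zero (pow_ne_zero m sq_ne_zero) R0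
  obtain ⟨a, P', e1, p0⟩ := sq_factor (left_ne_zero_of_mul n0)
  obtain ⟨b, Q', e2, q0⟩ := sq_factor (right_ne_zero_of_mul n0)
  obtain ⟨rfl, rfl⟩ := sq_unique (m := m) (n := a + b) (P := R) (Q := P' * Q')
    (by rw [← e, e1, e2]; ring) (ne89 u) (by rw [map_mul]; exact mul_ne_zero p0 q0)
  rw [map_mul, mul_pow] at u
  have u1 : ev1 P' ^ 2 = 1 := Int.eq_one_of_mul_eq_one_right (sq_nonneg _) u
  have u2 : ev1 Q' ^ 2 = 1 := Int.eq_one_of_mul_eq_one_left (sq_nonneg _) u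
  obtain ⟨a1, a2⟩ := hP a P' e1 u1
  obtain ⟨b1, b2⟩ := hQ b Q' e2 u2
  rw [CC_add89 u1 u2]
  exact ⟨add_nonneg a1 b1, fun k => h a b (a2 (by linarith)) (b2 (by linarith))⟩
theorem fine_un {w : Lam} {A : ℕ → Prop} (hw : Un w) (h : A 0) : Fine w A := by
  intro m R e u
  obtain ⟨rfl, rfl⟩ := sq_unique (m := 0) (n := m) (P := w) (Q := R) (by rw [← e]; simp)
    (ne89 hw.ev1_sq) (ne89 u)
  have k : CC (pi w) = 0 := by rw [CC, ((nrm_iff _).1 hw.nrm_pi).2, sub_self]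
  exact ⟨k.ge, fun _ => h⟩
theorem fine_sq {A : ℕ → Prop} (h : A 1) : Fine sq A := by
  intro m R e u
  obtain ⟨rfl, rfl⟩ := sq_unique (m := 1) (n := m) (P := 1) (Q := R) (by rw [← e]; simp)
    (by simp) (ne89 u)
  exact ⟨by simp [CC], fun _ => h⟩
theorem Fine.un {w P : Lam} {A : ℕ → Prop} (hw : Un w) (h : Fine P A) : Fine (w * P) A :=
  (fine_un (A := (· = 0)) hw rfl).mul h fun a b ha hb => by rwa [ha, zero_add]
theorem fine_of_pos {P : Lam} {A : ℕ → Prop}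
    (h : ∀ m P', P = sq ^ m * P' → ev1 P' ^ 2 = 1 → 0 < CC (pi P')) : Fine P A :=
  fun m P' e u => ⟨(h m P' e u).le, fun k => absurd k (h m P' e u).ne'⟩

end Pool.Agent.Lib.MP_140c34_gt.Arb
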