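import Pool.Agent.Lib.MP_140c34_gt.Arb.Kit

/-! Checked sequences of moves for algebraic tangles with boxes. -/

namespace Pool.Agent.Lib.MP_140c34_gt.Arb

open Gen

/-- Algebraic tangles with variables. -/
inductive SA
  | zero | inf | cr (s : Bool) | add (X Y : SA) | mul (X Y : SA) | var (k : ℕ)

def SA.w : SA → List G
  | zero => [A 0, U 0]
  | inf => []
  | cr s => [.g (crs s 0)]
  | add X Y => U 1 :: (X.w ++ Y.w.map (G.up 2) ++ [A 1])
  | mul X Y => X.w ++ Y.w
  | var k => [.b k 0]

def SA.inst (env : ℕ → Alg) : SA → Alg
  | zero => .zero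
  | inf => .inf
  | cr s => .cr s
  | add X Y => .add (X.inst env) (Y.inst env)
  | mul X Y => .mul (X.inst env) (Y.inst env)
  | var k => env k

def SA.del (e : Bool) (Z : SA) : SA := .mul (.cr e) (.add (.mul (.cr e) Z) (.cr (!e)))

theorem ev_w (env : ℕ → Alg) (s : SA) : ev (fun k => (env k).word) s.w = (s.inst env).word := by
  induction s with
  | zero => rfl
  | inf => rfl
  | cr s => rfl
  | add X Y ihX ihY =>
    simp only [SA.w, SA.inst, Alg.word, ev, ev_append, ev_up, ihX, ihY]
    rfl
  | mul X Y ihX ihY => simp only [SA.w, SA.inst, Alg.word, ev_append, ihX, ihY]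
  | var k => simp [SA.w, SA.inst, ev, G.ev]

def env3 (X Y Z : Alg) : ℕ → Alg
  | 0 => X
  | 1 => Y
  | _ => Z

theorem env3_box {X Y Z : Alg} (hX : Box X.word) (hY : Box Y.word) (hZ : Box Z.word) :
    ∀ k, Box (env3 X Y Z k).word
  | 0 => hX
  | 1 => hY
  | _ + 2 => hZ

theorem box_inf : Box Alg.inf.word := ⟨.nil _, fun _ => Eqv.rfl'⟩

theorem nat_script {X Y : Alg} (hX : Box X.word) (hY : Box Y.word) (s : SA) (e : Bool)
    (c : List (ℕ × Bool × Mv))
    (h : run 3 c (.g (crs e 0) :: .g (crs e 1) :: s.w) =
      some (s.w.map (G.up 1) ++ [.g (crs e 0), .g (crs e 1)])) :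
    Eqv 3 (crs e 0 :: crs e 1 :: (s.inst (env3 X Y .inf)).word)
      ((s.inst (env3 X Y .inf)).word.map (Gen.up 1) ++ [crs e 0, crs e 1]) := by
  have := run_sound (env3_box hX hY box_inf) c h
  rw [ev, ev, ev_append, ev_up, ev_w] at this
  exact this

theorem box_zero : Box Alg.zero.word := by
  refine ⟨ty_word _, fun e => ?_⟩
  cases e
  · exact nat_script box_inf box_inf .zero false
      [(1, false, .sa true 0), (0, true, .r2 false 0), (2, false, .r2 true 1),
       (1, false, .su false 0)] (by decide)
  · exact nat_script box_inf box_inf .zero true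
      [(1, false, .sa false 0), (0, true, .r2 true 0), (2, false, .r2 false 1),
       (1, false, .su true 0)] (by decide)

theorem box_cr_true : Box (Alg.cr true).word := by
  refine ⟨ty_word _, fun e => ?_⟩
  cases e
  · exact nat_script box_inf box_inf (.cr true) false
      [(0, false, .r2 true 1), (1, false, .r3 false 0), (3, true, .r2 false 0)] (by decide)
  · exact nat_script box_inf box_inf (.cr true) true
      [(0, true, .r3 true 0)] (by decide)

theorem box_cr_false : Box (Alg.cr false).word := by
  refine ⟨ty_word _, fun e => ?_⟩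
  cases e
  · exact nat_script box_inf box_inf (.cr false) false
      [(0, true, .r3 false 0)] (by decide)
  · exact nat_script box_inf box_inf (.cr false) true
      [(0, false, .r2 false 1), (1, false, .r3 true 0), (3, true, .r2 true 0)] (by decide)

theorem box_add {X Y : Alg} (hX : Box X.word) (hY : Box Y.word) : Box (Alg.add X Y).word := by
  refine ⟨ty_word _, fun e => ?_⟩
  cases e
  · exact nat_script hX hY (.add (.var 0) (.var 1)) false
      [(1, false, .co (U 1) (N 0)), (2, false, .r2 true 2), (1, false, .su false 1),
       (0, true, .co (N 0) (U 0)), (4, false, .co (.b 0 0) (N 1)), (3, false, .co (.b 0 0) (N 0)),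
       (1, true, .na false 0 0), (4, true, .na false 1 2), (3, true, .co (N 1) (.b 1 0)),
       (2, true, .co (N 0) (.b 1 1)), (6, false, .co (A 1) (N 0)), (5, false, .sa true 1),
       (4, true, .r2 false 1), (3, true, .co (N 0) (A 0))] (by decide)
  · exact nat_script hX hY (.add (.var 0) (.var 1)) true
      [(1, false, .co (U 1) (P 0)), (2, false, .r2 false 2), (1, false, .su true 1),
       (0, true, .co (P 0) (U 0)), (4, false, .co (.b 0 0) (P 1)), (3, false, .co (.b 0 0) (P 0)),
       (1, true, .na true 0 0), (4, true, .na true 1 2), (3, true, .co (P 1) (.b 1 0)),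
       (2, true, .co (P 0) (.b 1 1)), (6, false, .co (A 1) (P 0)), (5, false, .sa false 1),
       (4, true, .r2 true 1), (3, true, .co (P 0) (A 0))] (by decide)

theorem box_word (X : Alg) : Box X.word := by
  induction X with
  | zero => exact box_zero
  | inf => exact box_inf
  | cr s => cases s; exacts [box_cr_false, box_cr_true]
  | add X Y ihX ihY => exact box_add ihX ihY
  | mul X Y ihX ihY =>
    refine ⟨ty_word _, fun e => ?_⟩
    have h1 := (ihX.nat e).post Y.word
    have h2 := Eqv.pre (n := 3) (X.word.map (Gen.up 1))
      (by rw [width_up, width_word]; exact ihY.nat e)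
    simp only [Alg.word, List.map_append, List.cons_append, List.append_assoc,
      List.nil_append] at h1 h2 ⊢
    exact h1.tr h2

theorem te_script (X Y Z : Alg) (s s' : SA) (c : List (ℕ × Bool × Mv))
    (h : run 2 c s.w = some s'.w) : TE (s.inst (env3 X Y Z)) (s'.inst (env3 X Y Z)) := by
  have := run_sound (env := fun k => (env3 X Y Z k).word) (fun _ => box_word _) c h
  rwa [ev_w, ev_w] at this

open Alg

theorem te_add_assoc (X Y Z : Alg) : TE (add (add X Y) Z) (add X (add Y Z)) :=
  te_script X Y Z (.add (.add (.var 0) (.var 1)) (.var 2))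
    (.add (.var 0) (.add (.var 1) (.var 2)))
    [(0, false, .co (U 1) (U 0)), (4, true, .co (A 1) (.b 2 1)), (5, true, .co (A 1) (A 0)),
     (1, false, .co (.b 0 0) (U 1))] (by decide)

theorem te_add_zero (X : Alg) : TE (add X zero) X :=
  te_script X X X (.add (.var 0) .zero) (.var 0)
    [(1, true, .co (.b 0 0) (A 0)), (0, true, .zr 1), (1, true, .zl 1)] (by decide)

theorem te_zero_add (X : Alg) : TE (add zero X) X :=
  te_script X X X (.add .zero (.var 0)) (.var 0)
    [(0, true, .zl 0), (0, true, .co (U 0) (.b 0 0)), (1, true, .zr 0)] (by decide)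

theorem te_inf_add_cr (e : Bool) : TE (add inf (cr e)) inf := by
  cases e
  · exact te_script inf inf inf (.add .inf (.cr false)) .inf
      [(0, false, .su true 1), (1, true, .ra true 1), (0, true, .zl 1)] (by decide)
  · exact te_script inf inf inf (.add .inf (.cr true)) .inf
      [(0, false, .su false 1), (1, true, .ra false 1), (0, true, .zl 1)] (by decide)

theorem te_cr_add_cr (e : Bool) : TE (add (cr e) (cr (!e))) zero := by
  cases e
  · exact te_script inf inf inf (.add (.cr false) (.cr true)) .zero
      [(0, true, .su false 0), (2, false, .sa false 1), (1, true, .r2 true 1),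
       (0, true, .co (U 0) (A 0))] (by decide)
  · exact te_script inf inf inf (.add (.cr true) (.cr false)) .zero
      [(0, true, .su true 0), (2, false, .sa true 1), (1, true, .r2 false 1),
       (0, true, .co (U 0) (A 0))] (by decide)

theorem te_del_zero (e : Bool) : TE (zero.del e) inf := by
  cases e
  · exact te_script inf inf inf (SA.zero.del false) .inf
      [(2, true, .ra false 0), (1, true, .zl 0), (0, false, .co (U 0) (N 0)),
       (1, true, .r2 false 2), (0, true, .zr 0)] (by decide)
  · exact te_script inf inf inf (SA.zero.del true) .inf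
      [(2, true, .ra true 0), (1, true, .zl 0), (0, false, .co (U 0) (P 0)), (1, true, .r2 true 2),
       (0, true, .zr 0)] (by decide)

theorem te_del_inf (e : Bool) : TE (inf.del e) zero := by
  cases e
  · exact te_script inf inf inf (SA.inf.del false) .zero
      [(1, true, .su false 0), (0, false, .co (U 0) (N 0)), (3, false, .sa false 1),
       (2, true, .r2 true 1), (1, true, .ra false 2), (0, true, .co (U 0) (A 0))] (by decide)
  · exact te_script inf inf inf (SA.inf.del true) .zero
      [(1, true, .su true 0), (0, false, .co (U 0) (P 0)), (3, false, .sa true 1),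
       (2, true, .r2 false 1), (1, true, .ra true 2), (0, true, .co (U 0) (A 0))] (by decide)

theorem te_del_same (e : Bool) : TE ((cr e).del e) (cr (!e)) := by
  cases e
  · exact te_script inf inf inf ((SA.cr false).del false) (.cr true)
      [(1, true, .su false 0), (4, false, .sa false 1), (5, false, .r2 false 0),
       (3, true, .r3 false 0), (2, true, .r2 true 1), (1, true, .ru false 0),
       (0, false, .co (U 0) (N 0)), (3, true, .co (P 0) (A 0)), (2, true, .sa false 1),
       (1, true, .r2 false 2), (0, true, .zr 0)] (by decide)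
  · exact te_script inf inf inf ((SA.cr true).del true) (.cr false)
      [(1, true, .su true 0), (4, false, .sa true 1), (5, false, .r2 true 0),
       (3, true, .r3 true 0), (2, true, .r2 false 1), (1, true, .ru true 0),
       (0, false, .co (U 0) (P 0)), (3, true, .co (N 0) (A 0)), (2, true, .sa true 1),
       (1, true, .r2 true 2), (0, true, .zr 0)] (by decide)

theorem te_del_opp (e : Bool) : TE ((cr (!e)).del e) (cr e) := by
  cases e
  · exact te_script inf inf inf ((SA.cr true).del false) (.cr false)
      [(2, true, .r2 false 0), (1, false, .su false 1), (2, true, .ra false 1), (1, true, .zl 1)] (by decide)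
  · exact te_script inf inf inf ((SA.cr false).del true) (.cr true)
      [(2, true, .r2 true 0), (1, false, .su true 1), (2, true, .ra true 1), (1, true, .zl 1)] (by decide)

theorem te_del_del (e : Bool) (X : Alg) : TE ((X.del (!e)).del e) X := by
  cases e
  · exact te_script X X X (((SA.var 0).del true).del false) (.var 0)
      [(2, true, .r2 false 0), (1, false, .co (U 1) (U 0)), (2, false, .co (P 0) (U 1)),
       (3, false, .co (.b 0 0) (U 1)), (4, true, .su false 2), (5, false, .co (A 1) (P 0)),
       (4, true, .zl 1), (5, false, .sa false 1), (4, true, .r2 true 1),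
       (3, true, .co (.b 0 0) (A 0)), (2, true, .co (P 0) (A 0)), (1, true, .zr 1),
       (0, true, .r2 false 0)] (by decide)
  · exact te_script X X X (((SA.var 0).del false).del true) (.var 0)
      [(2, true, .r2 true 0), (1, false, .co (U 1) (U 0)), (2, false, .co (N 0) (U 1)),
       (3, false, .co (.b 0 0) (U 1)), (4, true, .su true 2), (5, false, .co (A 1) (N 0)),
       (4, true, .zl 1), (5, false, .sa true 1), (4, true, .r2 false 1),
       (3, true, .co (.b 0 0) (A 0)), (2, true, .co (N 0) (A 0)), (1, true, .zr 1),
       (0, true, .r2 true 0)] (by decide)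

theorem te_v_zero (e : Bool) : TE (mul (cr e) zero) (mul zero (cr e)) := by
  cases e
  · exact te_script inf inf inf (.mul (.cr false) .zero) (.mul .zero (.cr false))
      [(0, true, .ra false 0), (1, false, .ru false 0)] (by decide)
  · exact te_script inf inf inf (.mul (.cr true) .zero) (.mul .zero (.cr true))
      [(0, true, .ra true 0), (1, false, .ru true 0)] (by decide)

end Pool.Agent.Lib.MP_140c34_gt.Arb
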