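import Pool.Agent.Lib.MP_140c34_gt.Arb.Scr1

/-! Checked sequences of moves, second part. -/

namespace Pool.Agent.Lib.MP_140c34_gt.Arb

open Gen Alg

theorem te_del_add (e : Bool) (X Y : Alg) :
    TE ((add X Y).del e) (mul (Y.del e) (X.del e)) := by
  cases e
  · exact te_script X Y X ((SA.add (.var 0) (.var 1)).del false)
      (.mul ((SA.var 1).del false) ((SA.var 0).del false))
      [(4, true, .co (.b 0 0) (.b 1 0)), (6, true, .co (A 1) (P 1)), (5, true, .co (.b 0 0) (P 2)),
       (7, true, .co (A 1) (A 0)), (6, true, .co (.b 0 0) (A 1)), (4, true, .co (.b 1 2) (P 0)),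
       (3, true, .co (U 1) (P 1)), (2, true, .co (N 0) (P 0)), (1, false, .su false 1),
       (0, true, .co (N 0) (U 0)), (5, false, .r2 true 0), (4, true, .su true 0),
       (3, false, .co (U 0) (N 0)), (2, false, .co (U 0) (N 1)), (6, true, .co (N 0) (.b 1 0)),
       (7, false, .r2 true 1), (8, false, .r2 true 2), (6, false, .na true 1 1),
       (5, true, .r2 false 1), (4, true, .r2 false 2), (3, false, .co (.b 1 1) (N 0)),
       (7, true, .co (N 0) (A 1)), (6, true, .co (N 1) (A 0)), (5, true, .sa false 2),
       (4, true, .r2 false 3), (0, false, .co (N 0) (U 0)), (1, false, .co (U 0) (U 2)),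
       (2, false, .co (.b 1 1) (U 1)), (3, false, .co (A 2) (U 0)), (4, true, .su false 1),
       (5, false, .co (N 0) (P 0)), (6, false, .co (.b 0 0) (P 0)), (1, false, .ru false 0),
       (2, false, .r2 true 1), (6, false, .r2 true 0), (7, false, .r2 true 1),
       (5, false, .na true 1 0), (4, true, .r2 false 0), (3, true, .r2 false 1),
       (5, true, .co (N 0) (A 0)), (4, true, .sa false 1), (1, false, .su false 0)] (by decide)
  · exact te_script X Y X ((SA.add (.var 0) (.var 1)).del true)
      (.mul ((SA.var 1).del true) ((SA.var 0).del true))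
      [(4, true, .co (.b 0 0) (.b 1 0)), (6, true, .co (A 1) (N 1)), (5, true, .co (.b 0 0) (N 2)),
       (7, true, .co (A 1) (A 0)), (6, true, .co (.b 0 0) (A 1)), (4, true, .co (.b 1 2) (N 0)),
       (3, true, .co (U 1) (N 1)), (2, true, .co (P 0) (N 0)), (1, false, .su true 1),
       (0, true, .co (P 0) (U 0)), (5, false, .r2 false 0), (4, true, .su false 0),
       (3, false, .co (U 0) (P 0)), (2, false, .co (U 0) (P 1)), (6, true, .co (P 0) (.b 1 0)),
       (7, false, .r2 false 1), (8, false, .r2 false 2), (6, false, .na false 1 1),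
       (5, true, .r2 true 1), (4, true, .r2 true 2), (3, false, .co (.b 1 1) (P 0)),
       (7, true, .co (P 0) (A 1)), (6, true, .co (P 1) (A 0)), (5, true, .sa true 2),
       (4, true, .r2 true 3), (0, false, .co (P 0) (U 0)), (1, false, .co (U 0) (U 2)),
       (2, false, .co (.b 1 1) (U 1)), (3, false, .co (A 2) (U 0)), (4, true, .su true 1),
       (5, false, .co (P 0) (N 0)), (6, false, .co (.b 0 0) (N 0)), (1, false, .ru true 0),
       (2, false, .r2 false 1), (6, false, .r2 false 0), (7, false, .r2 false 1),
       (5, false, .na false 1 0), (4, true, .r2 true 0), (3, true, .r2 true 1),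
       (5, true, .co (P 0) (A 0)), (4, true, .sa true 1), (1, false, .su true 0)] (by decide)

theorem te_v_add (e : Bool) (X Y : Alg) : TE (mul (mul (cr e) (add X Y)) (cr (!e)))
    (add (mul (mul (cr e) Y) (cr (!e))) (mul (mul (cr e) X) (cr (!e)))) := by
  cases e
  · exact te_script X Y X (.mul (.mul (.cr false) (.add (.var 0) (.var 1))) (.cr true))
      (.add (.mul (.mul (.cr false) (.var 1)) (.cr true)) (.mul (.mul (.cr false) (.var 0)) (.cr true)))
      [(1, false, .ru false 1), (2, false, .r2 true 2), (3, false, .r2 true 0),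
       (2, false, .co (P 0) (P 0)), (1, true, .su true 0), (0, false, .co (U 0) (N 0)),
       (1, false, .r2 true 1), (2, true, .r3 false 1), (4, true, .r2 false 2),
       (0, false, .su false 0), (4, true, .co (N 0) (N 0)), (5, true, .na false 0 0),
       (3, true, .na false 0 1), (5, false, .co (N 0) (N 0)), (9, false, .r2 true 1),
       (10, false, .r2 true 2), (8, false, .na true 1 1), (7, true, .r2 false 1),
       (6, true, .r2 false 2), (7, false, .r2 true 0), (8, false, .r2 true 1),
       (6, false, .na true 1 0), (5, true, .r2 false 0), (4, true, .r2 false 1),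
       (3, false, .co (.b 1 0) (.b 0 0)), (8, true, .ra false 1), (7, false, .sa true 1),
       (5, false, .r2 true 0), (6, true, .r3 false 0), (8, true, .r2 false 1),
       (7, true, .co (N 0) (A 0)), (8, true, .r2 false 0), (6, true, .sa false 1),
       (4, false, .co (P 0) (.b 0 0)), (2, false, .co (.b 1 0) (N 0)), (3, false, .co (P 0) (N 0))] (by decide)
  · exact te_script X Y X (.mul (.mul (.cr true) (.add (.var 0) (.var 1))) (.cr false))
      (.add (.mul (.mul (.cr true) (.var 1)) (.cr false)) (.mul (.mul (.cr true) (.var 0)) (.cr false)))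
      [(1, false, .ru true 1), (2, false, .r2 false 2), (3, false, .r2 false 0),
       (2, false, .co (N 0) (N 0)), (1, true, .su false 0), (0, false, .co (U 0) (P 0)),
       (1, false, .r2 false 1), (2, true, .r3 true 1), (4, true, .r2 true 2),
       (0, false, .su true 0), (4, true, .co (P 0) (P 0)), (5, true, .na true 0 0),
       (3, true, .na true 0 1), (5, false, .co (P 0) (P 0)), (9, false, .r2 false 1),
       (10, false, .r2 false 2), (8, false, .na false 1 1), (7, true, .r2 true 1),
       (6, true, .r2 true 2), (7, false, .r2 false 0), (8, false, .r2 false 1),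
       (6, false, .na false 1 0), (5, true, .r2 true 0), (4, true, .r2 true 1),
       (3, false, .co (.b 1 0) (.b 0 0)), (8, true, .ra true 1), (7, false, .sa false 1),
       (5, false, .r2 false 0), (6, true, .r3 true 0), (8, true, .r2 true 1),
       (7, true, .co (P 0) (A 0)), (8, true, .r2 true 0), (6, true, .sa true 1),
       (4, false, .co (N 0) (.b 0 0)), (2, false, .co (.b 1 0) (P 0)), (3, false, .co (N 0) (P 0))] (by decide)

theorem cup_script (X Y : Alg) (s s' : SA) (c : List (ℕ × Bool × Mv))
    (h : run 0 c (U 0 :: s.w) = some (U 0 :: s'.w)) :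
    Eqv 0 (cup 0 :: (s.inst (env3 X Y X)).word) (cup 0 :: (s'.inst (env3 X Y X)).word) := by
  have := run_sound (env := fun k => (env3 X Y X k).word) (fun _ => box_word _) c h
  rwa [ev, ev, ev_w, ev_w] at this

theorem eqv_t (e : Bool) (X Y : Alg) :
    Eqv 0 (cup 0 :: (add (mul (cr e) X) Y).word) (cup 0 :: (add X (mul (cr e) Y)).word) := by
  cases e
  · exact cup_script X Y (.add (.mul (.cr false) (.var 0)) (.var 1))
      (.add (.var 0) (.mul (.cr false) (.var 1)))
      [(1, true, .su false 0), (0, false, .co (U 0) (U 0)), (1, true, .su true 1),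
       (2, false, .co (.b 0 0) (N 0))] (by decide)
  · exact cup_script X Y (.add (.mul (.cr true) (.var 0)) (.var 1))
      (.add (.var 0) (.mul (.cr true) (.var 1)))
      [(1, true, .su true 0), (0, false, .co (U 0) (U 0)), (1, true, .su false 1),
       (2, false, .co (.b 0 0) (P 0))] (by decide)

theorem eqv_zig (X : Alg) : Eqv 2 (add X inf).word (cup 0 :: (add X inf).word ++ [cap 1]) := by
  have := run_sound (env := fun k => (env3 X X X k).word) (n := 2) (fun _ => box_word _)
    [(0, false, .zr 0), (1, false, .co (U 1) (A 0)), (2, false, .co (.b 0 0) (A 1)),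
     (3, false, .co (A 1) (A 0))]
    (w := (SA.add (.var 0) .inf).w) (w' := U 0 :: (SA.add (.var 0) .inf).w ++ [A 1]) (by decide)
  rw [List.cons_append, ev, ev_append, ev_w] at this
  exact this

end Pool.Agent.Lib.MP_140c34_gt.Arb
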