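import Pool.Agent.Lib.MP_140c34_gt.Arb.Scr2

/-! Equivalences of diagrams of algebraic tangles. -/

namespace Pool.Agent.Lib.MP_140c34_gt.Arb

open Alg

theorem TE.refl (X : Alg) : TE X X := Eqv.rfl'
theorem TE.symm {X Y : Alg} (h : TE X Y) : TE Y X := Eqv.sy h
theorem TE.trans {X Y Z : Alg} (h : TE X Y) (h' : TE Y Z) : TE X Z := Eqv.tr h h'
theorem TE.of_eq {X Y : Alg} (h : X.word = Y.word) : TE X Y := Eqv.of_eq h

theorem TE.add {X X' Y Y' : Alg} (h : TE X X') (h' : TE Y Y') : TE (add X Y) (add X' Y') := by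
  have h1 : Eqv 4 X.word X'.word := Eqv.pad h (by decide)
  have h2 : Eqv (width 4 X'.word) (Y.word.map (Gen.up 2)) (Y'.word.map (Gen.up 2)) :=
    Eqv.up h' 2 (by rw [width_word]; decide)
  exact Eqv.pre (n := 2) [Gen.cup 1]
    (Eqv.post [Gen.cap 1] ((h1.post _).tr (Eqv.pre X'.word h2)))

theorem TE.mul {X X' Y Y' : Alg} (h : TE X X') (h' : TE Y Y') : TE (mul X Y) (mul X' Y') :=
  (Eqv.post Y.word h).tr (Eqv.pre X'.word (by rw [width_word]; exact h'))

theorem te_mul_assoc (X Y Z : Alg) : TE (mul (mul X Y) Z) (mul X (mul Y Z)) :=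
  TE.of_eq (List.append_assoc _ _ _)
theorem te_mul_inf (X : Alg) : TE (mul X inf) X := TE.of_eq (List.append_nil _)
theorem te_inf_mul (X : Alg) : TE (mul inf X) X := TE.of_eq rfl
theorem te_cr_mul_zero (e : Bool) : TE (mul (cr e) zero) zero :=
  (Move.r1Cap e 0).eqv.post [Gen.cup 0]
theorem te_cr_mul_cr (e : Bool) : TE (mul (cr e) (cr (!e))) inf := (Move.r2 e 0 (by decide)).eqv

theorem TE.del {X Y : Alg} (e : Bool) (h : TE X Y) : TE (X.del e) (Y.del e) :=
  (TE.refl _).mul (((TE.refl _).mul h).add (TE.refl _))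

theorem te_del_del' (e : Bool) (X : Alg) : TE ((X.del e).del (!e)) X := by
  simpa using te_del_del (!e) X

theorem te_del_mul (e : Bool) (X Y : Alg) :
    TE ((mul X Y).del e) (add (Y.del e) (X.del e)) :=
  (((te_del_add (!e) (Y.del e) (X.del e)).trans
    ((te_del_del' e X).mul (te_del_del' e Y))).del e).symm.trans (te_del_del e _)

theorem te_del (e : Bool) (X : Alg) : TE (X.del e) X.d := by
  induction X with
  | zero => exact te_del_zero e
  | inf => exact te_del_inf e
  | cr s =>
    cases e <;> cases s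
    exacts [te_del_same false, te_del_opp false, te_del_opp true, te_del_same true]
  | add X Y ihX ihY => exact (te_del_add e X Y).trans (ihY.mul ihX)
  | mul X Y ihX ihY => exact (te_del_mul e X Y).trans (ihY.add ihX)

theorem te_cancel (e : Bool) (X : Alg) : TE (mul (mul X (cr e)) (cr (!e))) X :=
  (te_mul_assoc _ _ _).trans (((TE.refl X).mul (te_cr_mul_cr e)).trans (te_mul_inf X))

theorem te_cancel' (e : Bool) (X : Alg) : TE (mul (mul X (cr (!e))) (cr e)) X := by
  simpa using te_cancel (!e) X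

theorem te_flype_v (e : Bool) (X : Alg) : TE (mul (cr e) X) (mul X.v (cr e)) := by
  induction X with
  | zero => exact te_v_zero e
  | inf => exact TE.of_eq rfl
  | cr s =>
    cases e <;> cases s
    · exact TE.refl _
    · exact (te_cr_mul_cr false).trans (te_cr_mul_cr true).symm
    · exact (te_cr_mul_cr true).trans (te_cr_mul_cr false).symm
    · exact TE.refl _
  | add X Y ihX ihY =>
    have hX := (ihX.mul (TE.refl (cr (!e)))).trans (te_cancel e _)
    have hY := (ihY.mul (TE.refl (cr (!e)))).trans (te_cancel e _)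
    exact (te_cancel' e _).symm.trans (((te_v_add e X Y).trans (hY.add hX)).mul (TE.refl _))
  | mul X Y ihX ihY =>
    exact (te_mul_assoc _ _ _).symm.trans ((ihX.mul (TE.refl Y)).trans
      ((te_mul_assoc _ _ _).trans (((TE.refl _).mul ihY).trans (te_mul_assoc _ _ _).symm)))

theorem h_d_v (X : Alg) : X.h.d.v = X.d := by
  induction X with
  | zero => rfl
  | inf => rfl
  | cr s => rfl
  | add X Y ihX ihY => simp only [Alg.h, Alg.d, Alg.v, ihX, ihY]
  | mul X Y ihX ihY => simp only [Alg.h, Alg.d, Alg.v, ihX, ihY]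

theorem te_flype_h (e : Bool) (X : Alg) : TE (add (cr e) X) (add X.h (cr e)) := by
  have h1 : TE ((add X.h (cr e)).del e) (mul X.d (cr (!e))) := by
    have := te_flype_v (!e) X.h.d
    rw [h_d_v] at this
    exact (te_del e _).trans this
  exact (te_del_del' e _).symm.trans
    ((((te_del e (add (cr e) X)).trans h1.symm).del (!e)).trans (te_del_del' e _))

theorem te_conj (X : Alg) : TE (mul (mul (cr true) X) (cr false)) X.v :=
  ((te_flype_v true X).mul (TE.refl _)).trans (te_cancel true _)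

theorem TE.v {X Y : Alg} (h : TE X Y) : TE X.v Y.v :=
  (te_conj X).symm.trans ((((TE.refl _).mul h).mul (TE.refl _)).trans (te_conj Y))

theorem TE.cup {X Y : Alg} (h : TE X Y) : Eqv 0 (Gen.cup 0 :: X.word) (Gen.cup 0 :: Y.word) :=
  Eqv.pre (n := 0) [Gen.cup 0] h

theorem Triv.of_te {X r X' r' : Alg} (h : Triv X r) (h' : TE (add X r) (add X' r')) :
    Triv X' r' := h'.cup.sy.tr h

theorem triv_t (e : Bool) (Z r : Alg) : Triv (mul (cr e) Z) r ↔ Triv Z (mul (cr e) r) :=
  ⟨fun h => (eqv_t e Z r).sy.tr h, fun h => (eqv_t e Z r).tr h⟩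

theorem Triv.v {X r : Alg} (h : Triv X r) : Triv r.v X.v := by
  have h1 := (te_conj (add X r)).symm.cup
  have h2 := (Move.r1Cup (n := 0) true 0).eqv.post ((add X r).word ++ [Gen.crs false 0])
  have h3 := Eqv.post [Gen.crs false 0] h
  exact h1.tr (h2.tr (h3.tr (Move.r1Cup false 0).eqv))

theorem triv_of_inf {X r : Alg} (h : TE (add X r) inf) : Triv X r := h.cup

theorem te_of_triv_inf {Y : Alg} (h : Triv Y inf) : TE (add Y inf) inf :=
  (eqv_zig Y).tr ((Eqv.post [Gen.cap 1] (Eqv.pad h (by decide))).tr (Move.zigR 0 (by decide)).eqv)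

theorem eqv_num {X : Alg} (h : Triv X zero) : Eqv 0 X.num [Gen.cup 0, Gen.cap 0] :=
  Eqv.post [Gen.cap 0] ((te_add_zero X).cup.sy.tr h)

end Pool.Agent.Lib.MP_140c34_gt.Arb
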